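import Pool.Agent.Lib.MP_f20cd2_co.DP.Gallai
import Pool.Agent.Lib.MP_f20cd2_co.AS.Rch

/-!
Four trees give paths with any prescribed ends.
-/

set_option autoImplicit false
set_option linter.unusedSectionVars false

namespace Pool.Agent.Lib.MP_f20cd2_co.DP

open Finset
open Pool.Agent.Lib.MP_f20cd2_co.H83 (Conn Cells)
open Pool.Agent.Lib.MP_f20cd2_co.PL
open Pool.Agent.Lib.MP_f20cd2_co.HM (dg)
open scoped Classical

variable {V : Type} [Fintype V] [DecidableEq V] {G : SimpleGraph V}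

namespace TJAux

/-- The edges of `G` with an end in `R`. -/
def tch (G : SimpleGraph V) (R : Finset V) : SimpleGraph V where
  Adj u v := G.Adj u v ∧ (u ∈ R ∨ v ∈ R)
  symm := ⟨fun _ _ h => ⟨h.1.symm, h.2.symm⟩⟩
  loopless := ⟨fun _ h => G.irrefl h.1⟩

lemma tch_adj {R : Finset V} {u v : V} : (tch G R).Adj u v ↔ G.Adj u v ∧ (u ∈ R ∨ v ∈ R) :=
  Iff.rfl

/-- A tree that lost `d` vertices meets at most `1 + 7 d` components. -/
lemma tops {Γ : SimpleGraph V} {A Y : Finset V} {ρ : V} {par : V → V} {rk : V → ℕ}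
    (hT : RTree A ρ par rk 7) (hadj : ∀ v ∈ A, v ≠ ρ → Γ.Adj v (par v)) :
    ∃ Tp : Finset V, Tp.card ≤ 7 * (A \ Y).card + 1 ∧
      ∀ v ∈ A, v ∈ Y → ∃ w ∈ Tp, Rch Γ Y v w := by
  refine ⟨insert ρ ((A \ Y).biUnion fun u => A.filter fun v => v ≠ ρ ∧ par v = u), ?_, ?_⟩
  · refine (card_insert_le _ _).trans (Nat.add_le_add_right ?_ 1)
    rw [mul_comm]
    refine card_biUnion_le_card_mul _ _ _ fun u _ => ?_
    have := hT.deg u
    refine le_trans (card_le_card fun v hv => ?_) this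
    simp only [mem_filter] at hv ⊢
    exact hv
  · have key : ∀ n, ∀ v ∈ A, rk v = n → v ∈ Y →
        ∃ w ∈ insert ρ ((A \ Y).biUnion fun u => A.filter fun v => v ≠ ρ ∧ par v = u),
          Rch Γ Y v w := by
      intro n
      induction n using Nat.strong_induction_on with
      | _ n ih =>
        intro v hv hn hY
        by_cases h0 : v = ρ
        · exact ⟨v, by rw [h0]; exact mem_insert_self _ _, Relation.ReflTransGen.refl⟩
        by_cases hp : par v ∈ Y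
        · obtain ⟨w, hw, hr⟩ := ih (rk (par v)) (hn ▸ hT.lt v hv h0) (par v) (hT.mem v hv h0) rfl hp
          exact ⟨w, hw, Relation.ReflTransGen.head ⟨hY, hp, hadj v hv h0⟩ hr⟩
        · refine ⟨v, mem_insert_of_mem ?_, Relation.ReflTransGen.refl⟩
          exact mem_biUnion.2 ⟨par v, mem_sdiff.2 ⟨hT.mem v hv h0, hp⟩,
            mem_filter.2 ⟨hv, h0, rfl⟩⟩
    exact fun v hv hY => key _ v hv rfl hY

/-- One of four disjoint sets loses at most a quarter. -/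
lemma quarter {D : ℕ → Finset V} {a : ℕ}
    (hd : ∀ j, a ≤ j → j < a + 4 → ∀ j', a ≤ j' → j' < a + 4 → j ≠ j' → Disjoint (D j) (D j'))
    (Y : Finset V) :
    ∃ j, a ≤ j ∧ j < a + 4 ∧ 4 * (D j \ Y).card ≤ (Rs D a (a + 4) \ Y).card := by
  obtain ⟨j, hj, hmin⟩ := exists_min_image (Ico a (a + 4)) (fun j => (D j \ Y).card)
    ⟨a, mem_Ico.2 ⟨le_rfl, by omega⟩⟩
  refine ⟨j, (mem_Ico.1 hj).1, (mem_Ico.1 hj).2, ?_⟩
  have h1 : Rs D a (a + 4) \ Y = (Ico a (a + 4)).biUnion fun j => D j \ Y := by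
    ext v
    simp only [mem_sdiff, mem_Rs, mem_biUnion, mem_Ico]
    constructor
    · rintro ⟨⟨i, h1, h2, h3⟩, h4⟩
      exact ⟨i, ⟨h1, h2⟩, h3, h4⟩
    · rintro ⟨i, ⟨h1, h2⟩, h3, h4⟩
      exact ⟨⟨i, h1, h2, h3⟩, h4⟩
  have h2 : ((Ico a (a + 4)).biUnion fun j => D j \ Y).card =
      ∑ i ∈ Ico a (a + 4), (D i \ Y).card := by
    refine card_biUnion fun i hi i' hi' hne => ?_
    have hi1 := mem_Ico.1 (mem_coe.1 hi)
    have hi2 := mem_Ico.1 (mem_coe.1 hi')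
    exact (hd i hi1.1 hi1.2 i' hi2.1 hi2.2 hne).mono sdiff_subset sdiff_subset
  rw [h1, h2]
  have h3 := card_nsmul_le_sum (Ico a (a + 4)) (fun i => (D i \ Y).card) ((D j \ Y).card) hmin
  rw [Nat.card_Ico, smul_eq_mul] at h3
  have h4 : a + 4 - a = 4 := by omega
  rwa [h4] at h3

end TJAux

theorem LS.disj_Rs {r : ℕ} {D : ℕ → Finset V} {Sd : Finset V} {ft : ℕ → V → V}
    (h : LS G r D Sd ft) {a b a' b' : ℕ} (h1 : b ≤ a') (h2 : b' ≤ r) :
    Disjoint (Rs D a b) (Rs D a' b') := by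
  refine disjoint_left.2 fun v hv hv' => ?_
  obtain ⟨j, -, hj, hvj⟩ := mem_Rs.1 hv
  obtain ⟨j', hj1, hj2, hvj'⟩ := mem_Rs.1 hv'
  exact disjoint_left.1 (h.disj j (by omega) j' (by omega) (by omega)) hvj hvj'

theorem LS.sd_Rs {r : ℕ} {D : ℕ → Finset V} {Sd : Finset V} {ft : ℕ → V → V}
    (h : LS G r D Sd ft) {a b : ℕ} (h2 : b ≤ r) : Disjoint Sd (Rs D a b) := by
  refine disjoint_left.2 fun v hv hv' => ?_
  obtain ⟨j, -, hj, hvj⟩ := mem_Rs.1 hv'
  exact disjoint_left.1 (h.sd j (by omega)) hv hvj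

/-- `gallai` for the graph `Γ` of the edges of `G` with an end in `R = Rs D a (a + 4)`.  For `Y` take
the tree `D j` with `4 * (D j \ Y).card ≤ (R \ Y).card`.  A vertex of `D j ∩ Y` is joined inside
`Y` to the root or to a child of a vertex of `D j \ Y` (induction on the rank), so these vertices
lie in at most `1 + 7 * (D j \ Y).card` components; at most `(D j \ Y).card` vertices of `T` have
their foot outside `Y`. -/
theorem tj {r : ℕ} {D : ℕ → Finset V} {Sd : Finset V} {ft : ℕ → V → V} (h : LS G r D Sd ft)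
    {a : ℕ} (ha : a + 4 ≤ r) : TJ G Sd (Rs D a (a + 4)) := by
  intro T hT hev
  have hd : Disjoint T (Rs D a (a + 4)) := (h.sd_Rs ha).mono_left hT
  obtain ⟨J, hJ, h1, h2⟩ := gallai (TJAux.tch G (Rs D a (a + 4))) (Rs D a (a + 4)) T hd hev (by
    intro Y _
    obtain ⟨j, hj1, hj2, hq⟩ := TJAux.quarter (D := D) (a := a)
      (fun j _ hj j' _ hj' hne => h.disj j (by omega) j' (by omega) hne) Y
    have hjr : j < r := by omega
    have hsub : ∀ v ∈ D j, v ∈ Rs D a (a + 4) := fun v hv => mem_Rs.2 ⟨j, hj1, hj2, hv⟩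
    obtain ⟨ρ, par, rk, hT7, hadj⟩ := h.tree j hjr
    obtain ⟨Tp, hc, hTp⟩ := TJAux.tops (Γ := TJAux.tch G (Rs D a (a + 4))) (Y := Y) hT7
      fun v hv h0 => TJAux.tch_adj.2 ⟨hadj v hv h0, Or.inl (hsub v hv)⟩
    have hB : (T.filter fun p => ft j p ∉ Y).card ≤ (D j \ Y).card := by
      refine card_le_card_of_injOn (ft j) (fun p hp => ?_) fun p hp q hq hpq => ?_
      · have hp' := mem_filter.1 (mem_coe.1 hp)
        exact mem_coe.2 (mem_sdiff.2 ⟨(h.foot j hjr p (hT hp'.1)).1, hp'.2⟩)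
      · exact h.inj j hjr p (hT (mem_filter.1 (mem_coe.1 hp)).1) q
          (hT (mem_filter.1 (mem_coe.1 hq)).1) hpq
    have hss : (T ∩ Y).image (cmp (TJAux.tch G (Rs D a (a + 4))) Y) ⊆
        (Tp ∪ T.filter fun p => ft j p ∉ Y).image (cmp (TJAux.tch G (Rs D a (a + 4))) Y) := by
      intro C hC
      obtain ⟨p, hp, rfl⟩ := mem_image.1 hC
      obtain ⟨hpT, hpY⟩ := mem_inter.1 hp
      by_cases hf : ft j p ∈ Y
      · obtain ⟨hf1, hf2⟩ := h.foot j hjr p (hT hpT)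
        obtain ⟨w, hw, hr⟩ := hTp _ hf1 hf
        refine mem_image.2 ⟨w, mem_union_left _ hw, (AS.cmp_eq_iff.2 ?_).symm⟩
        exact Relation.ReflTransGen.head
          ⟨hpY, hf, TJAux.tch_adj.2 ⟨hf2, Or.inr (hsub _ hf1)⟩⟩ hr
      · exact mem_image.2 ⟨p, mem_union_right _ (mem_filter.2 ⟨hpT, hf⟩), rfl⟩
    have h5 := (card_le_card hss).trans (card_image_le.trans (card_union_le _ _))
    omega)
  exact ⟨J, fun u v huv => (hJ huv).1, h1, h2, fun u v huv => (hJ huv).2⟩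

end Pool.Agent.Lib.MP_f20cd2_co.DP
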