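import Pool.Agent.Lib.MP_f20cd2_co.DP.Merge
import Pool.Agent.Lib.MP_f20cd2_co.DP.TJ

/-!
Joining units in pairs.
-/

set_option autoImplicit false
set_option linter.unusedSectionVars false

namespace Pool.Agent.Lib.MP_f20cd2_co.DP

open Finset
open Pool.Agent.Lib.MP_f20cd2_co.H83 (Conn Cells)
open Pool.Agent.Lib.MP_f20cd2_co.PL
open Pool.Agent.Lib.MP_f20cd2_co.HM (dg)
open scoped Classical

variable {V : Type} [Fintype V] [DecidableEq V] {G : SimpleGraph V}

theorem Un.Ok.full_sub {U : Un V} (h : U.Ok G) : U.Full ⊆ U.Y := by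
  intro v hv
  obtain ⟨w⟩ := h.full v hv
  cases w with
  | nil => exact h.sub (by simp [Un.S])
  | cons ha _ => exact h.sR.mem _ _ ha

theorem Fam.loss_le {Sd W T : Finset V} {U : V → Un V} (h : Fam G Sd W T U) :
    ∑ t ∈ T, (U t).loss ≤ Fintype.card V := by
  calc ∑ t ∈ T, (U t).loss ≤ ∑ t ∈ T, (U t).Y.card := sum_le_sum fun t ht =>
        card_le_card (sdiff_subset.trans (h.ok t ht).full_sub)
    _ = (T.biUnion fun t => (U t).Y).card :=
        (card_biUnion fun t ht t' ht' hne => h.disj t ht t' ht' hne).symm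
    _ ≤ Fintype.card V := card_le_univ _

namespace ARoundAux

lemma fam_mono {Sd W W' T : Finset V} {U : V → Un V} (h : Fam G Sd W T U) (hW : W ⊆ W') :
    Fam G Sd W' T U :=
  ⟨h.ok, h.disj, h.port, fun t ht => (h.sub t ht).trans hW⟩

/-- An even number of units is joined in pairs. -/
lemma pairs {Sd W R T T0 : Finset V} {U : V → Un V} (h : Fam G Sd W T U) (hR : TJ G Sd R)
    (hd : Disjoint W R) (h0 : T0 ⊆ T) (hev : Even T0.card) :
    ∃ (Jn : Finset V) (U' : V → Un V), Jn ⊆ T0 ∧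
      (∀ t ∈ Jn, (U' t).Ok G ∧ (U' t).S ⊆ Sd ∧
        ∀ v ∈ (U' t).Y, v ∈ R ∨ ∃ s ∈ T0, v ∈ (U s).Y) ∧
      (∀ t ∈ Jn, ∀ t' ∈ Jn, t ≠ t' → Disjoint (U' t).Y (U' t').Y) ∧
      (∀ t ∈ T0, ∃ t' ∈ Jn, (U t).Full ⊆ (U' t').Full) ∧
      2 * ∑ t ∈ Jn, (U' t).loss ≤ ∑ t ∈ T0, (U t).loss := by
  have heY : ∀ t ∈ T0, (U t).e ∈ (U t).Y := fun t ht => (h.ok t (h0 ht)).sub (by simp [Un.S])
  have hYY : ∀ t ∈ T0, ∀ s ∈ T0, ∀ v, v ∈ (U t).Y → v ∈ (U s).Y → t = s :=
    fun t ht s hs v a b => by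
      by_contra hne
      exact disjoint_left.1 (h.disj t (h0 ht) s (h0 hs) hne) a b
  have hYR : ∀ t ∈ T0, ∀ v, v ∈ (U t).Y → v ∉ R := fun t ht v a =>
    disjoint_left.1 hd (h.sub t (h0 ht) a)
  have hinj : ∀ t ∈ T0, ∀ s ∈ T0, (U t).e = (U s).e → t = s := fun t ht s hs e =>
    hYY t ht s hs _ (heY t ht) (e ▸ heY s hs)
  have hE : ∀ t ∈ T0, (U t).e ∈ T0.image fun t => (U t).e := fun t ht => mem_image_of_mem _ ht
  obtain ⟨J, hJ⟩ := hR (T0.image fun t => (U t).e) (by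
      intro v hv
      obtain ⟨t, ht, rfl⟩ := mem_image.1 hv
      exact h.port t (h0 ht) (by simp [Un.S]))
    (by rwa [card_image_of_injOn fun t ht s hs e => hinj t ht s hs e])
  obtain ⟨μ, hμ⟩ := hJ.pair
  have hex : ∀ t, ∃ s, t ∈ T0 → s ∈ T0 ∧ (U s).e = μ (U t).e := fun t => by
    by_cases ht : t ∈ T0
    · obtain ⟨s, hs, e⟩ := mem_image.1 (hμ _ (hE t ht)).1
      exact ⟨s, fun _ => ⟨hs, e⟩⟩
    · exact ⟨t, fun h1 => absurd h1 ht⟩
  choose ν hν using hex
  have hne : ∀ t ∈ T0, ν t ≠ t := fun t ht e => by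
    have h1 := (hν t ht).2
    rw [e] at h1
    exact (hμ _ (hE t ht)).2.1 h1.symm
  have hνν : ∀ t ∈ T0, ν (ν t) = t := fun t ht =>
    hinj _ (hν _ (hν t ht).1).1 _ ht (by
      rw [(hν _ (hν t ht).1).2, (hν t ht).2, (hμ _ (hE t ht)).2.2.1])
  let idx : V → ℕ := fun t => (Fintype.equivFin V t : ℕ)
  have hidx : ∀ t s, idx t = idx s → t = s := fun t s e =>
    (Fintype.equivFin V).injective (Fin.ext e)
  let Jn : Finset V := T0.filter fun t => (U t).loss < (U (ν t)).loss ∨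
    ((U t).loss = (U (ν t)).loss ∧ idx t < idx (ν t))
  have hJn : ∀ t, t ∈ Jn ↔ t ∈ T0 ∧ ((U t).loss < (U (ν t)).loss ∨
      ((U t).loss = (U (ν t)).loss ∧ idx t < idx (ν t))) := fun t => mem_filter
  have hsub : Jn ⊆ T0 := fun t ht => ((hJn t).1 ht).1
  have hor : ∀ t ∈ T0, t ∈ Jn ∨ ν t ∈ Jn := fun t ht => by
    rw [hJn, hJn, hνν t ht]
    have h1 : idx (ν t) ≠ idx t := fun e => hne t ht (hidx _ _ e)
    simp only [ht, (hν t ht).1, true_and]
    omega
  have hnot : ∀ t ∈ Jn, ν t ∉ Jn := fun t ht h1 => by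
    have h2 := ((hJn t).1 ht).2
    have h3 := ((hJn _).1 h1).2
    rw [hνν t (hsub ht)] at h3
    omega
  have hst : ∀ t ∈ T0, St G (rf J univ (U t).e) {(U t).e, (U (ν t)).e} (res J (U t).e) ∧
      ∀ v ∈ rf J univ (U t).e, v = (U t).e ∨ v = (U (ν t)).e ∨ v ∈ R := fun t ht => by
    obtain ⟨b1, -, -, b4, b5⟩ := hμ _ (hE t ht)
    rw [(hν t ht).2]
    exact st_res hJ (hE t ht) b1 b4 b5
  have hY : ∀ t ∈ T0, ∀ v ∈ ((U t).join (U (ν t)) (rf J univ (U t).e) (res J (U t).e)).Y,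
      v ∈ (U t).Y ∨ v ∈ (U (ν t)).Y ∨ (v ∈ R ∧ J.Reachable (U t).e v) := fun t ht v hv => by
    simp only [Un.join, mem_union] at hv
    rcases hv with (a | a) | a
    · exact Or.inl a
    · exact Or.inr (Or.inl a)
    · rcases (hst t ht).2 v a with b | b | b
      · exact Or.inl (b ▸ heY t ht)
      · exact Or.inr (Or.inl (b ▸ heY _ (hν t ht).1))
      · exact Or.inr (Or.inr ⟨b, (mem_rf.1 a).2⟩)
  refine ⟨Jn, fun t => (U t).join (U (ν t)) (rf J univ (U t).e) (res J (U t).e), hsub,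
    fun t ht => ⟨?_, ?_, fun v hv => ?_⟩, fun t ht t' ht' htt => ?_, fun t ht => ?_, ?_⟩
  · have h1 := hsub ht
    have h2 := (hν t h1).1
    refine Un.join_ok (h.ok t (h0 h1)) (h.ok _ (h0 h2))
      (h.disj t (h0 h1) _ (h0 h2) (hne t h1).symm) (hst t h1).1 (fun v hv a => ?_)
      fun v hv a => ?_
    · rcases (hst t h1).2 v hv with b | b | b
      · exact b
      · exact absurd (hYY _ h2 t h1 v (b ▸ heY _ h2) a) (hne t h1)
      · exact absurd b (hYR t h1 v a)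
    · rcases (hst t h1).2 v hv with b | b | b
      · exact absurd (hYY _ h2 t h1 v a (b ▸ heY t h1)) (hne t h1)
      · exact b
      · exact absurd b (hYR _ h2 v a)
  · have h1 := h.port t (h0 (hsub ht))
    have h2 := h.port _ (h0 (hν t (hsub ht)).1)
    intro v hv
    simp only [Un.S, Un.join, mem_insert, mem_singleton] at hv
    rcases hv with rfl | rfl | rfl | rfl
    · exact h2 (by simp [Un.S])
    · exact h1 (by simp [Un.S])
    · exact h1 (by simp [Un.S])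
    · exact h1 (by simp [Un.S])
  · rcases hY t (hsub ht) v hv with a | a | a
    · exact Or.inr ⟨t, hsub ht, a⟩
    · exact Or.inr ⟨_, (hν t (hsub ht)).1, a⟩
    · exact Or.inl a.1
  · have h1 := hsub ht
    have h1' := hsub ht'
    have h2 := (hν t h1).1
    have h2' := (hν t' h1').1
    refine disjoint_left.2 fun v a b => ?_
    rcases hY t h1 v a with c | c | c <;> rcases hY t' h1' v b with d | d | d
    · exact htt (hYY _ h1 _ h1' v c d)
    · exact hnot t' ht' (hYY _ h1 _ h2' v c d ▸ ht)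
    · exact hYR _ h1 v c d.1
    · exact hnot t ht ((hYY _ h2 _ h1' v c d).symm ▸ ht')
    · refine htt ?_
      rw [← hνν t h1, hYY _ h2 _ h2' v c d, hνν t' h1']
    · exact hYR _ h2 v c d.1
    · exact hYR _ h1' v d c.1
    · exact hYR _ h2' v d c.1
    · rcases (hμ _ (hE t h1)).2.2.2.2 _ (hE t' h1') (c.2.trans d.2.symm) with e | e
      · exact htt (hinj _ h1' _ h1 e).symm
      · exact hnot t ht (hinj _ h1' _ h2 (e.trans (hν t h1).2.symm) ▸ ht')
  · rcases hor t ht with a | a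
    · exact ⟨t, a, subset_union_left⟩
    · refine ⟨ν t, a, ?_⟩
      simp only [Un.join, hνν t ht]
      exact subset_union_right
  · have h1 : ∑ t ∈ Jn, ((U t).join (U (ν t)) (rf J univ (U t).e) (res J (U t).e)).loss ≤
        ∑ t ∈ Jn, (U t).loss := sum_le_sum fun t _ => Un.join_loss _ _ _ _
    have h2 : ∑ t ∈ Jn, (U t).loss ≤ ∑ t ∈ Jn, (U (ν t)).loss := sum_le_sum fun t ht => by
      have := ((hJn t).1 ht).2
      omega
    have h3 : ∑ t ∈ Jn.image ν, (U t).loss = ∑ t ∈ Jn, (U (ν t)).loss :=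
      sum_image fun t ht s hs e => by rw [← hνν t (hsub ht), e, hνν s (hsub hs)]
    have h4 : Disjoint Jn (Jn.image ν) := disjoint_right.2 fun v hv => by
      obtain ⟨t, ht, rfl⟩ := mem_image.1 hv
      exact hnot t ht
    have h5 : ∑ t ∈ Jn ∪ Jn.image ν, (U t).loss ≤ ∑ t ∈ T0, (U t).loss :=
      sum_le_sum_of_subset (union_subset hsub fun v hv => by
        obtain ⟨t, ht, rfl⟩ := mem_image.1 hv
        exact (hν t (hsub ht)).1)
    rw [sum_union h4] at h5
    exact (Nat.mul_le_mul_left 2 h1).trans (by omega)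

end ARoundAux

/-- See the plan. -/
theorem around {Sd W R T : Finset V} {U : V → Un V} (h : Fam G Sd W T U) (hR : TJ G Sd R)
    (hd : Disjoint W R) :
    ∃ (T' : Finset V) (U' : V → Un V), Fam G Sd (W ∪ R) T' U' ∧
      (∀ t ∈ T, ∃ t' ∈ T', (U t).Full ⊆ (U' t').Full) ∧
      (T'.card ≤ 1 ∨ 3 * ∑ t ∈ T', (U' t).loss ≤ 2 * ∑ t ∈ T, (U t).loss) ∧
      T'.card ≤ T.card := by
  by_cases h1 : T.card ≤ 1
  · exact ⟨T, U, ARoundAux.fam_mono h subset_union_left, fun t ht => ⟨t, ht, Subset.rfl⟩,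
      Or.inl h1, le_rfl⟩
  have hsubW : ∀ v, (v ∈ R ∨ ∃ s ∈ T, v ∈ (U s).Y) → v ∈ W ∪ R := by
    rintro v (a | ⟨s, hs, a⟩)
    · exact mem_union_right _ a
    · exact mem_union_left _ (h.sub s hs a)
  rcases Nat.even_or_odd T.card with hev | hodd
  · obtain ⟨Jn, U', b1, b2, b3, b4, b5⟩ := ARoundAux.pairs h hR hd Subset.rfl hev
    exact ⟨Jn, U', ⟨fun t ht => (b2 t ht).1, b3, fun t ht => (b2 t ht).2.1,
      fun t ht v hv => hsubW v ((b2 t ht).2.2 v hv)⟩, b4, Or.inr (by omega), card_le_card b1⟩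
  obtain ⟨t0, ht0, hmin⟩ := exists_min_image T (fun t => (U t).loss) (card_pos.1 (by omega))
  have hc : (T.erase t0).card + 1 = T.card := card_erase_add_one ht0
  obtain ⟨m, hm⟩ := hodd
  obtain ⟨Jn, U', b1, b2, b3, b4, b5⟩ :=
    ARoundAux.pairs h hR hd (erase_subset t0 T) ⟨m, by omega⟩
  have hn : t0 ∉ Jn := fun a => notMem_erase t0 T (b1 a)
  have hu : ∀ t ∈ Jn, Function.update U' t0 (U t0) t = U' t := fun t ht =>
    Function.update_of_ne (fun e : t = t0 => hn (e ▸ ht)) _ _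
  have hu0 : Function.update U' t0 (U t0) t0 = U t0 := Function.update_self _ _ _
  have hdis : ∀ t ∈ Jn, Disjoint (U t0).Y (U' t).Y := fun t ht =>
    disjoint_left.2 fun v a b => by
      rcases (b2 t ht).2.2 v b with c | ⟨s, hs, c⟩
      · exact disjoint_left.1 hd (h.sub t0 ht0 a) c
      · exact disjoint_left.1 (h.disj t0 ht0 s (mem_of_mem_erase hs) (ne_of_mem_erase hs).symm) a c
  refine ⟨insert t0 Jn, Function.update U' t0 (U t0), ⟨fun t ht => ?_, fun t ht t' ht' htt => ?_,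
    fun t ht => ?_, fun t ht => ?_⟩, fun t ht => ?_, Or.inr ?_, ?_⟩
  · rcases mem_insert.1 ht with rfl | a
    · rw [hu0]
      exact h.ok _ ht0
    · rw [hu t a]
      exact (b2 t a).1
  · rcases mem_insert.1 ht with rfl | a <;> rcases mem_insert.1 ht' with rfl | b
    · exact absurd rfl htt
    · rw [hu0, hu t' b]
      exact hdis t' b
    · rw [hu0, hu t a]
      exact (hdis t a).symm
    · rw [hu t a, hu t' b]
      exact b3 t a t' b htt
  · rcases mem_insert.1 ht with rfl | a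
    · rw [hu0]
      exact h.port _ ht0
    · rw [hu t a]
      exact (b2 t a).2.1
  · rcases mem_insert.1 ht with rfl | a
    · rw [hu0]
      exact (h.sub _ ht0).trans subset_union_left
    · rw [hu t a]
      exact fun v hv => hsubW v (((b2 t a).2.2 v hv).imp_right
        fun ⟨s, hs, c⟩ => ⟨s, mem_of_mem_erase hs, c⟩)
  · by_cases e : t = t0
    · exact ⟨t0, mem_insert_self _ _, by rw [hu0, e]⟩
    · obtain ⟨t', a, b⟩ := b4 t (mem_erase.2 ⟨e, ht⟩)
      exact ⟨t', mem_insert_of_mem a, by rwa [hu t' a]⟩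
  · have h2 : ∑ t ∈ Jn, (Function.update U' t0 (U t0) t).loss = ∑ t ∈ Jn, (U' t).loss :=
      sum_congr rfl fun t ht => by rw [hu t ht]
    have h3 := card_nsmul_le_sum (T.erase t0) (fun t => (U t).loss) (U t0).loss
      fun t ht => hmin t (mem_of_mem_erase ht)
    have h4 : 2 * (U t0).loss ≤ (T.erase t0).card * (U t0).loss :=
      Nat.mul_le_mul_right _ (by omega)
    rw [smul_eq_mul] at h3
    rw [sum_insert hn, hu0, h2, ← add_sum_erase T _ ht0]
    omega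
  · have h2 := card_le_card b1
    rw [card_insert_of_notMem hn]
    omega

/-- Induction on `k` with `tj` at `a + 4 * k`. -/
theorem arounds {r : ℕ} {D : ℕ → Finset V} {Sd : Finset V} {ft : ℕ → V → V} (hL : LS G r D Sd ft)
    {W T : Finset V} {U : V → Un V} (h : Fam G Sd W T U) {a : ℕ} (hW : Disjoint W (Rs D a r))
    (k : ℕ) (hk : a + 4 * k ≤ r) :
    ∃ (T' : Finset V) (U' : V → Un V), Fam G Sd (W ∪ Rs D a (a + 4 * k)) T' U' ∧
      (∀ t ∈ T, ∃ t' ∈ T', (U t).Full ⊆ (U' t').Full) ∧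
      (T'.card ≤ 1 ∨ 3 ^ k * ∑ t ∈ T', (U' t).loss ≤ 2 ^ k * Fintype.card V) := by
  induction k with
  | zero =>
    exact ⟨T, U, ARoundAux.fam_mono h subset_union_left, fun t ht => ⟨t, ht, Subset.rfl⟩,
      Or.inr (by simpa using h.loss_le)⟩
  | succ k ih =>
    obtain ⟨T1, U1, b1, b2, b3⟩ := ih (by omega)
    obtain ⟨T2, U2, c1, c2, c3, c4⟩ := around b1 (tj hL (a := a + 4 * k) (by omega)) (by
      refine disjoint_union_left.2 ⟨hW.mono_right fun v hv => ?_, hL.disj_Rs le_rfl (by omega)⟩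
      obtain ⟨j, h1, h2, h3⟩ := mem_Rs.1 hv
      exact mem_Rs.2 ⟨j, by omega, by omega, h3⟩)
    refine ⟨T2, U2, ARoundAux.fam_mono c1 fun v hv => ?_, fun t ht => ?_, ?_⟩
    · simp only [mem_union, mem_Rs] at hv ⊢
      rcases hv with (h1 | ⟨j, h1, h2, h3⟩) | ⟨j, h1, h2, h3⟩
      · exact Or.inl h1
      · exact Or.inr ⟨j, h1, by omega, h3⟩
      · exact Or.inr ⟨j, by omega, by omega, h3⟩
    · obtain ⟨t1, h1, h2⟩ := b2 t ht
      obtain ⟨t2, h3, h4⟩ := c2 t1 h1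
      exact ⟨t2, h3, h2.trans h4⟩
    · rcases c3 with h1 | h1
      · exact Or.inl h1
      rcases b3 with h2 | h2
      · exact Or.inl (c4.trans h2)
      · refine Or.inr ?_
        calc 3 ^ (k + 1) * ∑ t ∈ T2, (U2 t).loss = 3 ^ k * (3 * ∑ t ∈ T2, (U2 t).loss) := by ring
          _ ≤ 3 ^ k * (2 * ∑ t ∈ T1, (U1 t).loss) := Nat.mul_le_mul_left _ h1
          _ = 2 * (3 ^ k * ∑ t ∈ T1, (U1 t).loss) := by ring
          _ ≤ 2 * (2 ^ k * Fintype.card V) := Nat.mul_le_mul_left _ h2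
          _ = 2 ^ (k + 1) * Fintype.card V := by ring

end Pool.Agent.Lib.MP_f20cd2_co.DP
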