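import Pool.Agent.Lib.MP_f20cd2_co.DP.Defs

/-!
Graphs of maximum degree two.
-/

set_option autoImplicit false
set_option linter.unusedSectionVars false

namespace Pool.Agent.Lib.MP_f20cd2_co.DP

open Finset
open Pool.Agent.Lib.MP_f20cd2_co.H83 (Conn Cells)
open Pool.Agent.Lib.MP_f20cd2_co.PL
open Pool.Agent.Lib.MP_f20cd2_co.HM (dg)
open scoped Classical

variable {V : Type} [Fintype V] [DecidableEq V] {G : SimpleGraph V}

theorem PS.bot (R : Finset V) : PS G ⊥ R ∅ := by
  refine ⟨bot_le, fun v hv => absurd hv (notMem_empty v), fun v _ => Or.inl (HM.dg_bot v),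
    fun u v h => h.elim⟩

theorem PS.mono {J : SimpleGraph V} {R R' T : Finset V} (h : PS G J R T) (hR : R ⊆ R') :
    PS G J R' T := by
  refine ⟨h.le, h.one, fun v hv => (h.two v hv).imp_right fun h1 => ⟨hR h1.1, h1.2⟩,
    fun u v huv => (h.nin u v huv).imp (fun h1 => hR h1) fun h1 => hR h1⟩

/-- An edge of `J` has an end in `R`, and that end has degree zero in `J'`. -/
theorem PS.sup {J J' : SimpleGraph V} {R R' T T' : Finset V} (h : PS G J R T) (h' : PS G J' R' T')
    (hR : Disjoint R R') (hT : Disjoint T T') (h1 : Disjoint T R') (h2 : Disjoint T' R) :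
    PS G (J ⊔ J') (R ∪ R') (T ∪ T') := by
  have z' : ∀ v, v ∉ T' → v ∉ R' → dg J' v = 0 := fun v a b =>
    (h'.two v a).resolve_right fun c => b c.1
  have z : ∀ v, v ∉ T → v ∉ R → dg J v = 0 := fun v a b =>
    (h.two v a).resolve_right fun c => b c.1
  have hd : Disjoint J J' := HM.disj_iff.2 fun u v a b => by
    rcases h.nin u v a with c | c
    · exact HM.dg_eq_zero.1 (z' u (disjoint_right.1 h2 c) (disjoint_left.1 hR c)) v b
    · exact HM.dg_eq_zero.1 (z' v (disjoint_right.1 h2 c) (disjoint_left.1 hR c)) u b.symm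
  refine ⟨sup_le h.le h'.le, fun v hv => ?_, fun v hv => ?_, fun u v huv => ?_⟩
  · rw [HM.dg_sup hd]
    rcases mem_union.1 hv with c | c
    · rw [h.one v c, z' v (disjoint_left.1 hT c) (disjoint_left.1 h1 c)]
    · rw [h'.one v c, z v (disjoint_right.1 hT c) (disjoint_left.1 h2 c)]
  · rw [mem_union, not_or] at hv
    rw [HM.dg_sup hd, mem_union]
    rcases h.two v hv.1 with c | c <;> rcases h'.two v hv.2 with d | d
    · exact Or.inl (by rw [c, d])
    · exact Or.inr ⟨Or.inr d.1, by rw [c, d.2]⟩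
    · exact Or.inr ⟨Or.inl c.1, by rw [c.2, d]⟩
    · exact absurd d.1 (disjoint_left.1 hR c.1)
  · simp only [mem_union]
    rcases huv with c | c
    · exact (h.nin u v c).imp Or.inl Or.inl
    · exact (h'.nin u v c).imp Or.inr Or.inr

/-- `HM.even_sum_dg` on `univ`. -/
theorem PS.even {J : SimpleGraph V} {R T : Finset V} (h : PS G J R T) : Even T.card := by
  have h1 := HM.even_sum_dg (H := J) univ fun _ _ w _ => mem_univ w
  rw [← sum_add_sum_compl T] at h1
  have h2 : Even (∑ v ∈ Tᶜ, dg J v) := even_sum _ fun v hv => by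
    rcases h.two v (mem_compl.1 hv) with c | c
    · rw [c]
      exact Even.zero
    · rw [c.2]
      exact even_two
  have h3 : ∑ v ∈ T, dg J v = T.card := by
    rw [sum_congr rfl h.one, sum_const, smul_eq_mul, mul_one]
  rw [h3] at h1
  exact (Nat.even_add.1 h1).2 h2

/-- `HM.parity`. -/
theorem PS.other {J : SimpleGraph V} {R T : Finset V} (h : PS G J R T) {t : V} (ht : t ∈ T) :
    ∃ t' ∈ T, t' ≠ t ∧ J.Reachable t t' := by
  obtain ⟨w, h1, h2, h3⟩ := HM.parity (H := J) (v := t) (by rw [h.one t ht]; exact odd_one)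
  refine ⟨w, ?_, h1, h2⟩
  by_contra hw
  rcases h.two w hw with c | c
  · rw [c] at h3
    exact absurd h3 (by decide)
  · rw [c.2] at h3
    exact absurd h3 (by decide)

theorem dg_res (J : SimpleGraph V) (x v : V) :
    dg (res J x) v = if J.Reachable x v then dg J v else 0 := by
  split_ifs with hv
  · unfold HM.dg
    congr 1
    ext w
    simp only [mem_filter, res_adj, hv, and_true]
  · exact HM.dg_eq_zero.2 fun w hw => hv hw.2

theorem res_reach {J : SimpleGraph V} {x u v : V} (hu : J.Reachable x u) (h : J.Reachable u v) :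
    (res J x).Reachable u v := by
  exact (HM.reach_ind (p := fun y => J.Reachable x y ∧ (res J x).Reachable u y)
    (fun a b hab ha => ⟨ha.1.trans hab.reachable,
      ha.2.trans (SimpleGraph.Adj.reachable (res_adj.2 ⟨hab, ha.1⟩))⟩) h
    ⟨hu, SimpleGraph.Reachable.refl u⟩).2

namespace PathAux

/-- A vertex of a path is its first vertex, its last vertex, or has two neighbours on it. -/
lemma cases_mem {X : SimpleGraph V} {l : List V} (hl : IsP X l) {v : V} (hv : v ∈ l) :
    l.head? = some v ∨ l.getLast? = some v ∨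
      ∃ x ∈ l, ∃ y ∈ l, x ≠ y ∧ X.Adj v x ∧ X.Adj v y := by
  obtain ⟨s, t, rfl⟩ := List.append_of_mem hv
  rcases List.eq_nil_or_concat s with rfl | ⟨s', x, rfl⟩
  · exact Or.inl rfl
  rcases t with _ | ⟨y, t'⟩
  · exact Or.inr (Or.inl (by simp))
  refine Or.inr (Or.inr ⟨x, by simp, y, by simp, ?_, ?_, ?_⟩)
  · rintro rfl
    have h1 := hl.1
    simp [List.nodup_append] at h1
  · have h1 := hl.2
    rw [List.concat_eq_append, List.append_assoc, List.singleton_append,
      List.isChain_append_cons_cons] at h1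
    exact h1.2.1.symm
  · have h1 := hl.2
    rw [List.isChain_append_cons_cons] at h1
    exact h1.2.1

lemma three_le {X : SimpleGraph V} {v x y u : V} (hxy : x ≠ y) (hxu : x ≠ u) (hyu : y ≠ u)
    (hx : X.Adj v x) (hy : X.Adj v y) (hu : X.Adj v u) : 3 ≤ dg X v := by
  have h1 : ({x, y, u} : Finset V).card = 3 := card_eq_three.2 ⟨x, y, u, hxy, hxu, hyu, rfl⟩
  rw [← h1]
  refine card_le_card fun w hw => mem_filter.2 ⟨mem_univ _, ?_⟩
  simp only [mem_insert, mem_singleton] at hw
  rcases hw with rfl | rfl | rfl <;> assumption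

lemma two_le {X : SimpleGraph V} {v x y : V} (hxy : x ≠ y) (hx : X.Adj v x) (hy : X.Adj v y) :
    2 ≤ dg X v := by
  rw [← card_pair hxy]
  refine card_le_card fun w hw => mem_filter.2 ⟨mem_univ _, ?_⟩
  simp only [mem_insert, mem_singleton] at hw
  rcases hw with rfl | rfl <;> assumption

/-- A path with a neighbour outside can be extended. -/
lemma extend {X : SimpleGraph V} (h : ∀ v, dg X v ≤ 2) {l : List V} (hl : IsP X l) {v u : V}
    (hv : v ∈ l) (hu : u ∉ l) (hvu : X.Adj v u) :
    ∃ l', IsP X l' ∧ l'.length = l.length + 1 ∧ ∀ x ∈ l, x ∈ l' := by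
  rcases cases_mem hl hv with h1 | h1 | ⟨x, hx, y, hy, hxy, h1, h2⟩
  · refine ⟨u :: l, ⟨List.nodup_cons.2 ⟨hu, hl.1⟩, ?_⟩, rfl, fun x hx => List.mem_cons_of_mem _ hx⟩
    refine List.isChain_cons.2 ⟨fun y hy => ?_, hl.2⟩
    rw [h1, Option.mem_some_iff] at hy
    exact hy ▸ hvu.symm
  · refine ⟨l ++ [u], ⟨?_, ?_⟩, by simp, fun x hx => List.mem_append_left _ hx⟩
    · refine List.nodup_append.2 ⟨hl.1, List.nodup_singleton u, fun x hx y hy e => hu ?_⟩
      rw [List.mem_singleton] at hy
      exact hy ▸ e ▸ hx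
    · refine List.isChain_append.2 ⟨hl.2, List.isChain_singleton u, fun x hx y hy => ?_⟩
      rw [h1, Option.mem_some_iff] at hx
      simp only [List.head?_cons, Option.mem_some_iff] at hy
      exact hx ▸ hy ▸ hvu
  · have h3 := three_le hxy (fun e : x = u => hu (e ▸ hx)) (fun e : y = u => hu (e ▸ hy)) h1 h2 hvu
    have h4 := h v
    omega

end PathAux

/-- A longest path through `a` (as a list) contains all neighbours of its vertices: of the two
ends by maximality, of an inner vertex because it has two neighbours on the path. -/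
theorem path_of_deg (X : SimpleGraph V) (h : ∀ v, dg X v ≤ 2) (a : V) :
    ∃ l, IsP X l ∧ ∀ v, X.Reachable a v → v ∈ l := by
  by_contra hno
  push Not at hno
  have key : ∀ n : ℕ, ∃ l, IsP X l ∧ a ∈ l ∧ l.length = n + 1 := fun n => by
    induction n with
    | zero => exact ⟨[a], ⟨List.nodup_singleton a, List.isChain_singleton a⟩, by simp, rfl⟩
    | succ n ih =>
      obtain ⟨l, h1, h2, h3⟩ := ih
      obtain ⟨v, h4, h5⟩ := hno l h1
      have h6 : ∃ x y, X.Adj x y ∧ x ∈ l ∧ y ∉ l := by
        by_contra h7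
        push Not at h7
        exact h5 (HM.reach_ind (p := fun x => x ∈ l) h7 h4 h2)
      obtain ⟨x, y, hxy, hx, hy⟩ := h6
      obtain ⟨l', a1, a2, a3⟩ := PathAux.extend h h1 hx hy hxy
      exact ⟨l', a1, a3 a h2, by rw [a2, h3]⟩
  obtain ⟨l, h1, -, h3⟩ := key (Fintype.card V)
  have h4 := h1.1.length_le_card
  omega

/-- A component has at most two vertices of degree one: by `path_of_deg` it lies on a path whose
inner vertices have degree two. -/
theorem PS.pair {J : SimpleGraph V} {R T : Finset V} (h : PS G J R T) :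
    ∃ μ : V → V, ∀ t ∈ T, μ t ∈ T ∧ μ t ≠ t ∧ μ (μ t) = t ∧ J.Reachable t (μ t) ∧
      ∀ t' ∈ T, J.Reachable t t' → t' = t ∨ t' = μ t := by
  have hdeg : ∀ v, dg J v ≤ 2 := fun v => by
    by_cases hv : v ∈ T
    · rw [h.one v hv]
      omega
    · rcases h.two v hv with c | c
      · omega
      · omega
  have hex : ∀ t, ∃ t', t ∈ T → t' ∈ T ∧ t' ≠ t ∧ J.Reachable t t' := fun t => by
    by_cases ht : t ∈ T
    · obtain ⟨t', a1, a2⟩ := h.other ht
      exact ⟨t', fun _ => ⟨a1, a2⟩⟩
    · exact ⟨t, fun h1 => absurd h1 ht⟩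
  choose μ hμ using hex
  have huniq : ∀ t ∈ T, ∀ t' ∈ T, J.Reachable t t' → t' = t ∨ t' = μ t := fun t ht t' ht' hr => by
    obtain ⟨l, hl, hall⟩ := path_of_deg J hdeg t
    have hend : ∀ v ∈ T, J.Reachable t v → l.head? = some v ∨ l.getLast? = some v :=
      fun v hv hr => by
        rcases PathAux.cases_mem hl (hall v hr) with c | c | ⟨x, -, y, -, hxy, c, d⟩
        · exact Or.inl c
        · exact Or.inr c
        · have h1 := PathAux.two_le hxy c d
          rw [h.one v hv] at h1
          omega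
    obtain ⟨b1, b2, b3⟩ := hμ t ht
    rcases hend t ht (SimpleGraph.Reachable.refl t) with c | c <;>
      rcases hend _ b1 b3 with d | d <;> rcases hend t' ht' hr with e | e
    all_goals first
      | exact Or.inl (Option.some.inj (e.symm.trans c))
      | exact Or.inr (Option.some.inj (e.symm.trans d))
      | exact absurd (Option.some.inj (d.symm.trans c)) b2
  refine ⟨μ, fun t ht => ?_⟩
  obtain ⟨b1, b2, b3⟩ := hμ t ht
  refine ⟨b1, b2, ?_, b3, huniq t ht⟩
  rcases huniq _ b1 t ht b3.symm with c | c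
  · exact absurd c.symm b2
  · exact c.symm

theorem IsP.mono {H : SimpleGraph V} (hH : H ≤ G) {l : List V} (h : IsP H l) : IsP G l := by
  exact ⟨h.1, h.2.imp fun _ _ hab => hH hab⟩

end Pool.Agent.Lib.MP_f20cd2_co.DP
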