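import Pool.Agent.Lib.MP_f20cd2_co.DP.Conn
import Pool.Agent.Lib.MP_f20cd2_co.DP.Path

/-!
Many trees connect all groups.
-/

set_option autoImplicit false
set_option linter.unusedSectionVars false

namespace Pool.Agent.Lib.MP_f20cd2_co.DP

open Finset
open Pool.Agent.Lib.MP_f20cd2_co.H83 (Conn Cells)
open Pool.Agent.Lib.MP_f20cd2_co.PL
open Pool.Agent.Lib.MP_f20cd2_co.HM (dg)
open scoped Classical

variable {V : Type} [Fintype V] [DecidableEq V] {G : SimpleGraph V}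

namespace LiftAux

/-- The trees with one parent map, and the feet with their ports and groups. -/
structure Dat (G Kc : SimpleGraph V) (K : ℕ) (R nr Ft S0 : Finset V) (par pt o : V → V)
    (rk : V → ℕ) (E : ℕ → Finset V) : Prop where
  nrR : ∀ c ∈ nr, c ∈ R ∧ par c ∈ R ∧ G.Adj c (par c) ∧ rk (par c) < rk c
  deg : ∀ h, (nr.filter fun c => par c = h).card ≤ 7
  ftR : ∀ h ∈ Ft, h ∈ R ∧ pt h ∉ R ∧ G.Adj h (pt h) ∧ o h ∈ S0 ∧ Kc.Reachable (o h) (pt h)
  inj : ∀ h ∈ Ft, ∀ h' ∈ Ft, pt h = pt h' → h = h'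
  cardK : ∀ y ∈ S0, (Ft.filter fun h => o h = y).card = K
  disj : ∀ j < K, ∀ j' < K, ∀ v ∈ E j, v ∈ E j' → j = j'
  lane : ∀ j < K, ∀ P : V → Prop, (∀ c ∈ nr, c ∈ E j → par c ∈ E j → (P c ↔ P (par c))) →
    ∀ u ∈ E j, ∀ v ∈ E j, P u → P v
  foot : ∀ j < K, ∀ y ∈ S0, ∃ h ∈ Ft, h ∈ E j ∧ o h = y

/-- The nodes of the hyperedge `h`. -/
def inc (nr Ft : Finset V) (par o : V → V) (h : V) : V ⊕ V → Prop
  | .inl y => h ∈ Ft ∧ o h = y
  | .inr c => c ∈ nr ∧ (h = c ∨ h = par c)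

/-- The neighbour of `h` that belongs to a node. -/
def nb (par pt : V → V) (h : V) : V ⊕ V → V
  | .inl _ => pt h
  | .inr c => if c = h then par h else c

/-- The weights. -/
noncomputable def wt (nr Ft : Finset V) (par o : V → V) (h : V) (x : V ⊕ V) : ℕ :=
  if inc nr Ft par o h x then 1 else 0

variable {Kc : SimpleGraph V} {K : ℕ} {R nr Ft S0 : Finset V} {par pt o : V → V}
  {rk : V → ℕ} {E : ℕ → Finset V}

lemma wt_pos {h : V} {x : V ⊕ V} : 0 < wt nr Ft par o h x ↔ inc nr Ft par o h x := by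
  unfold wt
  split_ifs with h1 <;> simp [h1]

lemma Dat.ne (d : Dat G Kc K R nr Ft S0 par pt o rk E) {c : V} (hc : c ∈ nr) : c ≠ par c :=
  (d.nrR c hc).2.2.1.ne

lemma Dat.incR (d : Dat G Kc K R nr Ft S0 par pt o rk E) {h : V} {x : V ⊕ V}
    (hx : inc nr Ft par o h x) : h ∈ R := by
  rcases x with y | c
  · exact (d.ftR h hx.1).1
  · obtain ⟨hc, rfl | rfl⟩ := hx
    · exact (d.nrR _ hc).1
    · exact (d.nrR _ hc).2.1

lemma Dat.adj (d : Dat G Kc K R nr Ft S0 par pt o rk E) {h : V} {x : V ⊕ V}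
    (hx : inc nr Ft par o h x) : G.Adj h (nb par pt h x) := by
  rcases x with y | c
  · exact (d.ftR h hx.1).2.2.1
  · obtain ⟨hc, rfl | rfl⟩ := hx
    · simp only [nb, if_true]
      exact (d.nrR _ hc).2.2.1
    · simp only [nb, if_neg (d.ne hc)]
      exact (d.nrR _ hc).2.2.1.symm

lemma Dat.nbR (d : Dat G Kc K R nr Ft S0 par pt o rk E) {h c : V}
    (hx : inc nr Ft par o h (.inr c)) : nb par pt h (.inr c) ∈ R := by
  obtain ⟨hc, rfl | rfl⟩ := hx
  · simp only [nb, if_true]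
    exact (d.nrR _ hc).2.1
  · simp only [nb, if_neg (d.ne hc)]
    exact (d.nrR _ hc).1

lemma Dat.nb_inj (d : Dat G Kc K R nr Ft S0 par pt o rk E) {h : V} {x x' : V ⊕ V}
    (hx : inc nr Ft par o h x) (hx' : inc nr Ft par o h x')
    (e : nb par pt h x = nb par pt h x') : x = x' := by
  have key : ∀ c, c ∈ nr → h ∈ nr → h = par c → par h ≠ c := fun c hc hh e1 e2 => by
    have h1 := (d.nrR c hc).2.2.2
    have h2 := (d.nrR h hh).2.2.2
    rw [← e1] at h1
    rw [e2] at h2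
    omega
  rcases x with y | c <;> rcases x' with y' | c'
  · rw [← hx.2, ← hx'.2]
  · exact absurd (e ▸ d.nbR hx' : nb par pt h (.inl y) ∈ R) (d.ftR h hx.1).2.1
  · exact absurd (e ▸ d.nbR hx : nb par pt h (.inl y') ∈ R) (d.ftR h hx'.1).2.1
  · simp only [nb] at e
    by_cases h1 : c = h <;> by_cases h2 : c' = h
    · rw [h1, h2]
    · rw [if_pos h1, if_neg h2] at e
      exact absurd e (key c' hx'.1 (h1 ▸ hx.1) (hx'.2.resolve_left fun e' => h2 e'.symm))
    · rw [if_neg h1, if_pos h2] at e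
      exact absurd e.symm (key c hx.1 (h2 ▸ hx'.1) (hx.2.resolve_left fun e' => h1 e'.symm))
    · rw [if_neg h1, if_neg h2] at e
      rw [e]

lemma star_inr (c : V) : star (wt nr Ft par o) (.inr c) ⊆ {c, par c} := fun h hh => by
  have := (wt_pos.1 (mem_star.1 hh)).2
  simpa using this

lemma star_inl (y : V) : star (wt nr Ft par o) (.inl y) = Ft.filter fun h => o h = y := by
  ext h
  rw [mem_star, wt_pos, mem_filter]
  rfl

lemma Dat.hok (d : Dat G Kc K R nr Ft S0 par pt o rk E) {z y0 : V} (hz : z ∈ S0) (hy : y0 ∈ S0)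
    (hne : y0 ≠ z) :
    HOk 9 K (wt nr Ft par o) (S0.image .inl ∪ nr.image .inr) (S0.image .inl) (.inl z) where
  sub := subset_union_left
  zS := mem_image_of_mem _ hz
  oth := ⟨_, mem_image_of_mem _ hy, fun e => hne (Sum.inl.inj e)⟩
  supp := fun h x hx => by
    have h1 := wt_pos.1 hx
    rcases x with y | c
    · exact mem_union_left _ (mem_image_of_mem _ (h1.2 ▸ (d.ftR h h1.1).2.2.2.1))
    · exact mem_union_right _ (mem_image_of_mem _ h1.1)
  tot := fun h => by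
    have h1 : ∑ x, wt nr Ft par o h x = (univ.filter fun x => inc nr Ft par o h x).card := by
      rw [card_filter]
      rfl
    have h2 : (univ.filter fun x => inc nr Ft par o h x) ⊆
        insert (.inl (o h)) (insert (.inr h) ((nr.filter fun c => par c = h).image .inr)) := by
      intro x hx
      have h3 := (mem_filter.1 hx).2
      rcases x with y | c
      · rw [← h3.2]
        exact mem_insert_self _ _
      · refine mem_insert_of_mem ?_
        rcases h3.2 with e | e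
        · rw [e]
          exact mem_insert_self _ _
        · exact mem_insert_of_mem (mem_image_of_mem _ (mem_filter.2 ⟨h3.1, e.symm⟩))
    have h3 := (card_le_card h2).trans ((card_insert_le _ _).trans (Nat.add_le_add_right
      ((card_insert_le _ _).trans (Nat.add_le_add_right (card_image_le.trans (d.deg h)) 1)) 1))
    omega
  two := fun x hx hxS => by
    rcases mem_union.1 hx with h1 | h1
    · exact absurd h1 hxS
    · obtain ⟨c, -, rfl⟩ := mem_image.1 h1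
      exact (card_le_card (star_inr c)).trans card_le_two
  con := fun A _ hzA ⟨x, hxA, hxS⟩ => by
    obtain ⟨y, hy, rfl⟩ := mem_image.1 hxS
    have key : ∀ j, ∃ h, j < K → h ∈ E j ∧ h ∈ cut (wt nr Ft par o) A := fun j => by
      by_cases hj : j < K
      swap
      · exact ⟨z, fun h => absurd h hj⟩
      by_contra hno
      have all : ∀ h ∈ E j, (∃ x ∈ A, inc nr Ft par o h x) → ∀ x, inc nr Ft par o h x → x ∈ A :=
        fun h hh ⟨x, h1, h2⟩ x' h3 => by
          by_contra h4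
          exact hno ⟨h, fun _ => ⟨hh, mem_cut.2 ⟨⟨x, h1, wt_pos.2 h2⟩, x', h4, wt_pos.2 h3⟩⟩⟩
      obtain ⟨u, u1, u2, u3⟩ := d.foot j hj y hy
      obtain ⟨v, v1, v2, v3⟩ := d.foot j hj z hz
      refine hzA (all v v2 (d.lane j hj (fun h => ∃ x ∈ A, inc nr Ft par o h x)
        (fun c hc c1 c2 => ?_) u u2 v v2 ⟨_, hxA, u1, u3⟩) (.inl z) ⟨v1, v3⟩)
      exact ⟨fun h => ⟨.inr c, all c c1 h _ ⟨hc, .inl rfl⟩, hc, .inr rfl⟩,
        fun h => ⟨.inr c, all _ c2 h _ ⟨hc, .inr rfl⟩, hc, .inl rfl⟩⟩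
    choose f hf using key
    rw [← card_range K]
    refine card_le_card_of_injOn f (fun j hj => (hf j (mem_range.1 hj)).2) fun j hj j' hj' e => ?_
    have h1 := mem_range.1 (mem_coe.1 hj)
    have h2 := mem_range.1 (mem_coe.1 hj')
    exact d.disj j h1 j' h2 _ (hf j h1).1 (e ▸ (hf j' h2).1)
  dz := by rw [star_inl, d.cardK z hz]

lemma Dat.main (d : Dat G Kc K R nr Ft S0 par pt o rk E) {D0 : ℕ} {al : ℕ → ℕ}
    (hn : Num 9 K D0 al) (h1 : ∀ c, 2 ≤ c → c ≤ 9 → al c + 1 ≤ K) {z y0 : V} (hz : z ∈ S0)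
    (hy : y0 ∈ S0) (hne : y0 ≠ z) :
    ∃ J T, T ⊆ Ft.image pt ∧ PS G J R T ∧ ∀ y ∈ S0, (Kc ⊔ J).Reachable y z := by
  have hok := d.hok hz hy hne
  obtain ⟨h0, hh0⟩ : (star (wt nr Ft par o) (.inl z)).Nonempty := by
    rw [← card_pos, hok.dz]
    have := hn.top
    omega
  obtain ⟨en, ow, s⟩ := conn hn (Sum.inl z) _ _ _ {h0} ∅ hok
    ⟨singleton_subset_iff.2 hh0, empty_subset _, disjoint_empty_right _, fun c c1 c2 => by
      have := h1 c c1 c2
      rw [filter_empty, card_empty, card_singleton]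
      omega⟩
  have hi : ∀ h, ∀ x ∈ en h, inc nr Ft par o h x := fun h x hx => wt_pos.1 (s.pos h x hx)
  have both : ∀ h c, Sum.inr c ∈ en h → Sum.inr c ∈ en c ∧ Sum.inr c ∈ en (par c) := by
    intro h c hc
    have h2 : endsAt en (.inr c) ⊆ {c, par c} := fun g hg =>
      star_inr c (mem_star.2 (s.pos g _ (mem_endsAt.1 hg)))
    rcases s.deg (.inr c) (mem_union_right _ (mem_image_of_mem _ (hi h _ hc).1)) (by simp) with
      h3 | h3
    · exact absurd (h3 ▸ mem_endsAt.2 hc) (notMem_empty h)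
    · have h4 := eq_of_subset_of_card_le h2 (h3 ▸ card_le_two)
      exact ⟨mem_endsAt.1 (h4 ▸ mem_insert_self _ _),
        mem_endsAt.1 (h4 ▸ mem_insert_of_mem (mem_singleton_self _))⟩
  let J : SimpleGraph V := SimpleGraph.fromRel fun u v => ∃ x ∈ en u, nb par pt u x = v
  have hJ : ∀ u v, J.Adj u v ↔
      (∃ x ∈ en u, nb par pt u x = v) ∨ ∃ x ∈ en v, nb par pt v x = u := fun u v => by
    rw [SimpleGraph.fromRel_adj]
    refine ⟨fun h => h.2, fun h => ⟨?_, h⟩⟩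
    rcases h with ⟨x, hx, rfl⟩ | ⟨x, hx, rfl⟩
    · exact (d.adj (hi _ x hx)).ne
    · exact (d.adj (hi _ x hx)).ne'
  have hJR : ∀ u ∈ R, ∀ v, J.Adj u v ↔ ∃ x ∈ en u, nb par pt u x = v := fun u hu v => by
    rw [hJ]
    refine ⟨fun h => h.elim id ?_, Or.inl⟩
    rintro ⟨x, hx, rfl⟩
    have h2 := hi v x hx
    rcases x with y | c
    · exact absurd hu (d.ftR v h2.1).2.1
    · obtain ⟨b1, b2⟩ := both v c hx
      obtain ⟨hc, rfl | rfl⟩ := h2
      · refine ⟨.inr v, ?_, ?_⟩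
        · simpa only [nb, if_true] using b2
        · simp only [nb, if_true, if_neg (d.ne hc)]
      · refine ⟨.inr c, ?_, ?_⟩
        · simpa only [nb, if_neg (d.ne hc)] using b1
        · simp only [nb, if_true, if_neg (d.ne hc)]
  have hJN : ∀ u, u ∉ R → ∀ v, J.Adj u v ↔ v ∈ Ft ∧ Sum.inl (o v) ∈ en v ∧ pt v = u :=
    fun u hu v => by
    rw [hJ]
    constructor
    · rintro (⟨x, hx, -⟩ | ⟨x, hx, rfl⟩)
      · exact absurd (d.incR (hi u x hx)) hu
      · have h2 := hi v x hx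
        rcases x with y | c
        · exact ⟨h2.1, h2.2 ▸ hx, rfl⟩
        · exact absurd (d.nbR h2) hu
    · rintro ⟨-, h2, rfl⟩
      exact Or.inr ⟨_, h2, rfl⟩
  have reach : ∀ h, ∀ x ∈ en h, (Kc ⊔ J).Reachable (Sum.elim id id x) h := fun h x hx => by
    have h2 := hi h x hx
    have h3 : (Kc ⊔ J).Adj (nb par pt h x) h := Or.inr ((hJ _ _).2 (Or.inr ⟨x, hx, rfl⟩))
    rcases x with y | c
    · have h4 : Kc.Reachable y (pt h) := h2.2 ▸ (d.ftR h h2.1).2.2.2.2
      exact (h4.mono le_sup_left).trans h3.reachable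
    · by_cases e : c = h
      · rw [e]
        exact SimpleGraph.Reachable.refl _
      · simp only [nb, if_neg e] at h3
        exact h3.reachable
  have lnk : ∀ x x', Lnk en (.inl z) x x' →
      (Kc ⊔ J).Reachable (Sum.elim id id x) (Sum.elim id id x') := fun x x' h => by
    induction h with
    | refl => exact SimpleGraph.Reachable.refl _
    | tail _ hb ih =>
      obtain ⟨-, -, g, g1, g2⟩ := hb
      exact ih.trans ((reach g _ g1).trans (reach g _ g2).symm)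
  refine ⟨J, (Ft.filter fun h => Sum.inl (o h) ∈ en h).image pt,
    image_subset_image (filter_subset _ _), ⟨?_, ?_, ?_, ?_⟩, ?_⟩
  · intro u v h
    rcases (hJ u v).1 h with ⟨x, hx, rfl⟩ | ⟨x, hx, rfl⟩
    · exact d.adj (hi _ x hx)
    · exact (d.adj (hi _ x hx)).symm
  · intro v hv
    obtain ⟨h, hh, rfl⟩ := mem_image.1 hv
    obtain ⟨a1, a2⟩ := mem_filter.1 hh
    refine HM.dg_eq_one (w := h) fun x => ?_
    rw [hJN _ (d.ftR h a1).2.1]
    exact ⟨fun b => d.inj x b.1 h a1 b.2.2, fun b => by rw [b]; exact ⟨a1, a2, rfl⟩⟩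
  · intro v hv
    by_cases hR : v ∈ R
    · have h2 : dg J v = (en v).card := by
        rw [← card_image_of_injOn (f := nb par pt v) fun x hx x' hx' e =>
          d.nb_inj (hi v x hx) (hi v x' hx') e]
        unfold dg
        congr 1
        ext w
        simp only [mem_filter, mem_univ, true_and, mem_image, hJR v hR]
      rcases s.card v with h3 | h3
      · left
        rw [h2, h3, card_empty]
      · exact Or.inr ⟨hR, h2.trans h3⟩
    · refine Or.inl (HM.dg_eq_zero.2 fun w hw => hv ?_)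
      obtain ⟨a1, a2, a3⟩ := (hJN v hR w).1 hw
      exact mem_image.2 ⟨w, mem_filter.2 ⟨a1, a2⟩, a3⟩
  · intro u v h
    rcases (hJ u v).1 h with ⟨x, hx, -⟩ | ⟨x, hx, -⟩
    · exact Or.inl (d.incR (hi _ x hx))
    · exact Or.inr (d.incR (hi _ x hx))
  · intro y hyS
    by_cases e : y = z
    · rw [e]
    have hz0 : Sum.inl z ∈ en h0 := (s.xz h0).2 (mem_singleton_self _)
    obtain ⟨x, hx, hxz⟩ : ∃ x ∈ en h0, x ≠ Sum.inl z := by
      refine exists_mem_ne ?_ _
      rcases s.card h0 with h3 | h3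
      · exact absurd (h3 ▸ hz0) (notMem_empty _)
      · omega
    exact (lnk _ _ (s.conn (.inl y) x (fun e' => e (Sum.inl.inj e')) hxz
      (Or.inl (mem_image_of_mem _ hyS)) (Or.inr ⟨h0, hx⟩))).trans
      ((reach h0 x hx).trans (reach h0 _ hz0).symm)

lemma exists_enum (d : V) (s : Finset V) {K : ℕ} :
    ∃ f : ℕ → V, K ≤ s.card → (∀ j < K, f j ∈ s) ∧ ∀ j < K, ∀ j' < K, f j = f j' → j = j' := by
  refine ⟨fun j => if h : j < s.card then (s.equivFin.symm ⟨j, h⟩ : V) else d, fun hK =>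
    ⟨fun j hj => ?_, fun j hj j' hj' e => ?_⟩⟩
  · simp only [dif_pos (hj.trans_le hK)]
    exact coe_mem _
  · simp only [dif_pos (hj.trans_le hK), dif_pos (hj'.trans_le hK)] at e
    exact congrArg Fin.val (s.equivFin.symm.injective (Subtype.ext e))

lemma exists_dat {r : ℕ} {D : ℕ → Finset V} {Sd : Finset V} {ft : ℕ → V → V}
    (h : LS G r D Sd ft) {a : ℕ} (ha : a + K ≤ r) {F : Finset V} (hF : F ⊆ Sd)
    (h1 : ∀ y ∈ S0, K ≤ (rf Kc F y).card)
    (h2 : ∀ y ∈ S0, ∀ y' ∈ S0, Kc.Reachable y y' → y = y') (v0 : V) :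
    ∃ nr Ft par pt o rk E, Dat G Kc K (Rs D a (a + K)) nr Ft S0 par pt o rk E ∧
      Ft.image pt ⊆ F := by
  have t1 : ∀ j, ∃ (ρ : V) (par : V → V) (rk : V → ℕ), j < K →
      RTree (D (a + j)) ρ par rk 7 ∧ ∀ v ∈ D (a + j), v ≠ ρ → G.Adj v (par v) := fun j => by
    by_cases hj : j < K
    · obtain ⟨ρ, par, rk, ht⟩ := h.tree (a + j) (by omega)
      exact ⟨ρ, par, rk, fun _ => ht⟩
    · exact ⟨v0, id, fun _ => 0, fun e => absurd e hj⟩
  choose ρ pr rj ht using t1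
  have hd : ∀ j < K, ∀ j' < K, ∀ v ∈ D (a + j), v ∈ D (a + j') → j = j' := fun j hj j' hj' v b b' => by
    by_contra e
    exact disjoint_left.1 (h.disj (a + j) (by omega) (a + j') (by omega) (by omega)) b b'
  have t2 : ∀ v, ∃ j, v ∈ Rs D a (a + K) → j < K ∧ v ∈ D (a + j) := fun v => by
    by_cases hv : v ∈ Rs D a (a + K)
    · obtain ⟨j, j1, j2, j3⟩ := mem_Rs.1 hv
      obtain ⟨i, rfl⟩ := Nat.exists_eq_add_of_le j1
      exact ⟨i, fun _ => ⟨by omega, j3⟩⟩
    · exact ⟨0, fun e => absurd e hv⟩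
  choose ix hix using t2
  have inR : ∀ j < K, ∀ v ∈ D (a + j), v ∈ Rs D a (a + K) := fun j hj v hv =>
    mem_Rs.2 ⟨a + j, by omega, by omega, hv⟩
  have ixe : ∀ j < K, ∀ v ∈ D (a + j), ix v = j := fun j hj v hv =>
    hd _ (hix v (inR j hj v hv)).1 j hj v (hix v (inR j hj v hv)).2 hv
  choose π hπ using fun y => exists_enum v0 (rf Kc F y) (K := K)
  have p1 : ∀ y ∈ S0, ∀ j < K, π y j ∈ F ∧ Kc.Reachable y (π y j) := fun y hy j hj =>
    mem_rf.1 ((hπ y (h1 y hy)).1 j hj)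
  have p2 : ∀ y ∈ S0, ∀ j < K, ∀ y' ∈ S0, ∀ j' < K, π y j = π y' j' → y = y' ∧ j = j' :=
    fun y hy j hj y' hy' j' hj' e => by
      obtain rfl := h2 y hy y' hy' ((p1 y hy j hj).2.trans (e ▸ (p1 y' hy' j' hj').2.symm))
      exact ⟨rfl, (hπ y (h1 y hy)).2 j hj j' hj' e⟩
  have f1 : ∀ y ∈ S0, ∀ j < K, ft (a + j) (π y j) ∈ D (a + j) ∧
      G.Adj (π y j) (ft (a + j) (π y j)) := fun y hy j hj =>
    h.foot (a + j) (by omega) _ (hF (p1 y hy j hj).1)
  have f2 : ∀ y ∈ S0, ∀ j < K, ∀ y' ∈ S0, ∀ j' < K,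
      ft (a + j) (π y j) = ft (a + j') (π y' j') → y = y' ∧ j = j' :=
    fun y hy j hj y' hy' j' hj' e => by
      obtain rfl := hd j hj j' hj' _ (f1 y hy j hj).1 (e ▸ (f1 y' hy' j' hj').1)
      exact p2 y hy j hj y' hy' j hj (h.inj (a + j) (by omega) _ (hF (p1 y hy j hj).1) _
        (hF (p1 y' hy' j hj).1) e)
  set Ft := (S0 ×ˢ range K).image fun q => ft (a + q.2) (π q.1 q.2) with hFt
  have t3 : ∀ v, ∃ y, v ∈ Ft → y ∈ S0 ∧ ix v < K ∧ ft (a + ix v) (π y (ix v)) = v := fun v => by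
    by_cases hv : v ∈ Ft
    · obtain ⟨⟨y, j⟩, b, rfl⟩ := mem_image.1 hv
      obtain ⟨b1, b2⟩ := mem_product.1 b
      have b3 := mem_range.1 b2
      refine ⟨y, fun _ => ?_⟩
      rw [ixe j b3 _ (f1 y b1 j b3).1]
      exact ⟨b1, b3, rfl⟩
    · exact ⟨v0, fun e => absurd e hv⟩
  choose o ho using t3
  have inF : ∀ y ∈ S0, ∀ j < K, ft (a + j) (π y j) ∈ Ft := fun y hy j hj =>
    mem_image.2 ⟨(y, j), mem_product.2 ⟨hy, mem_range.2 hj⟩, rfl⟩
  have oe : ∀ y ∈ S0, ∀ j < K, o (ft (a + j) (π y j)) = y := fun y hy j hj => by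
    obtain ⟨b1, b2, b3⟩ := ho _ (inF y hy j hj)
    exact (f2 _ b1 _ b2 y hy j hj b3).1
  have nr1 : ∀ c ∈ (Rs D a (a + K)).filter fun v => v ≠ ρ (ix v),
      pr (ix c) c ∈ D (a + ix c) ∧ ix (pr (ix c) c) = ix c := fun c hc => by
    obtain ⟨c1, c2⟩ := mem_filter.1 hc
    obtain ⟨c3, c4⟩ := hix c c1
    have c5 := (ht _ c3).1.mem c c4 c2
    exact ⟨c5, ixe _ c3 _ c5⟩
  refine ⟨(Rs D a (a + K)).filter fun v => v ≠ ρ (ix v), Ft, fun v => pr (ix v) v,
    fun v => π (o v) (ix v), o, fun v => rj (ix v) v, fun j => D (a + j),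
    ⟨fun c hc => ?_, fun g => ?_, fun g hg => ?_, fun g hg g' hg' e => ?_, fun y hy => ?_, hd,
      fun j hj P hP => ?_, fun j hj y hy => ⟨_, inF y hy j hj, (f1 y hy j hj).1, oe y hy j hj⟩⟩, ?_⟩
  · obtain ⟨c1, c2⟩ := mem_filter.1 hc
    obtain ⟨c3, c4⟩ := hix c c1
    refine ⟨c1, inR _ c3 _ (nr1 c hc).1, (ht _ c3).2 c c4 c2, ?_⟩
    simp only [(nr1 c hc).2]
    exact (ht _ c3).1.lt c c4 c2
  · by_cases hg : g ∈ Rs D a (a + K)
    · refine le_trans (card_le_card fun c hc => ?_) ((ht _ (hix g hg).1).1.deg g)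
      obtain ⟨c0, c5⟩ := mem_filter.1 hc
      obtain ⟨c1, c2⟩ := mem_filter.1 c0
      have c6 : ix g = ix c := c5 ▸ (nr1 c c0).2
      simp only [mem_filter, c6]
      exact ⟨(hix c c1).2, c2, c5⟩
    · refine le_trans (card_eq_zero.2 (eq_empty_of_forall_notMem fun c hc => hg ?_)).le
        (Nat.zero_le _)
      obtain ⟨c0, c5⟩ := mem_filter.1 hc
      exact c5 ▸ inR _ (hix c (mem_filter.1 c0).1).1 _ (nr1 c c0).1
  · obtain ⟨b1, b2, b3⟩ := ho g hg
    have b4 := f1 _ b1 _ b2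
    rw [b3] at b4
    refine ⟨inR _ b2 _ b4.1, fun b5 => ?_, b4.2.symm, b1, (p1 _ b1 _ b2).2⟩
    obtain ⟨b6, b7⟩ := hix _ b5
    exact disjoint_left.1 (h.sd _ (by omega)) (hF (p1 _ b1 _ b2).1) b7
  · obtain ⟨b1, b2, b3⟩ := ho g hg
    obtain ⟨c1, c2, c3⟩ := ho g' hg'
    obtain ⟨e1, e2⟩ := p2 _ b1 _ b2 _ c1 _ c2 e
    rw [← b3, ← c3, e1, e2, c3]
  · have e : (Ft.filter fun g => o g = y) = (range K).image fun j => ft (a + j) (π y j) := by
      ext g
      constructor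
      · intro hg
        obtain ⟨g1, g2⟩ := mem_filter.1 hg
        exact mem_image.2 ⟨ix g, mem_range.2 (ho g g1).2.1, g2 ▸ (ho g g1).2.2⟩
      · intro hg
        obtain ⟨j, hj, rfl⟩ := mem_image.1 hg
        exact mem_filter.2 ⟨inF y hy j (mem_range.1 hj), oe y hy j (mem_range.1 hj)⟩
    rw [e, card_image_of_injOn fun j hj j' hj' e =>
      (f2 y hy j (mem_range.1 (mem_coe.1 hj)) y hy j' (mem_range.1 (mem_coe.1 hj')) e).2,
      card_range]
  · have key : ∀ n, ∀ v ∈ D (a + j), rj j v = n → (P v ↔ P (ρ j)) := fun n => by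
      induction n using Nat.strong_induction_on with
      | _ n ih =>
      intro v hv e
      by_cases hρ : v = ρ j
      · rw [hρ]
      have b1 := ixe j hj v hv
      have b2 := (ht j hj).1.mem v hv hρ
      have b3 := hP v (mem_filter.2 ⟨inR j hj v hv, b1 ▸ hρ⟩) hv (by simpa only [b1] using b2)
      simp only [b1] at b3
      exact b3.trans (ih _ (e ▸ (ht j hj).1.lt v hv hρ) _ b2 rfl)
    exact fun u hu v hv hP => (key _ v hv rfl).2 ((key _ u hu rfl).1 hP)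
  · intro p hp
    obtain ⟨g, hg, rfl⟩ := mem_image.1 hp
    exact (p1 _ (ho g hg).1 _ (ho g hg).2.1).1

end LiftAux

/-- See the plan. -/
theorem cn {r : ℕ} {D : ℕ → Finset V} {Sd : Finset V} {ft : ℕ → V → V} (h : LS G r D Sd ft)
    {K D0 : ℕ} {al : ℕ → ℕ} (hn : Num 9 K D0 al) (h1 : ∀ c, 2 ≤ c → c ≤ 9 → al c + 1 ≤ K)
    {a : ℕ} (ha : a + K ≤ r) : CN G Sd (Rs D a (a + K)) K := by
  intro Kc A F _ hF hK
  by_cases hall : ∀ u ∈ A, ∀ v ∈ A, Kc.Reachable u v
  · exact ⟨⊥, ∅, empty_subset _, ⟨bot_le, fun v hv => absurd hv (notMem_empty v),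
      fun v _ => Or.inl (HM.dg_bot v), fun _ _ e => e.elim⟩,
      fun u hu v hv => (hall u hu v hv).mono le_sup_left⟩
  push Not at hall
  obtain ⟨u, hu, v, hv, huv⟩ := hall
  let rep : V → V := fun x => (Kc.connectedComponentMk x).out
  have r1 : ∀ x, Kc.Reachable (rep x) x := fun x =>
    SimpleGraph.ConnectedComponent.exact (Quot.out_eq _)
  have r2 : ∀ x y, Kc.Reachable x y → rep x = rep y := fun x y e =>
    congrArg Quot.out (SimpleGraph.ConnectedComponent.sound e)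
  obtain ⟨nr, Ft, par, pt, o, rk, E, d, hT⟩ := LiftAux.exists_dat (Kc := Kc) (S0 := A.image rep)
    h ha hF (fun y hy => by
      obtain ⟨x, hx, rfl⟩ := mem_image.1 hy
      exact (hK x hx).trans (card_le_card fun w hw =>
        mem_rf.2 ⟨(mem_rf.1 hw).1, (r1 x).trans (mem_rf.1 hw).2⟩))
    (fun y hy y' hy' e => by
      obtain ⟨x, -, rfl⟩ := mem_image.1 hy
      obtain ⟨x', -, rfl⟩ := mem_image.1 hy'
      exact r2 x x' ((r1 x).symm.trans (e.trans (r1 x')))) u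
  obtain ⟨J, T, t1, t2, t3⟩ := d.main hn h1 (mem_image_of_mem rep hu) (mem_image_of_mem rep hv)
    fun e => huv ((r1 u).symm.trans (e ▸ r1 v))
  have t4 : ∀ x ∈ A, (Kc ⊔ J).Reachable x (rep u) := fun x hx =>
    ((r1 x).symm.mono le_sup_left).trans (t3 _ (mem_image_of_mem rep hx))
  exact ⟨J, T, t1.trans hT, t2, fun x hx y hy => (t4 x hx).trans (t4 y hy).symm⟩

end Pool.Agent.Lib.MP_f20cd2_co.DP
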