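import Pool.Agent.Lib.MP_f20cd2_co.DP.Path

/-!
Choosing the states of the units.
-/

set_option autoImplicit false
set_option linter.unusedSectionVars false

namespace Pool.Agent.Lib.MP_f20cd2_co.DP

open Finset
open Pool.Agent.Lib.MP_f20cd2_co.H83 (Conn Cells)
open Pool.Agent.Lib.MP_f20cd2_co.PL
open Pool.Agent.Lib.MP_f20cd2_co.HM (dg)
open scoped Classical

variable {V : Type} [Fintype V] [DecidableEq V] {G : SimpleGraph V}

namespace SwitchAux

lemma all_of {U : Un V} {K : SimpleGraph V} (h1 : K.Reachable U.e U.f) (h2 : K.Reachable U.e U.p)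
    (h3 : K.Reachable U.e U.q) : ∀ a ∈ U.S, ∀ b ∈ U.S, K.Reachable a b := by
  have h : ∀ a ∈ U.S, K.Reachable U.e a := fun a ha => by
    simp only [Un.S, mem_insert, mem_singleton] at ha
    rcases ha with rfl | rfl | rfl | rfl
    · exact SimpleGraph.Reachable.refl _
    · exact h1
    · exact h2
    · exact h3
  exact fun a ha b hb => (h a ha).symm.trans (h b hb)

lemma e_mem (U : Un V) : U.e ∈ U.S := by simp [Un.S]

lemma dg_out {Y S : Finset V} {X : SimpleGraph V} (h : St G Y S X) {v : V} (hv : v ∉ Y) :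
    dg X v = 0 :=
  HM.dg_eq_zero.2 fun w hw => hv (h.mem v w hw)

end SwitchAux

open SwitchAux

/-- If `H ⊔ P` does not join all ports then `H` joins `e` to `f` and `p` to `q`. -/
theorem Un.Ok.key {U : Un V} (h : U.Ok G) (H : SimpleGraph V)
    (hH : ∀ a ∈ U.S, ∃ b ∈ U.S, b ≠ a ∧ H.Reachable a b) :
    (∀ a ∈ U.S, ∀ b ∈ U.S, (H ⊔ U.P).Reachable a b) ∨
      ∀ a ∈ U.S, ∀ b ∈ U.S, (H ⊔ U.Q).Reachable a b := by
  obtain ⟨b, hb, hne, hr⟩ := hH U.e (e_mem U)
  have p1 : (H ⊔ U.P).Reachable U.e U.f := h.rP.1.mono le_sup_right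
  have p2 : (H ⊔ U.P).Reachable U.p U.q := h.rP.2.mono le_sup_right
  have q1 : (H ⊔ U.Q).Reachable U.f U.p := h.rQ.1.mono le_sup_right
  have q2 : (H ⊔ U.Q).Reachable U.e U.q := h.rQ.2.mono le_sup_right
  have r1 : (H ⊔ U.P).Reachable U.e b := hr.mono le_sup_left
  have r2 : (H ⊔ U.Q).Reachable U.e b := hr.mono le_sup_left
  simp only [Un.S, mem_insert, mem_singleton] at hb
  rcases hb with hb | hb | hb | hb
  · exact absurd hb hne
  · rw [hb] at r2
    exact Or.inr (all_of r2 (r2.trans q1) q2)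
  · rw [hb] at r1
    exact Or.inl (all_of p1 r1 (r1.trans p2))
  · rw [hb] at r1
    exact Or.inl (all_of p1 (r1.trans p2.symm) r1)

theorem Un.Ok.conn {U : Un V} (h : U.Ok G) {a b : V} (ha : a ∈ U.S) (hb : b ∈ U.S) :
    (U.P ⊔ U.Q).Reachable a b := by
  have p1 : (U.P ⊔ U.Q).Reachable U.e U.f := h.rP.1.mono le_sup_left
  have q1 : (U.P ⊔ U.Q).Reachable U.f U.p := h.rQ.1.mono le_sup_right
  have q2 : (U.P ⊔ U.Q).Reachable U.e U.q := h.rQ.2.mono le_sup_right
  exact all_of p1 (p1.trans q1) q2 a ha b hb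

/-- See the plan; compare `HM.switch`. -/
theorem switch2 {ι : Type} [DecidableEq ι] (T : Finset ι) (U : ι → Un V) (hU : ∀ t ∈ T, (U t).Ok G)
    (hd : ∀ t ∈ T, ∀ t' ∈ T, t ≠ t' → Disjoint (U t).Y (U t').Y) (F : SimpleGraph V) (hF : F ≤ G)
    (hin : ∀ t ∈ T, ∀ u ∈ (U t).Y, ∀ v ∈ (U t).Y, ¬ F.Adj u v)
    (h1 : ∀ t ∈ T, ∀ v ∈ (U t).Y, dg F v = if v ∈ (U t).S then 1 else 0)
    (h2 : ∀ v, (∀ t ∈ T, v ∉ (U t).Y) → dg F v = 0 ∨ dg F v = 2) (Z : Finset V)
    (hZ : ∀ v ∈ Z, ∀ t ∈ T, v ∈ (U t).Y →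
      (∃ a ∈ (U t).S, (U t).P.Reachable v a) ∧ ∃ a ∈ (U t).S, (U t).Q.Reachable v a)
    (hc : ∀ u ∈ Z, ∀ v ∈ Z, (F ⊔ T.sup fun t => (U t).P ⊔ (U t).Q).Reachable u v) :
    ∃ F' ≤ G, (∀ v, dg F' v = 0 ∨ dg F' v = 2) ∧ F ≤ F' ∧
      (∀ u v, F'.Adj u v → F.Adj u v ∨ ∃ t ∈ T, u ∈ (U t).Y) ∧
      ∀ u ∈ Z, ∀ v ∈ Z, F'.Reachable u v := by
  induction T using Finset.induction_on generalizing F with
  | empty =>
    exact ⟨F, hF, fun v => h2 v (by simp), le_rfl, fun u v h => Or.inl h,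
      fun u hu v hv => by simpa using hc u hu v hv⟩
  | insert t T ht ih =>
    have hm : t ∈ insert t T := mem_insert_self _ _
    have hUt := hU t hm
    have hU' : ∀ s ∈ T, (U s).Ok G := fun s hs => hU s (mem_insert_of_mem hs)
    have hd' : ∀ s ∈ T, ∀ s' ∈ T, s ≠ s' → Disjoint (U s).Y (U s').Y := fun s hs s' hs' =>
      hd s (mem_insert_of_mem hs) s' (mem_insert_of_mem hs')
    have hts : ∀ s ∈ T, ∀ v ∈ (U t).Y, v ∉ (U s).Y := fun s hs v hv =>
      disjoint_left.1 (hd t hm s (mem_insert_of_mem hs) fun e => ht (e ▸ hs)) hv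
    rw [sup_insert] at hc
    obtain ⟨K, hK⟩ : ∃ K, K = T.sup fun t => (U t).P ⊔ (U t).Q := ⟨_, rfl⟩
    rw [← hK] at hc ih
    have hKm : ∀ u v, K.Adj u v → ∃ s ∈ T, u ∈ (U s).Y := fun u v huv => by
      rw [hK] at huv
      obtain ⟨s, hs, h3⟩ := (HM.finsup_adj T _ u v).1 huv
      rcases h3 with h3 | h3
      · exact ⟨s, hs, (hU' s hs).sP.mem u v h3⟩
      · exact ⟨s, hs, (hU' s hs).sQ.mem u v h3⟩
    have hPK : (T.sup fun s => (U s).P) ≤ K := hK ▸ Finset.sup_mono_fun fun s _ => le_sup_left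
    have hFP : Disjoint F (T.sup fun s => (U s).P) := HM.disj_iff.2 fun u v huv h3 => by
      obtain ⟨s, hs, h4⟩ := (HM.finsup_adj T _ u v).1 h3
      exact hin s (mem_insert_of_mem hs) u ((hU' s hs).sP.mem u v h4) v
        ((hU' s hs).sP.mem v u h4.symm) huv
    have hsum : ∀ v, dg (F ⊔ T.sup fun s => (U s).P) v = dg F v + ∑ s ∈ T, dg (U s).P v :=
      fun v => by
        rw [HM.dg_sup hFP, HM.dg_finsup T (fun s => (U s).P) fun s hs s' hs' e =>
          HM.disj_iff.2 fun x y h3 h4 => disjoint_left.1 (hd' s hs s' hs' e)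
            ((hU' s hs).sP.mem x y h3) ((hU' s' hs').sP.mem x y h4)]
    have hzero : ∀ v, (∀ s ∈ T, v ∉ (U s).Y) → ∑ s ∈ T, dg (U s).P v = 0 := fun v hv =>
      sum_eq_zero fun s hs => dg_out (hU' s hs).sP (hv s hs)
    have hodd : ∀ v, Odd (dg (F ⊔ T.sup fun s => (U s).P) v) ↔ v ∈ (U t).S := fun v => by
      rw [hsum, Nat.odd_iff]
      by_cases hv : v ∈ (U t).Y
      · rw [hzero v fun s hs => hts s hs v hv, h1 t hm v hv]
        by_cases hs : v ∈ (U t).S <;> simp [hs]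
      · have hs : v ∉ (U t).S := fun h3 => hv (hUt.sub h3)
        refine iff_of_false ?_ hs
        by_cases hx : ∃ s ∈ T, v ∈ (U s).Y
        · obtain ⟨s, hsT, hvs⟩ := hx
          have h3 : ∑ s ∈ T, dg (U s).P v = dg (U s).P v :=
            sum_eq_single_of_mem s hsT fun s' hs' hne => dg_out (hU' s' hs').sP
              (disjoint_left.1 (hd' s hsT s' hs' hne.symm) hvs)
          rw [h3, h1 s (mem_insert_of_mem hsT) v hvs]
          by_cases h4 : v ∈ (U s).S
          · rw [if_pos h4, (hU' s hsT).sP.one v h4]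
            omega
          · have h5 := (hU' s hsT).sP.two v h4
            rw [if_neg h4]
            omega
        · have hx' : ∀ s ∈ T, v ∉ (U s).Y := fun s hsT h3 => hx ⟨s, hsT, h3⟩
          have h3 := h2 v fun s hsT => by
            rcases mem_insert.1 hsT with rfl | hsT
            · exact hv
            · exact hx' s hsT
          rw [hzero v hx']
          omega
    have hkey := hUt.key (F ⊔ K) fun a ha => by
      obtain ⟨b, hb, h3, h4⟩ := HM.parity ((hodd a).2 ha)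
      exact ⟨b, (hodd b).1 h4, hb, h3.mono (sup_le_sup_left hPK F)⟩
    obtain ⟨X, hX1, hX2, hX3⟩ : ∃ X : SimpleGraph V, St G (U t).Y (U t).S X ∧
        (∀ v ∈ Z, v ∈ (U t).Y → ∃ a ∈ (U t).S, X.Reachable v a) ∧
        ∀ a ∈ (U t).S, ∀ b ∈ (U t).S, (F ⊔ K ⊔ X).Reachable a b := by
      rcases hkey with h | h
      · exact ⟨(U t).P, hUt.sP, fun v hv h3 => (hZ v hv t hm h3).1, h⟩
      · exact ⟨(U t).Q, hUt.sQ, fun v hv h3 => (hZ v hv t hm h3).2, h⟩
    have hFX : Disjoint F X := HM.disj_iff.2 fun u v huv h3 =>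
      hin t hm u (hX1.mem u v h3) v (hX1.mem v u h3.symm) huv
    have hport : ∀ x y, (F ⊔ K).Adj x y → x ∈ (U t).Y → x ∈ (U t).S := fun x y hxy hx => by
      rcases hxy with h3 | h3
      · by_contra h4
        have h5 := h1 t hm x hx
        have h6 := HM.dg_pos h3
        rw [if_neg h4] at h5
        omega
      · obtain ⟨s, hs, h4⟩ := hKm x y h3
        exact absurd h4 (hts s hs x hx)
    have hZe : ∀ v ∈ Z, v ∈ (U t).Y → (F ⊔ K ⊔ X).Reachable v (U t).e := fun v hv h3 => by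
      obtain ⟨a, ha, h4⟩ := hX2 v hv h3
      exact (h4.mono le_sup_right).trans (hX3 a ha _ (e_mem _))
    suffices hs : ∃ F' ≤ G, (∀ v, dg F' v = 0 ∨ dg F' v = 2) ∧ F ⊔ X ≤ F' ∧
        (∀ u v, F'.Adj u v → (F ⊔ X).Adj u v ∨ ∃ t ∈ T, u ∈ (U t).Y) ∧
        ∀ u ∈ Z, ∀ v ∈ Z, F'.Reachable u v by
      obtain ⟨F', a1, a2, a3, a4, a5⟩ := hs
      refine ⟨F', a1, a2, le_sup_left.trans a3, fun u v huv => ?_, a5⟩
      rcases a4 u v huv with (h3 | h3) | ⟨s, hs, h3⟩
      · exact Or.inl h3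
      · exact Or.inr ⟨t, hm, hX1.mem u v h3⟩
      · exact Or.inr ⟨s, mem_insert_of_mem hs, h3⟩
    refine ih hU' hd' (F ⊔ X) (sup_le hF hX1.le) (fun s hs u hu v hv huv => ?_)
      (fun s hs v hv => ?_) (fun v hv => ?_)
      (fun v hv s hs => hZ v hv s (mem_insert_of_mem hs)) fun u hu v hv => ?_
    · rcases huv with h3 | h3
      · exact hin s (mem_insert_of_mem hs) u hu v hv h3
      · exact hts s hs u (hX1.mem u v h3) hu
    · rw [HM.dg_sup hFX, dg_out hX1 fun h3 => hts s hs v h3 hv, add_zero]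
      exact h1 s (mem_insert_of_mem hs) v hv
    · rw [HM.dg_sup hFX]
      by_cases h3 : v ∈ (U t).Y
      · rw [h1 t hm v h3]
        by_cases h4 : v ∈ (U t).S
        · rw [if_pos h4, hX1.one v h4]
          exact Or.inr rfl
        · rw [if_neg h4, zero_add]
          exact hX1.two v h4
      · rw [dg_out hX1 h3, add_zero]
        refine h2 v fun s hs => ?_
        rcases mem_insert.1 hs with rfl | hs
        · exact h3
        · exact hv s hs
    · rw [sup_right_comm]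
      have hstep : ∀ x y, (F ⊔ K).Adj x y →
          ((x ∉ (U t).Y → (F ⊔ K ⊔ X).Reachable u x) ∧
            (x ∈ (U t).Y → (F ⊔ K ⊔ X).Reachable u (U t).e)) →
          ((y ∉ (U t).Y → (F ⊔ K ⊔ X).Reachable u y) ∧
            (y ∈ (U t).Y → (F ⊔ K ⊔ X).Reachable u (U t).e)) := fun x y hxy hx => by
        have h3 : (F ⊔ K ⊔ X).Reachable u x := by
          by_cases h4 : x ∈ (U t).Y
          · exact (hx.2 h4).trans (hX3 _ (e_mem _) x (hport x y hxy h4))
          · exact hx.1 h4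
        have h4 : (F ⊔ K ⊔ X).Reachable u y :=
          h3.trans (SimpleGraph.Adj.reachable (Or.inl hxy))
        exact ⟨fun _ => h4, fun h5 => h4.trans (hX3 y (hport y x hxy.symm h5) _ (e_mem _))⟩
      have hend := HM.reach_ind (p := fun x => (x ∉ (U t).Y → (F ⊔ K ⊔ X).Reachable u x) ∧
          (x ∈ (U t).Y → (F ⊔ K ⊔ X).Reachable u (U t).e)) (fun x y hxy hx => by
        rcases hxy with h3 | h3 | h3
        · exact hstep x y (Or.inl h3) hx
        · have h4 : x ∈ (U t).Y ∧ y ∈ (U t).Y := by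
            rcases h3 with h3 | h3
            · exact ⟨hUt.sP.mem x y h3, hUt.sP.mem y x h3.symm⟩
            · exact ⟨hUt.sQ.mem x y h3, hUt.sQ.mem y x h3.symm⟩
          exact ⟨fun h5 => absurd h4.2 h5, fun _ => hx.2 h4.1⟩
        · exact hstep x y (Or.inr h3) hx) (hc u hu v hv)
        ⟨fun _ => SimpleGraph.Reachable.refl u, hZe u hu⟩
      by_cases h3 : v ∈ (U t).Y
      · exact (hend.2 h3).trans (hZe v hv h3).symm
      · exact hend.1 h3

end Pool.Agent.Lib.MP_f20cd2_co.DP
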