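import Pool.Agent.Lib.MP_f20cd2_co.DP.Round
import Pool.Agent.Lib.MP_f20cd2_co.DP.Switch
import Pool.Agent.Lib.MP_f20cd2_co.DP.Lift
import Pool.Agent.Lib.MP_f20cd2_co.DP.TJ

/-!
One path through all units.
-/

set_option autoImplicit false
set_option linter.unusedSectionVars false

namespace Pool.Agent.Lib.MP_f20cd2_co.DP

open Finset
open Pool.Agent.Lib.MP_f20cd2_co.H83 (Conn Cells)
open Pool.Agent.Lib.MP_f20cd2_co.PL
open Pool.Agent.Lib.MP_f20cd2_co.HM (dg)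
open scoped Classical

variable {V : Type} [Fintype V] [DecidableEq V] {G : SimpleGraph V}

namespace FinAux

lemma rs_mono {D : ℕ → Finset V} {a b a' b' : ℕ} (h1 : a' ≤ a) (h2 : b ≤ b') :
    Rs D a b ⊆ Rs D a' b' := by
  intro v hv
  obtain ⟨j, h3, h4, h5⟩ := mem_Rs.1 hv
  exact mem_Rs.2 ⟨j, by omega, by omega, h5⟩

lemma pay_mem {U : Un V} (h : U.Ok G) {v : V} (hv : v ∈ U.Pay) : v ∈ U.Y := by
  obtain ⟨⟨b, hb, ⟨w⟩⟩, -⟩ := h.pay v hv
  cases w with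
  | nil => exact h.sub hb
  | cons ha _ => exact h.sP.mem _ _ ha

/-- All ports are ends of one system of paths that connects the groups. -/
lemma link {r : ℕ} {D : ℕ → Finset V} {Sd : Finset V} {ft : ℕ → V → V} (h : LS G r D Sd ft)
    {K D0 : ℕ} {al : ℕ → ℕ} (hn : Num 9 K D0 al) (h1 : ∀ c, 2 ≤ c → c ≤ 9 → al c + 1 ≤ K)
    {a : ℕ} (ha : a + 9 * K + 4 ≤ r) (Kc : SimpleGraph V) (A : Finset V) (hA : A ⊆ Sd)
    (hev : Even A.card) (hc : ∀ v ∈ A, 4 ≤ (rf Kc A v).card) :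
    ∃ J, PS G J (Rs D a (a + 9 * K + 4)) A ∧ ∀ u ∈ A, ∀ v ∈ A, (J ⊔ Kc).Reachable u v := by
  obtain ⟨J1, T1, hT1, hP1, hc1⟩ := rounds (G := G) (Sd := Sd)
    (fun i => Rs D (a + 4 * i) (a + 4 * i + 4)) K
    (fun i hi => tj h (by omega))
    (fun i hi j hj hij => by
      rcases Nat.lt_or_gt_of_ne hij with h2 | h2
      · exact h.disj_Rs (by omega) (by omega)
      · exact (h.disj_Rs (by omega) (by omega)).symm)
    (fun i hi => h.sd_Rs (by omega)) Kc A hA hc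
  have hP1' : PS G J1 (Rs D a (a + 8 * K)) T1 := by
    refine hP1.mono fun v hv => ?_
    obtain ⟨i, hi, hv⟩ := mem_biUnion.1 hv
    have hi' := mem_range.1 hi
    exact rs_mono (by omega) (by omega) hv
  have h2 : ∃ J2 T2, T2 ⊆ A \ T1 ∧ PS G J2 (Rs D (a + 8 * K) (a + 8 * K + K)) T2 ∧
      ∀ u ∈ A, ∀ v ∈ A, ((Kc ⊔ J1) ⊔ J2).Reachable u v := by
    rcases hc1 with hc1 | hc1
    · exact ⟨⊥, ∅, empty_subset _, PS.bot _, fun u hu v hv => (hc1 u hu v hv).mono le_sup_left⟩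
    · refine cn h hn h1 (a := a + 8 * K) (by omega) (Kc ⊔ J1) A (A \ T1) sdiff_subset
        (sdiff_subset.trans hA) fun v hv => le_trans ?_ (hc1 v hv)
      have h3 : K < 2 ^ K := Nat.lt_two_pow_self
      omega
  obtain ⟨J2, T2, hT2, hP2, hc2⟩ := h2
  have hT2A : T2 ⊆ A := hT2.trans sdiff_subset
  have hd12 : Disjoint T1 T2 := by
    rw [disjoint_left]
    intro v hv1 hv2
    exact (mem_sdiff.1 (hT2 hv2)).2 hv1
  have hP12 := hP1'.sup hP2 (h.disj_Rs le_rfl (by omega)) hd12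
    ((h.sd_Rs (by omega)).mono_left (hT1.trans hA))
    ((h.sd_Rs (by omega)).mono_left (hT2A.trans hA))
  have hP12' : PS G (J1 ⊔ J2) (Rs D a (a + 9 * K)) (T1 ∪ T2) :=
    hP12.mono (union_subset (rs_mono le_rfl (by omega)) (rs_mono (by omega) (by omega)))
  have hsub : T1 ∪ T2 ⊆ A := union_subset hT1 hT2A
  have hev3 : Even (A \ (T1 ∪ T2)).card := by
    have h3 := card_sdiff_add_card_eq_card hsub
    have h4 := hP12'.even
    rw [← h3] at hev
    exact (Nat.even_add.1 hev).2 h4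
  obtain ⟨J3, hP3⟩ := tj h (a := a + 9 * K) ha (A \ (T1 ∪ T2)) (sdiff_subset.trans hA) hev3
  have hP := hP12'.sup hP3 (h.disj_Rs le_rfl ha) disjoint_sdiff
    ((h.sd_Rs ha).mono_left (hsub.trans hA))
    ((h.sd_Rs (by omega)).mono_left (sdiff_subset.trans hA))
  rw [union_sdiff_of_subset hsub] at hP
  refine ⟨(J1 ⊔ J2) ⊔ J3,
    hP.mono (union_subset (rs_mono le_rfl (by omega)) (rs_mono (by omega) le_rfl)),
    fun u hu v hv => (hc2 u hu v hv).mono ?_⟩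
  exact sup_le (sup_le le_sup_right (le_sup_of_le_left (le_sup_of_le_left le_sup_left)))
    (le_sup_of_le_left (le_sup_of_le_left le_sup_right))

end FinAux

/-- One cycle of `G` passes through the payloads of all units. -/
theorem finish2 {r : ℕ} {D : ℕ → Finset V} {Sd : Finset V} {ft : ℕ → V → V} (h : LS G r D Sd ft)
    {K D0 : ℕ} {al : ℕ → ℕ} (hn : Num 9 K D0 al) (h1 : ∀ c, 2 ≤ c → c ≤ 9 → al c + 1 ≤ K)
    {a : ℕ} (ha : a + 9 * K + 4 ≤ r) {ι : Type} [DecidableEq ι] {W : Finset V} {T : Finset ι}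
    {U : ι → Un V} (hU : Fam G Sd W T U) (hW : Disjoint W (Rs D a r)) :
    ∃ F ≤ G, (∀ v, dg F v = 0 ∨ dg F v = 2) ∧
      (∀ u v, F.Adj u v → u ∈ W ∨ u ∈ Rs D a (a + 9 * K + 4)) ∧ (∀ t ∈ T, dg F (U t).e = 2) ∧
      ∀ t ∈ T, ∀ t' ∈ T, ∀ v ∈ (U t').Pay, F.Reachable (U t).e v := by
  have same : ∀ t ∈ T, ∀ t' ∈ T, ∀ v, v ∈ (U t).Y → v ∈ (U t').Y → t = t' := by
    intro t ht t' ht' v h2 h3
    by_contra hne
    exact disjoint_left.1 (hU.disj t ht t' ht' hne) h2 h3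
  obtain ⟨A, hAm⟩ : ∃ A : Finset V, ∀ v, v ∈ A ↔ ∃ t ∈ T, v ∈ (U t).S :=
    ⟨T.biUnion fun t => (U t).S, fun v => mem_biUnion⟩
  have hAe : A = T.biUnion fun t => (U t).S := by
    ext v
    rw [hAm, mem_biUnion]
  have hA : A ⊆ Sd := fun v hv => by
    obtain ⟨t, ht, hv⟩ := (hAm v).1 hv
    exact hU.port t ht hv
  have hev : Even A.card := by
    rw [hAe, card_biUnion]
    · refine even_sum _ fun t ht => ?_
      rw [(hU.ok t ht).card]
      decide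
    · intro t ht t' ht' hne
      exact (hU.disj t ht t' ht' hne).mono (hU.ok t ht).sub (hU.ok t' ht').sub
  have hle : ∀ t ∈ T, (U t).P ⊔ (U t).Q ≤ T.sup fun t => (U t).P ⊔ (U t).Q := fun t ht =>
    le_sup (f := fun t => (U t).P ⊔ (U t).Q) ht
  obtain ⟨J, hP, hJ⟩ := FinAux.link h hn h1 ha (T.sup fun t => (U t).P ⊔ (U t).Q) A hA hev
    fun v hv => by
      obtain ⟨t, ht, hv⟩ := (hAm v).1 hv
      rw [← (hU.ok t ht).card]
      refine card_le_card fun w hw => mem_rf.2 ⟨(hAm w).2 ⟨t, ht, hw⟩, ?_⟩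
      exact ((hU.ok t ht).conn hv hw).mono (hle t ht)
  have hYR : ∀ t ∈ T, ∀ v ∈ (U t).Y, v ∉ Rs D a (a + 9 * K + 4) := fun t ht v hv h2 =>
    disjoint_left.1 hW (hU.sub t ht hv) (FinAux.rs_mono le_rfl ha h2)
  obtain ⟨Z, hZm⟩ : ∃ Z : Finset V, ∀ v, v ∈ Z ↔ v ∈ A ∨ ∃ t ∈ T, v ∈ (U t).Pay :=
    ⟨A ∪ T.biUnion fun t => (U t).Pay, fun v => by rw [mem_union, mem_biUnion]⟩
  have hZA : ∀ v ∈ Z, ∃ b ∈ A, (J ⊔ T.sup fun t => (U t).P ⊔ (U t).Q).Reachable v b := by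
    intro v hv
    rcases (hZm v).1 hv with hv | ⟨t, ht, hv⟩
    · exact ⟨v, hv, SimpleGraph.Reachable.refl v⟩
    · obtain ⟨⟨b, hb, hr⟩, -⟩ := (hU.ok t ht).pay v hv
      exact ⟨b, (hAm b).2 ⟨t, ht, hb⟩,
        hr.mono (le_sup_of_le_right (le_sup_left.trans (hle t ht)))⟩
  obtain ⟨F', hF', hdg, hJF, hin, hr⟩ := switch2 T U hU.ok hU.disj J hP.le
    (fun t ht u hu v hv hadj => (hP.nin u v hadj).elim (hYR t ht u hu) (hYR t ht v hv))
    (fun t ht v hv => by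
      by_cases hs : v ∈ (U t).S
      · rw [if_pos hs]
        exact hP.one v ((hAm v).2 ⟨t, ht, hs⟩)
      · rw [if_neg hs]
        have hvA : v ∉ A := fun hvA => by
          obtain ⟨t', ht', hv'⟩ := (hAm v).1 hvA
          have h2 := same t ht t' ht' v hv ((hU.ok t' ht').sub hv')
          subst h2
          exact hs hv'
        rcases hP.two v hvA with h2 | h2
        · exact h2
        · exact absurd h2.1 (hYR t ht v hv))
    (fun v hv => by
      have hvA : v ∉ A := fun hvA => by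
        obtain ⟨t', ht', hv'⟩ := (hAm v).1 hvA
        exact hv t' ht' ((hU.ok t' ht').sub hv')
      exact (hP.two v hvA).imp id fun h2 => h2.2)
    Z
    (fun v hv t ht hvY => by
      rcases (hZm v).1 hv with hv | ⟨t', ht', hv⟩
      · obtain ⟨t', ht', hv'⟩ := (hAm v).1 hv
        have h2 := same t ht t' ht' v hvY ((hU.ok t' ht').sub hv')
        subst h2
        exact ⟨⟨v, hv', SimpleGraph.Reachable.refl v⟩, v, hv', SimpleGraph.Reachable.refl v⟩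
      · have h2 := same t ht t' ht' v hvY (FinAux.pay_mem (hU.ok t' ht') hv)
        subst h2
        exact (hU.ok t ht).pay v hv)
    (fun u hu v hv => by
      obtain ⟨b, hb, h2⟩ := hZA u hu
      obtain ⟨c, hc, h3⟩ := hZA v hv
      exact (h2.trans (hJ b hb c hc)).trans h3.symm)
  have heA : ∀ t ∈ T, (U t).e ∈ A := fun t ht => (hAm _).2 ⟨t, ht, by simp [Un.S]⟩
  refine ⟨F', hF', hdg, fun u v huv => ?_, fun t ht => ?_, fun t ht t' ht' v hv =>
    hr _ ((hZm _).2 (Or.inl (heA t ht))) v ((hZm v).2 (Or.inr ⟨t', ht', hv⟩))⟩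
  · rcases hin u v huv with h2 | ⟨t, ht, h2⟩
    · by_cases hu : u ∈ A
      · obtain ⟨t, ht, h3⟩ := (hAm u).1 hu
        exact Or.inl (hU.sub t ht ((hU.ok t ht).sub h3))
      · have h3 := HM.dg_pos h2
        rcases hP.two u hu with h4 | h4
        · omega
        · exact Or.inr h4.1
    · exact Or.inl (hU.sub t ht h2)
  · have h2 := hP.one _ (heA t ht)
    have h3 := HM.dg_mono hJF (U t).e
    have h4 := hdg (U t).e
    omega

/-- One path of `G` passes through the payloads of all units. -/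
theorem finish {r : ℕ} {D : ℕ → Finset V} {Sd : Finset V} {ft : ℕ → V → V} (h : LS G r D Sd ft)
    {K D0 : ℕ} {al : ℕ → ℕ} (hn : Num 9 K D0 al) (h1 : ∀ c, 2 ≤ c → c ≤ 9 → al c + 1 ≤ K)
    {a : ℕ} (ha : a + 9 * K + 4 ≤ r) {ι : Type} [DecidableEq ι] {W : Finset V} {T : Finset ι}
    {U : ι → Un V} (hU : Fam G Sd W T U) (hW : Disjoint W (Rs D a r)) :
    ∃ l, IsP G l ∧ ∀ t ∈ T, ∀ v ∈ (U t).Pay, v ∈ l := by
  rcases T.eq_empty_or_nonempty with rfl | ⟨t0, ht0⟩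
  · exact ⟨[], ⟨List.nodup_nil, List.IsChain.nil⟩, fun t ht => absurd ht (notMem_empty t)⟩
  obtain ⟨F, hF, hdg, -, -, hr⟩ := finish2 h hn h1 ha hU hW
  obtain ⟨l, hl, hm⟩ := path_of_deg F (fun v => by have := hdg v; omega) (U t0).e
  exact ⟨l, hl.mono hF, fun t ht v hv => hm v (hr t0 ht0 t ht v hv)⟩

end Pool.Agent.Lib.MP_f20cd2_co.DP
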