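import Pool.Agent.Lib.MP_f20cd2_co.DP.Unit

/-!
Lists, walks and graphs of degree at most two.
-/

set_option autoImplicit false
set_option linter.unusedSectionVars false

namespace Pool.Agent.Lib.MP_f20cd2_co.DP

open Finset
open Pool.Agent.Lib.MP_f20cd2_co.H83 (Conn Cells)
open Pool.Agent.Lib.MP_f20cd2_co.PL
open Pool.Agent.Lib.MP_f20cd2_co.HM (dg)
open scoped Classical

variable {V : Type} [Fintype V] [DecidableEq V] {G : SimpleGraph V}

/-- A vertex of a path with two vertices has a neighbour. -/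
theorem IsP.nb {X : SimpleGraph V} {l : List V} (h : IsP X l) (h2 : 2 ≤ l.length) {v : V}
    (hv : v ∈ l) : ∃ u, X.Adj v u := by
  obtain ⟨i, hi, rfl⟩ := List.getElem_of_mem hv
  by_cases h1 : i + 1 < l.length
  · exact ⟨_, h.2.getElem i h1⟩
  · obtain ⟨j, rfl⟩ : ∃ j, i = j + 1 := ⟨i - 1, by omega⟩
    exact ⟨_, (h.2.getElem j hi).symm⟩

/-- `X = seg w i j` with `w k = l.getD k u`, where `i` is the first and `j` the last index of a
vertex of `A`; `dg_seg`, `seg_reach`. -/
theorem trim {l : List V} (h : IsP G l) {A : Finset V} (h2 : 2 ≤ (A.filter fun v => v ∈ l).card) :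
    ∃ (u v : V) (Y : Finset V) (X : SimpleGraph V), u ≠ v ∧ u ∈ A ∧ v ∈ A ∧ St G Y {u, v} X ∧
      (∀ y ∈ Y, y ∈ l) ∧ ∀ z ∈ A, z ∈ l → X.Reachable z v := by
  obtain ⟨u0, hu0, v0, hv0, hne⟩ := one_lt_card.1 (show 1 < (A.filter fun v => v ∈ l).card by omega)
  obtain ⟨hu1, hu2⟩ := mem_filter.1 hu0
  obtain ⟨hv1, hv2⟩ := mem_filter.1 hv0
  let w : ℕ → V := fun k => l.getD k u0
  have hw : ∀ k (hk : k < l.length), w k = l[k] := fun k hk => List.getD_eq_getElem _ _ hk
  let I : Finset ℕ := (range l.length).filter fun k => w k ∈ A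
  have hI : ∀ z ∈ A, z ∈ l → ∃ k ∈ I, w k = z := fun z hz hl => by
    obtain ⟨k, hk, rfl⟩ := List.getElem_of_mem hl
    exact ⟨k, mem_filter.2 ⟨mem_range.2 hk, by rw [hw k hk]; exact hz⟩, hw k hk⟩
  obtain ⟨k1, hk1, e1⟩ := hI u0 hu1 hu2
  obtain ⟨k2, hk2, e2⟩ := hI v0 hv1 hv2
  have hne' : I.Nonempty := ⟨k1, hk1⟩
  obtain ⟨a, ha, hamin⟩ : ∃ a ∈ I, ∀ k ∈ I, a ≤ k :=
    ⟨I.min' hne', min'_mem _ _, fun k hk => min'_le _ _ hk⟩
  obtain ⟨b, hb, hbmax⟩ : ∃ b ∈ I, ∀ k ∈ I, k ≤ b :=
    ⟨I.max' hne', max'_mem _ _, fun k hk => le_max' _ _ hk⟩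
  have hbl : b < l.length := mem_range.1 (mem_filter.1 hb).1
  have hab : a < b := by
    have h3 : k1 ≠ k2 := fun e => hne (by rw [← e1, ← e2, e])
    have := hamin k1 hk1
    have := hamin k2 hk2
    have := hbmax k1 hk1
    have := hbmax k2 hk2
    omega
  have hinj : ∀ i, a ≤ i → i ≤ b → ∀ j, a ≤ j → j ≤ b → w i = w j → i = j :=
    fun i _ hi j _ hj e => by
      rw [hw i (by omega), hw j (by omega)] at e
      exact (List.Nodup.getElem_inj_iff h.1).1 e
  refine ⟨w a, w b, l.toFinset, seg w a b, fun e => hab.ne (hinj a le_rfl hab.le b hab.le le_rfl e),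
    (mem_filter.1 ha).2, (mem_filter.1 hb).2, ⟨?_, ?_, ?_, ?_⟩, fun y hy => List.mem_toFinset.1 hy,
    fun z hz hl => ?_⟩
  · intro x y hxy
    obtain ⟨-, i, -, h4, h5⟩ := seg_adj.1 hxy
    have h6 : G.Adj (w i) (w (i + 1)) := by
      rw [hw i (by omega), hw (i + 1) (by omega)]
      exact h.2.getElem i (by omega)
    rcases h5 with ⟨rfl, rfl⟩ | ⟨rfl, rfl⟩
    · exact h6
    · exact h6.symm
  · intro x y hxy
    obtain ⟨-, i, -, h4, h5⟩ := seg_adj.1 hxy
    rw [List.mem_toFinset]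
    rcases h5 with ⟨rfl, -⟩ | ⟨-, rfl⟩
    · rw [hw i (by omega)]
      exact List.getElem_mem _
    · rw [hw (i + 1) (by omega)]
      exact List.getElem_mem _
  · intro v hv
    rw [dg_seg hab hinj, if_pos (by simpa using hv)]
  · intro v hv
    rw [dg_seg hab hinj, if_neg (by simpa using hv)]
    split_ifs
    · exact Or.inr rfl
    · exact Or.inl rfl
  · obtain ⟨k, hk, rfl⟩ := hI z hz hl
    exact seg_reach (hamin k hk) (hbmax k hk) le_rfl

/-- As in `HM.ham_of_two`; map the cycle to `G` by `Walk.mapLe`. -/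
theorem cyc_of {F : SimpleGraph V} (hF : F ≤ G) (hd : ∀ v, dg F v = 0 ∨ dg F v = 2) {a : V}
    (ha : dg F a = 2) :
    ∃ c : G.Walk a a, c.IsCycle ∧ ∀ v, F.Reachable a v → v ∈ c.support := by
  have h1 : F.IsCycles := fun x ⟨y, hy⟩ => by
    have h2 : dg F x = 2 := (hd x).resolve_left (HM.dg_pos (H := F) hy).ne'
    rw [← h2, dg, ← Set.ncard_coe_finset]
    congr 1
    ext w
    simp
  obtain ⟨w, hw⟩ := HM.exists_adj (H := F) (v := a) (by rw [ha]; norm_num)
  obtain ⟨p, hp, h2⟩ := h1.exists_cycle_toSubgraph_verts_eq_connectedComponentSupp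
    (c := F.connectedComponentMk a) (v := a) rfl ⟨w, hw⟩
  refine ⟨p.mapLe hF, hp.mapLe hF, fun v hv => ?_⟩
  rw [SimpleGraph.Walk.support_mapLe_eq_support, ← SimpleGraph.Walk.mem_verts_toSubgraph, h2]
  exact SimpleGraph.ConnectedComponent.sound hv.symm

/-- `l = c.support.tail`; a rotation is `drop j l ++ take j l`. -/
theorem list_of_cyc {a : V} {c : G.Walk a a} (hc : c.IsCycle) :
    ∃ l : List V, l.length = c.length ∧ l.toFinset = c.support.toFinset ∧
      ∀ j, IsP G (l.rotate j) := by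
  have h3 := hc.three_le_length
  have hl : c.support.tail.length = c.length := by
    rw [List.length_tail, SimpleGraph.Walk.length_support]
    rfl
  have hg : ∀ i (hi : i < c.support.tail.length), c.support.tail[i] = c.getVert (i + 1) :=
    fun i hi => by
      rw [List.getElem_tail, SimpleGraph.Walk.support_getElem_eq_getVert]
  refine ⟨c.support.tail, hl, ?_, fun j => ⟨List.nodup_rotate.2 hc.support_nodup, ?_⟩⟩
  · ext x
    rw [List.mem_toFinset, List.mem_toFinset]
    refine ⟨List.mem_of_mem_tail, fun h => ?_⟩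
    rw [← c.cons_tail_support, List.mem_cons] at h
    rcases h with rfl | h
    · exact c.end_mem_tail_support hc.not_nil
    · exact h
  · refine List.isChain_iff_getElem.2 fun i hi => ?_
    rw [List.getElem_rotate, List.getElem_rotate, hg, hg, hl]
    have h4 : (i + j) % c.length < c.length := Nat.mod_lt _ (by omega)
    have h5 : (i + 1 + j) % c.length = ((i + j) % c.length + 1) % c.length := by
      rw [Nat.mod_add_mod, Nat.add_right_comm]
    rw [h5]
    by_cases h6 : (i + j) % c.length + 1 < c.length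
    · rw [Nat.mod_eq_of_lt h6]
      exact c.adj_getVert_succ h6
    · have h7 : (i + j) % c.length + 1 = c.length := by omega
      rw [h7, Nat.mod_self, c.getVert_length]
      have h8 := c.adj_getVert_succ (i := 0) (by omega)
      rwa [c.getVert_zero] at h8

end Pool.Agent.Lib.MP_f20cd2_co.DP
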