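import Pool.Agent.Lib.MP_f20cd2_co.DP.AUnits
import Pool.Agent.Lib.MP_f20cd2_co.DP.ARound
import Pool.Agent.Lib.MP_f20cd2_co.DP.Fin
import Pool.Agent.Lib.MP_f20cd2_co.DP.Lst

/-!
A path through almost all vertices of a set.
-/

set_option autoImplicit false
set_option linter.unusedSectionVars false

namespace Pool.Agent.Lib.MP_f20cd2_co.DP

open Finset
open Pool.Agent.Lib.MP_f20cd2_co.H83 (Conn Cells)
open Pool.Agent.Lib.MP_f20cd2_co.PL
open Pool.Agent.Lib.MP_f20cd2_co.HM (dg)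
open scoped Classical

variable {V : Type} [Fintype V] [DecidableEq V] {G : SimpleGraph V}

namespace APathAux

theorem path_nb (X : SimpleGraph V) (h : ∀ v, dg X v ≤ 2) {e : V} (he : 0 < dg X e) :
    ∃ L, IsP X L ∧ (∀ v, X.Reachable e v → v ∈ L) ∧ ∀ v ∈ L, ∃ u, X.Adj v u := by
  obtain ⟨L, h1, h2⟩ := path_of_deg X h e
  obtain ⟨u, hu⟩ := HM.exists_adj he
  have h3 : 2 ≤ L.length := by
    have h4 : ({e, u} : Finset V) ⊆ L.toFinset := by
      intro x hx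
      rcases mem_insert.1 hx with rfl | hx
      · exact List.mem_toFinset.2 (h2 _ (SimpleGraph.Reachable.refl _))
      · rw [mem_singleton.1 hx]
        exact List.mem_toFinset.2 (h2 _ hu.reachable)
    have h5 := card_le_card h4
    rw [card_pair hu.ne] at h5
    exact h5.trans (List.toFinset_card_le L)
  exact ⟨L, h1, h2, fun v hv => h1.nb h3 hv⟩

theorem one_unit {U : Un V} (h : U.Ok G) :
    ∃ L, IsP G L ∧ (∀ v ∈ L, v ∈ U.Y) ∧ ∀ v ∈ U.Full, v ∈ L := by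
  have hd : ∀ v, dg U.R v ≤ 2 := fun v => by
    by_cases hv : v ∈ ({U.e, U.f} : Finset V)
    · rw [h.sR.one v hv]
      omega
    · rcases h.sR.two v hv with h1 | h1 <;> omega
  have he : 0 < dg U.R U.e := by
    rw [h.sR.one _ (mem_insert_self _ _)]
    omega
  obtain ⟨L, h1, h2, h3⟩ := path_nb U.R hd he
  refine ⟨L, h1.mono h.sR.le, fun v hv => ?_, fun v hv => h2 v (h.full v hv).symm⟩
  obtain ⟨u, hu⟩ := h3 v hv
  exact h.sR.mem v u hu

theorem disj_lane {χ : V → ℕ} {W : Finset V} {b r : ℕ} (h : ∀ v ∈ W, χ v ≤ b) :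
    Disjoint W (Rs (lane χ) b r) := by
  rw [disjoint_left]
  intro v hv hv'
  obtain ⟨j, h1, -, h2⟩ := mem_Rs.1 hv'
  have h3 := h v hv
  rw [mem_lane] at h2
  omega

theorem col_le {χ : V → ℕ} {a b : ℕ} {v : V} (h : v ∈ Rs (lane χ) a b) : χ v ≤ b := by
  obtain ⟨j, -, h1, h2⟩ := mem_Rs.1 h
  rw [mem_lane] at h2
  omega

theorem rs_mono {D : ℕ → Finset V} {a b a' b' : ℕ} (h1 : a' ≤ a) (h2 : b ≤ b') {v : V}
    (h : v ∈ Rs D a b) : v ∈ Rs D a' b' := by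
  obtain ⟨j, h3, h4, h5⟩ := mem_Rs.1 h
  exact mem_Rs.2 ⟨j, h1.trans h3, h4.trans_le h2, h5⟩

/-- One path that covers all units up to a small set. -/
theorem last {r : ℕ} {D : ℕ → Finset V} {Sd : Finset V} {ft : ℕ → V → V} (h : LS G r D Sd ft)
    {K D0 : ℕ} {al : ℕ → ℕ} (hn : Num 9 K D0 al) (hal : ∀ c, 2 ≤ c → c ≤ 9 → al c + 1 ≤ K)
    {b : ℕ} (hb : b + 9 * K + 4 ≤ r) {W T : Finset V} {U : V → Un V} (hU : Fam G Sd W T U)
    (hW : Disjoint W (Rs D b r)) {q : ℕ}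
    (hl : T.card ≤ 1 ∨ q * ∑ t ∈ T, (U t).loss ≤ Fintype.card V) :
    ∃ (L : List V) (Z : Finset V), IsP G L ∧ (∀ v ∈ L, v ∈ W ∨ v ∈ Rs D b (b + 9 * K + 4)) ∧
      q * Z.card ≤ Fintype.card V ∧ ∀ t ∈ T, ∀ v ∈ (U t).Full, v ∈ L ∨ v ∈ Z := by
  rcases T.eq_empty_or_nonempty with rfl | ⟨t0, ht0⟩
  · exact ⟨[], ∅, ⟨List.nodup_nil, List.isChain_nil⟩, by simp, by simp, by simp⟩
  rcases hl with hl | hl
  · obtain ⟨L, h1, h2, h3⟩ := one_unit (hU.ok t0 ht0)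
    refine ⟨L, ∅, h1, fun v hv => Or.inl (hU.sub t0 ht0 (h2 v hv)), by simp, fun t ht v hv => ?_⟩
    rw [card_le_one.1 hl t ht t0 ht0] at hv
    exact Or.inl (h3 v hv)
  · obtain ⟨F, f1, f2, f3, f4, f5⟩ := finish2 h hn hal hb hU hW
    obtain ⟨L, h1, h2, h3⟩ := path_nb F (fun v => by rcases f2 v with h1 | h1 <;> omega)
      (e := (U t0).e) (by rw [f4 t0 ht0]; omega)
    refine ⟨L, T.biUnion fun t => (U t).Full \ (U t).Pay, h1.mono f1, fun v hv => ?_,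
      (Nat.mul_le_mul_left q card_biUnion_le).trans hl, fun t ht v hv => ?_⟩
    · obtain ⟨u, hu⟩ := h3 v hv
      exact f3 v u hu
    · by_cases hp : v ∈ (U t).Pay
      · exact Or.inl (h2 v (f5 t0 ht0 t ht v hp))
      · exact Or.inr (mem_biUnion.2 ⟨t, ht, mem_sdiff.2 ⟨hv, hp⟩⟩)

end APathAux

/-- See the plan. -/
theorem apath {r s : ℕ} {χ : V → ℕ} {Op : V → Finset V} (h : LN G r s χ Op) {l : ℕ}
    (h1 : 36 * s ^ 2 ≤ l) (h2 : 2 ≤ l) {K D0 : ℕ} {al : ℕ → ℕ} (hn : Num 9 K D0 al)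
    (hal : ∀ c, 2 ≤ c → c ≤ 9 → al c + 1 ≤ K) (A : Finset V) (h0 : ∀ v ∈ A, χ v = 0) {a k q : ℕ}
    (ha : a + 4 + 4 * k + 9 * K + 4 ≤ r) (hq : q * 2 ^ k ≤ 3 ^ k)
    (hE : Expd G ((6 * l * q : ℕ) : ℝ)) :
    ∃ L, IsP G L ∧ (∀ v ∈ L, v ∈ A ∨ v ∈ Rs (lane χ) a (a + 4 + 4 * k + 9 * K + 4)) ∧
      q * (A.filter fun v => v ∉ L).card ≤ 2 * Fintype.card V := by
  obtain ⟨Sd, ft, T, U, I, hL, hF, hI, hc⟩ := aunits h h1 h2 A h0 (a := a) (by omega)
  have c1 : ∀ v ∈ A ∪ Rs (lane χ) a (a + 4), χ v ≤ a + 4 := fun v hv => by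
    rcases mem_union.1 hv with hv | hv
    · rw [h0 v hv]
      omega
    · exact APathAux.col_le hv
  obtain ⟨T', U', hF', hfull, hloss⟩ :=
    arounds hL hF (a := a + 4) (APathAux.disj_lane c1) k (by omega)
  have c2 : ∀ v ∈ A ∪ Rs (lane χ) a (a + 4) ∪ Rs (lane χ) (a + 4) (a + 4 + 4 * k),
      χ v ≤ a + 4 + 4 * k := fun v hv => by
    rcases mem_union.1 hv with hv | hv
    · exact (c1 v hv).trans (by omega)
    · exact APathAux.col_le hv
  have hl : T'.card ≤ 1 ∨ q * ∑ t ∈ T', (U' t).loss ≤ Fintype.card V := by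
    refine hloss.imp_right fun h3 => ?_
    refine Nat.le_of_mul_le_mul_left ?_ (Nat.two_pow_pos k)
    calc 2 ^ k * (q * ∑ t ∈ T', (U' t).loss) = q * 2 ^ k * ∑ t ∈ T', (U' t).loss := by ring
      _ ≤ 3 ^ k * ∑ t ∈ T', (U' t).loss := Nat.mul_le_mul_right _ hq
      _ ≤ _ := h3
  obtain ⟨L, Z, l1, l2, l3, l4⟩ :=
    APathAux.last hL hn hal ha hF' (APathAux.disj_lane c2) hl
  refine ⟨L, l1, fun v hv => ?_, ?_⟩
  · rcases l2 v hv with h3 | h3
    · rcases mem_union.1 h3 with h3 | h3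
      · rcases mem_union.1 h3 with h3 | h3
        · exact Or.inl h3
        · exact Or.inr (APathAux.rs_mono le_rfl (by omega) h3)
      · exact Or.inr (APathAux.rs_mono (by omega) (by omega) h3)
    · exact Or.inr (APathAux.rs_mono (by omega) le_rfl h3)
  · have h3 : 6 * l * q * I.card ≤ Fintype.card V := by
      have h4 : ((6 * l * q : ℕ) : ℝ) * I.card ≤ ((nbr G I).card : ℝ) := hE I hI
      have h5 : 6 * l * q * I.card ≤ (nbr G I).card := by exact_mod_cast h4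
      exact h5.trans (card_le_univ _)
    have h4 : (A.filter fun v => v ∉ L) ⊆ (A.filter fun v => ∀ t ∈ T, v ∉ (U t).Full) ∪ Z := by
      intro v hv
      obtain ⟨h5, h6⟩ := mem_filter.1 hv
      by_cases h7 : ∀ t ∈ T, v ∉ (U t).Full
      · exact mem_union_left _ (mem_filter.2 ⟨h5, h7⟩)
      · push Not at h7
        obtain ⟨t, ht, h8⟩ := h7
        obtain ⟨t', ht', h9⟩ := hfull t ht
        exact mem_union_right _ ((l4 t' ht' v (h9 h8)).resolve_left h6)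
    have h5 := (card_le_card h4).trans ((card_union_le _ _).trans (Nat.add_le_add_right hc _))
    calc q * (A.filter fun v => v ∉ L).card ≤ q * (6 * l * I.card + Z.card) :=
          Nat.mul_le_mul_left q h5
      _ = 6 * l * q * I.card + q * Z.card := by ring
      _ ≤ 2 * Fintype.card V := by omega

end Pool.Agent.Lib.MP_f20cd2_co.DP
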