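import Pool.Agent.Lib.MP_f20cd2_co.DP.Hall2

/-!
Seeds with private feet near every vertex.
-/

set_option autoImplicit false
set_option linter.unusedSectionVars false

namespace Pool.Agent.Lib.MP_f20cd2_co.DP

open Finset
open Pool.Agent.Lib.MP_f20cd2_co.H83 (Conn Cells)
open Pool.Agent.Lib.MP_f20cd2_co.PL
open Pool.Agent.Lib.MP_f20cd2_co.HM (dg)
open scoped Classical

variable {V : Type} [Fintype V] [DecidableEq V] {G : SimpleGraph V}

/-- The graph of the options. -/
def og (G : SimpleGraph V) (Op : V → Finset V) : SimpleGraph V where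
  Adj u v := G.Adj u v ∧ (v ∈ Op u ∨ u ∈ Op v)
  symm := ⟨fun _ _ h => ⟨h.1.symm, h.2.symm⟩⟩
  loopless := ⟨fun _ h => G.irrefl h.1⟩

theorem og_le (Op : V → Finset V) : og G Op ≤ G := fun _ _ h => h.1

theorem dg_og {r s : ℕ} {χ : V → ℕ} {Op : V → Finset V} (h : LN G r s χ Op) (v : V) :
    dg (og G Op) v ≤ 3 * s := by
  have h1 := h.card v
  have h2 := h.load v
  have h3 : dg (og G Op) v ≤ (Op v ∪ univ.filter fun u => v ∈ Op u).card := by
    unfold dg
    apply card_le_card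
    intro w hw
    simp only [mem_filter, mem_univ, true_and] at hw
    simp only [mem_union, mem_filter, mem_univ, true_and]
    exact hw.2
  have h4 := card_union_le (Op v) (univ.filter fun u => v ∈ Op u)
  omega

theorem Nr.symm {H : SimpleGraph V} {d : ℕ} {u v : V} (h : Nr H d u v) : Nr H d v u := by
  obtain ⟨p, hp⟩ := h
  exact ⟨p.reverse, by rw [SimpleGraph.Walk.length_reverse]; exact hp⟩

theorem Nr.trans {H : SimpleGraph V} {d d' : ℕ} {u v w : V} (h : Nr H d u v) (h' : Nr H d' v w) :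
    Nr H (d + d') u w := by
  obtain ⟨p, hp⟩ := h
  obtain ⟨q, hq⟩ := h'
  exact ⟨p.append q, by rw [SimpleGraph.Walk.length_append]; omega⟩

namespace SeedsAux

lemma nr_mono {H : SimpleGraph V} {d d' : ℕ} {u v : V} (h : Nr H d u v) (hd : d ≤ d') :
    Nr H d' u v := by
  obtain ⟨p, hp⟩ := h
  exact ⟨p, hp.trans hd⟩

lemma nr_adj {H : SimpleGraph V} {u v : V} (h : H.Adj u v) : Nr H 1 u v :=
  ⟨SimpleGraph.Walk.cons h SimpleGraph.Walk.nil, by simp⟩

lemma nr_op {r s : ℕ} {χ : V → ℕ} {Op : V → Finset V} (h : LN G r s χ Op) {u w : V}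
    (hw : w ∈ Op u) : Nr (og G Op) 1 u w :=
  nr_adj ⟨h.adj u w hw, Or.inl hw⟩

lemma sdr_self (S : Finset V) (A : V → Finset V) (h : ∀ p ∈ S, S.card ≤ (A p).card) :
    ∃ g : V → V, (∀ p ∈ S, g p ∈ A p) ∧ ∀ p ∈ S, ∀ q ∈ S, g p = g q → p = q := by
  rcases isEmpty_or_nonempty V with hV | hV
  · exact ⟨id, fun p _ => isEmptyElim p, fun p _ => isEmptyElim p⟩
  · exact sdr S A h

/-- An uncoloured option outside a small set. -/
lemma exists_next {r s : ℕ} {χ : V → ℕ} {Op : V → Finset V} (h : LN G r s χ Op) (v : V)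
    (Z : Finset V) (hZ : Z.card ≤ 7) : ∃ w ∈ Op v, χ w = 0 ∧ w ∉ Z := by
  have h8 := h.rich v 0 (Nat.zero_le r)
  obtain ⟨w, hw, hwZ⟩ := exists_mem_notMem_of_card_lt_card
    (show Z.card < ((Op v).filter fun w => χ w = 0).card by omega)
  rw [mem_filter] at hw
  exact ⟨w, hw.1, hw.2, hwZ⟩

/-- The path of uncoloured options that starts at an option of `u`. -/
lemma exists_path {r s : ℕ} {χ : V → ℕ} {Op : V → Finset V} (h : LN G r s χ Op) (u : V)
    (n : ℕ) (hn : n ≤ 7) : ∃ x : ℕ → V, x 0 ∈ Op u ∧ (∀ i < n, x (i + 1) ∈ Op (x i)) ∧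
      (∀ i ≤ n, χ (x i) = 0) ∧ ∀ i ≤ n, ∀ j ≤ n, x i = x j → i = j := by
  induction n with
  | zero =>
    obtain ⟨w, hw, hc, -⟩ := exists_next h u ∅ (by simp)
    refine ⟨fun _ => w, hw, fun i hi => absurd hi (Nat.not_lt_zero i), fun _ _ => hc, ?_⟩
    intro i hi j hj _
    omega
  | succ n ih =>
    obtain ⟨x, h0, h1, h2, h3⟩ := ih (by omega)
    have hZ : ((range (n + 1)).image x).card ≤ 7 := by
      have := card_image_le (s := range (n + 1)) (f := x)
      rw [card_range] at this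
      omega
    obtain ⟨w, hw, hc, hwZ⟩ := exists_next h (x n) _ hZ
    have hne : ∀ i ≤ n, x i ≠ w := fun i hi e =>
      hwZ (mem_image.2 ⟨i, mem_range.2 (by omega), e⟩)
    refine ⟨fun i => if i ≤ n then x i else w, ?_, ?_, ?_, ?_⟩
    · simpa using h0
    · intro i hi
      have hi' : i ≤ n := by omega
      by_cases e : i + 1 ≤ n
      · simp only [if_pos e, if_pos hi']
        exact h1 i (by omega)
      · have : i = n := by omega
        subst this
        simp only [if_neg e, if_pos hi']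
        exact hw
    · intro i _
      by_cases e : i ≤ n
      · simp only [if_pos e]
        exact h2 i e
      · simp only [if_neg e]
        exact hc
    · intro i hi j hj
      by_cases e : i ≤ n <;> by_cases e' : j ≤ n
      · simp only [if_pos e, if_pos e']
        exact h3 i e j e'
      · simp only [if_pos e, if_neg e']
        exact fun t => absurd t (hne i e)
      · simp only [if_neg e, if_pos e']
        exact fun t => absurd t.symm (hne j e')
      · intro _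
        omega

/-- A maximal family of pairwise disjoint sets meets every nonempty member. -/
lemma exists_maximal (Ω : V → Finset V) (hΩ : ∀ u, (Ω u).Nonempty) :
    ∃ I : Finset V, (∀ a ∈ I, ∀ b ∈ I, a ≠ b → Disjoint (Ω a) (Ω b)) ∧
      ∀ u, ∃ σ ∈ I, ∃ w, w ∈ Ω u ∧ w ∈ Ω σ := by
  obtain ⟨I, hI, hmax⟩ := exists_max_image
    (univ.filter fun I : Finset V => ∀ a ∈ I, ∀ b ∈ I, a ≠ b → Disjoint (Ω a) (Ω b))
    card ⟨∅, by simp⟩
  simp only [mem_filter, mem_univ, true_and] at hI hmax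
  refine ⟨I, hI, fun u => ?_⟩
  by_cases hu : u ∈ I
  · obtain ⟨w, hw⟩ := hΩ u
    exact ⟨u, hu, w, hw, hw⟩
  · by_contra hc
    have hd : ∀ σ ∈ I, Disjoint (Ω u) (Ω σ) := fun σ hσ =>
      disjoint_left.2 fun w hw hw' => hc ⟨σ, hσ, w, hw, hw'⟩
    have hins : ∀ a ∈ insert u I, ∀ b ∈ insert u I, a ≠ b → Disjoint (Ω a) (Ω b) := by
      intro a ha b hb hab
      rcases mem_insert.1 ha with rfl | ha' <;> rcases mem_insert.1 hb with rfl | hb'
      · exact absurd rfl hab
      · exact hd b hb'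
      · exact (hd a ha').symm
      · exact hI a ha' b hb' hab
    have := hmax _ hins
    rw [card_insert_of_notMem hu] at this
    omega

end SeedsAux

/-- Feet for a set of uncoloured vertices that splits into blocks of at most eight vertices, where
vertices of different blocks have no common option: `sdr` in every block. -/
theorem ls_of {r s : ℕ} {χ : V → ℕ} {Op : V → Finset V} (h : LN G r s χ Op) {κ : Type}
    [DecidableEq κ] (Sd : Finset V) (h0 : ∀ v ∈ Sd, χ v = 0) (bl : V → κ)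
    (h8 : ∀ k, (Sd.filter fun v => bl v = k).card ≤ 8)
    (hd : ∀ u ∈ Sd, ∀ v ∈ Sd, bl u ≠ bl v → Disjoint (Op u) (Op v)) :
    ∃ ft, LS G r (lane χ) Sd ft := by
  have key : ∀ (j : ℕ) (k : κ), ∃ g : V → V, j < r →
      (∀ p ∈ Sd.filter (fun v => bl v = k), g p ∈ (Op p).filter fun w => χ w = j + 1) ∧
        ∀ p ∈ Sd.filter (fun v => bl v = k), ∀ q ∈ Sd.filter (fun v => bl v = k),
          g p = g q → p = q := by
    intro j k
    by_cases hj : j < r
    · obtain ⟨g, hg⟩ := SeedsAux.sdr_self (Sd.filter fun v => bl v = k)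
        (fun p => (Op p).filter fun w => χ w = j + 1)
        (fun p _ => (h8 k).trans (h.rich p (j + 1) hj))
      exact ⟨g, fun _ => hg⟩
    · exact ⟨id, fun t => absurd t hj⟩
  choose g hg using key
  have hm : ∀ j < r, ∀ p ∈ Sd, g j (bl p) p ∈ Op p ∧ χ (g j (bl p) p) = j + 1 := fun j hj p hp =>
    mem_filter.1 ((hg j (bl p) hj).1 p (mem_filter.2 ⟨hp, rfl⟩))
  refine ⟨fun j p => g j (bl p) p, ?_, ?_, ?_, ?_, ?_⟩
  · intro j _ j' _ hjj
    refine disjoint_left.2 fun v hv hv' => ?_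
    rw [mem_lane] at hv hv'
    omega
  · exact h.tree
  · intro j _
    refine disjoint_left.2 fun v hv hv' => ?_
    rw [mem_lane, h0 v hv] at hv'
    omega
  · intro j hj p hp
    exact ⟨mem_lane.2 (hm j hj p hp).2, h.adj _ _ (hm j hj p hp).1⟩
  · intro j hj p hp q hq e
    by_cases hb : bl p = bl q
    · refine (hg j (bl q) hj).2 p (mem_filter.2 ⟨hp, hb⟩) q (mem_filter.2 ⟨hq, rfl⟩) ?_
      have e' : g j (bl p) p = g j (bl q) q := e
      rwa [hb] at e'
    · have e' : g j (bl p) p = g j (bl q) q := e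
      exact absurd (e' ▸ (hm j hj q hq).1)
        (disjoint_left.1 (hd p hp q hq hb) (hm j hj p hp).1)

/-- For every `u` a path `x u 0, ..., x u 7` of uncoloured vertices, each an option of the one
before, `x u 0` an option of `u`.  Let `Ω u` be these vertices and their options; `I` is a
maximal set on which the sets `Ω` are pairwise disjoint. -/
theorem seeds {r s : ℕ} {χ : V → ℕ} {Op : V → Finset V} (h : LN G r s χ Op) :
    ∃ (I : Finset V) (x : V → ℕ → V) (Sd : Finset V) (ft : ℕ → V → V),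
      Pf G I (fun _ => 7) x ∧ (∀ σ ∈ I, ∀ i ≤ 7, x σ i ∈ Sd) ∧ LS G r (lane χ) Sd ft ∧
        ∀ u, ∃ σ ∈ I, ∀ i ≤ 7, Nr (og G Op) 26 u (x σ i) := by
  choose x h0 h1 h2 h3 using fun u => SeedsAux.exists_path h u 7 le_rfl
  let Ω : V → Finset V := fun u => (range 8).biUnion fun i => insert (x u i) (Op (x u i))
  have hx : ∀ u, ∀ i ≤ 7, x u i ∈ Ω u := fun u i hi =>
    mem_biUnion.2 ⟨i, mem_range.2 (by omega), mem_insert_self _ _⟩
  have hop : ∀ u, ∀ i ≤ 7, Op (x u i) ⊆ Ω u := fun u i hi w hw =>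
    mem_biUnion.2 ⟨i, mem_range.2 (by omega), mem_insert_of_mem hw⟩
  have hn : ∀ u, ∀ i ≤ 7, Nr (og G Op) (i + 1) u (x u i) := by
    intro u i
    induction i with
    | zero => exact fun _ => SeedsAux.nr_op h (h0 u)
    | succ i ih => exact fun hi => (ih (by omega)).trans (SeedsAux.nr_op h (h1 u i (by omega)))
  have hΩ : ∀ u, ∀ w ∈ Ω u, Nr (og G Op) 9 u w := by
    intro u w hw
    obtain ⟨i, hi, hw⟩ := mem_biUnion.1 hw
    rw [mem_range] at hi
    rcases mem_insert.1 hw with rfl | hw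
    · exact SeedsAux.nr_mono (hn u i (by omega)) (by omega)
    · exact SeedsAux.nr_mono ((hn u i (by omega)).trans (SeedsAux.nr_op h hw)) (by omega)
  obtain ⟨I, hI, hmeet⟩ := SeedsAux.exists_maximal Ω fun u => ⟨_, hx u 0 (by omega)⟩
  have hown : ∀ σ ∈ I, ∀ σ' ∈ I, ∀ i ≤ 7, ∀ i' ≤ 7, x σ i = x σ' i' → σ = σ' := by
    intro σ hσ σ' hσ' i hi i' hi' e
    by_contra hne
    exact disjoint_left.1 (hI σ hσ σ' hσ' hne) (hx σ i hi) (e ▸ hx σ' i' hi')
  have hbl : ∀ v, ∃ k : V, ∀ σ ∈ I, ∀ i ≤ 7, x σ i = v → k = σ := by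
    intro v
    by_cases hv : ∃ σ ∈ I, ∃ i ≤ 7, x σ i = v
    · obtain ⟨σ, hσ, i, hi, e⟩ := hv
      exact ⟨σ, fun σ' hσ' i' hi' e' => hown σ hσ σ' hσ' i hi i' hi' (e.trans e'.symm)⟩
    · exact ⟨v, fun σ hσ i hi e => absurd ⟨σ, hσ, i, hi, e⟩ hv⟩
  choose bl hbl using hbl
  let Sd : Finset V := I.biUnion fun σ => (range 8).image (x σ)
  have hSd : ∀ v ∈ Sd, ∃ σ ∈ I, ∃ i ≤ 7, x σ i = v := by
    intro v hv
    obtain ⟨σ, hσ, hv⟩ := mem_biUnion.1 hv
    obtain ⟨i, hi, e⟩ := mem_image.1 hv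
    rw [mem_range] at hi
    exact ⟨σ, hσ, i, by omega, e⟩
  obtain ⟨ft, hft⟩ := ls_of h Sd
    (fun v hv => by
      obtain ⟨σ, -, i, hi, rfl⟩ := hSd v hv
      exact h2 σ i hi) bl
    (fun k => by
      have hs : (Sd.filter fun v => bl v = k) ⊆ (range 8).image (x k) := by
        intro v hv
        rw [mem_filter] at hv
        obtain ⟨σ, hσ, i, hi, e⟩ := hSd v hv.1
        have : k = σ := hv.2.symm.trans (hbl v σ hσ i hi e)
        subst this
        exact mem_image.2 ⟨i, mem_range.2 (by omega), e⟩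
      have := card_image_le (s := range 8) (f := x k)
      rw [card_range] at this
      exact (card_le_card hs).trans this)
    (fun u hu v hv hb => by
      obtain ⟨σ, hσ, i, hi, e⟩ := hSd u hu
      obtain ⟨σ', hσ', i', hi', e'⟩ := hSd v hv
      rw [hbl u σ hσ i hi e, hbl v σ' hσ' i' hi' e'] at hb
      rw [← e, ← e']
      exact (hI σ hσ σ' hσ' hb).mono (hop σ i hi) (hop σ' i' hi'))
  refine ⟨I, x, Sd, ft, ⟨?_, ?_⟩, ?_, hft, ?_⟩
  · intro σ _ i hi
    exact h.adj _ _ (h1 σ i hi)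
  · intro σ hσ σ' hσ' i hi i' hi' e
    have := hown σ hσ σ' hσ' i hi i' hi' e
    subst this
    exact ⟨rfl, h3 σ i hi i' hi' e⟩
  · intro σ hσ i hi
    exact mem_biUnion.2 ⟨σ, hσ, mem_image.2 ⟨i, mem_range.2 (by omega), rfl⟩⟩
  · intro u
    obtain ⟨σ, hσ, w, hw, hw'⟩ := hmeet u
    refine ⟨σ, hσ, fun i hi => ?_⟩
    exact SeedsAux.nr_mono (((hΩ u w hw).trans (hΩ σ w hw').symm).trans (hn σ i hi)) (by omega)

/-- The core of `seeds`: paths whose vertices have no common option. -/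
theorem seeds2 {r s : ℕ} {χ : V → ℕ} {Op : V → Finset V} (h : LN G r s χ Op) :
    ∃ (I : Finset V) (x : V → ℕ → V), Pf G I (fun _ => 7) x ∧ (∀ σ ∈ I, ∀ i ≤ 7, χ (x σ i) = 0) ∧
      (∀ σ ∈ I, ∀ σ' ∈ I, σ ≠ σ' → ∀ i ≤ 7, ∀ i' ≤ 7, Disjoint (Op (x σ i)) (Op (x σ' i'))) ∧
      ∀ u, ∃ σ ∈ I, ∀ i ≤ 7, Nr (og G Op) 26 u (x σ i) := by
  choose x h0 h1 h2 h3 using fun u => SeedsAux.exists_path h u 7 le_rfl
  let Ω : V → Finset V := fun u => (range 8).biUnion fun i => insert (x u i) (Op (x u i))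
  have hx : ∀ u, ∀ i ≤ 7, x u i ∈ Ω u := fun u i hi =>
    mem_biUnion.2 ⟨i, mem_range.2 (by omega), mem_insert_self _ _⟩
  have hop : ∀ u, ∀ i ≤ 7, Op (x u i) ⊆ Ω u := fun u i hi w hw =>
    mem_biUnion.2 ⟨i, mem_range.2 (by omega), mem_insert_of_mem hw⟩
  have hn : ∀ u, ∀ i ≤ 7, Nr (og G Op) (i + 1) u (x u i) := by
    intro u i
    induction i with
    | zero => exact fun _ => SeedsAux.nr_op h (h0 u)
    | succ i ih => exact fun hi => (ih (by omega)).trans (SeedsAux.nr_op h (h1 u i (by omega)))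
  have hΩ : ∀ u, ∀ w ∈ Ω u, Nr (og G Op) 9 u w := by
    intro u w hw
    obtain ⟨i, hi, hw⟩ := mem_biUnion.1 hw
    rw [mem_range] at hi
    rcases mem_insert.1 hw with rfl | hw
    · exact SeedsAux.nr_mono (hn u i (by omega)) (by omega)
    · exact SeedsAux.nr_mono ((hn u i (by omega)).trans (SeedsAux.nr_op h hw)) (by omega)
  obtain ⟨I, hI, hmeet⟩ := SeedsAux.exists_maximal Ω fun u => ⟨_, hx u 0 (by omega)⟩
  have hown : ∀ σ ∈ I, ∀ σ' ∈ I, ∀ i ≤ 7, ∀ i' ≤ 7, x σ i = x σ' i' → σ = σ' := by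
    intro σ hσ σ' hσ' i hi i' hi' e
    by_contra hne
    exact disjoint_left.1 (hI σ hσ σ' hσ' hne) (hx σ i hi) (e ▸ hx σ' i' hi')
  refine ⟨I, x, ⟨?_, ?_⟩, fun σ _ i hi => h2 σ i hi, fun σ hσ σ' hσ' hne i hi i' hi' =>
    (hI σ hσ σ' hσ' hne).mono (hop σ i hi) (hop σ' i' hi'), ?_⟩
  · intro σ _ i hi
    exact h.adj _ _ (h1 σ i hi)
  · intro σ hσ σ' hσ' i hi i' hi' e
    have := hown σ hσ σ' hσ' i hi i' hi' e
    subst this
    exact ⟨rfl, h3 σ i hi i' hi' e⟩
  · intro u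
    obtain ⟨σ, hσ, w, hw, hw'⟩ := hmeet u
    refine ⟨σ, hσ, fun i hi => ?_⟩
    exact SeedsAux.nr_mono (((hΩ u w hw).trans (hΩ σ w hw').symm).trans (hn σ i hi)) (by omega)

/-- One more vertex `v`: choose its feet first, the blocks have at most seven vertices. -/
theorem ls_of2 {r s : ℕ} {χ : V → ℕ} {Op : V → Finset V} (h : LN G r s χ Op) {κ : Type}
    [DecidableEq κ] (Sd : Finset V) (h0 : ∀ v ∈ Sd, χ v = 0) (bl : V → κ)
    (h7 : ∀ k, (Sd.filter fun v => bl v = k).card ≤ 7)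
    (hd : ∀ u ∈ Sd, ∀ v ∈ Sd, bl u ≠ bl v → Disjoint (Op u) (Op v)) {v : V} (hv : χ v = 0) :
    ∃ ft, LS G r (lane χ) (insert v Sd) ft := by
  have key0 : ∀ j : ℕ, ∃ w : V, j < r → w ∈ Op v ∧ χ w = j + 1 := by
    intro j
    by_cases hj : j < r
    · have h8 := h.rich v (j + 1) hj
      obtain ⟨w, hw⟩ := card_pos.1 (show 0 < ((Op v).filter fun w => χ w = j + 1).card by omega)
      exact ⟨w, fun _ => mem_filter.1 hw⟩
    · exact ⟨v, fun t => absurd t hj⟩
  choose w hw using key0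
  have key : ∀ (j : ℕ) (k : κ), ∃ g : V → V, j < r →
      (∀ p ∈ Sd.filter (fun v => bl v = k),
        g p ∈ ((Op p).filter fun w => χ w = j + 1).erase (w j)) ∧
        ∀ p ∈ Sd.filter (fun v => bl v = k), ∀ q ∈ Sd.filter (fun v => bl v = k),
          g p = g q → p = q := by
    intro j k
    by_cases hj : j < r
    · obtain ⟨g, hg⟩ := SeedsAux.sdr_self (Sd.filter fun v => bl v = k)
        (fun p => ((Op p).filter fun w => χ w = j + 1).erase (w j))
        (fun p _ => by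
          have a1 := h7 k
          have a2 := h.rich p (j + 1) hj
          have a3 := pred_card_le_card_erase (s := (Op p).filter fun w => χ w = j + 1) (a := w j)
          omega)
      exact ⟨g, fun _ => hg⟩
    · exact ⟨id, fun t => absurd t hj⟩
  choose g hg using key
  have hm : ∀ j < r, ∀ p ∈ Sd, g j (bl p) p ≠ w j ∧ g j (bl p) p ∈ Op p ∧
      χ (g j (bl p) p) = j + 1 := fun j hj p hp => by
    have := mem_erase.1 ((hg j (bl p) hj).1 p (mem_filter.2 ⟨hp, rfl⟩))
    exact ⟨this.1, mem_filter.1 this.2⟩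
  refine ⟨fun j p => if p = v then w j else g j (bl p) p, ?_, ?_, ?_, ?_, ?_⟩
  · intro j _ j' _ hjj
    refine disjoint_left.2 fun v hv hv' => ?_
    rw [mem_lane] at hv hv'
    omega
  · exact h.tree
  · intro j _
    refine disjoint_left.2 fun u hu hu' => ?_
    have hu0 : χ u = 0 := by
      rcases mem_insert.1 hu with rfl | hu
      · exact hv
      · exact h0 u hu
    rw [mem_lane, hu0] at hu'
    omega
  · intro j hj p hp
    by_cases e : p = v
    · simp only [if_pos e]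
      exact ⟨mem_lane.2 (hw j hj).2, e ▸ h.adj _ _ (hw j hj).1⟩
    · have hp' : p ∈ Sd := (mem_insert.1 hp).resolve_left e
      simp only [if_neg e]
      exact ⟨mem_lane.2 (hm j hj p hp').2.2, h.adj _ _ (hm j hj p hp').2.1⟩
  · intro j hj p hp q hq e
    by_cases ep : p = v <;> by_cases eq : q = v
    · exact ep.trans eq.symm
    · simp only [if_pos ep, if_neg eq] at e
      exact absurd e.symm (hm j hj q ((mem_insert.1 hq).resolve_left eq)).1
    · simp only [if_neg ep, if_pos eq] at e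
      exact absurd e (hm j hj p ((mem_insert.1 hp).resolve_left ep)).1
    · simp only [if_neg ep, if_neg eq] at e
      have hp' : p ∈ Sd := (mem_insert.1 hp).resolve_left ep
      have hq' : q ∈ Sd := (mem_insert.1 hq).resolve_left eq
      by_cases hb : bl p = bl q
      · refine (hg j (bl q) hj).2 p (mem_filter.2 ⟨hp', hb⟩) q (mem_filter.2 ⟨hq', rfl⟩) ?_
        rwa [hb] at e
      · exact absurd (e ▸ (hm j hj q hq').2.1)
          (disjoint_left.1 (hd p hp' q hq' hb) (hm j hj p hp').2.1)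

end Pool.Agent.Lib.MP_f20cd2_co.DP
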