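import Pool.Agent.Lib.MP_f20cd2_co.DP.Cover
import Pool.Agent.Lib.MP_f20cd2_co.DP.Seeds

/-!
Six vertices with private feet on every long path.
-/

set_option autoImplicit false
set_option linter.unusedSectionVars false

namespace Pool.Agent.Lib.MP_f20cd2_co.DP

open Finset
open Pool.Agent.Lib.MP_f20cd2_co.H83 (Conn Cells)
open Pool.Agent.Lib.MP_f20cd2_co.PL
open Pool.Agent.Lib.MP_f20cd2_co.HM (dg)
open scoped Classical

variable {V : Type} [Fintype V] [DecidableEq V] {G : SimpleGraph V}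

/-- Every vertex shares an option with at most `s * (2 * s)` vertices. -/
theorem conflict {r s : ℕ} {χ : V → ℕ} {Op : V → Finset V} (h : LN G r s χ Op) (u : V) :
    (univ.filter fun v => ¬ Disjoint (Op u) (Op v)).card ≤ 2 * s ^ 2 := by
  have h1 : (univ.filter fun v => ¬ Disjoint (Op u) (Op v)) ⊆
      (Op u).biUnion fun x => univ.filter fun v => x ∈ Op v := by
    intro v hv
    obtain ⟨x, hx, hx'⟩ := not_disjoint_iff.1 (mem_filter.1 hv).2
    exact mem_biUnion.2 ⟨x, hx, mem_filter.2 ⟨mem_univ _, hx'⟩⟩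
  calc _ ≤ _ := card_le_card h1
    _ ≤ (Op u).card * (2 * s) := card_biUnion_le_card_mul _ _ _ fun x _ => h.load x
    _ ≤ s * (2 * s) := Nat.mul_le_mul_right _ (h.card u)
    _ = 2 * s ^ 2 := by ring

namespace SixAux

/-- The start of the window number `k` on a path with the last index `n`. -/
def st (n l k : ℕ) : ℕ := if k < 5 then k * l else n + 1 - l

theorem st_le {n l k i : ℕ} (hn : 6 * l ≤ n + 1) (hk : k < 6) (hi : i < l) : st n l k + i ≤ n := by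
  unfold st
  interval_cases k <;> simp <;> omega

theorem st_inj {n l k k' i i' : ℕ} (hn : 6 * l ≤ n + 1) (hk : k < 6) (hk' : k' < 6) (hi : i < l)
    (hi' : i' < l) (e : st n l k + i = st n l k' + i') : k = k' ∧ i = i' := by
  unfold st at e
  interval_cases k <;> interval_cases k' <;> simp at e <;> omega

theorem st_lt {n l k i i' : ℕ} (hn : 6 * l ≤ n + 1) (hk : k < 5) (hi : i < l) :
    st n l k + i < st n l (k + 1) + i' := by
  unfold st
  interval_cases k <;> simp <;> omega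

end SixAux

/-- `transv` for the windows `(σ, k)`, `σ ∈ I`, `k : Fin 6`, that start at `k * l` for `k < 5` and
at `n σ + 1 - l` for `k = 5`; then `ls_of` with `bl = id`. -/
theorem six {r s : ℕ} {χ : V → ℕ} {Op : V → Finset V} (h : LN G r s χ Op) {l : ℕ}
    (h1 : 36 * s ^ 2 ≤ l) (h2 : 2 ≤ l) {I : Finset V} {n : V → ℕ} {w : V → ℕ → V}
    (hw : Pf G I n w) (hn : ∀ σ ∈ I, 6 * l ≤ n σ + 1) (h0 : ∀ σ ∈ I, ∀ i ≤ n σ, χ (w σ i) = 0) :
    ∃ (p : V → ℕ → ℕ) (Sd : Finset V) (ft : ℕ → V → V), LS G r (lane χ) Sd ft ∧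
      (∀ v ∈ Sd, ∃ σ ∈ I, ∃ i ≤ n σ, v = w σ i) ∧
      ∀ σ ∈ I, (∀ k < 5, p σ k < p σ (k + 1)) ∧ p σ 2 < 3 * l ∧ p σ 5 ≤ n σ ∧
        n σ < p σ 5 + l ∧ ∀ k ≤ 5, w σ (p σ k) ∈ Sd := by
  have hy : ∀ k ∈ I ×ˢ (univ : Finset (Fin 6)), ∀ k' ∈ I ×ˢ (univ : Finset (Fin 6)),
      ∀ i < l, ∀ i' < l, w k.1 (SixAux.st (n k.1) l k.2 + i) =
        w k'.1 (SixAux.st (n k'.1) l k'.2 + i') → k = k' ∧ i = i' := by
    rintro ⟨σ, k⟩ hk ⟨σ', k'⟩ hk' i hi i' hi' e
    have a := (mem_product.1 hk).1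
    have a' := (mem_product.1 hk').1
    obtain ⟨e1, e2⟩ := hw.inj σ a σ' a' _ (SixAux.st_le (hn σ a) k.2 hi) _
      (SixAux.st_le (hn σ' a') k'.2 hi') e
    subst e1
    obtain ⟨e3, e4⟩ := SixAux.st_inj (hn σ a) k.2 k'.2 hi hi' e2
    exact ⟨Prod.ext rfl (Fin.ext e3), e4⟩
  obtain ⟨f, f1, f2⟩ := transv (I ×ˢ (univ : Finset (Fin 6))) l (2 * s ^ 2)
    (fun k i => w k.1 (SixAux.st (n k.1) l k.2 + i)) hy (fun u v => ¬ Disjoint (Op u) (Op v))
    (fun u v h h' => h h'.symm) (fun u => le_trans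
      (card_le_card fun v hv => by simpa only [mem_filter] using hv) (conflict h u)) (by omega) h2
  obtain ⟨Sd, hSd⟩ : ∃ Sd : Finset V, ∀ v, v ∈ Sd ↔ ∃ k ∈ I ×ˢ (univ : Finset (Fin 6)),
      w k.1 (SixAux.st (n k.1) l k.2 + f k) = v :=
    ⟨(I ×ˢ (univ : Finset (Fin 6))).image fun k => w k.1 (SixAux.st (n k.1) l k.2 + f k),
      fun v => mem_image⟩
  have hS : ∀ v ∈ Sd, ∃ σ ∈ I, ∃ i ≤ n σ, v = w σ i := by
    intro v hv
    obtain ⟨k, hk, e⟩ := (hSd v).1 hv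
    have a := (mem_product.1 hk).1
    exact ⟨k.1, a, _, SixAux.st_le (hn _ a) k.2.2 (f1 k), e.symm⟩
  obtain ⟨ft, hft⟩ := ls_of h Sd
    (fun v hv => by
      obtain ⟨σ, a, i, hi, rfl⟩ := hS v hv
      exact h0 σ a i hi) id
    (fun k => (card_le_one.2 fun a ha b hb =>
      ((mem_filter.1 ha).2.trans (mem_filter.1 hb).2.symm)).trans (by norm_num))
    (fun u hu v hv huv => by
      obtain ⟨k, hk, rfl⟩ := (hSd u).1 hu
      obtain ⟨k', hk', rfl⟩ := (hSd v).1 hv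
      exact not_not.1 (f2 k hk k' hk' fun e => huv (by rw [e])))
  refine ⟨fun σ k => SixAux.st (n σ) l k + f (σ, ⟨min k 5, by omega⟩), Sd, ft, hft, hS,
    fun σ a => ⟨fun k hk => SixAux.st_lt (hn σ a) hk (f1 _), ?_,
      SixAux.st_le (hn σ a) (by norm_num) (f1 _), ?_, fun k hk => ?_⟩⟩
  · have := f1 (σ, ⟨min 2 5, by omega⟩)
    simp only [SixAux.st] at this ⊢
    rw [if_pos (by norm_num)]
    omega
  · have := hn σ a
    simp only [SixAux.st]
    rw [if_neg (by norm_num)]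
    omega
  · refine (hSd _).2 ⟨(σ, ⟨min k 5, by omega⟩), mem_product.2 ⟨a, mem_univ _⟩, ?_⟩
    simp only [min_eq_left hk]

end Pool.Agent.Lib.MP_f20cd2_co.DP
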