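import Pool.Agent.Lib.MP_f20cd2_co.DP.Close
import Pool.Agent.Lib.MP_f20cd2_co.DP.TJ
import Pool.Agent.Lib.MP_f20cd2_co.DP.Six

/-!
Units that cover almost all uncoloured vertices.
-/

set_option autoImplicit false
set_option linter.unusedSectionVars false

namespace Pool.Agent.Lib.MP_f20cd2_co.DP

open Finset
open Pool.Agent.Lib.MP_f20cd2_co.H83 (Conn Cells)
open Pool.Agent.Lib.MP_f20cd2_co.PL
open Pool.Agent.Lib.MP_f20cd2_co.HM (dg)
open scoped Classical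

variable {V : Type} [Fintype V] [DecidableEq V] {G : SimpleGraph V}

namespace AUnitsAux

lemma reach_of_adj {C : SimpleGraph V} {w : ℕ → V} {a b : ℕ}
    (h : ∀ i, a ≤ i → i < b → C.Adj (w i) (w (i + 1))) {j : ℕ} (h1 : a ≤ j) (h2 : j ≤ b) :
    C.Reachable (w a) (w j) := by
  induction j, h1 using Nat.le_induction with
  | base => exact SimpleGraph.Reachable.refl _
  | succ k hk ih => exact (ih (by omega)).trans (h k hk (by omega)).reachable

lemma eq_or_adj {C : SimpleGraph V} {x v : V} (h : C.Reachable x v) : v = x ∨ ∃ u, C.Adj v u := by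
  obtain ⟨q⟩ := h.symm
  cases q with
  | nil => exact Or.inl rfl
  | cons h _ => exact Or.inr ⟨_, h⟩

lemma card_ends (n l : ℕ) :
    ((range (n + 1)).filter fun i => i < 3 * l ∨ n < i + 3 * l).card ≤ 6 * l := by
  have h : ((range (n + 1)).filter fun i => i < 3 * l ∨ n < i + 3 * l) ⊆
      range (3 * l) ∪ Ico (n + 1 - 3 * l) (n + 1) := by
    intro i hi
    simp only [mem_filter, mem_range] at hi
    simp only [mem_union, mem_range, mem_Ico]
    omega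
  refine (card_le_card h).trans ((card_union_le _ _).trans ?_)
  simp only [card_range, Nat.card_Ico]
  omega

end AUnitsAux

/-- Close the paths `w σ (p σ 0), ..., w σ (p σ 5)` by `close`, take `reps`, and apply `unit_cyc`
to the path that starts at `w σ (p σ 1)` with marks at `p σ 2`, `p σ 3`, `p σ 4`. -/
theorem cyc_units {Sd R A : Finset V} (hR : TJ G Sd R) (hd : Disjoint A R) {I : Finset V}
    {n : V → ℕ} {w : V → ℕ → V} (hw : Pf G I n w) (hA : ∀ σ ∈ I, ∀ i ≤ n σ, w σ i ∈ A)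
    {p : V → ℕ → ℕ} (hp : ∀ σ ∈ I, (∀ k < 5, p σ k < p σ (k + 1)) ∧ p σ 5 ≤ n σ ∧
      ∀ k ≤ 5, w σ (p σ k) ∈ Sd) :
    ∃ (T : Finset V) (U : V → Un V), Fam G Sd (A ∪ R) T U ∧
      ∀ σ ∈ I, ∀ i, p σ 2 ≤ i → i ≤ p σ 5 → ∃ t ∈ T, w σ i ∈ (U t).Full := by
  have hp0 : ∀ σ ∈ I, p σ 0 < p σ 1 ∧ p σ 1 < p σ 2 ∧ p σ 2 < p σ 3 ∧ p σ 3 < p σ 4 ∧
      p σ 4 < p σ 5 ∧ p σ 5 ≤ n σ := fun σ hσ =>
    ⟨(hp σ hσ).1 0 (by omega), (hp σ hσ).1 1 (by omega), (hp σ hσ).1 2 (by omega),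
      (hp σ hσ).1 3 (by omega), (hp σ hσ).1 4 (by omega), (hp σ hσ).2.1⟩
  have hw' : Pf G I (fun σ => p σ 5 - p σ 0) (fun σ i => w σ (p σ 0 + i)) := by
    refine ⟨fun σ hσ i hi => ?_, fun σ hσ σ' hσ' i hi i' hi' he => ?_⟩
    · have h1 := hp0 σ hσ
      exact hw.adj σ hσ (p σ 0 + i) (by omega)
    · have h1 := hp0 σ hσ
      have h2 := hp0 σ' hσ'
      obtain ⟨h3, h4⟩ := hw.inj σ hσ σ' hσ' (p σ 0 + i) (by omega) (p σ' 0 + i') (by omega) he
      subst h3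
      exact ⟨rfl, by omega⟩
  obtain ⟨C, hCG, hdg, hadj, hmem⟩ := close hR hw'
    (fun σ hσ => by have h1 := hp0 σ hσ; omega)
    (fun σ hσ => by
      have h1 := hp0 σ hσ
      refine ⟨(hp σ hσ).2.2 0 (by omega), ?_⟩
      have h2 : p σ 0 + (p σ 5 - p σ 0) = p σ 5 := by omega
      simp only [h2]
      exact (hp σ hσ).2.2 5 le_rfl)
    (fun σ hσ i hi => by
      have h1 := hp0 σ hσ
      exact Finset.disjoint_left.1 hd (hA σ hσ (p σ 0 + i) (by omega)))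
  have hadj' : ∀ σ ∈ I, ∀ i, p σ 0 ≤ i → i < p σ 5 → C.Adj (w σ i) (w σ (i + 1)) := by
    intro σ hσ i h1 h2
    have h3 := hadj σ hσ (i - p σ 0) (by omega)
    have h4 : p σ 0 + (i - p σ 0) = i := by omega
    have h5 : p σ 0 + (i - p σ 0 + 1) = i + 1 := by omega
    simp only [h4, h5] at h3
    exact h3
  obtain ⟨I', hI', hsep, hall⟩ := reps C I (fun σ => w σ (p σ 1))
  have hU : ∀ σ, ∃ U : Un V, σ ∈ I → U.Ok G ∧ U.Y = rf C univ (w σ (p σ 1)) ∧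
      U.e = w σ (p σ 1) ∧ U.f = w σ (p σ 2) ∧ U.p = w σ (p σ 3) ∧ U.q = w σ (p σ 4) ∧
      U.Full = rf C univ (w σ (p σ 1)) \ (Ioo 0 (p σ 2 - p σ 1)).image fun i => w σ (p σ 1 + i) := by
    intro σ
    by_cases hσ : σ ∈ I
    · have h1 := hp0 σ hσ
      obtain ⟨U, u1, u2, u3, u4, u5, u6, -, u8⟩ := unit_cyc hCG hdg (fun i => w σ (p σ 1 + i))
        (a := p σ 2 - p σ 1) (b := p σ 3 - p σ 1) (c := p σ 4 - p σ 1) (by omega) (by omega)
        (by omega) (fun i hi => hadj' σ hσ (p σ 1 + i) (by omega) (by omega))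
        (fun i hi j hj he => by
          have h2 := (hw.inj σ hσ σ hσ (p σ 1 + i) (by omega) (p σ 1 + j) (by omega) he).2
          omega)
      have e2 : p σ 1 + (p σ 2 - p σ 1) = p σ 2 := by omega
      have e3 : p σ 1 + (p σ 3 - p σ 1) = p σ 3 := by omega
      have e4 : p σ 1 + (p σ 4 - p σ 1) = p σ 4 := by omega
      simp only [e2, e3, e4, Nat.add_zero] at u2 u3 u4 u5 u6 u8
      exact ⟨U, fun _ => ⟨u1, u2, u3, u4, u5, u6, u8⟩⟩
    · exact ⟨⟨∅, ∅, ∅, σ, σ, σ, σ, ⊥, ⊥, ⊥⟩, fun h => absurd h hσ⟩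
  choose U hU using hU
  refine ⟨I', U, ⟨fun t ht => (hU t (hI' ht)).1, fun t ht t' ht' hne => ?_, fun t ht => ?_,
    fun t ht => ?_⟩, fun σ hσ i h1 h2 => ?_⟩
  · rw [(hU t (hI' ht)).2.1, (hU t' (hI' ht')).2.1, Finset.disjoint_left]
    intro v hv hv'
    exact hne (hsep t ht t' ht' ((mem_rf.1 hv).2.trans (mem_rf.1 hv').2.symm))
  · obtain ⟨-, -, u3, u4, u5, u6, -⟩ := hU t (hI' ht)
    have h1 := (hp t (hI' ht)).2.2
    intro v hv
    simp only [Un.S, u3, u4, u5, u6, mem_insert, mem_singleton] at hv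
    rcases hv with rfl | rfl | rfl | rfl
    · exact h1 1 (by omega)
    · exact h1 2 (by omega)
    · exact h1 3 (by omega)
    · exact h1 4 (by omega)
  · rw [(hU t (hI' ht)).2.1]
    intro v hv
    rcases AUnitsAux.eq_or_adj (mem_rf.1 hv).2 with rfl | ⟨u, hu⟩
    · have h1 := hp0 t (hI' ht)
      exact mem_union_left _ (hA t (hI' ht) _ (by omega))
    · rcases hmem v u hu with h1 | ⟨σ, hσ, i, hi, rfl⟩
      · exact mem_union_right _ h1
      · have h1 := hp0 σ hσ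
        exact mem_union_left _ (hA σ hσ _ (by omega))
  · obtain ⟨t, ht, hr⟩ := hall σ hσ
    have h3 := hp0 σ hσ
    have h4 := hp0 t (hI' ht)
    refine ⟨t, ht, ?_⟩
    rw [(hU t (hI' ht)).2.2.2.2.2.2, mem_sdiff]
    refine ⟨mem_rf.2 ⟨mem_univ _, hr.trans ?_⟩, fun hm => ?_⟩
    · exact AUnitsAux.reach_of_adj (b := p σ 5)
        (fun j j1 j2 => hadj' σ hσ j (by omega) j2) (by omega) h2
    · obtain ⟨j, hj, he⟩ := mem_image.1 hm
      rw [mem_Ioo] at hj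
      obtain ⟨h5, h6⟩ := hw.inj t (hI' ht) σ hσ (p t 1 + j) (by omega) i (by omega) he
      subst h5
      omega

/-- `cover`, `six` for the paths with `6 * l ≤ n σ + 1`, `tj`, `cyc_units`.  A vertex `w σ i` that
is not covered has `i < 3 * l` or `n σ < i + 3 * l`. -/
theorem aunits {r s : ℕ} {χ : V → ℕ} {Op : V → Finset V} (h : LN G r s χ Op) {l : ℕ}
    (h1 : 36 * s ^ 2 ≤ l) (h2 : 2 ≤ l) (A : Finset V) (h0 : ∀ v ∈ A, χ v = 0) {a : ℕ}
    (ha : a + 4 ≤ r) :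
    ∃ (Sd : Finset V) (ft : ℕ → V → V) (T : Finset V) (U : V → Un V) (I : Finset V),
      LS G r (lane χ) Sd ft ∧ Fam G Sd (A ∪ Rs (lane χ) a (a + 4)) T U ∧ Ind G I ∧
      (A.filter fun v => ∀ t ∈ T, v ∉ (U t).Full).card ≤ 6 * l * I.card := by
  obtain ⟨I, n, w, hw, -, hI, hA, hcov⟩ := cover G A
  have hsub : (I.filter fun σ => 6 * l ≤ n σ + 1) ⊆ I := filter_subset _ _
  have hw6 : Pf G (I.filter fun σ => 6 * l ≤ n σ + 1) n w :=
    ⟨fun σ hσ => hw.adj σ (hsub hσ), fun σ hσ σ' hσ' => hw.inj σ (hsub hσ) σ' (hsub hσ')⟩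
  obtain ⟨p, Sd, ft, hLS, -, hp⟩ := six h h1 h2 hw6 (fun σ hσ => (mem_filter.1 hσ).2)
    (fun σ hσ i hi => h0 _ (hA σ (hsub hσ) i hi))
  have hd : Disjoint A (Rs (lane χ) a (a + 4)) := by
    rw [Finset.disjoint_left]
    intro v hv hv'
    obtain ⟨j, -, -, hj⟩ := mem_Rs.1 hv'
    have h3 := mem_lane.1 hj
    have h4 := h0 v hv
    omega
  obtain ⟨T, U, hF, hfull⟩ := cyc_units (tj hLS ha) hd hw6 (fun σ hσ => hA σ (hsub hσ))
    (p := p) (fun σ hσ => ⟨(hp σ hσ).1, (hp σ hσ).2.2.1, (hp σ hσ).2.2.2.2⟩)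
  refine ⟨Sd, ft, T, U, I, hLS, hF, hI, ?_⟩
  have hs : (A.filter fun v => ∀ t ∈ T, v ∉ (U t).Full) ⊆ I.biUnion fun σ =>
      ((range (n σ + 1)).filter fun i => i < 3 * l ∨ n σ < i + 3 * l).image (w σ) := by
    intro v hv
    obtain ⟨hvA, hv⟩ := mem_filter.1 hv
    obtain ⟨σ, hσ, i, hi, rfl⟩ := hcov v hvA
    refine mem_biUnion.2 ⟨σ, hσ, mem_image.2 ⟨i, mem_filter.2 ⟨mem_range.2 (by omega), ?_⟩, rfl⟩⟩
    by_contra hc
    have h6 : σ ∈ I.filter fun σ => 6 * l ≤ n σ + 1 := mem_filter.2 ⟨hσ, by omega⟩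
    obtain ⟨-, q1, q2, q3, -⟩ := hp σ h6
    obtain ⟨t, ht, hm⟩ := hfull σ h6 i (by omega) (by omega)
    exact hv t ht hm
  refine (card_le_card hs).trans ?_
  rw [mul_comm (6 * l)]
  refine card_biUnion_le_card_mul _ _ _ fun σ _ => ?_
  exact card_image_le.trans (AUnitsAux.card_ends (n σ) l)

end Pool.Agent.Lib.MP_f20cd2_co.DP
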