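import Pool.Agent.Lib.MP_f20cd2_co.DP.Defs

/-!
Counting when all nodes are terminals.
-/

set_option autoImplicit false
set_option linter.unusedSectionVars false

namespace Pool.Agent.Lib.MP_f20cd2_co.DP

open Finset
open Pool.Agent.Lib.MP_f20cd2_co.H83 (Conn Cells)
open Pool.Agent.Lib.MP_f20cd2_co.PL
open Pool.Agent.Lib.MP_f20cd2_co.HM (dg)
open scoped Classical

variable {ν ε : Type} [Fintype ν] [DecidableEq ν] [Fintype ε] [DecidableEq ε] {Δ K : ℕ} {al : ℕ → ℕ} {wt : ε → ν → ℕ}
  {N S : Finset ν} {z : ν} {X Dd : Finset ε}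

theorem card_sp_le (h : HOk Δ K wt N S z) (Y : Finset ν) (g : ε) : (sp wt Y g).card ≤ Δ := by
  calc (sp wt Y g).card = ∑ x ∈ sp wt Y g, 1 := by simp
    _ ≤ ∑ x ∈ sp wt Y g, wt g x := sum_le_sum fun x hx => (mem_sp.1 hx).2
    _ ≤ ∑ x, wt g x := sum_le_sum_of_subset (subset_univ _)
    _ ≤ Δ := h.tot g

/-- `con` for `N.erase z`: every hyperedge at `z` has another node. -/
theorem z_other (h : HOk Δ K wt N S z) {g : ε} (hg : g ∈ star wt z) :
    (sp wt (N.erase z) g).Nonempty := by
  obtain ⟨y, hy, hyz⟩ := h.oth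
  have h1 := h.con (N.erase z) (erase_subset _ _) (notMem_erase _ _)
    ⟨y, mem_erase.2 ⟨hyz, h.sub hy⟩, hy⟩
  have h2 : cut wt (N.erase z) ⊆ star wt z := by
    intro e he
    obtain ⟨-, x, hx, hx'⟩ := mem_cut.1 he
    have : x = z := by
      by_contra hne
      exact hx (mem_erase.2 ⟨hne, h.supp e x hx'⟩)
    exact mem_star.2 (this ▸ hx')
  have h3 := eq_of_subset_of_card_le h2 (by rw [h.dz]; exact h1)
  rw [← h3] at hg
  obtain ⟨⟨x, hx, hx'⟩, -⟩ := mem_cut.1 hg
  exact ⟨x, mem_sp.2 ⟨hx, hx'⟩⟩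

/-- `con` for `{y}`: every hyperedge at a terminal of degree `K` has another node. -/
theorem y_other (h : HOk Δ K wt N S z) {y : ν} (hy : y ∈ S) (hyz : y ≠ z)
    (hK : (star wt y).card = K) {g : ε} (hg : g ∈ star wt y) : wt g y < Δ := by
  have h1 := h.con {y} (singleton_subset_iff.2 (h.sub hy))
    (by rw [mem_singleton]; exact hyz.symm) ⟨y, mem_singleton_self _, hy⟩
  have h2 : cut wt {y} ⊆ star wt y := by
    intro e he
    obtain ⟨⟨x, hx, hx'⟩, -⟩ := mem_cut.1 he
    rw [mem_singleton] at hx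
    exact mem_star.2 (hx ▸ hx')
  have h3 := eq_of_subset_of_card_le h2 (by rw [hK]; exact h1)
  rw [← h3] at hg
  obtain ⟨-, x, hx, hx'⟩ := mem_cut.1 hg
  rw [mem_singleton] at hx
  have h4 : ∑ t ∈ ({y, x} : Finset ν), wt g t ≤ ∑ t, wt g t :=
    sum_le_sum_of_subset (subset_univ _)
  rw [sum_pair (Ne.symm hx)] at h4
  have := h.tot g
  omega

/-- `con` for `(S.erase z).erase y`: the cut lies in the union of the two stars and misses the
hyperedges whose only nodes are `y` and `z`. -/
theorem pure_bound (h : HOk Δ K wt S S z) {y : ν} (hy : y ∈ S) (hyz : y ≠ z)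
    (hK : (star wt y).card = K) (h3 : ∃ x ∈ S, x ≠ z ∧ x ≠ y) :
    2 * ((star wt z).filter fun g => sp wt (S.erase z) g = {y}).card +
      ((star wt z).filter fun g =>
        y ∈ sp wt (S.erase z) g ∧ 2 ≤ (sp wt (S.erase z) g).card).card ≤ K := by
  obtain ⟨x, hx, hxz, hxy⟩ := h3
  set P := (star wt z).filter fun g => sp wt (S.erase z) g = {y} with hP
  set M := (star wt z).filter fun g =>
    y ∈ sp wt (S.erase z) g ∧ 2 ≤ (sp wt (S.erase z) g).card with hM
  have h1 := h.con ((S.erase z).erase y) ((erase_subset _ _).trans (erase_subset _ _))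
    (fun hz => notMem_erase z S (mem_of_mem_erase hz))
    ⟨x, mem_erase.2 ⟨hxy, mem_erase.2 ⟨hxz, hx⟩⟩, hx⟩
  have h2 : cut wt ((S.erase z).erase y) ⊆ (star wt y ∪ star wt z) \ P := by
    intro e he
    obtain ⟨⟨u, hu, hu'⟩, v, hv, hv'⟩ := mem_cut.1 he
    refine mem_sdiff.2 ⟨?_, fun heP => ?_⟩
    · by_cases hvy : v = y
      · exact mem_union_left _ (mem_star.2 (hvy ▸ hv'))
      · have : v = z := by
          by_contra hne
          exact hv (mem_erase.2 ⟨hvy, mem_erase.2 ⟨hne, h.supp e v hv'⟩⟩)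
        exact mem_union_right _ (mem_star.2 (this ▸ hv'))
    · have h5 : u ∈ sp wt (S.erase z) e := mem_sp.2 ⟨mem_of_mem_erase hu, hu'⟩
      rw [(mem_filter.1 heP).2, mem_singleton] at h5
      exact (mem_erase.1 hu).1 h5
  have h4 : P ⊆ star wt y ∪ star wt z := (filter_subset _ _).trans subset_union_right
  have h5 := card_le_card h2
  have h6 := card_sdiff_add_card_eq_card h4
  have h7 := card_union_add_card_inter (star wt y) (star wt z)
  have h8 : Disjoint P M := by
    rw [disjoint_left]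
    intro e he he'
    have := (mem_filter.1 he').2.2
    rw [(mem_filter.1 he).2, card_singleton] at this
    omega
  have h9 : P ∪ M ⊆ star wt y ∩ star wt z := by
    intro e he
    rcases mem_union.1 he with he | he
    · refine mem_inter.2 ⟨mem_star.2 ?_, (mem_filter.1 he).1⟩
      have : y ∈ sp wt (S.erase z) e := by
        rw [(mem_filter.1 he).2]; exact mem_singleton_self _
      exact (mem_sp.1 this).2
    · exact mem_inter.2 ⟨mem_star.2 (mem_sp.1 (mem_filter.1 he).2.1).2, (mem_filter.1 he).1⟩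
  have h10 := card_le_card h9
  rw [card_union_of_disjoint h8] at h10
  have := h.dz
  omega

/-- Sum `con` over the `p` classes of the labelling and count by hyperedges: a usable crossing
hyperedge counts at most `Δ` times, an unusable one (there are `b ≤ K - al 2`, all at `z`, of
weight at least two away from `z`) at most `p` times, the other hyperedges at `z` at most once,
the rest not at all.  So `p K ≤ Δ c + p b + K - b`. -/
theorem part_count (h : HOk Δ K wt S S z) (hI : Inp Δ K al wt z X Dd) (hΔ : 2 ≤ Δ)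
    (lab : ν → Finset ν) :
    al 2 * ((S.erase z).image lab).card ≤
      Δ * ((univ.filter fun g => g ∉ X ∧ g ∉ Dd).filter fun g =>
        ∃ x ∈ sp wt (S.erase z) g, ∃ x' ∈ sp wt (S.erase z) g, lab x ≠ lab x').card + al 2 := by
  set Y := S.erase z with hY
  set L := Y.image lab with hL
  set Cr := (univ.filter fun g => g ∉ X ∧ g ∉ Dd).filter fun g =>
    ∃ x ∈ sp wt Y g, ∃ x' ∈ sp wt Y g, lab x ≠ lab x' with hCr
  set B := X ∪ Dd.filter fun g => 2 ≤ win wt z g with hB
  have hBz : B ⊆ star wt z := union_subset hI.xs ((filter_subset _ _).trans hI.ds)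
  have hb : B.card + al 2 ≤ K := by
    have h1 := hI.bud 2 le_rfl hΔ
    have h2 : B.card ≤ X.card + (Dd.filter fun g => 2 ≤ win wt z g).card := card_union_le _ _
    omega
  have h1 : ∀ C ∈ L, K ≤ (univ.filter fun g => g ∈ cut wt (Y.filter fun x => lab x = C)).card := by
    intro C hC
    obtain ⟨x, hx, rfl⟩ := mem_image.1 hC
    rw [filter_mem_eq_inter, univ_inter]
    exact h.con _ ((filter_subset _ _).trans (erase_subset _ _))
      (fun hz => notMem_erase z S (mem_filter.1 hz).1)
      ⟨x, mem_filter.2 ⟨hx, rfl⟩, mem_of_mem_erase hx⟩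
  have h2 : ∀ g, (L.filter fun C => g ∈ cut wt (Y.filter fun x => lab x = C)).card ≤
      (if g ∈ Cr then Δ else 0) + (if g ∈ B then L.card else 0) +
        (if g ∈ star wt z \ B then 1 else 0) := by
    intro g
    have hsub : (L.filter fun C => g ∈ cut wt (Y.filter fun x => lab x = C)) ⊆
        (sp wt Y g).image lab := by
      intro C hC
      obtain ⟨⟨x, hx, hx'⟩, -⟩ := mem_cut.1 (mem_filter.1 hC).2
      exact mem_image.2 ⟨x, mem_sp.2 ⟨(mem_filter.1 hx).1, hx'⟩, (mem_filter.1 hx).2⟩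
    have hle := card_le_card hsub
    have hle' : ((sp wt Y g).image lab).card ≤ (sp wt Y g).card := card_image_le
    by_cases hgB : g ∈ B
    · rw [if_pos hgB]
      have := card_filter_le L fun C => g ∈ cut wt (Y.filter fun x => lab x = C)
      omega
    by_cases hgC : g ∈ Cr
    · rw [if_pos hgC]
      have := card_sp_le h Y g
      omega
    have hgX : g ∉ X := fun hx => hgB (mem_union_left _ hx)
    have hnc : g ∉ Dd → ∀ x ∈ sp wt Y g, ∀ x' ∈ sp wt Y g, lab x = lab x' := by
      intro hd x hx x' hx'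
      by_contra hne
      exact hgC (mem_filter.2 ⟨mem_filter.2 ⟨mem_univ _, hgX, hd⟩, x, hx, x', hx', hne⟩)
    by_cases hgz : g ∈ star wt z
    · rw [if_pos (mem_sdiff.2 ⟨hgz, hgB⟩)]
      by_cases hd : g ∈ Dd
      · have h3 : ¬ 2 ≤ win wt z g := fun h3 => hgB (mem_union_right _ (mem_filter.2 ⟨hd, h3⟩))
        have h4 : (sp wt Y g).card ≤ win wt z g :=
          calc (sp wt Y g).card = ∑ x ∈ sp wt Y g, 1 := by simp
            _ ≤ ∑ x ∈ sp wt Y g, wt g x := sum_le_sum fun x hx => (mem_sp.1 hx).2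
            _ ≤ win wt z g := sum_le_sum_of_subset fun x hx =>
              mem_erase.2 ⟨(mem_erase.1 (mem_sp.1 hx).1).1, mem_univ _⟩
        omega
      · have h3 : ((sp wt Y g).image lab).card ≤ 1 := by
          refine card_le_one.2 fun a ha b hb => ?_
          obtain ⟨x, hx, rfl⟩ := mem_image.1 ha
          obtain ⟨x', hx', rfl⟩ := mem_image.1 hb
          exact hnc hd x hx x' hx'
        omega
    · have h3 : (L.filter fun C => g ∈ cut wt (Y.filter fun x => lab x = C)) = ∅ := by
        refine eq_empty_of_forall_notMem fun C hC => ?_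
        obtain ⟨⟨x, hx, hx'⟩, u, hu, hu'⟩ := mem_cut.1 (mem_filter.1 hC).2
        have huY : u ∈ Y := mem_erase.2 ⟨fun e => hgz (mem_star.2 (e ▸ hu')), h.supp g u hu'⟩
        refine hu (mem_filter.2 ⟨huY, ?_⟩)
        rw [← (mem_filter.1 hx).2]
        exact hnc (fun hd => hgz (hI.ds hd)) u (mem_sp.2 ⟨huY, hu'⟩) x
          (mem_sp.2 ⟨(mem_filter.1 hx).1, hx'⟩)
      rw [h3, card_empty]
      exact Nat.zero_le _
  have h3 : L.card * K ≤ Cr.card * Δ + B.card * L.card + (star wt z \ B).card :=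
    calc L.card * K = ∑ _C ∈ L, K := by rw [sum_const, smul_eq_mul]
      _ ≤ ∑ C ∈ L, (univ.filter fun g => g ∈ cut wt (Y.filter fun x => lab x = C)).card :=
        sum_le_sum h1
      _ = ∑ g, (L.filter fun C => g ∈ cut wt (Y.filter fun x => lab x = C)).card := by
        simp only [card_filter]
        exact sum_comm
      _ ≤ ∑ g, ((if g ∈ Cr then Δ else 0) + (if g ∈ B then L.card else 0) +
          (if g ∈ star wt z \ B then 1 else 0)) := sum_le_sum fun g _ => h2 g
      _ = _ := by
        rw [sum_add_distrib, sum_add_distrib, sum_ite_mem, sum_ite_mem, sum_ite_mem, univ_inter,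
          univ_inter, univ_inter, sum_const, sum_const, sum_const, smul_eq_mul, smul_eq_mul,
          smul_eq_mul, mul_one]
  have h4 := card_sdiff_add_card_eq_card hBz
  rw [h.dz] at h4
  rcases Nat.eq_zero_or_pos L.card with h0 | h0
  · rw [h0, mul_zero]
    exact Nat.zero_le _
  obtain ⟨p, hp⟩ : ∃ p, L.card = p + 1 := ⟨L.card - 1, by omega⟩
  have h5 : al 2 ≤ (star wt z \ B).card := by omega
  rw [hp] at h3 ⊢
  rw [← h4] at h3
  have h6 := Nat.mul_le_mul_left p h5
  nlinarith

end Pool.Agent.Lib.MP_f20cd2_co.DP
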