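import Pool.Agent.Lib.MP_f20cd2_co.DP.TreeA
import Pool.Agent.Lib.MP_f20cd2_co.AS.Exch

/-!
A spanning tree that uses few hyperedges at every node of small degree.
-/

set_option autoImplicit false
set_option linter.unusedSectionVars false

namespace Pool.Agent.Lib.MP_f20cd2_co.DP

open Finset
open Pool.Agent.Lib.MP_f20cd2_co.H83 (Conn Cells)
open Pool.Agent.Lib.MP_f20cd2_co.PL
open Pool.Agent.Lib.MP_f20cd2_co.HM (dg)
open scoped Classical

variable {ν ε : Type} [Fintype ν] [DecidableEq ν] [Fintype ε] [DecidableEq ε]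

namespace TreeBAux

/-- The number of used hyperedges at a node. -/
def inc (s : ε → Finset ν) (U : Finset ε) (y : ν) : ℕ := (U.filter fun g => y ∈ s g).card

/-- The nodes of small degree on the unused hyperedges of the first `m` levels. -/
noncomputable def Bs (YK : Finset ν) (s : ε → Finset ν) (U : Finset ε) (F : ℕ → ε) (m : ℕ) :
    Finset ν :=
  YK.filter fun y => ∃ k, k < m ∧ F k ∉ U ∧ y ∈ s (F k)

/-- The used hyperedges that are not touched by the first `m` levels. -/
noncomputable def Wk (YK : Finset ν) (s : ε → Finset ν) (U : Finset ε) (F : ℕ → ε) (m : ℕ) :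
    Finset ε :=
  U.filter fun g => (∀ k, k < m → g ≠ F k) ∧ ∀ y ∈ s g, y ∉ Bs YK s U F m

/-- The weight of a level. -/
def phi (Δ D : ℕ) (YK : Finset ν) (s : ε → Finset ν) (U : Finset ε) (h : ε) : ℕ :=
  if h ∈ U then Δ * D + 1 else ∑ y ∈ s h ∩ YK, inc s U y

/-- A forest of used hyperedges with bounded load. -/
structure SI (D : ℕ) (Y YK : Finset ν) (Av : Finset ε) (s en : ε → Finset ν) (U : Finset ε) :
    Prop where
  av : ∀ g ∈ U, g ∈ Av
  sub : ∀ g ∈ U, en g ⊆ s g
  two : ∀ g ∈ U, (en g).card = 2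
  fo : cc en U Y + U.card ≤ Y.card
  deg : ∀ y ∈ YK, inc s U y ≤ D

/-- A valid level. -/
structure LV (YK : Finset ν) (Av : Finset ε) (s en : ε → Finset ν) (U : Finset ε) (F : ℕ → ε)
    (k : ℕ) : Prop where
  av : F k ∈ Av
  ne : ∀ i, i < k → F k ≠ F i
  dis : ∀ y ∈ s (F k), y ∉ Bs YK s U F k
  sep : ∃ p ∈ s (F k), ∃ q ∈ s (F k), ¬ Lk en (Wk YK s U F k) p q

variable {Δ K D a : ℕ} {Y YK : Finset ν} {Av : Finset ε} {s en en' : ε → Finset ν}
  {U U' : Finset ε} {F F' : ℕ → ε} {m k : ℕ}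

lemma mem_Bs {y : ν} : y ∈ Bs YK s U F m ↔ y ∈ YK ∧ ∃ k, k < m ∧ F k ∉ U ∧ y ∈ s (F k) := by
  simp only [Bs, mem_filter]

lemma mem_Wk {g : ε} : g ∈ Wk YK s U F m ↔
    g ∈ U ∧ (∀ k, k < m → g ≠ F k) ∧ ∀ y ∈ s g, y ∉ Bs YK s U F m := by
  simp only [Wk, mem_filter]

lemma Wk_sub : Wk YK s U F m ⊆ U := fun _ h => (mem_Wk.1 h).1

lemma Bs_mono (h : k ≤ m) : Bs YK s U F k ⊆ Bs YK s U F m := by
  intro y hy
  obtain ⟨h1, i, h2, h3⟩ := mem_Bs.1 hy
  exact mem_Bs.2 ⟨h1, i, by omega, h3⟩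

lemma Wk_anti (h : k ≤ m) : Wk YK s U F m ⊆ Wk YK s U F k := by
  intro g hg
  obtain ⟨h1, h2, h3⟩ := mem_Wk.1 hg
  exact mem_Wk.2 ⟨h1, fun i hi => h2 i (by omega), fun y hy hb => h3 y hy (Bs_mono h hb)⟩

lemma Wk_zero : Wk YK s U F 0 = U := by
  refine Subset.antisymm Wk_sub fun g hg => mem_Wk.2 ⟨hg, fun k hk => absurd hk (by omega), ?_⟩
  intro y _ hy
  obtain ⟨-, i, h2, -⟩ := mem_Bs.1 hy
  omega

lemma Bs_congr (h : ∀ i, i < m → F' i = F i) (h' : ∀ i, i < m → (F i ∈ U' ↔ F i ∈ U)) :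
    Bs YK s U' F' m = Bs YK s U F m := by
  ext y
  rw [mem_Bs, mem_Bs]
  refine and_congr_right fun _ => exists_congr fun i => and_congr_right fun hi => ?_
  rw [h i hi, h' i hi]

lemma Wk_congr (h : ∀ i, i < m → F' i = F i) : Wk YK s U F' m = Wk YK s U F m := by
  ext g
  rw [mem_Wk, mem_Wk, Bs_congr h fun _ _ => Iff.rfl]
  refine and_congr_right fun _ => and_congr_left fun _ =>
    forall_congr' fun i => forall_congr' fun hi => ?_
  rw [h i hi]

lemma lv_congr (h : ∀ i, i ≤ k → F' i = F i) (hL : LV YK Av s en U F k) :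
    LV YK Av s en U F' k := by
  have h1 : ∀ i, i < k → F' i = F i := fun i hi => h i hi.le
  refine ⟨?_, fun i hi => ?_, ?_, ?_⟩
  · rw [h k le_rfl]; exact hL.av
  · rw [h k le_rfl, h1 i hi]; exact hL.ne i hi
  · rw [h k le_rfl, Bs_congr h1 fun _ _ => Iff.rfl]; exact hL.dis
  · rw [h k le_rfl, Wk_congr h1]; exact hL.sep

lemma len_le (h : ∀ k, k < m → LV YK Av s en U F k) : m ≤ Fintype.card ε := by
  have : (range m).card ≤ (univ : Finset ε).card := by
    refine card_le_card_of_injOn F (fun _ _ => mem_coe.2 (mem_univ _)) fun i hi j hj e => ?_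
    have hi' : i < m := mem_range.1 (mem_coe.1 hi)
    have hj' : j < m := mem_range.1 (mem_coe.1 hj)
    rcases lt_trichotomy i j with c | c | c
    · exact absurd e.symm ((h j hj').ne i c)
    · exact c
    · exact absurd e ((h i hi').ne j c)
  simpa using this

lemma lk_one {g : ε} (hg : g ∈ U) {p q : ν} (hp : p ∈ en g) (hq : q ∈ en g) : Lk en U p q :=
  Relation.ReflTransGen.single ⟨g, hg, hp, hq⟩

lemma lk_mono (h : U ⊆ U') {p q : ν} (hpq : Lk en U p q) : Lk en U' p q :=
  lk_of (fun _ hg _ hp _ hq => lk_one (h hg) hp hq) hpq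

lemma ne_of_not_lk {p q : ν} (h : ¬ Lk en U p q) : p ≠ q := by
  intro e
  rw [e] at h
  exact h Relation.ReflTransGen.refl

lemma inc_mono (h : U ⊆ U') (y : ν) : inc s U y ≤ inc s U' y :=
  card_le_card (filter_subset_filter _ h)

lemma inc_insert (h : ε) (y : ν) : inc s (insert h U) y ≤ inc s U y + 1 := by
  unfold inc
  rw [filter_insert]
  split_ifs
  · exact card_insert_le _ _
  · omega

lemma inc_insert_of {h : ε} {y : ν} (hy : y ∉ s h) : inc s (insert h U) y = inc s U y := by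
  unfold inc
  rw [filter_insert, if_neg hy]

lemma inc_erase {g : ε} {y : ν} (hg : g ∈ U) (hy : y ∈ s g) :
    inc s (U.erase g) y < inc s U y := by
  refine card_lt_card ((ssubset_iff_of_subset (filter_subset_filter _ (erase_subset _ _))).2 ?_)
  exact ⟨g, mem_filter.2 ⟨hg, hy⟩, fun h => notMem_erase g U (mem_filter.1 h).1⟩

/-- The load stays bounded when an unblocked hyperedge is added. -/
lemma deg_insert (hS : SI D Y YK Av s en U) {h : ε} (hb : ∀ y ∈ s h, y ∈ YK → inc s U y < D)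
    {U0 : Finset ε} (h0 : U0 ⊆ U) : ∀ y ∈ YK, inc s (insert h U0) y ≤ D := by
  intro y hy
  have h1 := inc_mono (s := s) h0 y
  by_cases c : y ∈ s h
  · have h2 := inc_insert (s := s) (U := U0) h y
    have h3 := hb y c hy
    omega
  · rw [inc_insert_of c]
    exact h1.trans (hS.deg y hy)

/-- The entries of the measure. -/
noncomputable def ent (Δ D : ℕ) (Y YK : Finset ν) (s en : ε → Finset ν) (U : Finset ε) (m : ℕ)
    (F : ℕ → ε) (p : ℕ) : ℕ∞ :=
  if p = 0 then (cc en U Y : ℕ∞)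
  else if p - 1 < m then ((phi Δ D YK s U (F (p - 1)) : ℕ) : ℕ∞) else ⊤

lemma ent_zero : ent Δ D Y YK s en U m F 0 = (cc en U Y : ℕ∞) := by
  simp [ent]

lemma ent_lt (h : k < m) :
    ent Δ D Y YK s en U m F (k + 1) = ((phi Δ D YK s U (F k) : ℕ) : ℕ∞) := by
  simp [ent, h]

lemma ent_ge (h : ¬ k < m) : ent Δ D Y YK s en U m F (k + 1) = ⊤ := by
  simp [ent, h]

/-- The measure of a configuration. -/
noncomputable def mes (Δ D : ℕ) (Y YK : Finset ν) (s : ε → Finset ν)
    (c : (ε → Finset ν) × Finset ε × ℕ × (ℕ → ε)) : Lex (Fin (Fintype.card ε + 1) → ℕ∞) :=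
  toLex fun p => ent Δ D Y YK s c.1 c.2.1 c.2.2.1 c.2.2.2 p.val

lemma mes_lt_cc {m' : ℕ} (h : cc en' U' Y < cc en U Y) :
    mes Δ D Y YK s (en', U', m', F') < mes Δ D Y YK s (en, U, m, F) := by
  refine AS.ExchAux.lex_lt (K := 0) (Nat.zero_le _) (fun i hi => absurd hi (Nat.not_lt_zero _)) ?_
  rw [ent_zero, ent_zero]
  exact_mod_cast h

lemma mes_lt_lv (hk : k + 1 ≤ Fintype.card ε) (hm : k ≤ m) (h0 : cc en' U' Y ≤ cc en U Y)
    (h1 : ∀ i, i < k → phi Δ D YK s U' (F' i) ≤ phi Δ D YK s U (F i))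
    (h2 : k < m → phi Δ D YK s U' (F' k) < phi Δ D YK s U (F k)) :
    mes Δ D Y YK s (en', U', k + 1, F') < mes Δ D Y YK s (en, U, m, F) := by
  refine AS.ExchAux.lex_lt (K := k + 1) hk (fun i hi => ?_) ?_
  · rcases i with _ | i
    · rw [ent_zero, ent_zero]
      exact_mod_cast h0
    · rw [ent_lt (show i < k + 1 by omega), ent_lt (show i < m by omega)]
      exact_mod_cast h1 i (by omega)
  · rw [ent_lt (Nat.lt_succ_self k)]
    by_cases c : k < m
    · rw [ent_lt c]
      exact_mod_cast h2 c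
    · rw [ent_ge c]
      exact ENat.natCast_lt_top _

/-- Adding a hyperedge between two classes. -/
lemma step_add (hs : ∀ h, s h ⊆ Y) (hS : SI D Y YK Av s en U) {h : ε} (hA : h ∈ Av) (hU : h ∉ U)
    (hb : ∀ y ∈ s h, y ∈ YK → inc s U y < D) {p q : ν} (hp : p ∈ s h) (hq : q ∈ s h)
    (hn : ¬ Lk en U p q) :
    SI D Y YK Av s (Function.update en h {p, q}) (insert h U) ∧
      cc (Function.update en h {p, q}) (insert h U) Y < cc en U Y := by
  have hup : ∀ g ∈ U, Function.update en h {p, q} g = en g := fun g hg =>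
    Function.update_of_ne (fun (e : g = h) => hU (e ▸ hg)) _ _
  have h1 : ∀ u v, Lk (Function.update en h {p, q}) U u v → Lk en U u v := fun u v huv =>
    lk_of (fun g hg x hx y hy => lk_one hg (hup g hg ▸ hx) (hup g hg ▸ hy)) huv
  have h2 : ∀ u v, Lk en U u v → Lk (Function.update en h {p, q}) U u v := fun u v huv =>
    lk_of (fun g hg x hx y hy =>
      lk_one hg ((hup g hg).symm ▸ hx) ((hup g hg).symm ▸ hy)) huv
  have h3 := cc_add (en := Function.update en h {p, q}) (U := U) (g := h) (Y := Y)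
    (Function.update_self _ _ _) (hs h hp) (hs h hq) fun c => hn (h1 _ _ c)
  have h4 := cc_le h2 Y
  refine ⟨⟨fun g hg => ?_, fun g hg => ?_, fun g hg => ?_, ?_, deg_insert hS hb (Subset.refl _)⟩,
    by omega⟩
  · rcases mem_insert.1 hg with e | e
    · rw [e]; exact hA
    · exact hS.av g e
  · rcases mem_insert.1 hg with e | e
    · rw [e, Function.update_self]
      exact insert_subset hp (singleton_subset_iff.2 hq)
    · rw [hup g e]; exact hS.sub g e
  · rcases mem_insert.1 hg with e | e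
    · rw [e, Function.update_self]
      exact card_pair (ne_of_not_lk hn)
    · rw [hup g e]; exact hS.two g e
  · have h5 := hS.fo
    rw [card_insert_of_notMem hU]
    omega

/-- The exchange at an unblocked level. -/
lemma step_swap (hΔ : ∀ h, (s h).card ≤ Δ) (hS : SI D Y YK Av s en U) {j : ℕ}
    (hL : ∀ i, i ≤ j → LV YK Av s en U F i) (hU : F j ∉ U)
    (hb : ∀ y ∈ s (F j), y ∈ YK → inc s U y < D) {p q : ν} (hp : p ∈ s (F j)) (hq : q ∈ s (F j))
    (hne : p ≠ q) (hk : k < j) (h1 : Lk en (Wk YK s U F k) p q)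
    (h0 : ¬ Lk en (Wk YK s U F (k + 1)) p q) :
    ∃ en' U', SI D Y YK Av s en' U' ∧ (∀ i, i < k + 1 → LV YK Av s en' U' F i) ∧
      cc en' U' Y ≤ cc en U Y ∧
      (∀ i, i < k → phi Δ D YK s U' (F i) ≤ phi Δ D YK s U (F i)) ∧
      phi Δ D YK s U' (F k) < phi Δ D YK s U (F k) := by
  obtain ⟨g, hg, hg', hc⟩ := swap Y hS.two Wk_sub (Wk_anti (Nat.le_succ k)) h1 h0 hU
  obtain ⟨g1, g2, g3⟩ := mem_Wk.1 hg
  have hj := hL j le_rfl
  have hup : ∀ x ∈ U, Function.update en (F j) {p, q} x = en x := fun x hx =>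
    Function.update_of_ne (fun (e : x = F j) => hU (e ▸ hx)) _ _
  have hdeg := deg_insert hS hb (erase_subset g U)
  have hmem : ∀ i, i < k → (F i ∈ insert (F j) (U.erase g) ↔ F i ∈ U) := by
    intro i hi
    rw [mem_insert, mem_erase]
    constructor
    · rintro (e | e)
      · exact absurd e.symm (hj.ne i (by omega))
      · exact e.2
    · exact fun e => Or.inr ⟨(g2 i hi).symm, e⟩
  have hB : ∀ i, i ≤ k → Bs YK s (insert (F j) (U.erase g)) F i = Bs YK s U F i := fun i hi =>
    Bs_congr (fun _ _ => rfl) fun l hl => hmem l (by omega)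
  have hinc : ∀ i, i ≤ k → F i ∉ U → ∀ y ∈ s (F i) ∩ YK,
      inc s (insert (F j) (U.erase g)) y = inc s (U.erase g) y := by
    intro i hi hiU y hy
    rw [mem_inter] at hy
    exact inc_insert_of fun c => hj.dis y c (mem_Bs.2 ⟨hy.2, i, by omega, hiU, hy.1⟩)
  refine ⟨Function.update en (F j) {p, q}, insert (F j) (U.erase g),
    ⟨fun x hx => ?_, fun x hx => ?_, fun x hx => ?_, ?_, hdeg⟩, fun i hi => ?_, hc,
    fun i hi => ?_, ?_⟩
  · rcases mem_insert.1 hx with e | e
    · rw [e]; exact hj.av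
    · exact hS.av x (mem_of_mem_erase e)
  · rcases mem_insert.1 hx with e | e
    · rw [e, Function.update_self]
      exact insert_subset hp (singleton_subset_iff.2 hq)
    · rw [hup x (mem_of_mem_erase e)]; exact hS.sub x (mem_of_mem_erase e)
  · rcases mem_insert.1 hx with e | e
    · rw [e, Function.update_self]
      exact card_pair hne
    · rw [hup x (mem_of_mem_erase e)]; exact hS.two x (mem_of_mem_erase e)
  · have h5 := hS.fo
    have h6 := card_erase_add_one g1
    rw [card_insert_of_notMem fun c => hU (mem_of_mem_erase c)]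
    omega
  · have hi' : i ≤ k := by omega
    have hLi := hL i (by omega)
    refine ⟨hLi.av, hLi.ne, ?_, ?_⟩
    · rw [hB i hi']; exact hLi.dis
    · obtain ⟨u, hu, v, hv, huv⟩ := hLi.sep
      refine ⟨u, hu, v, hv, fun c => huv (lk_of (fun x hx y hy z hz => ?_) c)⟩
      obtain ⟨x1, x2, x3⟩ := mem_Wk.1 hx
      rcases mem_insert.1 x1 with e | e
      · have h2 : Lk en (Wk YK s U F i) p q := lk_mono (Wk_anti hi') h1
        rw [e, Function.update_self] at hy hz
        simp only [mem_insert, mem_singleton] at hy hz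
        rcases hy with rfl | rfl <;> rcases hz with rfl | rfl
        · exact Relation.ReflTransGen.refl
        · exact h2
        · exact lk_symm h2
        · exact Relation.ReflTransGen.refl
      · have e' := mem_of_mem_erase e
        rw [hup x e'] at hy hz
        rw [hB i hi'] at x3
        exact lk_one (mem_Wk.2 ⟨e', x2, x3⟩) hy hz
  · unfold phi
    by_cases c : F i ∈ U
    · rw [if_pos c, if_pos ((hmem i hi).2 c)]
    · rw [if_neg c, if_neg fun c' => c ((hmem i hi).1 c')]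
      refine sum_le_sum fun y hy => ?_
      rw [hinc i hi.le c y hy]
      exact inc_mono (erase_subset _ _) y
  · have hkj : F k ≠ F j := (hj.ne k hk).symm
    unfold phi
    by_cases c : F k ∈ U
    · have hgk : g = F k := by
        by_contra hn
        refine hg' (mem_Wk.2 ⟨g1, fun i hi => ?_, fun y hy hy' => ?_⟩)
        · rcases (Nat.lt_succ_iff.1 hi).lt_or_eq with e | e
          · exact g2 i e
          · rw [e]; exact hn
        · obtain ⟨y1, i, y2, y3, y4⟩ := mem_Bs.1 hy'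
          rcases (Nat.lt_succ_iff.1 y2).lt_or_eq with e | e
          · exact g3 y hy (mem_Bs.2 ⟨y1, i, e, y3, y4⟩)
          · rw [e] at y3; exact y3 c
      have hn : F k ∉ insert (F j) (U.erase g) := by
        rw [mem_insert, hgk]
        rintro (e | e)
        · exact hkj e
        · exact notMem_erase _ _ e
      rw [if_pos c, if_neg hn]
      have h7 : ∑ y ∈ s (F k) ∩ YK, inc s (insert (F j) (U.erase g)) y ≤
          (s (F k) ∩ YK).card • D :=
        sum_le_card_nsmul _ _ _ fun y hy => hdeg y (mem_inter.1 hy).2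
      have h8 : (s (F k) ∩ YK).card ≤ Δ := (card_le_card inter_subset_left).trans (hΔ _)
      rw [smul_eq_mul] at h7
      exact Nat.lt_succ_of_le (h7.trans (Nat.mul_le_mul_right _ h8))
    · have hn : F k ∉ insert (F j) (U.erase g) := by
        rw [mem_insert]
        rintro (e | e)
        · exact hkj e
        · exact c (mem_of_mem_erase e)
      have hy0 : ∃ y ∈ s (F k) ∩ YK, y ∈ s g := by
        by_contra hn'
        refine hg' (mem_Wk.2 ⟨g1, fun i hi => ?_, fun y hy hy' => ?_⟩)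
        · rcases (Nat.lt_succ_iff.1 hi).lt_or_eq with e | e
          · exact g2 i e
          · rw [e]; exact fun e' => c (e' ▸ g1)
        · obtain ⟨y1, i, y2, y3, y4⟩ := mem_Bs.1 hy'
          rcases (Nat.lt_succ_iff.1 y2).lt_or_eq with e | e
          · exact g3 y hy (mem_Bs.2 ⟨y1, i, e, y3, y4⟩)
          · rw [e] at y4
            exact hn' ⟨y, mem_inter.2 ⟨y4, y1⟩, hy⟩
      obtain ⟨y0, y1, y2⟩ := hy0
      rw [if_neg c, if_neg hn]
      refine sum_lt_sum (fun y hy => ?_) ⟨y0, y1, ?_⟩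
      · rw [hinc k le_rfl c y hy]
        exact inc_mono (erase_subset _ _) y
      · rw [hinc k le_rfl c y0 y1]
        exact inc_erase g1 y2

/-- Counting when all levels are blocked. -/
lemma count (hΔ : ∀ h, (s h).card ≤ Δ) (hL : ∀ k, k < m → LV YK Av s en U F k)
    (hb : ∀ k, k < m → F k ∉ U → ∃ y ∈ s (F k), y ∈ YK ∧ D ≤ inc s U y) :
    m ≤ (((range m).image F) ∩ U).card + ((Bs YK s U F m).filter fun y => D ≤ inc s U y).card ∧
      (Bs YK s U F m).card ≤ Δ * ((Bs YK s U F m).filter fun y => D ≤ inc s U y).card := by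
  induction m with
  | zero =>
    refine ⟨Nat.zero_le _, ?_⟩
    have : Bs YK s U F 0 = ∅ := by
      refine eq_empty_of_forall_notMem fun y hy => ?_
      obtain ⟨-, i, h2, -⟩ := mem_Bs.1 hy
      omega
    rw [this]
    simp
  | succ m ih =>
    obtain ⟨i1, i2⟩ := ih (fun k hk => hL k (by omega)) fun k hk => hb k (by omega)
    have hm := hL m (Nat.lt_succ_self m)
    have hsub : (range m).image F ∩ U ⊆ (range (m + 1)).image F ∩ U :=
      inter_subset_inter (image_subset_image (range_subset_range.2 (Nat.le_succ m)))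
        (Subset.refl _)
    by_cases c : F m ∈ U
    · have hB : Bs YK s U F (m + 1) = Bs YK s U F m := by
        refine Subset.antisymm (fun y hy => ?_) (Bs_mono (Nat.le_succ m))
        obtain ⟨y1, i, y2, y3, y4⟩ := mem_Bs.1 hy
        rcases (Nat.lt_succ_iff.1 y2).lt_or_eq with e | e
        · exact mem_Bs.2 ⟨y1, i, e, y3, y4⟩
        · rw [e] at y3; exact absurd c y3
      have hlt : ((range m).image F ∩ U).card < ((range (m + 1)).image F ∩ U).card := by
        refine card_lt_card ((ssubset_iff_of_subset hsub).2 ⟨F m, ?_, fun h => ?_⟩)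
        · exact mem_inter.2 ⟨mem_image_of_mem F (mem_range.2 (Nat.lt_succ_self m)), c⟩
        · obtain ⟨i, h1, h2⟩ := mem_image.1 (mem_inter.1 h).1
          exact hm.ne i (mem_range.1 h1) h2.symm
      rw [hB]
      exact ⟨by omega, i2⟩
    · obtain ⟨y0, y1, y2, y3⟩ := hb m (Nat.lt_succ_self m) c
      have hlt : ((Bs YK s U F m).filter fun y => D ≤ inc s U y).card <
          ((Bs YK s U F (m + 1)).filter fun y => D ≤ inc s U y).card := by
        refine card_lt_card ((ssubset_iff_of_subset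
          (filter_subset_filter _ (Bs_mono (Nat.le_succ m)))).2 ⟨y0, ?_, fun h => ?_⟩)
        · exact mem_filter.2 ⟨mem_Bs.2 ⟨y2, m, Nat.lt_succ_self m, c, y1⟩, y3⟩
        · exact hm.dis y0 y1 (mem_filter.1 h).1
      have hB : Bs YK s U F (m + 1) ⊆ Bs YK s U F m ∪ s (F m) := by
        intro y hy
        obtain ⟨z1, i, z2, z3, z4⟩ := mem_Bs.1 hy
        rcases (Nat.lt_succ_iff.1 z2).lt_or_eq with e | e
        · exact mem_union_left _ (mem_Bs.2 ⟨z1, i, e, z3, z4⟩)
        · rw [e] at z4; exact mem_union_right _ z4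
      have h3 := (card_le_card hB).trans (card_union_le _ _)
      have h4 := hΔ (F m)
      have h5 := card_le_card hsub
      have h6 := Nat.mul_le_mul_left Δ (Nat.succ_le_of_lt hlt)
      rw [Nat.mul_succ] at h6
      exact ⟨by omega, by omega⟩

/-- Double counting: heavy nodes force many removed hyperedges. -/
lemma heavy (hΔ : ∀ h, (s h).card ≤ Δ) {Z : Finset ν} (hZ : Z ⊆ Bs YK s U F m)
    (hD : ∀ y ∈ Z, D ≤ inc s U y) : Z.card * D ≤ (U \ Wk YK s U F m).card * Δ := by
  refine card_mul_le_card_mul (fun y g => y ∈ s g) (fun y hy => ?_) fun g _ => ?_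
  · refine (hD y hy).trans (card_le_card fun g hg => ?_)
    obtain ⟨g1, g2⟩ := mem_filter.1 hg
    rw [mem_bipartiteAbove]
    exact ⟨mem_sdiff.2 ⟨g1, fun c => (mem_Wk.1 c).2.2 y g2 (hZ hy)⟩, g2⟩
  · refine (card_le_card fun y hy => ?_).trans (hΔ g)
    rw [mem_bipartiteBelow] at hy
    exact hy.2

/-- A new level when all levels are blocked. -/
lemma new_level (hΔ : ∀ h, (s h).card ≤ Δ)
    (hK : ∀ y ∈ YK, (univ.filter fun h => y ∈ s h).card ≤ K) (h0 : 0 < a) (h1 : 2 * Δ ≤ a)
    (h2 : 2 * Δ ^ 2 * (K * Δ + 1) ≤ D * a)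
    (hp : ∀ lab : ν → Finset ν, a * (Y.image lab).card ≤
      Δ * (Av.filter fun h => ∃ x ∈ s h, ∃ x' ∈ s h, lab x ≠ lab x').card + a)
    (hS : SI D Y YK Av s en U) (hL : ∀ k, k < m → LV YK Av s en U F k)
    (hb : ∀ k, k < m → F k ∉ U → ∃ y ∈ s (F k), y ∈ YK ∧ D ≤ inc s U y) (hc : 2 ≤ cc en U Y) :
    ∃ h, LV YK Av s en U (Function.update F m h) m := by
  obtain ⟨c1, c2⟩ := count hΔ hL hb
  have c3 := heavy (D := D) hΔ (filter_subset (fun y => D ≤ inc s U y) (Bs YK s U F m))
    fun y hy => (mem_filter.1 hy).2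
  have c4 : ((range m).image F ∩ U).card ≤ (U \ Wk YK s U F m).card := by
    refine card_le_card fun g hg => ?_
    obtain ⟨g1, g2⟩ := mem_inter.1 hg
    obtain ⟨i, i1, i2⟩ := mem_image.1 g1
    exact mem_sdiff.2 ⟨g2, fun c => (mem_Wk.1 c).2.1 i (mem_range.1 i1) i2.symm⟩
  have c5 := card_le_cc (en := en) (U := Wk YK s U F m) (fun g hg => hS.two g (Wk_sub hg)) Y
  have c6 := card_sdiff_add_card_eq_card (Wk_sub (YK := YK) (s := s) (U := U) (F := F) (m := m))
  have c7 := hS.fo
  have c8 := hp (cls en (Wk YK s U F m))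
  have c9 : ((range m).image F ∪
      (Bs YK s U F m).biUnion fun y => univ.filter fun h => y ∈ s h).card ≤
      m + (Bs YK s U F m).card * K := by
    refine (card_union_le _ _).trans (Nat.add_le_add ?_ ?_)
    · exact card_image_le.trans (card_range m).le
    · exact card_biUnion_le_card_mul _ _ _ fun y hy => hK y (mem_Bs.1 hy).1
  have c10 : ((range m).image F ∪
      (Bs YK s U F m).biUnion fun y => univ.filter fun h => y ∈ s h).card <
      (Av.filter fun h => ∃ x ∈ s h, ∃ x' ∈ s h,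
        cls en (Wk YK s U F m) x ≠ cls en (Wk YK s U F m) x').card := by
    by_contra hn
    have hn' := (not_lt.1 hn).trans c9
    change a * cc en (Wk YK s U F m) Y ≤ _ at c8
    generalize (Av.filter fun h => ∃ x ∈ s h, ∃ x' ∈ s h,
        cls en (Wk YK s U F m) x ≠ cls en (Wk YK s U F m) x').card = X at c8 hn'
    generalize ((Bs YK s U F m).filter fun y => D ≤ inc s U y).card = z at c1 c2 c3
    generalize ((range m).image F ∩ U).card = iA at c1 c4
    generalize (U \ Wk YK s U F m).card = r at c3 c4 c6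
    generalize (Bs YK s U F m).card = b at c2 hn'
    have d1 : r + 2 ≤ cc en (Wk YK s U F m) Y := by omega
    have d2 : a * (r + 2) ≤ Δ * X + a := (Nat.mul_le_mul_left a d1).trans c8
    have d3 : X ≤ r + (K * Δ + 1) * z := by
      have : b * K ≤ Δ * z * K := Nat.mul_le_mul_right K c2
      have e : (K * Δ + 1) * z = Δ * z * K + z := by ring
      omega
    rcases Nat.eq_zero_or_pos Δ with e | e
    · rw [e, Nat.zero_mul, Nat.mul_add] at d2
      omega
    · have d4 : 2 * Δ * ((K * Δ + 1) * z) ≤ a * r := by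
        refine Nat.le_of_mul_le_mul_left ?_ e
        calc Δ * (2 * Δ * ((K * Δ + 1) * z)) = 2 * Δ ^ 2 * (K * Δ + 1) * z := by ring
          _ ≤ D * a * z := Nat.mul_le_mul_right z h2
          _ = a * (z * D) := by ring
          _ ≤ a * (r * Δ) := Nat.mul_le_mul_left a c3
          _ = Δ * (a * r) := by ring
      have d5 : 2 * Δ * r ≤ a * r := Nat.mul_le_mul_right r h1
      have d6 : 2 * Δ * X ≤ 2 * Δ * (r + (K * Δ + 1) * z) := Nat.mul_le_mul_left _ d3
      rw [Nat.mul_add] at d6 d2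
      have d7 : 2 * Δ * X = 2 * (Δ * X) := by ring
      omega
  obtain ⟨h, x1, x2⟩ := exists_mem_notMem_of_card_lt_card c10
  obtain ⟨x3, p, hp', q, hq, hpq⟩ := mem_filter.1 x1
  have hF : ∀ i, i < m → Function.update F m h i = F i := fun i hi =>
    Function.update_of_ne hi.ne _ _
  refine ⟨h, ?_, fun i hi => ?_, ?_, ?_⟩
  · rw [Function.update_self]; exact x3
  · rw [Function.update_self, hF i hi]
    exact fun e => x2 (mem_union_left _ (mem_image.2 ⟨i, mem_range.2 hi, e.symm⟩))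
  · rw [Function.update_self, Bs_congr hF fun _ _ => Iff.rfl]
    exact fun y hy hy' => x2 (mem_union_right _
      (mem_biUnion.2 ⟨y, hy', mem_filter.2 ⟨mem_univ _, hy⟩⟩))
  · rw [Function.update_self, Wk_congr hF]
    exact ⟨p, hp', q, hq, fun c => hpq (cls_eq_iff.2 c)⟩

/-- A forest with bounded load and at most one class. -/
lemma main [Nonempty ε] (hs : ∀ h, s h ⊆ Y) (hΔ : ∀ h, (s h).card ≤ Δ)
    (hK : ∀ y ∈ YK, (univ.filter fun h => y ∈ s h).card ≤ K) (h0 : 0 < a) (h1 : 2 * Δ ≤ a)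
    (h2 : 2 * Δ ^ 2 * (K * Δ + 1) ≤ D * a)
    (hp : ∀ lab : ν → Finset ν, a * (Y.image lab).card ≤
      Δ * (Av.filter fun h => ∃ x ∈ s h, ∃ x' ∈ s h, lab x ≠ lab x').card + a) :
    ∃ en U, SI D Y YK Av s en U ∧ cc en U Y ≤ 1 := by
  obtain ⟨g0⟩ := ‹Nonempty ε›
  have hst : SI D Y YK Av s (fun _ => ∅) ∅ :=
    ⟨fun g hg => absurd hg (notMem_empty g), fun g hg => absurd hg (notMem_empty g),
      fun g hg => absurd hg (notMem_empty g), card_image_le, fun y _ => by simp [inc]⟩
  obtain ⟨⟨en, U, m, F⟩, ⟨hS, hL⟩, hmin⟩ :=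
    (InvImage.wf (mes Δ D Y YK s) wellFounded_lt).has_min
      {c | SI D Y YK Av s c.1 c.2.1 ∧ ∀ k, k < c.2.2.1 → LV YK Av s c.1 c.2.1 c.2.2.2 k}
      ⟨(fun _ => ∅, ∅, 0, fun _ => g0), hst, fun k hk => absurd hk (Nat.not_lt_zero _)⟩
  change SI D Y YK Av s en U at hS
  change ∀ k, k < m → LV YK Av s en U F k at hL
  refine ⟨en, U, hS, ?_⟩
  by_contra hc
  have hb : ∀ j, j < m → F j ∉ U → ∃ y ∈ s (F j), y ∈ YK ∧ D ≤ inc s U y := by
    intro j hj hU
    by_contra hn
    have hb : ∀ y ∈ s (F j), y ∈ YK → inc s U y < D := fun y y1 y2 =>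
      not_le.1 fun c => hn ⟨y, y1, y2, c⟩
    obtain ⟨p, hp', q, hq, hpq⟩ := (hL j hj).sep
    by_cases c : Lk en U p q
    · have hex : ∃ i, ¬ Lk en (Wk YK s U F i) p q := ⟨j, hpq⟩
      have e1 : Nat.find hex ≤ j := Nat.find_min' hex hpq
      have e2 := Nat.find_spec hex
      have e3 : Nat.find hex ≠ 0 := by
        intro e
        rw [e, Wk_zero] at e2
        exact e2 c
      obtain ⟨k, hk⟩ := Nat.exists_eq_succ_of_ne_zero e3
      have e4 : Lk en (Wk YK s U F k) p q := by
        by_contra e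
        have := Nat.find_min' hex e
        omega
      rw [hk] at e2
      obtain ⟨en', U', s1, s2, s3, s4, s5⟩ := step_swap (k := k) hΔ hS
        (fun i hi => hL i (by omega)) hU hb hp' hq (ne_of_not_lk hpq) (by omega) e4 e2
      exact hmin (en', U', k + 1, F) ⟨s1, s2⟩
        (mes_lt_lv (len_le s2) (by omega) s3 s4 fun _ => s5)
    · obtain ⟨s1, s2⟩ := step_add hs hS (hL j hj).av hU hb hp' hq c
      exact hmin (_, _, 0, F) ⟨s1, fun k hk => absurd hk (Nat.not_lt_zero _)⟩ (mes_lt_cc s2)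
  obtain ⟨h, hh⟩ := new_level hΔ hK h0 h1 h2 hp hS hL hb (by omega)
  have hF : ∀ i, i < m → Function.update F m h i = F i := fun i hi =>
    Function.update_of_ne hi.ne _ _
  have hL' : ∀ k, k < m + 1 → LV YK Av s en U (Function.update F m h) k := by
    intro k hk
    rcases (Nat.lt_succ_iff.1 hk).lt_or_eq with e | e
    · exact lv_congr (fun i hi => hF i (by omega)) (hL k e)
    · rw [e]; exact hh
  exact hmin (en, U, m + 1, Function.update F m h) ⟨hS, hL'⟩
    (mes_lt_lv (len_le hL') le_rfl le_rfl (fun i hi => by rw [hF i hi])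
      fun e => absurd e (lt_irrefl m))

end TreeBAux

/-- See the plan: a layered exchange argument. -/
theorem tree (Δ K D a : ℕ) (Y YK : Finset ν) (Av : Finset ε) (s : ε → Finset ν)
    (hs : ∀ h, s h ⊆ Y) (hΔ : ∀ h, (s h).card ≤ Δ)
    (hK : ∀ y ∈ YK, (univ.filter fun h => y ∈ s h).card ≤ K) (h0 : 0 < a) (h1 : 2 * Δ ≤ a)
    (h2 : 2 * Δ ^ 2 * (K * Δ + 1) ≤ D * a)
    (hp : ∀ lab : ν → Finset ν, a * (Y.image lab).card ≤
      Δ * (Av.filter fun h => ∃ x ∈ s h, ∃ x' ∈ s h, lab x ≠ lab x').card + a) :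
    ∃ en : ε → Finset ν, (∀ h, en h = ∅ ∨ (h ∈ Av ∧ en h ⊆ s h ∧ (en h).card = 2)) ∧
      (∀ x ∈ Y, ∀ y ∈ Y, Lk en univ x y) ∧
      ∀ y ∈ YK, (univ.filter fun h => en h ≠ ∅ ∧ y ∈ s h).card ≤ D := by
  rcases isEmpty_or_nonempty ε with hε | hε
  · refine ⟨fun _ => ∅, fun _ => Or.inl rfl, fun x hx y hy => ?_, fun y _ => by simp⟩
    have h3 := hp fun x => {x}
    rw [card_image_of_injective _ singleton_injective, Finset.eq_empty_of_isEmpty (Av.filter _),
      card_empty, Nat.mul_zero, Nat.zero_add] at h3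
    have h4 : Y.card ≤ 1 := Nat.le_of_mul_le_mul_left (by rw [Nat.mul_one]; exact h3) h0
    rw [card_le_one.1 h4 x hx y hy]
    exact Relation.ReflTransGen.refl
  · obtain ⟨en, U, hS, hc⟩ := TreeBAux.main hs hΔ hK h0 h1 h2 hp
    refine ⟨fun h => if h ∈ U then en h else ∅, fun h => ?_, fun x hx y hy => ?_, fun y hy => ?_⟩
    · by_cases c : h ∈ U
      · simp only [if_pos c]
        exact Or.inr ⟨hS.av h c, hS.sub h c, hS.two h c⟩
      · simp only [if_neg c]
        exact Or.inl trivial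
    · have h3 : cls en U x = cls en U y :=
        card_le_one.1 hc _ (mem_image_of_mem _ hx) _ (mem_image_of_mem _ hy)
      refine lk_of (fun g hg p hp' q hq => ?_) (cls_eq_iff.1 h3)
      refine TreeBAux.lk_one (mem_univ g) ?_ ?_
      · simp only [if_pos hg]; exact hp'
      · simp only [if_pos hg]; exact hq
    · refine (card_le_card fun h hh => ?_).trans (hS.deg y hy)
      obtain ⟨-, h3, h4⟩ := mem_filter.1 hh
      refine mem_filter.2 ⟨?_, h4⟩
      by_contra c
      simp only [if_neg c] at h3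
      exact h3 rfl

end Pool.Agent.Lib.MP_f20cd2_co.DP
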