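import Pool.Agent.Lib.MP_f20cd2_co.DP.Hall2
import Pool.Agent.Lib.MP_f20cd2_co.DP.TreeB
import Pool.Agent.Lib.MP_f20cd2_co.DP.Part

/-!
The case of at least three nodes, all terminals.
-/

set_option autoImplicit false
set_option linter.unusedSectionVars false

namespace Pool.Agent.Lib.MP_f20cd2_co.DP

open Finset
open Pool.Agent.Lib.MP_f20cd2_co.H83 (Conn Cells)
open Pool.Agent.Lib.MP_f20cd2_co.PL
open Pool.Agent.Lib.MP_f20cd2_co.HM (dg)
open scoped Classical

variable {ν ε : Type} [Fintype ν] [DecidableEq ν] [Fintype ε] [DecidableEq ε] {Δ K D : ℕ} {al : ℕ → ℕ} {wt : ε → ν → ℕ}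
  {S : Finset ν} {z : ν} {X Dd : Finset ε}

namespace BaseBigAux

theorem four {B A1 A2 A3 A4 : Finset ε} (h1 : A1 ⊆ B) (h2 : A2 ⊆ B) (h3 : A3 ⊆ B) (h4 : A4 ⊆ B)
    (d12 : Disjoint A1 A2) (d13 : Disjoint A1 A3) (d14 : Disjoint A1 A4) (d23 : Disjoint A2 A3)
    (d24 : Disjoint A2 A4) (d34 : Disjoint A3 A4) :
    A1.card + A2.card + A3.card + A4.card ≤ B.card := by
  have e1 : (A1 ∪ A2).card = A1.card + A2.card := card_union_of_disjoint d12
  have e2 : (A1 ∪ A2 ∪ A3).card = (A1 ∪ A2).card + A3.card :=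
    card_union_of_disjoint (disjoint_union_left.2 ⟨d13, d23⟩)
  have e3 : (A1 ∪ A2 ∪ A3 ∪ A4).card = (A1 ∪ A2 ∪ A3).card + A4.card :=
    card_union_of_disjoint (disjoint_union_left.2 ⟨disjoint_union_left.2 ⟨d14, d24⟩, d34⟩)
  have e4 : (A1 ∪ A2 ∪ A3 ∪ A4).card ≤ B.card :=
    card_le_card (union_subset (union_subset (union_subset h1 h2) h3) h4)
  omega

theorem le_two {B A1 A2 : Finset ε} (h : ∀ g ∈ B, g ∈ A1 ∨ g ∈ A2) :
    B.card ≤ A1.card + A2.card :=
  (card_le_card fun g hg => mem_union.2 (h g hg)).trans (card_union_le _ _)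

theorem le_three {B A1 A2 A3 : Finset ε} (h : ∀ g ∈ B, g ∈ A1 ∨ g ∈ A2 ∨ g ∈ A3) :
    B.card ≤ A1.card + A2.card + A3.card := by
  have h1 : B.card ≤ A1.card + (A2 ∪ A3).card :=
    le_two fun g hg => (h g hg).imp id fun h' => mem_union.2 h'
  have h2 := card_union_le A2 A3
  omega

theorem arith {Δ K D ac ac' u v w n : ℕ} (hΔ : 2 ≤ Δ) (h1 : K ≤ w + v + D + n)
    (h2 : n < Δ * (u + 1)) (h3 : 2 * w + ac' ≤ 2 * K) (h4 : 2 * Δ * (ac + D + 1) ≤ ac') :
    ac ≤ u + v := by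
  by_contra hlt
  have h5 : u + v + 1 ≤ ac := by omega
  have h6 : Δ * (u + v + 1) ≤ Δ * ac := Nat.mul_le_mul_left _ h5
  have h7 : v ≤ Δ * v := Nat.le_mul_of_pos_left _ (by omega)
  have h8 : D ≤ Δ * D := Nat.le_mul_of_pos_left _ (by omega)
  have e1 : 2 * Δ * (ac + D + 1) = 2 * (Δ * ac) + 2 * (Δ * D) + 2 * Δ := by ring
  have e2 : Δ * (u + v + 1) = Δ * (u + 1) + Δ * v := by ring
  omega

theorem win_ge {g : ε} {x y : ν} (hxy : x ≠ y) (hx : x ≠ z) (hy : y ≠ z) :
    wt g x + wt g y ≤ win wt z g := by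
  have h1 : ({x, y} : Finset ν) ⊆ univ.erase z := by
    intro t ht
    rcases mem_insert.1 ht with rfl | ht
    · exact mem_erase.2 ⟨hx, mem_univ _⟩
    · rw [mem_singleton.1 ht]
      exact mem_erase.2 ⟨hy, mem_univ _⟩
  have h2 := sum_le_sum_of_subset (f := fun t => wt g t) h1
  rw [sum_pair hxy] at h2
  exact h2

theorem third (h3 : 3 ≤ S.card) (y : ν) : ∃ x ∈ S, x ≠ z ∧ x ≠ y := by
  by_contra hno
  have h1 : S ⊆ {z, y} := by
    intro x hx
    by_contra hx'
    refine hno ⟨x, hx, fun e => hx' ?_, fun e => hx' ?_⟩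
    · rw [e]; exact mem_insert_self _ _
    · rw [e]; exact mem_insert_of_mem (mem_singleton_self _)
  have h2 := card_le_card h1
  have h4 : ({z, y} : Finset ν).card ≤ 2 := card_le_two
  omega

/-- The budget at a terminal of degree `K`. -/
theorem budget (hn : Num Δ K D al) (h : HOk Δ K wt S S z) (hI : Inp Δ K al wt z X Dd)
    (h3 : 3 ≤ S.card) {en : ε → Finset ν} {ow : ε → Option ν} {y : ν} (hy : y ∈ S) (hyz : y ≠ z)
    (hK : (star wt y).card = K) {E T U Own : Finset ε}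
    (hpos : ∀ g, y ∈ en g → 0 < wt g y)
    (hdead : ∀ g ∈ Dd, en g = ∅ ∧ ow g = none)
    (hOwn : ∀ g ∈ Own, ow g = some y ∧ en g = ∅ ∧ 0 < wt g y)
    (hET : ∀ g, y ∈ en g → g ∈ E ∨ g ∈ T) (hT : T.card ≤ D)
    (hE : 2 * E.card ≤ 2 * (X.filter fun g => sp wt (S.erase z) g = {y}).card +
      (X.filter fun g => y ∈ sp wt (S.erase z) g ∧ 2 ≤ (sp wt (S.erase z) g).card).card + 1)
    (hU : ∀ g, 0 < wt g y → g ∉ X → g ∉ Dd → g ∈ T ∨ g ∈ U)
    (hsh : U.card < Δ * (Own.card + 1)) :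
    Bud Δ K al (fun g => wt g y) (endsAt en y) (deadAt wt en ow y) := by
  intro c hc2 hcΔ
  show (endsAt en y).card + ((deadAt wt en ow y).filter fun g => c ≤ wt g y).card + al c ≤ K
  have hpb := pure_bound h hy hyz hK (third h3 y)
  have hyY : y ∈ S.erase z := mem_erase.2 ⟨hyz, hy⟩
  rcases hcΔ.eq_or_lt with rfl | hlt
  · have h0 : ((deadAt wt en ow y).filter fun g => c ≤ wt g y) = ∅ := by
      refine filter_eq_empty_iff.2 fun g hg => ?_
      have := y_other h hy hyz hK (mem_star.2 (mem_deadAt.1 hg).1)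
      omega
    have h1 : (endsAt en y).card ≤ E.card + T.card :=
      le_two fun g hg => hET g (mem_endsAt.1 hg)
    have h2 : (X.filter fun g => sp wt (S.erase z) g = {y}).card ≤
        ((star wt z).filter fun g => sp wt (S.erase z) g = {y}).card :=
      card_le_card (filter_subset_filter _ hI.xs)
    have h4 : (X.filter fun g =>
          y ∈ sp wt (S.erase z) g ∧ 2 ≤ (sp wt (S.erase z) g).card).card ≤
        ((star wt z).filter fun g =>
          y ∈ sp wt (S.erase z) g ∧ 2 ≤ (sp wt (S.erase z) g).card).card :=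
      card_le_card (filter_subset_filter _ hI.xs)
    have h5 := hn.top
    rw [h0, card_empty]
    omega
  · obtain ⟨Ow, hOw⟩ : ∃ Ow : Finset ε, ∀ g, g ∈ Ow ↔
        0 < wt g y ∧ (g ∈ X ∨ (g ∈ Dd ∧ c ≤ wt g y)) :=
      ⟨univ.filter fun g => 0 < wt g y ∧ (g ∈ X ∨ (g ∈ Dd ∧ c ≤ wt g y)), fun g => by simp⟩
    obtain ⟨V, hV⟩ : ∃ V : Finset ε, ∀ g, g ∈ V ↔ 0 < wt g y ∧ g ∈ Dd ∧ wt g y < c :=
      ⟨univ.filter fun g => 0 < wt g y ∧ g ∈ Dd ∧ wt g y < c, fun g => by simp⟩
    have c1 : (endsAt en y).card + ((deadAt wt en ow y).filter fun g => c ≤ wt g y).card +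
        Own.card + V.card ≤ (star wt y).card := by
      refine four (fun g hg => mem_star.2 (hpos g (mem_endsAt.1 hg)))
        (fun g hg => mem_star.2 (mem_deadAt.1 (mem_filter.1 hg).1).1)
        (fun g hg => mem_star.2 (hOwn g hg).2.2) (fun g hg => mem_star.2 ((hV g).1 hg).1)
        ?_ ?_ ?_ ?_ ?_ ?_
      · exact disjoint_left.2 fun g h1 h2 =>
          (mem_deadAt.1 (mem_filter.1 h2).1).2.1 (mem_endsAt.1 h1)
      · refine disjoint_left.2 fun g h1 h2 => ?_
        have h4 := mem_endsAt.1 h1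
        rw [(hOwn g h2).2.1] at h4
        exact notMem_empty _ h4
      · refine disjoint_left.2 fun g h1 h2 => ?_
        have h4 := mem_endsAt.1 h1
        rw [(hdead g ((hV g).1 h2).2.1).1] at h4
        exact notMem_empty _ h4
      · exact disjoint_left.2 fun g h1 h2 =>
          (mem_deadAt.1 (mem_filter.1 h1).1).2.2 (hOwn g h2).1
      · refine disjoint_left.2 fun g h1 h2 => ?_
        have h4 : c ≤ wt g y := (mem_filter.1 h1).2
        have h5 := ((hV g).1 h2).2.2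
        omega
      · refine disjoint_left.2 fun g h1 h2 => ?_
        have h4 := (hOwn g h1).1
        rw [(hdead g ((hV g).1 h2).2.1).2] at h4
        exact absurd h4 (by simp)
    have c2 : (star wt y).card ≤ (Ow ∪ V).card + T.card + U.card := by
      refine le_three fun g hg => ?_
      have hg' := mem_star.1 hg
      by_cases hX : g ∈ X
      · exact Or.inl (mem_union.2 (Or.inl ((hOw g).2 ⟨hg', Or.inl hX⟩)))
      · by_cases hD : g ∈ Dd
        · by_cases hw : c ≤ wt g y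
          · exact Or.inl (mem_union.2 (Or.inl ((hOw g).2 ⟨hg', Or.inr ⟨hD, hw⟩⟩)))
          · exact Or.inl (mem_union.2 (Or.inr ((hV g).2 ⟨hg', hD, by omega⟩)))
        · exact Or.inr (hU g hg' hX hD)
    have c2' := card_union_le Ow V
    have hOz : ∀ g ∈ Ow, g ∈ star wt z := fun g hg => by
      rcases ((hOw g).1 hg).2 with h1 | h1
      · exact hI.xs h1
      · exact hI.ds h1.1
    have hOy : ∀ g ∈ Ow, y ∈ sp wt (S.erase z) g := fun g hg =>
      mem_sp.2 ⟨hyY, ((hOw g).1 hg).1⟩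
    obtain ⟨M, hM⟩ : ∃ M : Finset ε, ∀ g, g ∈ M ↔ g ∈ Ow ∧ 2 ≤ (sp wt (S.erase z) g).card :=
      ⟨Ow.filter fun g => 2 ≤ (sp wt (S.erase z) g).card, fun g => mem_filter⟩
    have c3 : Ow.card ≤ ((star wt z).filter fun g => sp wt (S.erase z) g = {y}).card + M.card := by
      refine le_two fun g hg => ?_
      by_cases h2 : 2 ≤ (sp wt (S.erase z) g).card
      · exact Or.inr ((hM g).2 ⟨hg, h2⟩)
      · refine Or.inl (mem_filter.2 ⟨hOz g hg, ?_⟩)
        refine eq_singleton_iff_unique_mem.2 ⟨hOy g hg, fun x hx => ?_⟩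
        exact card_le_one.1 (by omega) x hx y (hOy g hg)
    have c4 : M.card ≤ ((star wt z).filter fun g =>
        y ∈ sp wt (S.erase z) g ∧ 2 ≤ (sp wt (S.erase z) g).card).card :=
      card_le_card fun g hg =>
        mem_filter.2 ⟨hOz g ((hM g).1 hg).1, hOy g ((hM g).1 hg).1, ((hM g).1 hg).2⟩
    have c5 : M.card ≤ X.card + (Dd.filter fun g => c + 1 ≤ win wt z g).card := by
      refine le_two fun g hg => ?_
      obtain ⟨h1, h2⟩ := (hM g).1 hg
      rcases ((hOw g).1 h1).2 with h4 | ⟨h4, h5⟩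
      · exact Or.inl h4
      · refine Or.inr (mem_filter.2 ⟨h4, ?_⟩)
        obtain ⟨x, hx, hxy⟩ := exists_mem_ne (s := sp wt (S.erase z) g) (by omega) y
        have h6 := mem_sp.1 hx
        have h7 := win_ge (wt := wt) (g := g) hxy (mem_erase.1 h6.1).1 hyz
        omega
    have c6 := hI.bud (c + 1) (by omega) (by omega)
    have c7 : al c ≤ Own.card + V.card :=
      arith (K := K) (w := Ow.card) (n := U.card) (ac' := al (c + 1)) hn.two (by omega) hsh
        (by omega) (hn.step c hc2 hlt)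
    omega

end BaseBigAux

open BaseBigAux in
/-- See the plan. -/
theorem base_big (hn : Num Δ K D al) (h : HOk Δ K wt S S z) (hI : Inp Δ K al wt z X Dd)
    (h3 : 3 ≤ S.card) : ∃ en ow, Sol Δ K al wt S S z X Dd en ow := by
  have hΔ := hn.two
  have hlow := hn.low
  have : Nonempty ν := ⟨z⟩
  obtain ⟨et, he, hl, hd⟩ := tree Δ K D (al 2) (S.erase z)
    (univ.filter fun y => (star wt y).card ≤ K) (univ.filter fun g => g ∉ X ∧ g ∉ Dd)
    (sp wt (S.erase z)) (fun g => filter_subset _ _) (fun g => card_sp_le h _ g)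
    (fun y hy => (card_le_card fun g hg => mem_star.2 (mem_sp.1 (mem_filter.1 hg).2).2).trans
      (mem_filter.1 hy).2) (by omega) hlow hn.tree (fun lab => part_count h hI hΔ lab)
  obtain ⟨dir, hdir, hhalf⟩ := half X (sp wt (S.erase z)) fun g hg => z_other h (hI.xs hg)
  obtain ⟨ow, how, hshare⟩ := share Δ (by omega)
    (univ.filter fun g => g ∉ X ∧ g ∉ Dd ∧ et g = ∅) (sp wt (S.erase z))
    fun g _ => card_sp_le h _ g
  obtain ⟨en, hX, hN⟩ : ∃ en : ε → Finset ν, (∀ g ∈ X, en g = {z, dir g}) ∧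
      ∀ g, g ∉ X → en g = et g :=
    ⟨fun g => if g ∈ X then {z, dir g} else et g, fun g hg => if_pos hg, fun g hg => if_neg hg⟩
  have het : ∀ g x, x ∈ et g → g ∉ X ∧ g ∉ Dd ∧ x ∈ sp wt (S.erase z) g := by
    intro g x hx
    rcases he g with h0 | ⟨h1, h2, _⟩
    · rw [h0] at hx
      exact absurd hx (notMem_empty _)
    · exact ⟨(mem_filter.1 h1).2.1, (mem_filter.1 h1).2.2, h2 hx⟩
  have hdz : ∀ g ∈ X, dir g ≠ z := fun g hg => (mem_erase.1 (mem_sp.1 (hdir g hg)).1).1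
  have hpos : ∀ g, ∀ x ∈ en g, 0 < wt g x := by
    intro g x hx
    by_cases hg : g ∈ X
    · rw [hX g hg] at hx
      rcases mem_insert.1 hx with rfl | hx
      · exact mem_star.1 (hI.xs hg)
      · rw [mem_singleton.1 hx]
        exact (mem_sp.1 (hdir g hg)).2
    · rw [hN g hg] at hx
      exact (mem_sp.1 (het g x hx).2.2).2
  have hdead : ∀ g ∈ Dd, en g = ∅ ∧ ow g = none := by
    intro g hg
    have hgX : g ∉ X := fun hx => disjoint_left.1 hI.dis hx hg
    refine ⟨?_, ?_⟩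
    · rw [hN g hgX]
      exact eq_empty_of_forall_notMem fun x hx => (het g x hx).2.1 hg
    · cases hw : ow g with
      | none => rfl
      | some y => exact absurd hg (mem_filter.1 (how g y hw).1).2.2.1
  have hown : ∀ g y, ow g = some y → en g = ∅ ∧ 0 < wt g y ∧ y ≠ z := by
    intro g y hw
    obtain ⟨h1, h2⟩ := how g y hw
    obtain ⟨h4, _, h5⟩ := (mem_filter.1 h1).2
    exact ⟨(hN g h4).trans h5, (mem_sp.1 h2).2, (mem_erase.1 (mem_sp.1 h2).1).1⟩
  refine ⟨en, ow, ?_, hpos, ?_, hdead, fun x hx hx' => absurd hx hx', ?_, hown, ?_⟩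
  · intro g
    by_cases hg : g ∈ X
    · rw [hX g hg]
      exact Or.inr (card_pair (hdz g hg).symm)
    · rw [hN g hg]
      exact (he g).imp id fun h' => h'.2.2
  · intro g
    refine ⟨fun hz => ?_, fun hg => ?_⟩
    · by_contra hg
      rw [hN g hg] at hz
      exact (mem_erase.1 (mem_sp.1 (het g z hz).2.2).1).1 rfl
    · rw [hX g hg]
      exact mem_insert_self _ _
  · intro x y hx hy hx' hy'
    have hS : ∀ t, t ≠ z → (t ∈ S ∨ ∃ g, t ∈ en g) → t ∈ S.erase z := by
      intro t ht ht'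
      refine mem_erase.2 ⟨ht, ?_⟩
      rcases ht' with h1 | ⟨g, h1⟩
      · exact h1
      · exact h.supp g t (hpos g t h1)
    have hch : ∀ t, Lk et univ x t → Lnk en z x t := by
      intro t ht
      induction ht with
      | refl => exact Relation.ReflTransGen.refl
      | tail _ hs ih =>
        obtain ⟨g, _, hp, hq⟩ := hs
        have h1 := het g _ hp
        have h2 := het g _ hq
        refine ih.tail ⟨(mem_erase.1 (mem_sp.1 h1.2.2).1).1,
          (mem_erase.1 (mem_sp.1 h2.2.2).1).1, g, ?_, ?_⟩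
        · rw [hN g h1.1]; exact hp
        · rw [hN g h1.1]; exact hq
    exact hch y (hl x (hS x hx hx') y (hS y hy hy'))
  · intro y hy hyz hK
    refine budget hn h hI h3 hy hyz hK (fun g hg => hpos g y hg) hdead ?_ ?_
      (hd y (mem_filter.2 ⟨mem_univ _, hK.le⟩)) (hhalf y) ?_ (hshare y)
    · intro g hg
      have h1 := (mem_filter.1 hg).2
      exact ⟨h1, (hown g y h1).1, (hown g y h1).2.1⟩
    · intro g hg
      by_cases hgX : g ∈ X
      · rw [hX g hgX] at hg
        rcases mem_insert.1 hg with h1 | h1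
        · exact absurd h1 hyz
        · exact Or.inl (mem_filter.2 ⟨hgX, (mem_singleton.1 h1).symm⟩)
      · rw [hN g hgX] at hg
        exact Or.inr (mem_filter.2 ⟨mem_univ _, ne_empty_of_mem hg, (het g y hg).2.2⟩)
    · intro g hg hgX hgD
      have h1 : y ∈ sp wt (S.erase z) g := mem_sp.2 ⟨mem_erase.2 ⟨hyz, hy⟩, hg⟩
      by_cases h0 : et g = ∅
      · exact Or.inr (mem_filter.2 ⟨mem_filter.2 ⟨mem_univ _, hgX, hgD, h0⟩, h1⟩)
      · exact Or.inl (mem_filter.2 ⟨mem_univ _, h0, h1⟩)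

end Pool.Agent.Lib.MP_f20cd2_co.DP
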