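import Pool.Agent.Lib.MP_f20cd2_co.DP.Unit

/-!
Closing paths to cycles.
-/

set_option autoImplicit false
set_option linter.unusedSectionVars false

namespace Pool.Agent.Lib.MP_f20cd2_co.DP

open Finset
open Pool.Agent.Lib.MP_f20cd2_co.H83 (Conn Cells)
open Pool.Agent.Lib.MP_f20cd2_co.PL
open Pool.Agent.Lib.MP_f20cd2_co.HM (dg)
open scoped Classical

variable {V : Type} [Fintype V] [DecidableEq V] {G : SimpleGraph V}

/-- `C` is the union of the paths `seg (w σ) 0 (n σ)` and a system of paths through `R` whose ends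
are the `2 * I.card` ends of the given paths. -/
theorem close {ι : Type} [DecidableEq ι] {Sd R : Finset V} (hR : TJ G Sd R) {I : Finset ι}
    {n : ι → ℕ} {w : ι → ℕ → V} (hw : Pf G I n w) (hn : ∀ σ ∈ I, 0 < n σ)
    (he : ∀ σ ∈ I, w σ 0 ∈ Sd ∧ w σ (n σ) ∈ Sd) (hd : ∀ σ ∈ I, ∀ i ≤ n σ, w σ i ∉ R) :
    ∃ C ≤ G, (∀ v, dg C v = 0 ∨ dg C v = 2) ∧ (∀ σ ∈ I, ∀ i < n σ, C.Adj (w σ i) (w σ (i + 1))) ∧
      ∀ u v, C.Adj u v → u ∈ R ∨ ∃ σ ∈ I, ∃ i ≤ n σ, u = w σ i := by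
  have hdis : Disjoint (I.image fun σ => w σ 0) (I.image fun σ => w σ (n σ)) := by
    rw [disjoint_left]
    intro v h1 h2
    obtain ⟨σ, hσ, e1⟩ := mem_image.1 h1
    obtain ⟨τ, hτ, e2⟩ := mem_image.1 h2
    have h3 := (hw.inj σ hσ τ hτ 0 (Nat.zero_le _) (n τ) le_rfl (e1.trans e2.symm)).2
    have h4 := hn τ hτ
    omega
  have hc1 : (I.image fun σ => w σ 0).card = I.card :=
    card_image_of_injOn fun σ hσ τ hτ e =>
      (hw.inj σ hσ τ hτ 0 (Nat.zero_le _) 0 (Nat.zero_le _) e).1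
  have hc2 : (I.image fun σ => w σ (n σ)).card = I.card :=
    card_image_of_injOn fun σ hσ τ hτ e => (hw.inj σ hσ τ hτ _ le_rfl _ le_rfl e).1
  have hT : ∀ v, v ∈ (I.image fun σ => w σ 0) ∪ (I.image fun σ => w σ (n σ)) ↔
      ∃ σ ∈ I, v = w σ 0 ∨ v = w σ (n σ) := by
    intro v
    rw [mem_union, mem_image, mem_image]
    constructor
    · rintro (⟨σ, hσ, e⟩ | ⟨σ, hσ, e⟩)
      · exact ⟨σ, hσ, Or.inl e.symm⟩
      · exact ⟨σ, hσ, Or.inr e.symm⟩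
    · rintro ⟨σ, hσ, e | e⟩
      · exact Or.inl ⟨σ, hσ, e.symm⟩
      · exact Or.inr ⟨σ, hσ, e.symm⟩
  obtain ⟨J, hJ⟩ := hR ((I.image fun σ => w σ 0) ∪ (I.image fun σ => w σ (n σ)))
    (fun v hv => by
      obtain ⟨σ, hσ, e | e⟩ := (hT v).1 hv
      · rw [e]; exact (he σ hσ).1
      · rw [e]; exact (he σ hσ).2)
    (by rw [card_union_of_disjoint hdis, hc1, hc2]; exact Even.add_self _)
  have hend : ∀ σ u v, (seg (w σ) 0 (n σ)).Adj u v →
      (∃ i ≤ n σ, u = w σ i) ∧ ∃ i ≤ n σ, v = w σ i := by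
    intro σ u v h
    obtain ⟨-, i, -, h2, ⟨e1, e2⟩ | ⟨e1, e2⟩⟩ := seg_adj.1 h
    · exact ⟨⟨i, h2.le, e1⟩, i + 1, h2, e2⟩
    · exact ⟨⟨i + 1, h2, e2⟩, i, h2.le, e1⟩
  have hseg : ∀ σ ∈ I, ∀ τ ∈ I, σ ≠ τ → Disjoint (seg (w σ) 0 (n σ)) (seg (w τ) 0 (n τ)) := by
    intro σ hσ τ hτ hne
    refine HM.disj_iff.2 fun u v h1 h2 => hne ?_
    obtain ⟨i, hi, e1⟩ := (hend σ u v h1).1
    obtain ⟨j, hj, e2⟩ := (hend τ u v h2).1
    exact (hw.inj σ hσ τ hτ i hi j hj (e1.symm.trans e2)).1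
  have hSJ : Disjoint (I.sup fun σ => seg (w σ) 0 (n σ)) J := by
    refine HM.disj_iff.2 fun u v h1 h2 => ?_
    obtain ⟨σ, hσ, h3⟩ := (HM.finsup_adj _ _ _ _).1 h1
    obtain ⟨⟨i, hi, e1⟩, j, hj, e2⟩ := hend σ u v h3
    rcases hJ.nin u v h2 with h | h
    · exact hd σ hσ i hi (e1 ▸ h)
    · exact hd σ hσ j hj (e2 ▸ h)
  have hdg : ∀ σ ∈ I, ∀ v, dg (seg (w σ) 0 (n σ)) v = if v = w σ 0 ∨ v = w σ (n σ) then 1
      else if ∃ i, 0 < i ∧ i < n σ ∧ v = w σ i then 2 else 0 := fun σ hσ v =>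
    dg_seg (hn σ hσ) (fun i _ hi j _ hj e => (hw.inj σ hσ σ hσ i hi j hj e).2) v
  have hzero : ∀ σ v, (¬ ∃ i ≤ n σ, v = w σ i) → dg (seg (w σ) 0 (n σ)) v = 0 :=
    fun σ v h => HM.dg_eq_zero.2 fun u hu => h (hend σ v u hu).1
  refine ⟨(I.sup fun σ => seg (w σ) 0 (n σ)) ⊔ J, sup_le ?_ hJ.le, fun v => ?_,
    fun σ hσ i hi => ?_, fun u v h => ?_⟩
  · intro u v h
    obtain ⟨σ, hσ, h3⟩ := (HM.finsup_adj _ _ _ _).1 h
    obtain ⟨-, i, -, h2, ⟨e1, e2⟩ | ⟨e1, e2⟩⟩ := seg_adj.1 h3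
    · rw [e1, e2]; exact hw.adj σ hσ i h2
    · rw [e1, e2]; exact (hw.adj σ hσ i h2).symm
  · rw [HM.dg_sup hSJ, HM.dg_finsup _ _ hseg]
    by_cases hv : ∃ σ ∈ I, ∃ i ≤ n σ, v = w σ i
    · obtain ⟨σ, hσ, i, hi, e⟩ := hv
      have h1 : ∑ τ ∈ I, dg (seg (w τ) 0 (n τ)) v = dg (seg (w σ) 0 (n σ)) v := by
        refine sum_eq_single_of_mem σ hσ fun τ hτ hne => hzero τ v ?_
        rintro ⟨j, hj, e2⟩
        exact hne (hw.inj τ hτ σ hσ j hj i hi (e2.symm.trans e)).1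
      rw [h1, hdg σ hσ v]
      by_cases h2 : v = w σ 0 ∨ v = w σ (n σ)
      · rw [if_pos h2, hJ.one v ((hT v).2 ⟨σ, hσ, h2⟩)]
        exact Or.inr rfl
      · have h3 : ∃ i, 0 < i ∧ i < n σ ∧ v = w σ i := by
          refine ⟨i, Nat.pos_of_ne_zero fun h0 => h2 (Or.inl ?_),
            lt_of_le_of_ne hi fun h0 => h2 (Or.inr ?_), e⟩
          · rw [← h0]; exact e
          · rw [← h0]; exact e
        have h4 : v ∉ (I.image fun σ => w σ 0) ∪ (I.image fun σ => w σ (n σ)) := by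
          intro h5
          obtain ⟨τ, hτ, e2 | e2⟩ := (hT v).1 h5
          · obtain ⟨e3, -⟩ := hw.inj τ hτ σ hσ 0 (Nat.zero_le _) i hi (e2.symm.trans e)
            subst e3
            exact h2 (Or.inl e2)
          · obtain ⟨e3, -⟩ := hw.inj τ hτ σ hσ _ le_rfl i hi (e2.symm.trans e)
            subst e3
            exact h2 (Or.inr e2)
        rw [if_neg h2, if_pos h3]
        rcases hJ.two v h4 with h5 | h5
        · rw [h5]
          exact Or.inr rfl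
        · exact absurd (e ▸ h5.1) (hd σ hσ i hi)
    · have h1 : ∑ τ ∈ I, dg (seg (w τ) 0 (n τ)) v = 0 :=
        sum_eq_zero fun τ hτ => hzero τ v fun h => hv ⟨τ, hτ, h⟩
      have h4 : v ∉ (I.image fun σ => w σ 0) ∪ (I.image fun σ => w σ (n σ)) := by
        intro h5
        obtain ⟨τ, hτ, e2 | e2⟩ := (hT v).1 h5
        · exact hv ⟨τ, hτ, 0, Nat.zero_le _, e2⟩
        · exact hv ⟨τ, hτ, n τ, le_rfl, e2⟩
      rw [h1, zero_add]
      exact (hJ.two v h4).imp id fun h => h.2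
  · refine Or.inl ((HM.finsup_adj _ _ _ _).2 ⟨σ, hσ, seg_adj.2
      ⟨(hw.adj σ hσ i hi).ne, i, Nat.zero_le _, hi, Or.inl ⟨rfl, rfl⟩⟩⟩)
  · rcases h with h | h
    · obtain ⟨σ, hσ, h3⟩ := (HM.finsup_adj _ _ _ _).1 h
      exact Or.inr ⟨σ, hσ, (hend σ u v h3).1⟩
    · by_cases h4 : u ∈ (I.image fun σ => w σ 0) ∪ (I.image fun σ => w σ (n σ))
      · obtain ⟨τ, hτ, e2 | e2⟩ := (hT u).1 h4
        · exact Or.inr ⟨τ, hτ, 0, Nat.zero_le _, e2⟩
        · exact Or.inr ⟨τ, hτ, n τ, le_rfl, e2⟩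
      · rcases hJ.two u h4 with h5 | h5
        · exact absurd h (HM.dg_eq_zero.1 h5 v)
        · exact Or.inl h5.1

/-- One index for every component. -/
theorem reps {ι : Type} [DecidableEq ι] (C : SimpleGraph V) (I : Finset ι) (x : ι → V) :
    ∃ I' ⊆ I, (∀ σ ∈ I', ∀ σ' ∈ I', C.Reachable (x σ) (x σ') → σ = σ') ∧
      ∀ σ ∈ I, ∃ σ' ∈ I', C.Reachable (x σ') (x σ) := by
  induction I using Finset.induction_on with
  | empty => exact ⟨∅, Subset.refl _, fun σ hσ => absurd hσ (notMem_empty σ),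
      fun σ hσ => absurd hσ (notMem_empty σ)⟩
  | insert a s _ ih =>
    obtain ⟨I', h1, h2, h3⟩ := ih
    by_cases h : ∃ τ ∈ I', C.Reachable (x τ) (x a)
    · refine ⟨I', h1.trans (subset_insert a s), h2, fun σ hσ => ?_⟩
      rcases mem_insert.1 hσ with e | hσ
      · rw [e]; exact h
      · exact h3 σ hσ
    · refine ⟨insert a I', insert_subset_insert a h1, fun σ hσ τ hτ hr => ?_, fun σ hσ => ?_⟩
      · rcases mem_insert.1 hσ with e | hσ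
        · rcases mem_insert.1 hτ with e' | hτ
          · exact e.trans e'.symm
          · exact absurd ⟨τ, hτ, by rw [← e]; exact hr.symm⟩ h
        · rcases mem_insert.1 hτ with e' | hτ
          · exact absurd ⟨σ, hσ, by rw [← e']; exact hr⟩ h
          · exact h2 σ hσ τ hτ hr
      · rcases mem_insert.1 hσ with e | hσ
        · exact ⟨a, mem_insert_self _ _, by rw [e]⟩
        · obtain ⟨τ, hτ, hr⟩ := h3 σ hσ
          exact ⟨τ, mem_insert_of_mem hτ, hr⟩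

end Pool.Agent.Lib.MP_f20cd2_co.DP
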