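import Pool.Agent.Lib.MP_f20cd2_co.DP.Defs
import Pool.Agent.Lib.MP_f20cd2_co.AS.Lanes

/-!
The colouring.
-/

set_option autoImplicit false
set_option linter.unusedSectionVars false

namespace Pool.Agent.Lib.MP_f20cd2_co.DP

open Finset
open Pool.Agent.Lib.MP_f20cd2_co.H83 (Conn Cells)
open Pool.Agent.Lib.MP_f20cd2_co.PL
open Pool.Agent.Lib.MP_f20cd2_co.HM (dg)
open scoped Classical

variable {V : Type} [Fintype V] [DecidableEq V] {G : SimpleGraph V}

namespace ColAux

open AS AS.BaseAux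

lemma idx10 {g b i : ℕ} (hb : b < 10) (hi : i < g) : b * g + i < 10 * g := by
  have : (b + 1) * g ≤ 10 * g := Nat.mul_le_mul_right g hb
  rw [add_mul, one_mul] at this
  omega

lemma card_blk10 {opt : ℕ → V → V} {g b : ℕ}
    (hi : ∀ i < 10 * g, ∀ i' < 10 * g, ∀ u, opt i u = opt i' u → i = i') (hb : b < 10) (u : V) :
    (blk opt g b u).card = g := by
  unfold blk
  rw [card_image_of_injOn, card_range]
  intro i h i' h' e
  have := hi _ (idx10 hb (mem_range.1 (mem_coe.1 h))) _ (idx10 hb (mem_range.1 (mem_coe.1 h'))) u e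
  omega

/-- The colouring given by the local lemma. -/
lemma colour (M L r : ℕ) (hr : r < M) (hL : 0 < L)
    (hP : 3 * (20 * (M * L) * (r + 1) + 1) * (M * L + 1) ≤ 2 ^ L) (grp : V → ℕ)
    (hg : ∀ y, (univ.filter fun v => grp v = y).card ≤ M * L) (opt : ℕ → V → V)
    (hi : ∀ i < 10 * (M * L), ∀ i' < 10 * (M * L), ∀ u, opt i u = opt i' u → i = i')
    (hl : ∀ i < 10 * (M * L), ∀ w, (univ.filter fun u => opt i u = w).card ≤ 2) :
    ∃ f : V → ℕ, (∀ j u b, j ≤ r → b < 10 →
        ∃ i, i < M * L ∧ f (opt (b * (M * L) + i) u) = j) ∧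
      ∀ v, ((univ.filter fun w => grp w = grp v).filter fun w => 1 ≤ f w ∧ f w ≤ r).card ≤
        (2 * r + 1) * L := by
  let I : Finset ((V × ℕ × ℕ) ⊕ ℕ) :=
    ((univ : Finset V) ×ˢ range 10 ×ˢ range (r + 1)).disjSum (univ.image grp)
  let S : (V × ℕ × ℕ) ⊕ ℕ → Finset V :=
    Sum.elim (fun p => blk opt (M * L) p.2.1 p.1) fun y => univ.filter fun v => grp v = y
  let bad : (V × ℕ × ℕ) ⊕ ℕ → (V → ℕ) → Prop :=
    Sum.elim (fun p f => ∀ v ∈ blk opt (M * L) p.2.1 p.1, f v ≠ p.2.2) fun y f =>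
      (2 * r + 1) * L <
        ((univ.filter fun v => grp v = y).filter fun v => 1 ≤ f v ∧ f v ≤ r).card
  have hI : ∀ p : V × ℕ × ℕ, Sum.inl p ∈ I ↔ p.2.1 < 10 ∧ p.2.2 < r + 1 := by
    intro p
    simp only [I, inl_mem_disjSum, mem_product, mem_univ, true_and, mem_range]
  obtain ⟨f, -, hf⟩ := lll M (M * L) (20 * (M * L) * (r + 1) + 1) (2 ^ L) (by omega) I S bad
    (by
      rintro (p | y) - f f' e hb
      · intro v hv
        rw [← e v hv]
        exact hb v hv
      · have : ((univ.filter fun v => grp v = y).filter fun v => 1 ≤ f v ∧ f v ≤ r) =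
            ((univ.filter fun v => grp v = y).filter fun v => 1 ≤ f' v ∧ f' v ≤ r) :=
          filter_congr fun v hv => by rw [e v hv]
        change (2 * r + 1) * L < _ at hb ⊢
        rw [← this]
        exact hb)
    (by
      rintro (p | y) hp
      · exact (card_blk10 hi ((hI p).1 hp).1 p.1).le
      · exact hg y)
    (by
      intro v
      let T : Finset (V × ℕ × ℕ) := (range 10 ×ˢ range (M * L)).biUnion fun q =>
        (univ.filter fun u => opt (q.1 * (M * L) + q.2) u = v) ×ˢ {q.1} ×ˢ range (r + 1)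
      have hT : T.card ≤ 20 * (M * L) * (r + 1) := by
        have := card_biUnion_le_card_mul (range 10 ×ˢ range (M * L)) (fun q : ℕ × ℕ =>
          (univ.filter fun u => opt (q.1 * (M * L) + q.2) u = v) ×ˢ {q.1} ×ˢ range (r + 1))
          (2 * (r + 1)) fun q hq => by
            rw [mem_product, mem_range, mem_range] at hq
            rw [card_product, card_product, card_singleton, card_range, one_mul]
            exact Nat.mul_le_mul_right _ (hl _ (idx10 hq.1 hq.2) v)
        rw [card_product, card_range, card_range] at this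
        calc T.card ≤ 10 * (M * L) * (2 * (r + 1)) := this
          _ = 20 * (M * L) * (r + 1) := by ring
      calc _ ≤ (T.disjSum {grp v}).card := card_le_card ?_
        _ ≤ 20 * (M * L) * (r + 1) + 1 := by
          rw [card_disjSum, card_singleton]
          omega
      rintro (p | y) hp
      · rw [mem_filter] at hp
        obtain ⟨h1, h2⟩ := (hI p).1 hp.1
        obtain ⟨i, hi1, hi2⟩ := mem_image.1 (show v ∈ blk opt (M * L) p.2.1 p.1 from hp.2)
        rw [inl_mem_disjSum]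
        refine mem_biUnion.2 ⟨(p.2.1, i), mem_product.2 ⟨mem_range.2 h1, hi1⟩, ?_⟩
        exact mem_product.2 ⟨mem_filter.2 ⟨mem_univ _, hi2⟩,
          mem_product.2 ⟨mem_singleton.2 rfl, mem_range.2 h2⟩⟩
      · rw [mem_filter] at hp
        rw [inr_mem_disjSum, mem_singleton]
        exact (mem_filter.1 (show v ∈ univ.filter fun v => grp v = y from hp.2)).2.symm)
    (by
      rintro (p | y) hp
      · obtain ⟨h1, h2⟩ := (hI p).1 hp
        have := ev_miss M L p.2.2 (by omega) (blk opt (M * L) p.2.1 p.1) (card_blk10 hi h1 p.1)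
        refine le_trans (Nat.mul_le_mul_left _ (card_le_card fun f hf => ?_)) this
        rw [mem_filter] at hf ⊢
        exact hf
      · have := ev_many M L r hr (univ.filter fun v => grp v = y) (hg y)
        refine le_trans (Nat.mul_le_mul_left _ (card_le_card fun f hf => ?_)) this
        rw [mem_filter] at hf ⊢
        exact hf)
    (by
      calc 2 = 2 ^ 1 := rfl
        _ ≤ 2 ^ L := Nat.pow_le_pow_right (by norm_num) hL)
    hP
  refine ⟨f, fun j u b h2 h3 => ?_, fun v => ?_⟩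
  · have := hf (Sum.inl (u, b, j)) ((hI _).2 ⟨h3, Nat.lt_succ_of_le h2⟩)
    by_contra hc
    refine this fun v hv e => hc ?_
    obtain ⟨i, hi1, hi2⟩ := mem_image.1 (show v ∈ blk opt (M * L) b u from hv)
    exact ⟨i, mem_range.1 hi1, by rw [hi2]; exact e⟩
  · have := hf (Sum.inr (grp v)) (inr_mem_disjSum.2 (mem_image_of_mem _ (mem_univ v)))
    exact not_lt.1 this

/-- Groups of bounded size. -/
lemma groups (g : ℕ) (hg : 0 < g) : ∃ grp : V → ℕ, (∀ v, grp v < Fintype.card V / g + 1) ∧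
    ∀ y, (univ.filter fun v => grp v = y).card ≤ g := by
  refine ⟨fun v => (Fintype.equivFin V v : ℕ) / g, fun v =>
    Nat.lt_succ_of_le (Nat.div_le_div_right (Fintype.equivFin V v).2.le), fun y => ?_⟩
  refine le_trans (card_le_card_of_injOn (t := range g) (fun v => (Fintype.equivFin V v : ℕ) % g)
    (fun v _ => mem_coe.2 (mem_range.2 (Nat.mod_lt _ hg))) fun v hv v' hv' e => ?_)
    (card_range g).le
  have h1 : (Fintype.equivFin V v : ℕ) / g = y := (mem_filter.1 (mem_coe.1 hv)).2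
  have h2 : (Fintype.equivFin V v' : ℕ) / g = y := (mem_filter.1 (mem_coe.1 hv')).2
  refine (Fintype.equivFin V).injective (Fin.ext ?_)
  rw [← Nat.div_add_mod (Fintype.equivFin V v : ℕ) g,
    ← Nat.div_add_mod (Fintype.equivFin V v' : ℕ) g, h1, h2,
    show (Fintype.equivFin V v : ℕ) % g = (Fintype.equivFin V v' : ℕ) % g from e]

end ColAux

/-- See the plan; compare `AS.base` and `AS.lanes`. -/
theorem col_exists [Nonempty V] (M L r : ℕ) (hr : r < M) (hL : 0 < L)
    (hP : 3 * (20 * (M * L) * (r + 1) + 1) * (M * L + 1) ≤ 2 ^ L)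
    (hE : Expd G ((2 * (10 * (M * L)) : ℕ) : ℝ)) {t : ℝ} (hT : RT G univ t)
    (ht : ((2 * r * AS.Cst (20 * (M * L)) (201 * (M * L)) : ℕ) : ℝ) < t) :
    ∃ (χ : V → ℕ) (Op : V → Finset V), LN G r (10 * (M * L)) χ Op ∧
      (univ.filter fun v => χ v ≠ 0).card ≤
        ((2 * r + 1) * L + 2) * (Fintype.card V / (M * L) + 1) := by
  obtain ⟨grp, hg0, hg⟩ := ColAux.groups (V := V) (M * L) (Nat.mul_pos (by omega) hL)
  obtain ⟨opt, ha, hi, hl⟩ := AS.options (10 * (M * L)) hE
  obtain ⟨f, h1, h2⟩ := ColAux.colour M L r hr hL hP grp hg opt hi hl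
  choose! ix hx1 hx2 using h1
  let c0 : V → ℕ := fun v => if 1 ≤ f v ∧ f v ≤ r then f v else 0
  let O : ℕ → V → Finset V := fun j u =>
    (range 10).image fun b => opt (b * (M * L) + ix j u b) u
  let K : Finset (Finset V) := ((range (r + 1) ×ˢ (univ : Finset V)).image fun p => O p.1 p.2) ∪
    univ.image fun v => univ.filter fun w => grp w = grp v
  let Op : V → Finset V := fun u => (range (10 * (M * L))).image fun i => opt i u
  have hOp : ∀ u, ∀ w ∈ Op u, G.Adj u w ∧ u ∈ AS.BaseAux.own opt (10 * (M * L)) w := by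
    intro u w hw
    obtain ⟨i, hi, rfl⟩ := mem_image.1 hw
    exact ⟨ha _ (mem_range.1 hi) u, mem_biUnion.2 ⟨_, hi, mem_filter.2 ⟨mem_univ _, rfl⟩⟩⟩
  have hO : ∀ j, j ≤ r → ∀ u, ∀ w ∈ O j u, w ∈ Op u ∧ c0 w = j := by
    intro j j2 u w hw
    obtain ⟨b, hb, rfl⟩ := mem_image.1 hw
    have hb' := mem_range.1 hb
    refine ⟨mem_image_of_mem _ (mem_range.2 (ColAux.idx10 hb' (hx1 j u b j2 hb'))), ?_⟩
    simp only [c0, hx2 j u b j2 hb']
    split_ifs <;> omega
  have hO10 : ∀ j u, (O j u).card ≤ 10 := fun j u => card_image_le.trans (card_range 10).le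
  have hOc : ∀ j, j ≤ r → ∀ u, (O j u).card = 10 := by
    intro j j2 u
    change ((range 10).image fun b => opt (b * (M * L) + ix j u b) u).card = 10
    rw [card_image_of_injOn, card_range]
    intro b hb b' hb' e
    have h3 := mem_range.1 (mem_coe.1 hb)
    have h3' := mem_range.1 (mem_coe.1 hb')
    have a := hx1 j u b j2 h3
    have a' := hx1 j u b' j2 h3'
    exact AS.BaseAux.idx_inj a a' (hi _ (ColAux.idx10 h3 a) _ (ColAux.idx10 h3' a') u e)
  have hOK : ∀ j, j ≤ r → ∀ u, O j u ∈ K := fun j j2 u => mem_union_left _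
    (mem_image.2 ⟨(j, u), mem_product.2 ⟨mem_range.2 (Nat.lt_succ_of_le j2), mem_univ _⟩, rfl⟩)
  have hown := AS.BaseAux.card_own hl
  have hb : AS.Base.Ok G ⟨r, c0, O, K⟩ (20 * (M * L)) (201 * (M * L)) := by
    refine ⟨fun v => ?_, fun j _ j2 u => hOK j j2 u, fun j _ j2 u => ?_,
      fun j _ j2 u w hw => ⟨(hOp u w (hO j j2 u w hw).1).1, (hO j j2 u w hw).2⟩, fun w => ?_,
      fun w => ?_⟩
    · change (if 1 ≤ f v ∧ f v ≤ r then f v else 0) ≤ r
      split_ifs <;> omega
    · exact le_trans (by norm_num) (hOc j j2 u).ge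
    · calc _ ≤ (AS.BaseAux.own opt (10 * (M * L)) w).card := card_le_card ?_
        _ ≤ 10 * (M * L) * 2 := hown w
        _ = 20 * (M * L) := by ring
      intro u hu
      obtain ⟨j, -, j2, hw⟩ := (mem_filter.1 hu).2
      exact (hOp u w (hO j j2 u w hw).1).2
    · have hb := card_biUnion_le_card_mul (AS.BaseAux.own opt (10 * (M * L)) w)
        (fun u => O (c0 w) u) 10 fun u _ => hO10 _ u
      have hc := hown w
      have hw := hg (grp w)
      calc _ ≤ (((AS.BaseAux.own opt (10 * (M * L)) w).biUnion fun u => O (c0 w) u) ∪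
            univ.filter fun v => grp v = grp w).card := card_le_card ?_
        _ ≤ _ := card_union_le _ _
        _ ≤ 201 * (M * L) := by omega
      intro w' hw'
      obtain ⟨Q, hQ, hq, hq'⟩ := (mem_filter.1 hw').2
      rcases mem_union.1 hQ with hQ | hQ
      · obtain ⟨p, hp, rfl⟩ := mem_image.1 hQ
        obtain ⟨hu, e⟩ := hO p.1 (Nat.le_of_lt_succ (mem_range.1 (mem_product.1 hp).1)) p.2 w hq
        exact mem_union_left _ (mem_biUnion.2 ⟨p.2, (hOp _ _ hu).2, by rw [e]; exact hq'⟩)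
      · obtain ⟨v, -, rfl⟩ := mem_image.1 hQ
        exact mem_union_right _ (mem_filter.2 ⟨mem_univ _,
          (mem_filter.1 hq').2.trans (mem_filter.1 hq).2.symm⟩)
  obtain ⟨χ, H, hSI, hC⟩ := AS.exch (G := G) hb hT ht
  refine ⟨χ, Op, ⟨fun u w hw => (hOp u w hw).1, fun u => card_image_le.trans (card_range _).le,
    fun w => ?_, fun u j j2 => ?_, fun j hj => ?_⟩, ?_⟩
  · calc _ ≤ (AS.BaseAux.own opt (10 * (M * L)) w).card :=
          card_le_card fun u hu => (hOp u w (mem_filter.1 hu).2).2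
      _ ≤ 10 * (M * L) * 2 := hown w
      _ = _ := mul_comm _ _
  · have h3 : ((O j u).filter fun x => χ x ≠ c0 x).card ≤ 2 := hSI.ctl _ (hOK j j2 u)
    have h4 : O j u ⊆ ((Op u).filter fun w => χ w = j) ∪ (O j u).filter fun x => χ x ≠ c0 x := by
      intro w hw
      obtain ⟨h5, h6⟩ := hO j j2 u w hw
      by_cases h : χ w = c0 w
      · exact mem_union_left _ (mem_filter.2 ⟨h5, h.trans h6⟩)
      · exact mem_union_right _ (mem_filter.2 ⟨hw, h⟩)
    have h5 := (card_le_card h4).trans (card_union_le _ _)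
    rw [hOc j j2 u] at h5
    omega
  · obtain ⟨ρ, par, rk, h1, h2⟩ := tree_of_conn (hC (j + 1) (by omega) hj) 7 hSI.deg
    exact ⟨ρ, par, rk, h1, fun v hv hne => hSI.le (h2 v hv hne)⟩
  · refine le_trans (card_le_mul_card_image_of_maps_to (f := grp)
      (t := range (Fintype.card V / (M * L) + 1)) (fun v _ => mem_range.2 (hg0 v))
      ((2 * r + 1) * L + 2) fun y _ => ?_) (by rw [card_range])
    by_cases hy : ∃ v, grp v = y
    · obtain ⟨v, rfl⟩ := hy
      have h3 : ((univ.filter fun w => grp w = grp v).filter fun x => χ x ≠ c0 x).card ≤ 2 :=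
        hSI.ctl _ (mem_union_right _ (mem_image.2 ⟨v, mem_univ _, rfl⟩))
      refine le_trans (card_le_card fun x hx => ?_)
        ((card_union_le _ _).trans (Nat.add_le_add (h2 v) h3))
      obtain ⟨h4, h5⟩ := mem_filter.1 hx
      by_cases h8 : χ x = c0 x
      · refine mem_union_left _ (mem_filter.2 ⟨mem_filter.2 ⟨mem_univ _, h5⟩, ?_⟩)
        by_contra hn
        exact (mem_filter.1 h4).2 (h8.trans (if_neg hn))
      · exact mem_union_right _ (mem_filter.2 ⟨mem_filter.2 ⟨mem_univ _, h5⟩, h8⟩)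
    · rw [filter_false_of_mem fun v _ e => hy ⟨v, e⟩, card_empty]
      exact Nat.zero_le _

/-- A polynomial is eventually below the exponential. -/
theorem exists_L (M r : ℕ) :
    ∃ L, 0 < L ∧ 3 * (20 * (M * L) * (r + 1) + 1) * (M * L + 1) ≤ 2 ^ L := by
  obtain ⟨c, hc⟩ : ∃ c, c = 63 * (r + 1) * (M + 1) ^ 2 := ⟨_, rfl⟩
  have h0 : 0 < c := by rw [hc]; positivity
  have h1 : 9 * c < 2 ^ (9 * c) := Nat.lt_two_pow_self
  refine ⟨3 * (9 * c), by omega, ?_⟩
  generalize hL : 9 * c = n at *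
  have h2 : M * (3 * n) + 1 ≤ (M + 1) * (3 * n) := by
    rw [add_mul]
    omega
  have h3 : 20 * (M * (3 * n)) * (r + 1) + 1 ≤ 21 * (r + 1) * ((M + 1) * (3 * n)) := by
    generalize (M + 1) * (3 * n) = b at h2
    generalize M * (3 * n) = a at h2
    nlinarith [Nat.mul_le_mul_left r h2]
  calc _ ≤ 3 * (21 * (r + 1) * ((M + 1) * (3 * n))) * ((M + 1) * (3 * n)) :=
        Nat.mul_le_mul (Nat.mul_le_mul_left 3 h3) h2
    _ = 9 * c * n ^ 2 := by rw [hc]; ring
    _ = n ^ 3 := by rw [hL]; ring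
    _ ≤ (2 ^ n) ^ 3 := Nat.pow_le_pow_left h1.le 3
    _ = _ := by rw [← pow_mul, mul_comm]

end Pool.Agent.Lib.MP_f20cd2_co.DP
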