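import Pool.Agent.Lib.MP_f20cd2_co.DP.GlueA

/-!
Gluing the two solutions.
-/

set_option autoImplicit false
set_option linter.unusedSectionVars false

namespace Pool.Agent.Lib.MP_f20cd2_co.DP

open Finset
open Pool.Agent.Lib.MP_f20cd2_co.H83 (Conn Cells)
open Pool.Agent.Lib.MP_f20cd2_co.PL
open Pool.Agent.Lib.MP_f20cd2_co.HM (dg)
open scoped Classical

variable {ν ε : Type} [Fintype ν] [DecidableEq ν] [Fintype ε] [DecidableEq ε] {Δ K : ℕ} {al : ℕ → ℕ} {wt : ε → ν → ℕ}
  {N S : Finset ν} {z : ν} {X Dd : Finset ε} {A : Finset ν} {a : ν}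

namespace GlueBAux

lemma w1_out (ha : a ∈ A) {g : ε} {x : ν} (hx : x ∉ A) : ctr wt A a g x = wt g x := by
  have hxa : x ≠ a := fun e => hx (e ▸ ha)
  simp [ctr, hxa, hx]

lemma w1_in {g : ε} {x : ν} (hx : x ∈ A) (hxa : x ≠ a) : ctr wt A a g x = 0 := by
  simp [ctr, hxa, hx]

lemma w1_self {g : ε} (hg : g ∈ cut wt A) : 0 < ctr wt A a g a := by
  obtain ⟨⟨x, hx, hp⟩, -⟩ := mem_cut.1 hg
  have h1 : wt g x ≤ ∑ y ∈ A, wt g y :=
    Finset.single_le_sum (f := fun y => wt g y) (fun _ _ => Nat.zero_le _) hx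
  have h2 : ctr wt A a g a = ∑ y ∈ A, wt g y := by simp [ctr, hg]
  omega

lemma w2_in (hz : z ∉ A) {g : ε} {x : ν} (hx : x ∈ A) : ctr wt (univ \ A) z g x = wt g x :=
  w1_out (by simp [hz]) (by simp [hx])

lemma w2_out {g : ε} {x : ν} (hx : x ∉ A) (hxz : x ≠ z) : ctr wt (univ \ A) z g x = 0 :=
  w1_in (by simp [hx]) hxz

lemma w2_self {g : ε} (hg : ∀ x ∈ A, wt g x = 0) : ctr wt (univ \ A) z g z = 0 := by
  have : g ∉ cut wt (univ \ A) := by
    intro hc
    obtain ⟨-, x, hx, hp⟩ := mem_cut.1 hc
    have hxA : x ∈ A := by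
      by_contra hn
      exact hx (by simp [hn])
    have := hg x hxA
    omega
  simp [ctr, this]

lemma lnk_symm {en : ε → Finset ν} {x y : ν} (h : Lnk en z x y) : Lnk en z y x := by
  induction h with
  | refl => exact Relation.ReflTransGen.refl
  | tail _ hs ih =>
    obtain ⟨h1, h2, g, h3, h4⟩ := hs
    exact Relation.ReflTransGen.head ⟨h2, h1, g, h4, h3⟩ ih

lemma bud_mono {w : ε → ℕ} {X' D1 D2 : Finset ε} (h : Bud Δ K al w X' D2) (hs : D1 ⊆ D2) :
    Bud Δ K al w X' D1 := by
  intro c h1 h2
  have h3 := h c h1 h2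
  have h4 : (D1.filter fun g => c ≤ w g).card ≤ (D2.filter fun g => c ≤ w g).card :=
    card_le_card (filter_subset_filter _ hs)
  omega

lemma star_congr {w1 w2 : ε → ν → ℕ} {y : ν} (h : ∀ g, w1 g y = w2 g y) :
    star w1 y = star w2 y := by
  ext g
  rw [mem_star, mem_star, h]

end GlueBAux

open GlueBAux in
/-- See the plan. -/
theorem glue (h : HOk Δ K wt N S z) (hA : A ⊆ N) (hz : z ∉ A) (ha : a ∈ A) (haS : a ∈ S)
    (hD : Dd ⊆ star wt z) {en en' : ε → Finset ν} {ow ow' : ε → Option ν}
    (h1 : Sol Δ K al (ctr wt A a) (insert a (N \ A)) (insert a (S \ A)) z X Dd en ow)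
    (h2 : Sol Δ K al (ctr wt (univ \ A) z) (insert z A) (insert z (S ∩ A)) z (endsAt en a)
      (deadAt (ctr wt A a) en ow a) en' ow') :
    Sol Δ K al wt N S z X Dd (fun g => (en g).erase a ∪ (en' g).erase z)
      (fun g => if ow' g = none then (if ow g = some a then none else ow g) else ow' g) := by
  have haz : a ≠ z := fun e => hz (e ▸ ha)
  have f1 : ∀ g x, x ∈ en g → x ≠ a → x ∉ A ∧ 0 < wt g x := by
    intro g x hx hxa
    have hp := h1.pos g x hx
    have hxA : x ∉ A := by
      intro hxA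
      rw [w1_in hxA hxa] at hp
      exact lt_irrefl _ hp
    rw [w1_out ha hxA] at hp
    exact ⟨hxA, hp⟩
  have f2 : ∀ g x, x ∈ en' g → x ≠ z → x ∈ A ∧ 0 < wt g x := by
    intro g x hx hxz
    have hp := h2.pos g x hx
    have hxA : x ∈ A := by
      by_contra hxA
      rw [w2_out hxA hxz] at hp
      exact lt_irrefl _ hp
    rw [w2_in hz hxA] at hp
    exact ⟨hxA, hp⟩
  have f3 : ∀ g, z ∈ en' g ↔ a ∈ en g := fun g => (h2.xz g).trans mem_endsAt
  have f5 : ∀ g, a ∉ en g → ow g ≠ some a → (∃ x, x ∉ A ∧ 0 < wt g x) →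
      en' g = ∅ ∧ ow' g = none := by
    intro g hag hog hx
    by_cases hc : g ∈ cut wt A
    · exact h2.dead g (mem_deadAt.2 ⟨w1_self hc, hag, hog⟩)
    · have h0 : ∀ x ∈ A, wt g x = 0 := by
        intro x hxA
        by_contra hne
        exact hc (mem_cut.2 ⟨⟨x, hxA, Nat.pos_of_ne_zero hne⟩, hx⟩)
      have hz0 : ∀ x, ctr wt (univ \ A) z g x = 0 := by
        intro x
        by_cases hxz : x = z
        · rw [hxz]
          exact w2_self h0
        · by_cases hxA : x ∈ A
          · rw [w2_in hz hxA]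
            exact h0 x hxA
          · exact w2_out hxA hxz
      constructor
      · rw [eq_empty_iff_forall_notMem]
        intro x hx'
        have := h2.pos g x hx'
        rw [hz0 x] at this
        exact lt_irrefl _ this
      · cases ho : ow' g with
        | none => rfl
        | some y =>
          have := (h2.own g y ho).2.1
          rw [hz0 y] at this
          exact absurd this (lt_irrefl _)
  have f4 : ∀ g, en g ≠ ∅ → a ∉ en g → en' g = ∅ ∧ ow' g = none := by
    intro g hne hag
    obtain ⟨x, hx⟩ := nonempty_iff_ne_empty.2 hne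
    have hxa : x ≠ a := fun e => hag (e ▸ hx)
    exact f5 g hag (fun ho => hne (h1.own g a ho).1) ⟨x, f1 g x hx hxa⟩
  have mIn : ∀ g x, x ∈ A → (x ∈ (en g).erase a ∪ (en' g).erase z ↔ x ∈ en' g) := by
    intro g x hxA
    have hxz : x ≠ z := fun e => hz (e ▸ hxA)
    rw [mem_union, mem_erase, mem_erase]
    constructor
    · rintro (⟨h3, h4⟩ | ⟨-, h4⟩)
      · exact absurd hxA (f1 g x h4 h3).1
      · exact h4
    · exact fun h3 => Or.inr ⟨hxz, h3⟩
  have mOut : ∀ g x, x ∉ A → (x ∈ (en g).erase a ∪ (en' g).erase z ↔ x ∈ en g) := by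
    intro g x hxA
    have hxa : x ≠ a := fun e => hxA (e ▸ ha)
    rw [mem_union, mem_erase, mem_erase]
    constructor
    · rintro (⟨-, h4⟩ | ⟨h3, h4⟩)
      · exact h4
      · exact absurd (f2 g x h4 h3).1 hxA
    · exact fun h3 => Or.inl ⟨hxa, h3⟩
  have eIn : ∀ x, x ∈ A →
      endsAt (fun g => (en g).erase a ∪ (en' g).erase z) x = endsAt en' x := by
    intro x hxA
    ext g
    rw [mem_endsAt, mem_endsAt]
    exact mIn g x hxA
  have eOut : ∀ x, x ∉ A →
      endsAt (fun g => (en g).erase a ∪ (en' g).erase z) x = endsAt en x := by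
    intro x hxA
    ext g
    rw [mem_endsAt, mem_endsAt]
    exact mOut g x hxA
  have lIn : ∀ x y, Lnk en' z x y → Lnk (fun g => (en g).erase a ∪ (en' g).erase z) z x y := by
    intro x y hl
    induction hl with
    | refl => exact Relation.ReflTransGen.refl
    | tail _ hs ih =>
      obtain ⟨h3, h4, g, h5, h6⟩ := hs
      exact Relation.ReflTransGen.tail ih ⟨h3, h4, g,
        mem_union_right _ (mem_erase.2 ⟨h3, h5⟩), mem_union_right _ (mem_erase.2 ⟨h4, h6⟩)⟩
  have haI : a ∈ insert z (S ∩ A) := mem_insert_of_mem (mem_inter.2 ⟨haS, ha⟩)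
  have lOut : ∀ x, Lnk en z x a → Lnk (fun g => (en g).erase a ∪ (en' g).erase z) z x a := by
    intro x hl
    induction hl using Relation.ReflTransGen.head_induction_on with
    | refl => exact Relation.ReflTransGen.refl
    | @head p q hs _ ih =>
      obtain ⟨h3, h4, g, h5, h6⟩ := hs
      by_cases hpa : p = a
      · rw [hpa]
        exact Relation.ReflTransGen.refl
      by_cases hqa : q = a
      · have hzg : z ∈ en' g := (f3 g).2 (hqa ▸ h6)
        have hc : (en' g).card = 2 := by
          rcases h2.card g with h0 | h0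
          · rw [h0] at hzg
            exact absurd hzg (notMem_empty _)
          · exact h0
        have hc1 : ((en' g).erase z).card = 1 := by rw [card_erase_of_mem hzg, hc]
        obtain ⟨q', hq'⟩ := card_pos.1 (by omega : 0 < ((en' g).erase z).card)
        have hq'z : q' ≠ z := (mem_erase.1 hq').1
        have hl' : Lnk en' z q' a :=
          h2.conn q' a hq'z haz (Or.inr ⟨g, (mem_erase.1 hq').2⟩) (Or.inl haI)
        exact Relation.ReflTransGen.head ⟨h3, hq'z, g,
          mem_union_left _ (mem_erase.2 ⟨hpa, h5⟩), mem_union_right _ hq'⟩ (lIn _ _ hl')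
      · exact Relation.ReflTransGen.head ⟨h3, h4, g,
          mem_union_left _ (mem_erase.2 ⟨hpa, h5⟩), mem_union_left _ (mem_erase.2 ⟨hqa, h6⟩)⟩ ih
  have lAll : ∀ x, x ≠ z → (x ∈ S ∨ ∃ g, x ∈ (en g).erase a ∪ (en' g).erase z) →
      Lnk (fun g => (en g).erase a ∪ (en' g).erase z) z x a := by
    intro x hxz hrel
    by_cases hxA : x ∈ A
    · refine lIn _ _ (h2.conn x a hxz haz ?_ (Or.inl haI))
      rcases hrel with h3 | ⟨g, h3⟩
      · exact Or.inl (mem_insert_of_mem (mem_inter.2 ⟨h3, hxA⟩))
      · exact Or.inr ⟨g, (mIn g x hxA).1 h3⟩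
    · refine lOut _ (h1.conn x a hxz haz ?_ (Or.inl (mem_insert_self _ _)))
      rcases hrel with h3 | ⟨g, h3⟩
      · exact Or.inl (mem_insert_of_mem (mem_sdiff.2 ⟨h3, hxA⟩))
      · exact Or.inr ⟨g, (mOut g x hxA).1 h3⟩
  refine ⟨?_, ?_, ?_, ?_, ?_, ?_, ?_, ?_⟩
  · intro g
    by_cases hag : a ∈ en g
    · right
      have hzg : z ∈ en' g := (f3 g).2 hag
      have hc : (en g).card = 2 := by
        rcases h1.card g with h0 | h0
        · rw [h0] at hag
          exact absurd hag (notMem_empty _)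
        · exact h0
      have hc' : (en' g).card = 2 := by
        rcases h2.card g with h0 | h0
        · rw [h0] at hzg
          exact absurd hzg (notMem_empty _)
        · exact h0
      have hd : Disjoint ((en g).erase a) ((en' g).erase z) := by
        rw [Finset.disjoint_left]
        intro x hx hx'
        exact (f1 g x (mem_erase.1 hx).2 (mem_erase.1 hx).1).1
          (f2 g x (mem_erase.1 hx').2 (mem_erase.1 hx').1).1
      show ((en g).erase a ∪ (en' g).erase z).card = 2
      rw [card_union_of_disjoint hd, card_erase_of_mem hag, card_erase_of_mem hzg, hc, hc']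
    · have hzg : z ∉ en' g := fun h3 => hag ((f3 g).1 h3)
      show (en g).erase a ∪ (en' g).erase z = ∅ ∨ ((en g).erase a ∪ (en' g).erase z).card = 2
      rw [erase_eq_of_notMem hag, erase_eq_of_notMem hzg]
      by_cases hne : en g = ∅
      · rw [hne, empty_union]
        exact h2.card g
      · rw [(f4 g hne hag).1, union_empty]
        exact h1.card g
  · intro g x hx
    rcases mem_union.1 hx with h3 | h3
    · exact (f1 g x (mem_erase.1 h3).2 (mem_erase.1 h3).1).2
    · exact (f2 g x (mem_erase.1 h3).2 (mem_erase.1 h3).1).2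
  · intro g
    exact (mOut g z hz).trans (h1.xz g)
  · intro g hg
    obtain ⟨h3, h4⟩ := h1.dead g hg
    obtain ⟨h5, h6⟩ := f5 g (by rw [h3]; exact notMem_empty _) (by rw [h4]; exact fun e => by cases e)
      ⟨z, hz, mem_star.1 (hD hg)⟩
    constructor
    · show (en g).erase a ∪ (en' g).erase z = ∅
      rw [h3, h5, erase_empty, erase_empty, empty_union]
    · simp [h4, h6]
  · intro x hxN hxS
    by_cases hxA : x ∈ A
    · rw [eIn x hxA]
      refine h2.deg x (mem_insert_of_mem hxA) ?_
      intro h3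
      rcases mem_insert.1 h3 with h4 | h4
      · exact hz (h4 ▸ hxA)
      · exact hxS (mem_inter.1 h4).1
    · rw [eOut x hxA]
      refine h1.deg x (mem_insert_of_mem (mem_sdiff.2 ⟨hxN, hxA⟩)) ?_
      intro h3
      rcases mem_insert.1 h3 with h4 | h4
      · exact hxA (h4 ▸ ha)
      · exact hxS (mem_sdiff.1 h4).1
  · intro x y hxz hyz hx hy
    exact Relation.ReflTransGen.trans (lAll x hxz hx) (lnk_symm (lAll y hyz hy))
  · intro g y hy
    show (en g).erase a ∪ (en' g).erase z = ∅ ∧ 0 < wt g y ∧ y ≠ z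
    by_cases ho' : ow' g = none
    · by_cases ho : ow g = some a
      · simp [ho', ho] at hy
      · have hy' : ow g = some y := by simpa [ho', ho] using hy
        obtain ⟨h3, h4, h5⟩ := h1.own g y hy'
        have hya : y ≠ a := fun e => ho (e ▸ hy')
        have hyA : y ∉ A := by
          intro hyA
          rw [w1_in hyA hya] at h4
          exact lt_irrefl _ h4
        rw [w1_out ha hyA] at h4
        have h6 := (f5 g (by rw [h3]; exact notMem_empty _) ho ⟨y, hyA, h4⟩).1
        refine ⟨?_, h4, h5⟩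
        rw [h3, h6, erase_empty, erase_empty, empty_union]
    · have hy' : ow' g = some y := by simpa [ho'] using hy
      obtain ⟨h3, h4, h5⟩ := h2.own g y hy'
      have hyA : y ∈ A := by
        by_contra hyA
        rw [w2_out hyA h5] at h4
        exact lt_irrefl _ h4
      rw [w2_in hz hyA] at h4
      have h6 : en g = ∅ := by
        by_contra hne
        have hag : a ∉ en g := by
          intro hag
          have := (f3 g).2 hag
          rw [h3] at this
          exact notMem_empty _ this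
        exact ho' (f4 g hne hag).2
      refine ⟨?_, h4, h5⟩
      rw [h3, h6, erase_empty, erase_empty, empty_union]
  · intro y hyS hyz hK
    by_cases hyA : y ∈ A
    · have hw : ∀ g, ctr wt (univ \ A) z g y = wt g y := fun g => w2_in hz hyA
      have hb := h2.bud y (mem_insert_of_mem (mem_inter.2 ⟨hyS, hyA⟩)) hyz
        (by rw [star_congr hw]; exact hK)
      rw [funext hw] at hb
      rw [eIn y hyA]
      refine bud_mono hb ?_
      intro g hg
      obtain ⟨h3, h4, h5⟩ := mem_deadAt.1 hg
      refine mem_deadAt.2 ⟨by rw [hw]; exact h3, fun h6 => h4 ((mIn g y hyA).2 h6), ?_⟩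
      intro h6
      apply h5
      simp [h6]
    · have hw : ∀ g, ctr wt A a g y = wt g y := fun g => w1_out ha hyA
      have hb := h1.bud y (mem_insert_of_mem (mem_sdiff.2 ⟨hyS, hyA⟩)) hyz
        (by rw [star_congr hw]; exact hK)
      rw [funext hw] at hb
      rw [eOut y hyA]
      refine bud_mono hb ?_
      intro g hg
      obtain ⟨h3, h4, h5⟩ := mem_deadAt.1 hg
      refine mem_deadAt.2 ⟨by rw [hw]; exact h3, fun h6 => h4 ((mOut g y hyA).2 h6), ?_⟩
      intro h6
      apply h5
      have hya : y ≠ a := fun e => hyA (e ▸ ha)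
      have h7 : ow g ≠ some a := by
        rw [h6]
        exact fun e => hya (Option.some.inj e)
      have h8 := (h1.own g y h6).1
      have h9 := (f5 g (by rw [h8]; exact notMem_empty _) h7 ⟨y, hyA, h3⟩).2
      simp [h9, h6, hya]

end Pool.Agent.Lib.MP_f20cd2_co.DP
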