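import Pool.Agent.Lib.MP_f20cd2_co.DP.Defs

/-!
Deleting a node that is not a terminal.
-/

set_option autoImplicit false
set_option linter.unusedSectionVars false

namespace Pool.Agent.Lib.MP_f20cd2_co.DP

open Finset
open Pool.Agent.Lib.MP_f20cd2_co.H83 (Conn Cells)
open Pool.Agent.Lib.MP_f20cd2_co.PL
open Pool.Agent.Lib.MP_f20cd2_co.HM (dg)
open scoped Classical

variable {ν ε : Type} [Fintype ν] [DecidableEq ν] [Fintype ε] [DecidableEq ε] {Δ K : ℕ} {al : ℕ → ℕ} {wt : ε → ν → ℕ}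
  {N S : Finset ν} {z : ν} {X Dd : Finset ε}

namespace RedAux

lemma del_ne {x y : ν} (hy : y ≠ x) (h : ε) : del wt x h y = wt h y := if_neg hy

lemma del_le (x : ν) (h : ε) (y : ν) : del wt x h y ≤ wt h y := by
  unfold del
  split_ifs
  · exact Nat.zero_le _
  · exact le_rfl

lemma del_pos {x y : ν} {h : ε} : 0 < del wt x h y ↔ y ≠ x ∧ 0 < wt h y := by
  unfold del
  split_ifs with hy
  · simp [hy]
  · simp [hy]

lemma star_del {x y : ν} (hy : y ≠ x) : star (del wt x) y = star wt y := by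
  ext h
  rw [mem_star, mem_star, del_ne hy]

lemma bud_mono {w w' : ε → ℕ} (hw : ∀ h, w' h ≤ w h) (h : Bud Δ K al w X Dd) :
    Bud Δ K al w' X Dd := by
  intro c h1 h2
  have h3 := h c h1 h2
  have h4 : (Dd.filter fun h => c ≤ w' h).card ≤ (Dd.filter fun h => c ≤ w h).card :=
    card_le_card fun g hg => mem_filter.2 ⟨(mem_filter.1 hg).1, (mem_filter.1 hg).2.trans (hw g)⟩
  omega

end RedAux

open RedAux

theorem del_ok (h : HOk Δ K wt N S z) {x : ν} (hx : x ∈ N) (hS : x ∉ S)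
    (hc : ∀ A ⊆ N.erase x, z ∉ A → (∃ y ∈ A, y ∈ S) → K ≤ (cut (del wt x) A).card) :
    HOk Δ K (del wt x) (N.erase x) S z := by
  have hne : ∀ y ∈ S, y ≠ x := fun y hy e => hS (e ▸ hy)
  refine ⟨fun y hy => mem_erase.2 ⟨hne y hy, h.sub hy⟩, h.zS, h.oth, fun g y hp => ?_,
    fun g => (sum_le_sum fun y _ => del_le x g y).trans (h.tot g), fun y hy hyS => ?_, hc, ?_⟩
  · exact mem_erase.2 ⟨(del_pos.1 hp).1, h.supp g y (del_pos.1 hp).2⟩
  · rw [star_del (mem_erase.1 hy).1]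
    exact h.two y (mem_erase.1 hy).2 hyS
  · rw [star_del (hne z h.zS)]
    exact h.dz

theorem del_inp (hI : Inp Δ K al wt z X Dd) {x : ν} (hx : x ≠ z) :
    Inp Δ K al (del wt x) z X Dd := by
  refine ⟨?_, ?_, hI.dis, bud_mono (fun g => sum_le_sum fun y _ => del_le x g y) hI.bud⟩
  · rw [star_del hx.symm]
    exact hI.xs
  · rw [star_del hx.symm]
    exact hI.ds

theorem del_sol (h : HOk Δ K wt N S z) {x : ν} (hS : x ∉ S) {en : ε → Finset ν}
    {ow : ε → Option ν} (hs : Sol Δ K al (del wt x) (N.erase x) S z X Dd en ow) :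
    Sol Δ K al wt N S z X Dd en ow := by
  refine ⟨hs.card, fun g y hy => (del_pos.1 (hs.pos g y hy)).2, hs.xz, hs.dead,
    fun y hy hyS => ?_, hs.conn, fun g y hy => ?_, fun y hy hyz hK => ?_⟩
  · by_cases e : y = x
    · left
      exact eq_empty_of_forall_notMem fun g hg => (del_pos.1 (hs.pos g y (mem_endsAt.1 hg))).1 e
    · exact hs.deg y (mem_erase.2 ⟨e, hy⟩) hyS
  · obtain ⟨h1, h2, h3⟩ := hs.own g y hy
    exact ⟨h1, (del_pos.1 h2).2, h3⟩
  · have e : y ≠ x := fun e => hS (e ▸ hy)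
    have h1 := hs.bud y hy hyz (by rw [star_del e]; exact hK)
    have h2 : deadAt (del wt x) en ow y = deadAt wt en ow y := by
      ext g
      rw [mem_deadAt, mem_deadAt, del_ne e]
    rw [h2] at h1
    exact bud_mono (fun g => (del_ne e g).ge) h1

/-- Let `E0` be the hyperedges at `x` that meet `A` and have no node outside `insert x A`, and
`E1` those that do not meet `A` and have a node outside `insert x A`.  The cut of `A` lies in the
new cut and `E0`, the cut of `insert x A` in the new cut and `E1`.  So both are nonempty; they are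
disjoint subsets of the star of `x`. -/
theorem blocked (h : HOk Δ K wt N S z) {x : ν} (hx : x ∈ N) (hS : x ∉ S) {A : Finset ν}
    (hA : A ⊆ N.erase x) (hz : z ∉ A) (hy : ∃ y ∈ A, y ∈ S)
    (hlt : (cut (del wt x) A).card < K) :
    (cut wt A).card = K ∧ (cut wt (insert x A)).card = K ∧ ∃ g1 g2, star wt x = {g1, g2} ∧
      ((∃ y ∈ A, 0 < wt g1 y) ∧ ∀ y, y ∉ insert x A → wt g1 y = 0) ∧
      ((∃ y, y ∉ insert x A ∧ 0 < wt g2 y) ∧ ∀ y ∈ A, wt g2 y = 0) := by
  have hxA : ∀ y ∈ A, y ≠ x := fun y hy => (mem_erase.1 (hA hy)).1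
  have hAN : A ⊆ N := hA.trans (erase_subset _ _)
  have k0 := h.con A hAN hz hy
  have k1 := h.con (insert x A) (insert_subset hx hAN)
    (fun hm => (mem_insert.1 hm).elim (fun e => hS (e ▸ h.zS)) hz)
    (hy.imp fun y hy => ⟨mem_insert_of_mem hy.1, hy.2⟩)
  obtain ⟨E0, hE0⟩ : ∃ E0, E0 = (star wt x).filter fun g =>
    (∃ y ∈ A, 0 < wt g y) ∧ ∀ y, y ∉ insert x A → wt g y = 0 := ⟨_, rfl⟩
  obtain ⟨E1, hE1⟩ : ∃ E1, E1 = (star wt x).filter fun g =>
    (∃ y, y ∉ insert x A ∧ 0 < wt g y) ∧ ∀ y ∈ A, wt g y = 0 := ⟨_, rfl⟩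
  have hcut : ∀ g, (∃ y ∈ A, 0 < wt g y) → (∃ y, y ∉ insert x A ∧ 0 < wt g y) →
      g ∈ cut (del wt x) A := by
    rintro g ⟨a, ha, pa⟩ ⟨b, hb, pb⟩
    exact mem_cut.2 ⟨⟨a, ha, del_pos.2 ⟨hxA a ha, pa⟩⟩, b, fun hm => hb (mem_insert_of_mem hm),
      del_pos.2 ⟨fun e => hb (e ▸ mem_insert_self _ _), pb⟩⟩
  have s0 : cut wt A ⊆ cut (del wt x) A ∪ E0 := by
    intro g hg
    obtain ⟨ha, b, hb, pb⟩ := mem_cut.1 hg
    by_cases ho : ∃ y, y ∉ insert x A ∧ 0 < wt g y
    · exact mem_union_left _ (hcut g ha ho)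
    · have hz0 : ∀ y, y ∉ insert x A → wt g y = 0 := fun y hy =>
        Nat.eq_zero_of_not_pos fun hp => ho ⟨y, hy, hp⟩
      have hbx : b = x := by
        by_contra e
        have := hz0 b fun hm => (mem_insert.1 hm).elim e hb
        omega
      rw [hE0]
      exact mem_union_right _ (mem_filter.2 ⟨mem_star.2 (hbx ▸ pb), ha, hz0⟩)
  have s1 : cut wt (insert x A) ⊆ cut (del wt x) A ∪ E1 := by
    intro g hg
    obtain ⟨⟨a, ha, pa⟩, hb⟩ := mem_cut.1 hg
    by_cases ho : ∃ y ∈ A, 0 < wt g y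
    · exact mem_union_left _ (hcut g ho hb)
    · have hz0 : ∀ y ∈ A, wt g y = 0 := fun y hy =>
        Nat.eq_zero_of_not_pos fun hp => ho ⟨y, hy, hp⟩
      have hax : a = x := (mem_insert.1 ha).resolve_right fun hm => ho ⟨a, hm, pa⟩
      rw [hE1]
      exact mem_union_right _ (mem_filter.2 ⟨mem_star.2 (hax ▸ pa), hb, hz0⟩)
  have c0 := (card_le_card s0).trans (card_union_le _ _)
  have c1 := (card_le_card s1).trans (card_union_le _ _)
  have hd : Disjoint E0 E1 := by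
    rw [hE0, hE1]
    refine disjoint_left.2 fun g g0 g1 => ?_
    obtain ⟨y, hy, py⟩ := (mem_filter.1 g0).2.1
    have := (mem_filter.1 g1).2.2 y hy
    omega
  have hsub : E0 ∪ E1 ⊆ star wt x := by
    rw [hE0, hE1]
    exact union_subset (filter_subset _ _) (filter_subset _ _)
  have c2 := h.two x hx hS
  have c3 := card_le_card hsub
  rw [card_union_of_disjoint hd] at c3
  obtain ⟨g1, e1⟩ := card_eq_one.1 (show E0.card = 1 by omega)
  obtain ⟨g2, e2⟩ := card_eq_one.1 (show E1.card = 1 by omega)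
  have m1 : g1 ∈ E0 := e1 ▸ mem_singleton_self g1
  have m2 : g2 ∈ E1 := e2 ▸ mem_singleton_self g2
  have d0 : E0.card = 1 := by omega
  have d1 : E1.card = 1 := by omega
  refine ⟨by omega, by omega, g1, g2, ?_, ?_, ?_⟩
  · have h4 : E0 ∪ E1 = star wt x := eq_of_subset_of_card_le hsub (by
      rw [card_union_of_disjoint hd]; omega)
    rw [← h4, e1, e2]
    ext g
    simp
  · rw [hE0] at m1
    exact (mem_filter.1 m1).2
  · rw [hE1] at m2
    exact (mem_filter.1 m2).2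

end Pool.Agent.Lib.MP_f20cd2_co.DP
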