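import Pool.Agent.Lib.MP_f20cd2_co.DP.Part

/-!
The two small cases.
-/

set_option autoImplicit false
set_option linter.unusedSectionVars false

namespace Pool.Agent.Lib.MP_f20cd2_co.DP

open Finset
open Pool.Agent.Lib.MP_f20cd2_co.H83 (Conn Cells)
open Pool.Agent.Lib.MP_f20cd2_co.PL
open Pool.Agent.Lib.MP_f20cd2_co.HM (dg)
open scoped Classical

variable {ν ε : Type} [Fintype ν] [DecidableEq ν] [Fintype ε] [DecidableEq ε] {Δ K : ℕ} {al : ℕ → ℕ} {wt : ε → ν → ℕ}
  {z : ν} {X Dd : Finset ε}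

namespace SmallAux

theorem bud_mono {w w' : ε → ℕ} {X' Dd' : Finset ε} (h : Bud Δ K al w X Dd)
    (hX : X'.card ≤ X.card) (hD : ∀ g ∈ Dd', g ∈ Dd ∧ w' g ≤ w g) : Bud Δ K al w' X' Dd' := by
  intro c h2 hc
  have h1 := h c h2 hc
  have h3 : (Dd'.filter fun g => c ≤ w' g).card ≤ (Dd.filter fun g => c ≤ w g).card := by
    refine card_le_card fun g hg => ?_
    rw [mem_filter] at hg ⊢
    exact ⟨(hD g hg.1).1, hg.2.trans (hD g hg.1).2⟩
  omega

theorem le_win {y : ν} (hyz : y ≠ z) (g : ε) : wt g y ≤ win wt z g :=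
  single_le_sum (f := fun x => wt g x) (fun _ _ => Nat.zero_le _)
    (mem_erase.2 ⟨hyz, mem_univ _⟩)

/-- Every hyperedge at `z` has another node. -/
theorem other {N S : Finset ν} (h : HOk Δ K wt N S z) {g : ε} (hg : g ∈ star wt z) :
    ∃ x ∈ N.erase z, 0 < wt g x := by
  obtain ⟨y, hy, hyz⟩ := h.oth
  have h1 := h.con (N.erase z) (erase_subset _ _) (notMem_erase _ _)
    ⟨y, mem_erase.2 ⟨hyz, h.sub hy⟩, hy⟩
  have h2 : cut wt (N.erase z) ⊆ star wt z := by
    intro k hk
    obtain ⟨-, x, hx, hk⟩ := mem_cut.1 hk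
    have : x = z := by
      by_contra c
      exact hx (mem_erase.2 ⟨c, h.supp k x hk⟩)
    exact mem_star.2 (this ▸ hk)
  have h3 := eq_of_subset_of_card_le h2 (h.dz ▸ h1)
  rw [← h3] at hg
  exact (mem_cut.1 hg).1

end SmallAux

open SmallAux

/-- `en g = {z, y}` on `X` and empty elsewhere, `ow g = some y` for the hyperedges at `y` outside
`X` and `Dd`.  The star of `z` lies in the star of `y`, and `win wt z g = wt g y`. -/
theorem base_two {y : ν} (hyz : y ≠ z) (h : HOk Δ K wt {y, z} {y, z} z)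
    (hI : Inp Δ K al wt z X Dd) : ∃ en ow, Sol Δ K al wt {y, z} {y, z} z X Dd en ow := by
  have hs : ∀ g ∈ star wt z, 0 < wt g y := by
    intro g hg
    obtain ⟨x, hx, hp⟩ := other h hg
    simp only [mem_erase, mem_insert, mem_singleton] at hx
    rcases hx with ⟨a, rfl | b⟩
    · exact hp
    · exact (a b).elim
  let en : ε → Finset ν := fun g => if g ∈ X then {z, y} else ∅
  let ow : ε → Option ν := fun g => if 0 < wt g y ∧ g ∉ X ∧ g ∉ Dd then some y else none
  have me : ∀ g p, p ∈ en g ↔ g ∈ X ∧ (p = z ∨ p = y) := by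
    intro g p
    by_cases c : g ∈ X <;> simp [en, c]
  have mo : ∀ g p, ow g = some p ↔ (0 < wt g y ∧ g ∉ X ∧ g ∉ Dd) ∧ y = p := by
    intro g p
    simp only [ow]
    split_ifs with c
    · simp [c]
    · simp [c]
  have only : ∀ p, p ≠ z → (p ∈ ({y, z} : Finset ν) ∨ ∃ g, p ∈ en g) → p = y := by
    rintro p hp (a | ⟨g, a⟩)
    · simpa [hp] using a
    · simpa [hp] using ((me g p).1 a).2
  refine ⟨en, ow, ?_, ?_, ?_, ?_, ?_, ?_, ?_, ?_⟩
  · intro g
    by_cases c : g ∈ X
    · right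
      simp only [en, if_pos c]
      exact card_pair hyz.symm
    · left
      simp only [en, if_neg c]
  · intro g p hp
    obtain ⟨a, rfl | rfl⟩ := (me g p).1 hp
    · exact mem_star.1 (hI.xs a)
    · exact hs g (hI.xs a)
  · intro g
    simp [me]
  · intro g hg
    have c : g ∉ X := fun a => disjoint_left.1 hI.dis a hg
    exact ⟨by simp only [en, if_neg c], by simp [ow, hg]⟩
  · intro p a b
    exact (b a).elim
  · intro p q hp hq a b
    rw [only p hp a, only q hq b]
    exact Relation.ReflTransGen.refl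
  · intro g p hp
    obtain ⟨⟨a, b, -⟩, rfl⟩ := (mo g p).1 hp
    exact ⟨by simp only [en, if_neg b], a, hyz⟩
  · intro p hp hpz _
    obtain rfl := only p hpz (Or.inl hp)
    refine bud_mono hI.bud (card_le_card fun g hg => ((me g p).1 (mem_endsAt.1 hg)).1) ?_
    intro g hg
    obtain ⟨a, b, c⟩ := mem_deadAt.1 hg
    refine ⟨?_, le_win hyz g⟩
    by_contra d
    exact c ((mo g p).2 ⟨⟨a, fun e => b ((me g p).2 ⟨e, Or.inr rfl⟩), d⟩, rfl⟩)

/-- `en g2 = {z, x}` and `en g1 = {x, y}` if `g2 ∈ X`, `en g = {z, y}` for the other members of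
`X`, empty elsewhere; `ow g = some y` for the unused hyperedges at `y` outside `Dd`.  The map that
sends `g1` to `g2` injects the hyperedges with an end at `y` into `X`. -/
theorem tiny {y x : ν} (hyz : y ≠ z) (hxy : x ≠ y) (hxz : x ≠ z)
    (h : HOk Δ K wt {x, y, z} {y, z} z) (hI : Inp Δ K al wt z X Dd) {g1 g2 : ε}
    (hx : star wt x = {g1, g2}) (h1 : 0 < wt g1 y ∧ wt g1 z = 0)
    (h2 : 0 < wt g2 z ∧ wt g2 y = 0) : ∃ en ow, Sol Δ K al wt {x, y, z} {y, z} z X Dd en ow := by
  have sx : ∀ g, 0 < wt g x ↔ g = g1 ∨ g = g2 := by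
    intro g
    rw [← mem_star, hx]
    simp
  have n1 : g1 ∉ star wt z := by
    rw [mem_star]
    omega
  have n1X : g1 ∉ X := fun a => n1 (hI.xs a)
  have g12 : g1 ≠ g2 := by
    rintro rfl
    omega
  have hs : ∀ g ∈ star wt z, g ≠ g2 → 0 < wt g y := by
    intro g hg hg2
    obtain ⟨p, hp, hp'⟩ := other h hg
    simp only [mem_erase, mem_insert, mem_singleton] at hp
    rcases hp with ⟨a, rfl | rfl | b⟩
    · rcases (sx g).1 hp' with rfl | rfl
      · exact (n1 hg).elim
      · exact (hg2 rfl).elim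
    · exact hp'
    · exact (a b).elim
  let en : ε → Finset ν := fun g => if g ∈ X then (if g = g2 then {z, x} else {z, y})
    else if g = g1 ∧ g2 ∈ X then {x, y} else ∅
  let ow : ε → Option ν := fun g => if 0 < wt g y ∧ en g = ∅ ∧ g ∉ Dd then some y else none
  have me : ∀ g p, p ∈ en g ↔ (g ∈ X ∧ g = g2 ∧ (p = z ∨ p = x)) ∨
      (g ∈ X ∧ g ≠ g2 ∧ (p = z ∨ p = y)) ∨ (g = g1 ∧ g2 ∈ X ∧ (p = x ∨ p = y)) := by
    intro g p
    simp only [en]
    split_ifs with c d e
    · have : g ≠ g1 := fun a => g12 (a.symm.trans d)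
      simp only [mem_insert, mem_singleton]
      tauto
    · have : g ≠ g1 := fun a => n1X (a ▸ c)
      simp only [mem_insert, mem_singleton]
      tauto
    · simp only [mem_insert, mem_singleton]
      tauto
    · simp only [notMem_empty]
      tauto
  have mo : ∀ g p, ow g = some p ↔ (0 < wt g y ∧ en g = ∅ ∧ g ∉ Dd) ∧ y = p := by
    intro g p
    simp only [ow]
    split_ifs with c
    · simp [c]
    · simp [c]
  have only : ∀ p, p ≠ z → (p ∈ ({y, z} : Finset ν) ∨ ∃ g, p ∈ en g) →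
      p = y ∨ (p = x ∧ g2 ∈ X) := by
    rintro p hp (a | ⟨g, a⟩)
    · left
      simpa [hp] using a
    · rcases (me g p).1 a with ⟨b, rfl, c | c⟩ | ⟨-, -, c | c⟩ | ⟨-, b, c | c⟩
      · exact (hp c).elim
      · exact Or.inr ⟨c, b⟩
      · exact (hp c).elim
      · exact Or.inl c
      · exact Or.inr ⟨c, b⟩
      · exact Or.inl c
  refine ⟨en, ow, ?_, ?_, ?_, ?_, ?_, ?_, ?_, ?_⟩
  · intro g
    simp only [en]
    split_ifs
    · exact Or.inr (card_pair hxz.symm)
    · exact Or.inr (card_pair hyz.symm)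
    · exact Or.inr (card_pair hxy)
    · exact Or.inl rfl
  · intro g p hp
    rcases (me g p).1 hp with ⟨b, rfl, rfl | rfl⟩ | ⟨b, c, rfl | rfl⟩ | ⟨rfl, -, rfl | rfl⟩
    · exact h2.1
    · exact (sx _).2 (Or.inr rfl)
    · exact mem_star.1 (hI.xs b)
    · exact hs g (hI.xs b) c
    · exact (sx _).2 (Or.inl rfl)
    · exact h1.1
  · intro g
    rw [me]
    constructor
    · rintro (⟨b, -⟩ | ⟨b, -⟩ | ⟨-, -, c | c⟩)
      · exact b
      · exact b
      · exact (hxz c.symm).elim
      · exact (hyz c.symm).elim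
    · intro b
      by_cases c : g = g2
      · exact Or.inl ⟨b, c, Or.inl rfl⟩
      · exact Or.inr (Or.inl ⟨b, c, Or.inl rfl⟩)
  · intro g hg
    have c : g ∉ X := fun a => disjoint_left.1 hI.dis a hg
    have d : g ≠ g1 := fun a => n1 (a ▸ hI.ds hg)
    exact ⟨by simp [en, c, d], by simp [ow, hg]⟩
  · intro p a b
    have e : p = x := by
      simp only [mem_insert, mem_singleton] at a b
      tauto
    subst e
    by_cases c : g2 ∈ X
    · right
      have : endsAt en p = {g1, g2} := by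
        ext g
        rw [mem_endsAt, me, mem_insert, mem_singleton]
        constructor
        · rintro (⟨-, d, -⟩ | ⟨-, -, d | d⟩ | ⟨d, -⟩)
          · exact Or.inr d
          · exact (hxz d).elim
          · exact (hxy d).elim
          · exact Or.inl d
        · rintro (rfl | rfl)
          · exact Or.inr (Or.inr ⟨rfl, c, Or.inl rfl⟩)
          · exact Or.inl ⟨c, rfl, Or.inr rfl⟩
      rw [this]
      exact card_pair g12
    · left
      refine eq_empty_of_forall_notMem fun g hg => ?_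
      rcases (me g p).1 (mem_endsAt.1 hg) with ⟨d, rfl, -⟩ | ⟨-, -, d | d⟩ | ⟨-, d, -⟩
      · exact c d
      · exact hxz d
      · exact hxy d
      · exact c d
  · intro p q hp hq a b
    rcases only p hp a with rfl | ⟨rfl, c⟩ <;> rcases only q hq b with rfl | ⟨rfl, d⟩
    · exact Relation.ReflTransGen.refl
    · exact Relation.ReflTransGen.single ⟨hp, hq, g1,
        (me _ _).2 (Or.inr (Or.inr ⟨rfl, d, Or.inr rfl⟩)),
        (me _ _).2 (Or.inr (Or.inr ⟨rfl, d, Or.inl rfl⟩))⟩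
    · exact Relation.ReflTransGen.single ⟨hp, hq, g1,
        (me _ _).2 (Or.inr (Or.inr ⟨rfl, c, Or.inl rfl⟩)),
        (me _ _).2 (Or.inr (Or.inr ⟨rfl, c, Or.inr rfl⟩))⟩
    · exact Relation.ReflTransGen.refl
  · intro g p hp
    obtain ⟨⟨a, b, -⟩, rfl⟩ := (mo g p).1 hp
    exact ⟨b, a, hyz⟩
  · intro p hp hpz _
    have e : p = y := by simpa [hpz] using hp
    subst e
    have my : ∀ g, p ∈ en g → (g ∈ X ∧ g ≠ g2) ∨ (g = g1 ∧ g2 ∈ X) := by
      intro g hg
      rcases (me g p).1 hg with ⟨-, -, d | d⟩ | ⟨b, c, -⟩ | ⟨b, c, -⟩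
      · exact (hpz d).elim
      · exact (hxy d.symm).elim
      · exact Or.inl ⟨b, c⟩
      · exact Or.inr ⟨b, c⟩
    refine bud_mono hI.bud ?_ ?_
    · refine card_le_card_of_injOn (fun g => if g = g1 then g2 else g) ?_ ?_
      · intro g hg
        rcases my g (mem_endsAt.1 hg) with ⟨b, -⟩ | ⟨rfl, b⟩
        · have : g ≠ g1 := fun a => n1X (a ▸ b)
          simpa [this] using b
        · simpa using b
      · intro g hg k hk e
        rcases my g (mem_endsAt.1 hg) with ⟨b, b'⟩ | ⟨rfl, b⟩ <;>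
          rcases my k (mem_endsAt.1 hk) with ⟨c, c'⟩ | ⟨rfl, c⟩
        · have i1 : g ≠ g1 := fun a => n1X (a ▸ b)
          have i2 : k ≠ g1 := fun a => n1X (a ▸ c)
          simpa [i1, i2] using e
        · have i1 : g ≠ k := fun a => n1X (a ▸ b)
          exact (b' (by simpa [i1] using e)).elim
        · have i2 : k ≠ g := fun a => n1X (a ▸ c)
          exact (c' (by simpa [i2] using e.symm)).elim
        · rfl
    · intro g hg
      obtain ⟨a, b, c⟩ := mem_deadAt.1 hg
      refine ⟨?_, le_win hyz g⟩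
      by_contra d
      refine c ((mo g p).2 ⟨⟨a, eq_empty_of_forall_notMem fun q hq => ?_, d⟩, rfl⟩)
      rcases (me g q).1 hq with ⟨-, rfl, -⟩ | ⟨i, j, -⟩ | ⟨i, j, -⟩
      · omega
      · exact b ((me g p).2 (Or.inr (Or.inl ⟨i, j, Or.inr rfl⟩)))
      · exact b ((me g p).2 (Or.inr (Or.inr ⟨i, j, Or.inr rfl⟩)))

end Pool.Agent.Lib.MP_f20cd2_co.DP
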