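import Pool.Agent.Lib.MP_f20cd2_co.DP.BaseBig
import Pool.Agent.Lib.MP_f20cd2_co.DP.Small
import Pool.Agent.Lib.MP_f20cd2_co.DP.Red
import Pool.Agent.Lib.MP_f20cd2_co.DP.GlueB

/-!
Disjoint paths that connect all terminals.
-/

set_option autoImplicit false
set_option linter.unusedSectionVars false

namespace Pool.Agent.Lib.MP_f20cd2_co.DP

open Finset
open Pool.Agent.Lib.MP_f20cd2_co.H83 (Conn Cells)
open Pool.Agent.Lib.MP_f20cd2_co.PL
open Pool.Agent.Lib.MP_f20cd2_co.HM (dg)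
open scoped Classical

variable {ν ε : Type} [Fintype ν] [DecidableEq ν] [Fintype ε] [DecidableEq ε]

namespace ConnAux

/-- One contraction step along a tight set. -/
lemma contract {Δ K : ℕ} {al : ℕ → ℕ} {z : ν} {N : Finset ν}
    (ih : ∀ N' : Finset ν, N'.card < N.card → ∀ (wt : ε → ν → ℕ) (S : Finset ν) (X Dd : Finset ε),
      HOk Δ K wt N' S z → Inp Δ K al wt z X Dd → ∃ en ow, Sol Δ K al wt N' S z X Dd en ow)
    {wt : ε → ν → ℕ} {S : Finset ν} {X Dd : Finset ε} (h : HOk Δ K wt N S z)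
    (hI : Inp Δ K al wt z X Dd) {B : Finset ν} (hB : B ⊆ N) (hz : z ∉ B) {a : ν} (ha : a ∈ B)
    (haS : a ∈ S) (hK : (cut wt B).card = K) (h2 : 2 ≤ B.card) (h2' : 2 ≤ (N \ B).card) :
    ∃ en ow, Sol Δ K al wt N S z X Dd en ow := by
  have hc : (N \ B).card + B.card = N.card := card_sdiff_add_card_eq_card hB
  have c1 : (insert a (N \ B)).card < N.card := by
    have := card_insert_le a (N \ B)
    omega
  have c2 : (insert z B).card < N.card := by
    have := card_insert_le z B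
    omega
  obtain ⟨en, ow, s1⟩ := ih _ c1 _ _ _ _ (outer_ok h hB hz ha haS) (outer_inp hI hz ha)
  obtain ⟨en', ow', s2⟩ := ih _ c2 _ _ _ _ (inner_ok h hB hz ha haS hK) (inner_inp hz ha hK s1)
  exact ⟨_, _, glue h hB hz ha haS hI.ds s1 s2⟩

/-- The case of terminals only. -/
lemma base {Δ K D : ℕ} {al : ℕ → ℕ} (hn : Num Δ K D al) {z : ν} {wt : ε → ν → ℕ} {S : Finset ν}
    {X Dd : Finset ε} (h : HOk Δ K wt S S z) (hI : Inp Δ K al wt z X Dd) :
    ∃ en ow, Sol Δ K al wt S S z X Dd en ow := by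
  by_cases h3 : 3 ≤ S.card
  · exact base_big hn h hI h3
  · obtain ⟨y, hy, hyz⟩ := h.oth
    have hsub : ({y, z} : Finset ν) ⊆ S := by
      intro v hv
      rcases mem_insert.1 hv with rfl | hv
      · exact hy
      · rw [mem_singleton.1 hv]; exact h.zS
    have he : ({y, z} : Finset ν) = S := by
      apply eq_of_subset_of_card_le hsub
      rw [card_pair hyz]
      omega
    subst he
    exact base_two hyz h hI

/-- The inductive step. -/
lemma step {Δ K D : ℕ} {al : ℕ → ℕ} (hn : Num Δ K D al) {z : ν} {N : Finset ν}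
    (ih : ∀ N' : Finset ν, N'.card < N.card → ∀ (wt : ε → ν → ℕ) (S : Finset ν) (X Dd : Finset ε),
      HOk Δ K wt N' S z → Inp Δ K al wt z X Dd → ∃ en ow, Sol Δ K al wt N' S z X Dd en ow)
    {wt : ε → ν → ℕ} {S : Finset ν} {X Dd : Finset ε} (h : HOk Δ K wt N S z)
    (hI : Inp Δ K al wt z X Dd) : ∃ en ow, Sol Δ K al wt N S z X Dd en ow := by
  by_cases hNS : N ⊆ S
  · have he : N = S := Subset.antisymm hNS h.sub
    subst he
    exact base hn h hI
  obtain ⟨x, hx, hS⟩ := not_subset.1 hNS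
  have hxz : x ≠ z := fun e => hS (e ▸ h.zS)
  by_cases hc : ∀ A ⊆ N.erase x, z ∉ A → (∃ y ∈ A, y ∈ S) → K ≤ (cut (del wt x) A).card
  · obtain ⟨en, ow, hs⟩ := ih _ (card_erase_lt_of_mem hx) _ _ _ _ (del_ok h hx hS hc)
      (del_inp hI hxz)
    exact ⟨en, ow, del_sol h hS hs⟩
  push Not at hc
  obtain ⟨A, hA, hz, hy, hlt⟩ := hc
  obtain ⟨hK, hK', g1, g2, hst, ⟨⟨y1, hy1, hw1⟩, hg1⟩, ⟨⟨y2, hy2, hw2⟩, hg2⟩⟩ :=
    blocked h hx hS hA hz hy hlt
  obtain ⟨a, ha, haS⟩ := hy
  have hxA : x ∉ A := fun e => (mem_erase.1 (hA e)).1 rfl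
  have hAN : A ⊆ N := hA.trans (erase_subset _ _)
  have hBN : insert x A ⊆ N := insert_subset hx hAN
  have hzB : z ∉ insert x A := by
    intro e
    rcases mem_insert.1 e with e | e
    · exact hxz e.symm
    · exact hz e
  have hzN : z ∈ N := h.sub h.zS
  have hApos : 0 < A.card := card_pos.2 ⟨a, ha⟩
  by_cases hb : 2 ≤ (N \ insert x A).card
  · refine contract ih h hI hBN hzB (mem_insert_of_mem ha) haS hK' ?_ hb
    rw [card_insert_of_notMem hxA]
    omega
  by_cases hb' : 2 ≤ A.card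
  · refine contract ih h hI hAN hz ha haS hK hb' ?_
    have hsub : ({x, z} : Finset ν) ⊆ N \ A := by
      intro v hv
      rcases mem_insert.1 hv with rfl | hv
      · exact mem_sdiff.2 ⟨hx, hxA⟩
      · rw [mem_singleton.1 hv]; exact mem_sdiff.2 ⟨hzN, hz⟩
    have := card_le_card hsub
    rwa [card_pair hxz] at this
  have hout : ∀ v ∈ N, v ∉ insert x A → v = z := by
    intro v hv hv'
    exact card_le_one.1 (by omega : (N \ insert x A).card ≤ 1) v (mem_sdiff.2 ⟨hv, hv'⟩) z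
      (mem_sdiff.2 ⟨hzN, hzB⟩)
  have hin : ∀ v ∈ A, v = a := fun v hv => card_le_one.1 (by omega : A.card ≤ 1) v hv a ha
  have haz : a ≠ z := fun e => hz (e ▸ ha)
  have hxa : x ≠ a := fun e => hxA (e ▸ ha)
  have hN : N = {x, a, z} := by
    ext v
    simp only [mem_insert, mem_singleton]
    constructor
    · intro hv
      by_cases hv' : v ∈ insert x A
      · rcases mem_insert.1 hv' with e | e
        · exact Or.inl e
        · exact Or.inr (Or.inl (hin v e))
      · exact Or.inr (Or.inr (hout v hv hv'))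
    · rintro (rfl | rfl | rfl)
      · exact hx
      · exact hAN ha
      · exact hzN
  have hS' : S = {a, z} := by
    ext v
    simp only [mem_insert, mem_singleton]
    constructor
    · intro hv
      have hv' := h.sub hv
      rw [hN] at hv'
      simp only [mem_insert, mem_singleton] at hv'
      rcases hv' with e | e
      · exact absurd (e ▸ hv) hS
      · exact e
    · rintro (rfl | rfl)
      · exact haS
      · exact h.zS
  have e1 : y1 = a := hin y1 hy1
  have e2 : y2 = z := hout y2 (h.supp g2 y2 hw2) hy2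
  rw [e1] at hw1
  rw [e2] at hw2
  rw [hN, hS'] at h ⊢
  exact tiny haz hxa hxz h hI hst ⟨hw1, hg1 z hzB⟩ ⟨hw2, hg2 a ha⟩

end ConnAux

/-- Strong induction on `N.card`, see the plan. -/
theorem conn {Δ K D : ℕ} {al : ℕ → ℕ} (hn : Num Δ K D al) (z : ν) (N : Finset ν) :
    ∀ (wt : ε → ν → ℕ) (S : Finset ν) (X Dd : Finset ε), HOk Δ K wt N S z →
      Inp Δ K al wt z X Dd → ∃ en ow, Sol Δ K al wt N S z X Dd en ow := by
  induction hN : N.card using Nat.strong_induction_on generalizing N with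
  | _ n ih =>
    intro wt S X Dd h hI
    exact ConnAux.step hn (fun N' hN' => ih N'.card (hN ▸ hN') N' rfl) h hI

/-- `D = 15000 * 18 ^ 7`, `T = D + 1`, `al c = 18 ^ (c - 2) * T * c`, `K = 20 * 18 ^ 7 * T`. -/
theorem nums : ∃ (K D : ℕ) (al : ℕ → ℕ), Num 9 K D al ∧ ∀ c, 2 ≤ c → c ≤ 9 → al c + 1 ≤ K := by
  refine ⟨20 * 18 ^ 7 * (15000 * 18 ^ 7 + 1), 15000 * 18 ^ 7,
    fun c => 18 ^ (c - 2) * (15000 * 18 ^ 7 + 1) * c, ⟨by norm_num, by norm_num, ?_, by norm_num,
      by norm_num⟩, ?_⟩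
  · intro c h2 h9
    interval_cases c <;> norm_num
  · intro c h2 h9
    interval_cases c <;> norm_num

end Pool.Agent.Lib.MP_f20cd2_co.DP
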