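import Pool.Agent.Lib.MP_f20cd2_co.DP.Defs
import Pool.Agent.Lib.MP_f20cd2_co.AS.LLL

/-!
Path covers and independent transversals.
-/

set_option autoImplicit false
set_option linter.unusedSectionVars false

namespace Pool.Agent.Lib.MP_f20cd2_co.DP

open Finset
open Pool.Agent.Lib.MP_f20cd2_co.H83 (Conn Cells)
open Pool.Agent.Lib.MP_f20cd2_co.PL
open Pool.Agent.Lib.MP_f20cd2_co.HM (dg)
open scoped Classical

variable {V : Type} [Fintype V] [DecidableEq V] {G : SimpleGraph V}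

namespace CoverAux

/-- `p 0, ..., p m` is a path inside `A`. -/
def PA (G : SimpleGraph V) (A : Finset V) (m : ℕ) (p : ℕ → V) : Prop :=
  (∀ i < m, G.Adj (p i) (p (i + 1))) ∧ (∀ i ≤ m, ∀ j ≤ m, p i = p j → i = j) ∧ ∀ i ≤ m, p i ∈ A

lemma exists_max (G : SimpleGraph V) (A : Finset V) (hA : A.Nonempty) :
    ∃ m p, PA G A m p ∧ ∀ u ∈ A, (∀ i ≤ m, u ≠ p i) → ¬ G.Adj u (p 0) := by
  by_contra hcon
  have hstep : ∀ m, ∃ p, PA G A m p := by
    intro m
    induction m with
    | zero =>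
      obtain ⟨a, ha⟩ := hA
      exact ⟨fun _ => a, fun i hi => absurd hi (Nat.not_lt_zero i),
        fun i hi j hj _ => by omega, fun _ _ => ha⟩
    | succ m ih =>
      obtain ⟨p, hp⟩ := ih
      have h1 : ∃ u ∈ A, (∀ i ≤ m, u ≠ p i) ∧ G.Adj u (p 0) := by
        by_contra h2
        exact hcon ⟨m, p, hp, fun u hu h3 h4 => h2 ⟨u, hu, h3, h4⟩⟩
      obtain ⟨u, hu, h3, h4⟩ := h1
      refine ⟨fun i => Nat.casesOn i u p, ?_, ?_, ?_⟩
      · intro i hi
        cases i with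
        | zero => exact h4
        | succ i => exact hp.1 i (by omega)
      · intro i hi j hj e
        cases i with
        | zero =>
          cases j with
          | zero => rfl
          | succ j => exact absurd e (h3 j (by omega))
        | succ i =>
          cases j with
          | zero => exact absurd e.symm (h3 i (by omega))
          | succ j => rw [hp.2.1 i (by omega) j (by omega) e]
      · intro i hi
        cases i with
        | zero => exact hu
        | succ i => exact hp.2.2 i (by omega)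
  obtain ⟨p, hp⟩ := hstep (Fintype.card V)
  have h1 : (range (Fintype.card V + 1)).card ≤ (univ : Finset V).card :=
    card_le_card_of_injOn p (fun _ _ => mem_coe.2 (mem_univ _)) fun i hi j hj e =>
      hp.2.1 i (Nat.lt_succ_iff.1 (mem_range.1 (mem_coe.1 hi))) j
        (Nat.lt_succ_iff.1 (mem_range.1 (mem_coe.1 hj))) e
  rw [card_range, card_univ] at h1
  omega

end CoverAux

/-- Strong induction on `A`: remove a longest path inside `A`; its first vertex has no neighbour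
in the rest of `A`. -/
theorem cover (G : SimpleGraph V) (A : Finset V) :
    ∃ (I : Finset V) (n : V → ℕ) (w : V → ℕ → V), Pf G I n w ∧ I ⊆ A ∧ Ind G I ∧
      (∀ σ ∈ I, ∀ i ≤ n σ, w σ i ∈ A) ∧ ∀ v ∈ A, ∃ σ ∈ I, ∃ i ≤ n σ, v = w σ i := by
  induction A using Finset.strongInduction with
  | H A ih =>
  rcases A.eq_empty_or_nonempty with rfl | hA
  · exact ⟨∅, fun _ => 0, fun v _ => v, ⟨fun _ h => absurd h (notMem_empty _),
      fun _ h => absurd h (notMem_empty _)⟩, Subset.rfl, fun _ h => absurd h (notMem_empty _),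
      fun _ h => absurd h (notMem_empty _), fun _ h => absurd h (notMem_empty _)⟩
  obtain ⟨m, p, hp, hmax⟩ := CoverAux.exists_max G A hA
  have hmem : ∀ v, v ∈ A \ (range (m + 1)).image p ↔ v ∈ A ∧ ∀ i ≤ m, v ≠ p i := by
    intro v
    rw [mem_sdiff, mem_image]
    refine and_congr_right fun _ => ⟨fun h i hi e => h ⟨i, mem_range.2 (by omega), e.symm⟩, ?_⟩
    rintro h ⟨i, hi, e⟩
    exact h i (Nat.lt_succ_iff.1 (mem_range.1 hi)) e.symm
  have h0 : p 0 ∉ A \ (range (m + 1)).image p := fun h =>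
    ((hmem _).1 h).2 0 (Nat.zero_le _) rfl
  have hss : A \ (range (m + 1)).image p ⊂ A :=
    ⟨sdiff_subset, fun h => h0 (h (hp.2.2 0 (Nat.zero_le _)))⟩
  obtain ⟨I, n, w, hPf, hI, hind, hw, hcov⟩ := ih _ hss
  have hne : ∀ σ ∈ I, σ ≠ p 0 := fun σ hσ e => h0 (e ▸ hI hσ)
  have hn : ∀ σ ∈ I, Function.update n (p 0) m σ = n σ := fun σ hσ =>
    Function.update_of_ne (hne σ hσ) _ _
  have hw' : ∀ σ ∈ I, Function.update w (p 0) p σ = w σ := fun σ hσ =>
    Function.update_of_ne (hne σ hσ) _ _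
  refine ⟨insert (p 0) I, Function.update n (p 0) m, Function.update w (p 0) p, ⟨?_, ?_⟩, ?_, ?_,
    ?_, ?_⟩
  · intro σ hσ i hi
    rcases mem_insert.1 hσ with rfl | hσ
    · rw [Function.update_self] at hi ⊢
      exact hp.1 i hi
    · rw [hn σ hσ] at hi
      rw [hw' σ hσ]
      exact hPf.adj σ hσ i hi
  · intro σ hσ σ' hσ' i hi i' hi' e
    rcases mem_insert.1 hσ with rfl | hσ
    · rcases mem_insert.1 hσ' with rfl | hσ'
      · rw [Function.update_self] at hi hi' e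
        exact ⟨rfl, hp.2.1 i hi i' hi' e⟩
      · rw [Function.update_self] at hi e
        rw [hn σ' hσ'] at hi'
        rw [hw' σ' hσ'] at e
        exact absurd e.symm (((hmem _).1 (hw σ' hσ' i' hi')).2 i hi)
    · rw [hn σ hσ] at hi
      rw [hw' σ hσ] at e
      rcases mem_insert.1 hσ' with rfl | hσ'
      · rw [Function.update_self] at hi' e
        exact absurd e (((hmem _).1 (hw σ hσ i hi)).2 i' hi')
      · rw [hn σ' hσ'] at hi'
        rw [hw' σ' hσ'] at e
        exact hPf.inj σ hσ σ' hσ' i hi i' hi' e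
  · exact insert_subset (hp.2.2 0 (Nat.zero_le _)) (hI.trans sdiff_subset)
  · intro u hu v hv huv
    rcases mem_insert.1 hu with rfl | hu
    · rcases mem_insert.1 hv with rfl | hv
      · exact G.irrefl huv
      · exact hmax v ((hmem _).1 (hI hv)).1 ((hmem _).1 (hI hv)).2 huv.symm
    · rcases mem_insert.1 hv with rfl | hv
      · exact hmax u ((hmem _).1 (hI hu)).1 ((hmem _).1 (hI hu)).2 huv
      · exact hind u hu v hv huv
  · intro σ hσ i hi
    rcases mem_insert.1 hσ with rfl | hσ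
    · rw [Function.update_self] at hi ⊢
      exact hp.2.2 i hi
    · rw [hn σ hσ] at hi
      rw [hw' σ hσ]
      exact ((hmem _).1 (hw σ hσ i hi)).1
  · intro v hv
    by_cases h : ∃ i ≤ m, v = p i
    · obtain ⟨i, hi, e⟩ := h
      refine ⟨p 0, mem_insert_self _ _, i, ?_, ?_⟩
      · rwa [Function.update_self]
      · rwa [Function.update_self]
    · obtain ⟨σ, hσ, i, hi, e⟩ := hcov v ((hmem v).2 ⟨hv, fun i hi e => h ⟨i, hi, e⟩⟩)
      refine ⟨σ, mem_insert_of_mem hσ, i, ?_, ?_⟩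
      · rwa [hn σ hσ]
      · rwa [hw' σ hσ]

/-- `AS.lll` with the variables `κ`, `M = l`, `g = 2`, `P = l ^ 2`, `D = 2 * l * Δ`; the events are
the pairs `(k, i), (k', i')` with `k ≠ k'` in `W`, `i, i' < l` and `Cf (y k i) (y k' i')`, with
support `{k, k'}`, bad if `f k = i` and `f k' = i'`. -/
theorem transv {κ : Type} [Fintype κ] [DecidableEq κ] (W : Finset κ) (l Δ : ℕ) (y : κ → ℕ → V)
    (hy : ∀ k ∈ W, ∀ k' ∈ W, ∀ i < l, ∀ i' < l, y k i = y k' i' → k = k' ∧ i = i')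
    (Cf : V → V → Prop) (hs : ∀ u v, Cf u v → Cf v u)
    (hΔ : ∀ u, (univ.filter fun v => Cf u v).card ≤ Δ) (h1 : 18 * Δ ≤ l) (h2 : 2 ≤ l) :
    ∃ f : κ → ℕ, (∀ k, f k < l) ∧
      ∀ k ∈ W, ∀ k' ∈ W, k ≠ k' → ¬ Cf (y k (f k)) (y k' (f k')) := by
  obtain ⟨I, hI⟩ : ∃ I : Finset ((κ × ℕ) × (κ × ℕ)), ∀ e, e ∈ I ↔
      (e.1.1 ∈ W ∧ e.1.2 < l) ∧ (e.2.1 ∈ W ∧ e.2.2 < l) ∧ e.1.1 ≠ e.2.1 ∧
        Cf (y e.1.1 e.1.2) (y e.2.1 e.2.2) :=
    ⟨((W ×ˢ range l) ×ˢ (W ×ˢ range l)).filter fun e => e.1.1 ≠ e.2.1 ∧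
        Cf (y e.1.1 e.1.2) (y e.2.1 e.2.2), fun e => by
      simp only [mem_filter, mem_product, mem_range, and_assoc]⟩
  have hA : ∀ v, (I.filter fun e => e.1.1 = v).card ≤ Δ * l := by
    intro v
    have h := card_le_mul_card_image_of_maps_to (s := I.filter fun e => e.1.1 = v) (t := range l)
      (f := fun e => e.1.2) (fun e he => mem_range.2 ((hI e).1 (mem_filter.1 he).1).1.2) Δ ?_
    · rwa [card_range] at h
    intro i _
    refine le_trans (card_le_card_of_injOn (fun e => y e.2.1 e.2.2) ?_ ?_) (hΔ (y v i))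
    · intro e he
      obtain ⟨h3, h4⟩ := mem_filter.1 (mem_coe.1 he)
      obtain ⟨h5, h6⟩ := mem_filter.1 h3
      refine mem_coe.2 (mem_filter.2 ⟨mem_univ _, ?_⟩)
      have h7 := ((hI e).1 h5).2.2.2
      rwa [h6, h4] at h7
    · intro e he e' he' h7
      obtain ⟨h3, h4⟩ := mem_filter.1 (mem_coe.1 he)
      obtain ⟨h5, h6⟩ := mem_filter.1 h3
      obtain ⟨h3', h4'⟩ := mem_filter.1 (mem_coe.1 he')
      obtain ⟨h5', h6'⟩ := mem_filter.1 h3'
      obtain ⟨h8, h9⟩ := hy _ ((hI e).1 h5).2.1.1 _ ((hI e').1 h5').2.1.1 _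
        ((hI e).1 h5).2.1.2 _ ((hI e').1 h5').2.1.2 h7
      exact Prod.ext (Prod.ext (h6.trans h6'.symm) (h4.trans h4'.symm)) (Prod.ext h8 h9)
  have hB : ∀ v, (I.filter fun e => e.2.1 = v).card ≤ Δ * l := by
    intro v
    refine le_trans (card_le_card_of_injOn Prod.swap ?_ Prod.swap_injective.injOn) (hA v)
    intro e he
    obtain ⟨h3, h4⟩ := mem_filter.1 (mem_coe.1 he)
    obtain ⟨h5, h6, h7, h8⟩ := (hI e).1 h3
    exact mem_coe.2 (mem_filter.2 ⟨(hI _).2 ⟨h6, h5, h7.symm, hs _ _ h8⟩, h4⟩)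
  obtain ⟨f, hf, hbad⟩ := AS.lll (V := κ) l 2 (2 * l * Δ) (l ^ 2) (by omega) I
    (fun e => {e.1.1, e.2.1}) (fun e f => f e.1.1 = e.1.2 ∧ f e.2.1 = e.2.2)
    (fun e _ f f' h hb => ⟨(h _ (mem_insert_self _ _)).symm.trans hb.1,
      (h _ (mem_insert_of_mem (mem_singleton_self _))).symm.trans hb.2⟩)
    (fun e _ => card_le_two)
    (fun v => by
      have h3 := hA v
      have h4 := hB v
      refine le_trans (card_le_card (t := (I.filter fun e => e.1.1 = v) ∪
        (I.filter fun e => e.2.1 = v)) fun e he => ?_) (le_trans (card_union_le _ _) ?_)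
      · simp only [mem_filter, mem_insert, mem_singleton] at he
        rcases he.2 with h | h
        · exact mem_union_left _ (mem_filter.2 ⟨he.1, h.symm⟩)
        · exact mem_union_right _ (mem_filter.2 ⟨he.1, h.symm⟩)
      · nlinarith)
    (fun e he => by
      rw [card_pair ((hI e).1 he).2.2.1]
      refine le_trans (Nat.mul_le_mul_left _ (card_le_one.2 fun f hf f' hf' => ?_))
        (by rw [mul_one])
      simp only [mem_filter] at hf hf'
      funext v
      by_cases h3 : v = e.1.1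
      · rw [h3, hf.2.1, hf'.2.1]
      by_cases h4 : v = e.2.1
      · rw [h4, hf.2.2, hf'.2.2]
      have h5 : v ∉ ({e.1.1, e.2.1} : Finset κ) := by
        simp only [mem_insert, mem_singleton, not_or]
        exact ⟨h3, h4⟩
      rw [(AS.LLLAux.mem_pat.1 hf.1).2 v h5, (AS.LLLAux.mem_pat.1 hf'.1).2 v h5])
    (by nlinarith) (by nlinarith)
  exact ⟨f, hf, fun k hk k' hk' hne hC =>
    hbad ((k, f k), (k', f k')) ((hI _).2 ⟨⟨hk, hf k⟩, ⟨hk', hf k'⟩, hne, hC⟩) ⟨rfl, rfl⟩⟩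

end Pool.Agent.Lib.MP_f20cd2_co.DP
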