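import Pool.Agent.Lib.MP_f20cd2_co.DP.Defs

/-!
Cutting along the path.
-/

set_option autoImplicit false
set_option linter.unusedSectionVars false

namespace Pool.Agent.Lib.MP_f20cd2_co.DP

open Finset
open Pool.Agent.Lib.MP_f20cd2_co.H83 (Conn Cells)
open Pool.Agent.Lib.MP_f20cd2_co.PL
open Pool.Agent.Lib.MP_f20cd2_co.HM (dg)
open scoped Classical

variable {V : Type} [Fintype V] [DecidableEq V] {G : SimpleGraph V}

namespace CutAux

/-- Disjoint small connected sets around the vertices of a path. -/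
def Sys (G : SimpleGraph V) (C : ℕ) (R : V → Finset V) (l : List V) : Prop :=
  IsP G l ∧ (∀ x ∈ l, x ∈ R x ∧ Conn G (R x) ∧ (R x).card ≤ C) ∧
    ∀ x ∈ l, ∀ y ∈ l, x ≠ y → Disjoint (R x) (R y)

/-- The union of the sets along the list. -/
def U (R : V → Finset V) (l : List V) : Finset V := l.toFinset.biUnion R

lemma mem_U {R : V → Finset V} {l : List V} {v : V} : v ∈ U R l ↔ ∃ x ∈ l, v ∈ R x := by
  simp [U]

lemma U_nil (R : V → Finset V) : U R [] = ∅ := by
  ext v
  simp [mem_U]

lemma U_cons (R : V → Finset V) (x : V) (l : List V) : U R (x :: l) = R x ∪ U R l := by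
  ext v
  simp [mem_U]

lemma Sys.tail {C : ℕ} {R : V → Finset V} {x : V} {l : List V} (h : Sys G C R (x :: l)) :
    Sys G C R l :=
  ⟨⟨(List.nodup_cons.1 h.1.1).2, h.1.2.tail⟩, fun y hy => h.2.1 y (List.mem_cons_of_mem _ hy),
    fun y hy z hz => h.2.2 y (List.mem_cons_of_mem _ hy) z (List.mem_cons_of_mem _ hz)⟩

lemma Sys.disj {C : ℕ} {R : V → Finset V} {x : V} {l : List V} (h : Sys G C R (x :: l)) :
    Disjoint (R x) (U R l) := by
  rw [disjoint_left]
  intro v hv hU
  obtain ⟨y, hy, hvy⟩ := mem_U.1 hU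
  have hne : x ≠ y := fun e => (List.nodup_cons.1 h.1.1).1 (e ▸ hy)
  exact disjoint_left.1 (h.2.2 x List.mem_cons_self y (List.mem_cons_of_mem _ hy) hne) hv hvy

/-- `s` is the total size of the sets of an initial segment. -/
def Gd (R : V → Finset V) (l : List V) (s : ℕ) : Prop :=
  ∃ j, s = ((l.take j).map fun x => (R x).card).sum

lemma Gd.tail {R : V → Finset V} {x : V} {l : List V} {t : ℕ}
    (h : Gd R (x :: l) ((R x).card + t)) : Gd R l t := by
  obtain ⟨j, hj⟩ := h
  cases j with
  | zero =>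
    refine ⟨0, ?_⟩
    simp only [List.take_zero, List.map_nil, List.sum_nil] at hj ⊢
    omega
  | succ j =>
    refine ⟨j, ?_⟩
    simp only [List.take_succ_cons, List.map_cons, List.sum_cons] at hj
    omega

lemma Gd.zero {R : V → Finset V} {l : List V} {d : ℕ} (h : Gd R l d)
    (hd : ∀ y ∈ l.head?, d < (R y).card) : d = 0 := by
  obtain ⟨j, hj⟩ := h
  cases l with
  | nil => simpa using hj
  | cons x l =>
    cases j with
    | zero => simpa using hj
    | succ j =>
      have := hd x (by simp)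
      simp only [List.take_succ_cons, List.map_cons, List.sum_cons] at hj
      omega

lemma Gd.erase {R R' : V → Finset V} {x : V} {l : List V} {t : ℕ} (h : Gd R (x :: l) (1 + t))
    (h1 : (R' x).card + 1 = (R x).card) (h2 : ∀ y ∈ l, R' y = R y) : Gd R' (x :: l) t := by
  obtain ⟨j, hj⟩ := h
  cases j with
  | zero =>
    simp only [List.take_zero, List.map_nil, List.sum_nil] at hj
    omega
  | succ j =>
    refine ⟨j + 1, ?_⟩
    have e : ((l.take j).map fun y => (R' y).card) = (l.take j).map fun y => (R y).card :=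
      List.map_congr_left fun y hy => by rw [h2 y (List.mem_of_mem_take hy)]
    simp only [List.take_succ_cons, List.map_cons, List.sum_cons] at hj ⊢
    rw [e]
    omega

lemma sum_lt_zero {k : ℕ} (a : Fin (k + 1) → ℕ) : ∑ j ∈ univ.filter (· < 0), a j = 0 := by
  simp

lemma sum_le_zero {k : ℕ} (a : Fin (k + 1) → ℕ) : ∑ j ∈ univ.filter (· ≤ 0), a j = a 0 := by
  rw [sum_filter, Fin.sum_univ_succ]
  simp

lemma sum_lt_succ {k : ℕ} (a : Fin (k + 1) → ℕ) (i : Fin k) :
    ∑ j ∈ univ.filter (· < i.succ), a j = a 0 + ∑ j ∈ univ.filter (· < i), a j.succ := by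
  rw [sum_filter, sum_filter, Fin.sum_univ_succ]
  simp only [Fin.succ_pos, if_true, Fin.succ_lt_succ_iff]

lemma sum_le_succ {k : ℕ} (a : Fin (k + 1) → ℕ) (i : Fin k) :
    ∑ j ∈ univ.filter (· ≤ i.succ), a j = a 0 + ∑ j ∈ univ.filter (· ≤ i), a j.succ := by
  rw [sum_filter, sum_filter, Fin.sum_univ_succ]
  simp only [Fin.zero_le, if_true, Fin.succ_le_succ_iff]

/-- The longest initial run within the budget `m`. -/
lemma run {C m : ℕ} {R : V → Finset V} : ∀ (l : List V) (P : Finset V) (x : V), Sys G C R l →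
    Conn G P → x ∈ P → (∀ y ∈ l.head?, G.Adj x y) → Disjoint P (U R l) → P.card ≤ m →
    ∃ (P' : Finset V) (l' : List V), Sys G C R l' ∧ Conn G P' ∧ Disjoint P' (U R l') ∧
      P' ∪ U R l' = P ∪ U R l ∧ P'.card ≤ m ∧ (∀ y ∈ l'.head?, m < P'.card + (R y).card) ∧
      ∃ c, P'.card = P.card + c ∧ ∀ t, Gd R l (c + t) → Gd R l' t := by
  intro l
  induction l with
  | nil =>
    intro P x hS hP _ _ hd hm
    exact ⟨P, [], hS, hP, hd, rfl, hm, by simp, 0, rfl, fun t ht => by rwa [Nat.zero_add] at ht⟩
  | cons y l ih =>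
    intro P x hS hP hx hadj hd hm
    by_cases hc : m < P.card + (R y).card
    · refine ⟨P, y :: l, hS, hP, hd, rfl, hm, ?_, 0, rfl,
        fun t ht => by rwa [Nat.zero_add] at ht⟩
      intro z hz
      have : y = z := by simpa using hz
      exact this ▸ hc
    · have hy := hS.2.1 y List.mem_cons_self
      have hxy : G.Adj x y := hadj y (by simp)
      rw [U_cons, disjoint_union_right] at hd
      have hc' : (P ∪ R y).card = P.card + (R y).card := card_union_of_disjoint hd.1
      have hcard : (P ∪ R y).card ≤ m := by omega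
      have hch : ∀ z ∈ l.head?, G.Adj y z := (List.isChain_cons.1 hS.1.2).1
      obtain ⟨P', l', h1, h2, h3, h4, h5, h6, c, h7, h8⟩ := ih (P ∪ R y) y hS.tail
        (conn_union hP hy.2.1 hx hy.1 hxy) (mem_union_right _ hy.1) hch
        (disjoint_union_left.2 ⟨hd.2, hS.disj⟩) hcard
      refine ⟨P', l', h1, h2, h3, by rw [h4, U_cons, union_assoc], h5, h6, (R y).card + c,
        by omega, fun t ht => h8 t (Gd.tail (x := y) ?_)⟩
      rwa [Nat.add_assoc] at ht

/-- One part is cut off. -/
lemma step {C d a : ℕ} {R : V → Finset V} {x : V} {l : List V} (hS : Sys G C R (x :: l))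
    (hd : d < (R x).card) (ha : 0 < a) :
    ∃ (P : Finset V) (l' : List V) (R' : V → Finset V) (d' : ℕ), Sys G C R' l' ∧ Conn G P ∧
      Disjoint P (U R' l') ∧ P ∪ U R' l' = U R (x :: l) ∧ d' + P.card = d + a ∧
      (∀ y ∈ l'.head?, d' < (R' y).card) ∧ P.card ≤ a + C ∧ (l' ≠ [] → a ≤ P.card + C) ∧
      ∀ t, Gd R (x :: l) (P.card + t) → Gd R' l' t := by
  have hx := hS.2.1 x List.mem_cons_self
  have hxl : x ∉ l := (List.nodup_cons.1 hS.1.1).1
  by_cases hc : d + a < (R x).card
  · have hne : ({x} : Finset V) ≠ R x := fun e => by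
      rw [← e, card_singleton] at hc
      omega
    obtain ⟨v, hv, hvx, hcon⟩ := hx.2.1.grow (Conn.single x) (singleton_subset_iff.2 hx.1) hne
    have hvx' : x ≠ v := fun e => hvx (e ▸ mem_singleton_self _)
    let R' : V → Finset V := fun y => (R y).erase v
    have hvl : ∀ y ∈ l, v ∉ R y := fun y hy h =>
      disjoint_left.1 hS.disj hv (mem_U.2 ⟨y, hy, h⟩)
    have hR' : ∀ y ∈ l, R' y = R y := fun y hy => erase_eq_of_notMem (hvl y hy)
    have hcard : (R' x).card + 1 = (R x).card := card_erase_add_one hv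
    refine ⟨{v}, x :: l, R', d + a - 1, ⟨hS.1, ?_, ?_⟩, Conn.single v, ?_, ?_, ?_, ?_, ?_, ?_, ?_⟩
    · intro y hy
      rcases List.mem_cons.1 hy with e | hy'
      · subst e
        exact ⟨mem_erase.2 ⟨hvx', hx.1⟩, hcon, by omega⟩
      · rw [hR' y hy']
        exact hS.2.1 y hy
    · intro y hy z hz hyz
      exact (hS.2.2 y hy z hz hyz).mono (erase_subset _ _) (erase_subset _ _)
    · rw [disjoint_singleton_left]
      intro h
      obtain ⟨y, _, hy⟩ := mem_U.1 h
      exact notMem_erase v _ hy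
    · ext w
      rw [mem_union, mem_singleton, mem_U, mem_U]
      constructor
      · rintro (e | ⟨y, hy, hw⟩)
        · exact ⟨x, List.mem_cons_self, e ▸ hv⟩
        · exact ⟨y, hy, mem_of_mem_erase hw⟩
      · rintro ⟨y, hy, hw⟩
        by_cases e : w = v
        · exact Or.inl e
        · exact Or.inr ⟨y, hy, mem_erase.2 ⟨e, hw⟩⟩
    · rw [card_singleton]
      omega
    · intro y hy
      have : x = y := by simpa using hy
      subst this
      omega
    · rw [card_singleton]
      omega
    · intro _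
      have := hx.2.2
      omega
    · intro t ht
      rw [card_singleton] at ht
      exact ht.erase hcard hR'
  · have hch : ∀ z ∈ l.head?, G.Adj x z := (List.isChain_cons.1 hS.1.2).1
    obtain ⟨P, l', h1, h2, h3, h4, h5, h6, c, h9, h10⟩ := run (m := d + a) l (R x) x hS.tail
      hx.2.1 hx.1 hch hS.disj (by omega)
    have hC := hx.2.2
    refine ⟨P, l', R, d + a - P.card, h1, h2, h3, by rw [h4, U_cons], by omega, ?_, by omega, ?_,
      ?_⟩
    · intro y hy
      have := h6 y hy
      omega
    · intro hne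
      obtain ⟨y, t, e⟩ := List.exists_cons_of_ne_nil hne
      subst e
      have h7 := h6 y (by simp)
      have h8 := (h1.2.1 y List.mem_cons_self).2.2
      omega
    · intro t ht
      refine h10 t (Gd.tail (x := x) ?_)
      rwa [h9, Nat.add_assoc] at ht

/-- All parts. -/
lemma parts {C : ℕ} : ∀ (k : ℕ) (a : Fin k → ℕ) (l : List V) (R : V → Finset V) (d : ℕ),
    (∀ i, 0 < a i) → Sys G C R l → (∀ y ∈ l.head?, d < (R y).card) →
    (U R l).card = d + ∑ i, a i →
    ∃ p : Fin k → Finset V,
      (∀ i, p i ⊆ U R l ∧ Conn G (p i) ∧ (p i).card ≤ a i + C ∧ a i ≤ (p i).card + C) ∧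
      (∀ i j, i ≠ j → Disjoint (p i) (p j)) ∧ ∑ i, (p i).card = (U R l).card ∧
      ∀ i, Gd R l (d + ∑ j ∈ univ.filter (· < i), a j) →
        Gd R l (d + ∑ j ∈ univ.filter (· ≤ i), a j) → (p i).card = a i := by
  intro k
  induction k with
  | zero =>
    intro a l R d _ _ hd hU
    refine ⟨fun i => i.elim0, fun i => i.elim0, fun i => i.elim0, ?_, fun i => i.elim0⟩
    cases l with
    | nil => simp [U_nil]
    | cons x l =>
      have h1 := hd x (by simp)
      have h2 : (R x).card ≤ (U R (x :: l)).card :=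
        card_le_card (by rw [U_cons]; exact subset_union_left)
      simp only [univ_eq_empty, sum_empty] at hU
      omega
  | succ k ih =>
    intro a l R d hpos hS hd hU
    rw [Fin.sum_univ_succ] at hU
    have h0 := hpos 0
    cases l with
    | nil =>
      rw [U_nil, card_empty] at hU
      omega
    | cons x l =>
      obtain ⟨P, l', R', d', h1, h2, h3, h4, h5, h6, h7, h8, h9⟩ := step hS (hd x (by simp)) h0
      have hc : P.card + (U R' l').card = (U R (x :: l)).card := by
        rw [← h4, card_union_of_disjoint h3]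
      obtain ⟨p, hp1, hp2, hp3, hp4⟩ := ih (fun i => a i.succ) l' R' d' (fun i => hpos _) h1 h6
        (by omega)
      refine ⟨Fin.cons P p, ?_, ?_, ?_, ?_⟩
      · refine Fin.cases ?_ fun i => ?_
        · simp only [Fin.cons_zero]
          refine ⟨h4 ▸ subset_union_left, h2, h7, ?_⟩
          by_cases e : l' = []
          · subst e
            rw [U_nil, card_empty] at hc
            omega
          · exact h8 e
        · simp only [Fin.cons_succ]
          exact ⟨h4 ▸ (hp1 i).1.trans subset_union_right, (hp1 i).2⟩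
      · refine Fin.cases ?_ fun i => ?_
        · refine Fin.cases (fun h => absurd rfl h) fun j _ => ?_
          simp only [Fin.cons_zero, Fin.cons_succ]
          exact h3.mono_right (hp1 j).1
        · refine Fin.cases (fun _ => ?_) fun j h => ?_
          · simp only [Fin.cons_zero, Fin.cons_succ]
            exact (h3.mono_right (hp1 i).1).symm
          · simp only [Fin.cons_succ]
            exact hp2 i j fun e => h (e ▸ rfl)
      · rw [Fin.sum_univ_succ]
        simp only [Fin.cons_zero, Fin.cons_succ]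
        omega
      · refine Fin.cases ?_ fun i => ?_
        · intro g1 g2
          rw [sum_lt_zero, Nat.add_zero] at g1
          rw [sum_le_zero, ← h5, Nat.add_comm] at g2
          have e1 := g1.zero hd
          have e2 := (h9 _ g2).zero h6
          simp only [Fin.cons_zero]
          omega
        · intro g1 g2
          rw [sum_lt_succ, ← Nat.add_assoc, ← h5, Nat.add_comm d', Nat.add_assoc] at g1
          rw [sum_le_succ, ← Nat.add_assoc, ← h5, Nat.add_comm d', Nat.add_assoc] at g2
          simp only [Fin.cons_succ]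
          exact hp4 i (h9 _ g1) (h9 _ g2)

end CutAux

/-- `s` is the total size of the sets of an initial segment of `l`. -/
def Good (l : List V) (root : V → V) (s : ℕ) : Prop :=
  ∃ j, s = ((l.take j).map fun x => (univ.filter fun v => root v = x).card).sum

theorem cut_path2 {l : List V} (hl : IsP G l) {C : ℕ} {root : V → V}
    (h : Fib G l.toFinset C root) {k : ℕ} (a : Fin k → ℕ) (hpos : ∀ i, 0 < a i)
    (hsum : ∑ i, a i = Fintype.card V) :
    ∃ b : Fin k → ℕ, (∀ i, b i ≤ a i + C ∧ a i ≤ b i + C) ∧ ∑ i, b i = Fintype.card V ∧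
      Pack G univ univ b ∧
      ∀ i, Good l root (∑ j ∈ univ.filter (· < i), a j) →
        Good l root (∑ j ∈ univ.filter (· ≤ i), a j) → b i = a i := by
  let R : V → Finset V := fun x => univ.filter fun v => root v = x
  have hmem : ∀ x ∈ l, x ∈ R x := fun x hx =>
    mem_filter.2 ⟨mem_univ _, h.fix x (List.mem_toFinset.2 hx)⟩
  have hS : CutAux.Sys G C R l := by
    refine ⟨hl, fun x hx => ⟨hmem x hx, h.conn x (List.mem_toFinset.2 hx), h.card x⟩, ?_⟩
    intro x _ y _ hxy
    rw [disjoint_left]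
    intro v h1 h2
    exact hxy ((mem_filter.1 h1).2.symm.trans (mem_filter.1 h2).2)
  have hU : CutAux.U R l = univ := by
    refine eq_univ_of_forall fun v => CutAux.mem_U.2 ⟨root v, List.mem_toFinset.1 (h.mem v), ?_⟩
    exact mem_filter.2 ⟨mem_univ _, rfl⟩
  obtain ⟨p, hp1, hp2, hp3, hp4⟩ := CutAux.parts k a l R 0 hpos hS
    (fun y hy => card_pos.2 ⟨y, hmem y (List.mem_of_mem_head? hy)⟩)
    (by rw [hU, card_univ, hsum, Nat.zero_add])
  refine ⟨fun i => (p i).card, fun i => (hp1 i).2.2, by rw [hp3, hU, card_univ], ⟨p, ?_, ?_⟩, ?_⟩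
  · exact fun i _ => ⟨subset_univ _, rfl, (hp1 i).2.1⟩
  · exact fun i _ j _ hij => hp2 i j hij
  · intro i g1 g2
    refine hp4 i ?_ ?_
    · rw [Nat.zero_add]
      exact g1
    · rw [Nat.zero_add]
      exact g2

/-- See the plan. -/
theorem cut_path {l : List V} (hl : IsP G l) {C : ℕ} {root : V → V}
    (h : Fib G l.toFinset C root) {k : ℕ} (a : Fin k → ℕ) (hpos : ∀ i, 0 < a i)
    (hsum : ∑ i, a i = Fintype.card V) :
    ∃ b : Fin k → ℕ, (∀ i, b i ≤ a i + C ∧ a i ≤ b i + C) ∧ ∑ i, b i = Fintype.card V ∧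
      Pack G univ univ b := by
  obtain ⟨b, h1, h2, h3, _⟩ := cut_path2 hl h a hpos hsum
  exact ⟨b, h1, h2, h3⟩

end Pool.Agent.Lib.MP_f20cd2_co.DP
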