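import Pool.Agent.Lib.MP_f20cd2_co.DP.Defs
import Pool.Agent.Lib.MP_f20cd2_co.PL.Hall

/-!
Four applications of the marriage theorem.
-/

set_option autoImplicit false
set_option linter.unusedSectionVars false

namespace Pool.Agent.Lib.MP_f20cd2_co.DP

open Finset
open Pool.Agent.Lib.MP_f20cd2_co.H83 (Conn Cells)
open Pool.Agent.Lib.MP_f20cd2_co.PL
open Pool.Agent.Lib.MP_f20cd2_co.HM (dg)
open scoped Classical

variable {ν ε : Type} [Fintype ν] [DecidableEq ν] [Fintype ε] [DecidableEq ε]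

namespace Hall2Aux

theorem hall {α β : Type} [Nonempty β] (U : Finset α) (P : Finset β) (cap : β → ℕ)
    (R : α → β → Prop) (h : ∀ X ⊆ U, ∀ N ⊆ P, (∀ p ∈ P, ∀ u ∈ X, R u p → p ∈ N) →
      X.card ≤ ∑ p ∈ N, cap p) :
    ∃ ψ : α → β, (∀ u ∈ U, ψ u ∈ P ∧ R u (ψ u)) ∧
      ∀ p, ∀ W ⊆ U, (∀ u ∈ W, ψ u = p) → W.card ≤ cap p := by
  obtain ⟨ψ, h1, h2⟩ := hall_cap U P cap R fun X hX =>
    h X hX _ (filter_subset _ _) fun p hp u hu r => by
      simp only [mem_filter]
      exact ⟨hp, u, hu, r⟩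
  refine ⟨ψ, h1, fun p W hW e => le_trans (card_le_card fun u hu => ?_) (h2 p)⟩
  simp only [mem_filter]
  exact ⟨hW hu, e u hu⟩

theorem hall_one {α β : Type} [Nonempty β] (U : Finset α) (P : Finset β)
    (R : α → β → Prop) (h : ∀ X ⊆ U, ∀ N ⊆ P, (∀ p ∈ P, ∀ u ∈ X, R u p → p ∈ N) →
      X.card ≤ N.card) :
    ∃ ψ : α → β, (∀ u ∈ U, ψ u ∈ P ∧ R u (ψ u)) ∧ ∀ u ∈ U, ∀ v ∈ U, ψ u = ψ v → u = v := by
  obtain ⟨ψ, h1, h2⟩ := hall U P (fun _ => 1) R fun X hX N hN k => by
    rw [← card_eq_sum_ones]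
    exact h X hX N hN k
  refine ⟨ψ, h1, fun u hu v hv e => ?_⟩
  refine card_le_one.1 (h2 (ψ v) {u, v} (fun x hx => ?_) fun x hx => ?_) u (by simp) v (by simp)
  · rcases mem_insert.1 hx with rfl | hx
    · exact hu
    · exact mem_singleton.1 hx ▸ hv
  · rcases mem_insert.1 hx with rfl | hx
    · exact e
    · rw [mem_singleton.1 hx]

theorem side {ι α : Type} [DecidableEq α] [Nonempty ι] (I : Finset ι) (f g : ι → α)
    (A B : Finset α) (hc : ∀ σ ∈ I, f σ ∈ A ∨ g σ ∈ B)
    (hm : ∀ A' B' : Finset α, (∀ σ ∈ I, f σ ∈ A' ∨ g σ ∈ B') →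
      A.card + B.card ≤ A'.card + B'.card) :
    ∃ e : α → ι, (∀ c ∈ A, e c ∈ I ∧ f (e c) = c ∧ g (e c) ∉ B) ∧
      ∀ c ∈ A, ∀ c' ∈ A, g (e c) = g (e c') → c = c' := by
  have : Nonempty α := ⟨f (Classical.arbitrary ι)⟩
  obtain ⟨ψ, h1, h2⟩ := hall_one A (I.image g)
    (fun c a => ∃ σ ∈ I, f σ = c ∧ g σ = a ∧ a ∉ B) (by
      intro X hX N _ hN
      have e1 := hm (A \ X) (B ∪ N) fun σ hσ => by
        by_cases hb : g σ ∈ B
        · exact Or.inr (mem_union_left _ hb)
        by_cases hx : f σ ∈ X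
        · exact Or.inr (mem_union_right _
            (hN _ (mem_image_of_mem _ hσ) _ hx ⟨σ, hσ, rfl, rfl, hb⟩))
        · exact Or.inl (mem_sdiff.2 ⟨(hc σ hσ).resolve_right hb, hx⟩)
      have e2 := card_sdiff_add_card_eq_card hX
      have e3 := card_union_le B N
      omega)
  have key : ∀ c, ∃ σ, c ∈ A → σ ∈ I ∧ f σ = c ∧ g σ = ψ c ∧ ψ c ∉ B := by
    intro c
    by_cases h : c ∈ A
    · obtain ⟨σ, hσ⟩ := (h1 c h).2
      exact ⟨σ, fun _ => hσ⟩
    · exact ⟨Classical.arbitrary ι, fun h' => absurd h' h⟩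
  choose e he using key
  refine ⟨e, fun c h => ⟨(he c h).1, (he c h).2.1, (he c h).2.2.1 ▸ (he c h).2.2.2⟩,
    fun c h c' h' k => ?_⟩
  rw [(he c h).2.2.1, (he c' h').2.2.1] at k
  exact h2 c h c' h' k

end Hall2Aux

/-- `hall_cap` on the hyperedges with at least two nodes, capacity `(n y + 1) / 2` where `n y`
counts those that contain `y` (double counting); the others take their only node. -/
theorem half [Nonempty ν] (U : Finset ε) (s : ε → Finset ν) (hs : ∀ h ∈ U, (s h).Nonempty) :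
    ∃ dir : ε → ν, (∀ h ∈ U, dir h ∈ s h) ∧ ∀ y, 2 * (U.filter fun h => dir h = y).card ≤
      2 * (U.filter fun h => s h = {y}).card +
        (U.filter fun h => y ∈ s h ∧ 2 ≤ (s h).card).card + 1 := by
  obtain ⟨ψ, h1, h2⟩ := Hall2Aux.hall U (univ : Finset ν)
    (fun y => (U.filter fun h => s h = {y}).card +
      ((U.filter fun h => y ∈ s h ∧ 2 ≤ (s h).card).card + 1) / 2)
    (fun h y => y ∈ s h) (by
      intro X hX N _ hN
      refine Nat.le_of_mul_le_mul_left ?_ (show 0 < 2 by norm_num)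
      have e1 : ∀ h ∈ X, 2 ≤ ∑ y ∈ N,
          ((if s h = {y} then 2 else 0) + (if y ∈ s h ∧ 2 ≤ (s h).card then 1 else 0)) := by
        intro h hh
        have hsub : s h ⊆ N := fun y hy => hN y (mem_univ _) h hh hy
        refine le_trans ?_ (sum_le_sum_of_subset hsub)
        by_cases c : 2 ≤ (s h).card
        · refine c.trans ((card_eq_sum_ones _).le.trans (sum_le_sum fun y hy => ?_))
          rw [if_pos (show y ∈ s h ∧ 2 ≤ (s h).card from ⟨hy, c⟩)]
          omega
        · have c1 : (s h).card = 1 := by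
            have := card_pos.2 (hs h (hX hh))
            omega
          obtain ⟨y, hy⟩ := card_eq_one.1 c1
          rw [hy, sum_singleton, if_pos rfl]
          omega
      have e2 := sum_le_sum e1
      rw [sum_const, smul_eq_mul, mul_comm, sum_comm] at e2
      refine e2.trans ?_
      rw [mul_sum]
      refine sum_le_sum fun y _ => (sum_le_sum_of_subset hX).trans ?_
      rw [sum_add_distrib, ← sum_filter, ← sum_filter, sum_const, sum_const, smul_eq_mul,
        smul_eq_mul]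
      omega)
  refine ⟨ψ, fun h hh => (h1 h hh).2, fun y => ?_⟩
  have h3 := h2 y (U.filter fun h => ψ h = y) (filter_subset _ _) fun h hh => (mem_filter.1 hh).2
  omega

/-- Hall from the pairs `(y, i)` with `i < n y / Δ` into `U`, where `n y` counts the members of `U`
that contain `y`. -/
theorem share (Δ : ℕ) (hΔ : 0 < Δ) (U : Finset ε) (s : ε → Finset ν)
    (hs : ∀ h ∈ U, (s h).card ≤ Δ) :
    ∃ ow : ε → Option ν, (∀ h y, ow h = some y → h ∈ U ∧ y ∈ s h) ∧
      ∀ y, (U.filter fun h => y ∈ s h).card <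
        Δ * ((U.filter fun h => ow h = some y).card + 1) := by
  rcases isEmpty_or_nonempty ε with hε | hε
  · refine ⟨fun _ => none, fun h => (IsEmpty.false h).elim, fun y => ?_⟩
    have : U = ∅ := eq_empty_of_forall_notMem fun h => (IsEmpty.false h).elim
    subst this
    simpa using hΔ
  obtain ⟨ψ, h1, inj⟩ := Hall2Aux.hall_one (α := (_ : ν) × ℕ)
    ((univ : Finset ν).sigma fun y => range ((U.filter fun h => y ∈ s h).card / Δ)) U
    (fun p h => p.1 ∈ s h) (by
      intro X hX N hU hN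
      refine Nat.le_of_mul_le_mul_left ?_ hΔ
      have e1 : X ⊆ (X.image Sigma.fst).sigma
          fun y => range ((U.filter fun h => y ∈ s h).card / Δ) := fun p hp =>
        mem_sigma.2 ⟨mem_image_of_mem _ hp, (mem_sigma.1 (hX hp)).2⟩
      have e2 := card_le_card e1
      rw [card_sigma] at e2
      refine (Nat.mul_le_mul_left Δ e2).trans ?_
      rw [mul_sum]
      have e3 : ∀ y ∈ X.image Sigma.fst,
          Δ * (range ((U.filter fun h => y ∈ s h).card / Δ)).card ≤
            ∑ h ∈ N, if y ∈ s h then 1 else 0 := by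
        intro y hy
        obtain ⟨p, hp, rfl⟩ := mem_image.1 hy
        rw [card_range, ← card_filter]
        refine (Nat.mul_div_le _ _).trans (card_le_card fun h hh => ?_)
        exact mem_filter.2 ⟨hN h (mem_filter.1 hh).1 p hp (mem_filter.1 hh).2,
          (mem_filter.1 hh).2⟩
      refine (sum_le_sum e3).trans ?_
      rw [sum_comm, mul_comm, ← smul_eq_mul]
      refine sum_le_card_nsmul _ _ _ fun h hh => ?_
      rw [← card_filter]
      exact (card_le_card fun y hy => (mem_filter.1 hy).2).trans (hs h (hU hh)))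
  set Q := (univ : Finset ν).sigma fun y => range ((U.filter fun h => y ∈ s h).card / Δ) with hQ
  have key : ∀ h, ∃ o : Option ν, (∀ y, o = some y → h ∈ U ∧ y ∈ s h) ∧
      ∀ p ∈ Q, ψ p = h → o = some p.1 := by
    intro h
    by_cases c : ∃ p ∈ Q, ψ p = h
    · obtain ⟨p, hp, rfl⟩ := c
      refine ⟨some p.1, fun y hy => ?_, fun q hq e => by rw [inj q hq p hp e]⟩
      obtain rfl := Option.some.inj hy
      exact h1 p hp
    · exact ⟨none, fun y hy => by simp at hy, fun p hp e => absurd ⟨p, hp, e⟩ c⟩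
  choose ow k1 k2 using key
  refine ⟨ow, k1, fun y => (Nat.lt_mul_div_succ _ hΔ).trans_le (Nat.mul_le_mul_left _ ?_)⟩
  refine Nat.add_le_add_right ?_ 1
  rw [← card_range ((U.filter fun h => y ∈ s h).card / Δ)]
  have mem : ∀ i ∈ range ((U.filter fun h => y ∈ s h).card / Δ),
      (⟨y, i⟩ : (_ : ν) × ℕ) ∈ Q := fun i hi => mem_sigma.2 ⟨mem_univ _, hi⟩
  refine card_le_card_of_injOn (fun i => ψ ⟨y, i⟩) (fun i hi => ?_) fun i hi j hj e => ?_
  · exact mem_coe.2 (mem_filter.2 ⟨(h1 _ (mem i hi)).1, k2 _ _ (mem i hi) rfl⟩)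
  · simpa using inj _ (mem i hi) _ (mem j hj) e

/-- A bipartite multigraph with edges `I` and ends `f false σ`, `f true σ`.  Take a cover
`C false`, `C true` of least size; by minimality and Hall each `C b` is matched into the
complement of `C (!b)`.  `I'` is the set of matching edges, `b σ` the side of the covered end. -/
theorem konig {ι α : Type} [DecidableEq ι] [DecidableEq α] (I : Finset ι) (f : Bool → ι → α) :
    ∃ I' ⊆ I, ∃ b : ι → Bool,
      (∀ σ ∈ I', ∀ σ' ∈ I', ∀ c, f c σ = f c σ' → σ = σ') ∧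
        ∀ σ ∈ I, ∃ σ' ∈ I', f (b σ') σ = f (b σ') σ' := by
  rcases I.eq_empty_or_nonempty with rfl | ⟨σ0, -⟩
  · exact ⟨∅, Subset.rfl, fun _ => false, by simp, by simp⟩
  have : Nonempty ι := ⟨σ0⟩
  have ex : ∃ n, ∃ A B : Finset α, (∀ σ ∈ I, f false σ ∈ A ∨ f true σ ∈ B) ∧
      A.card + B.card = n :=
    ⟨_, I.image (f false), ∅, fun σ hσ => Or.inl (mem_image_of_mem _ hσ), rfl⟩
  obtain ⟨A, B, hc, hn⟩ := Nat.find_spec ex
  have hm : ∀ A' B' : Finset α, (∀ σ ∈ I, f false σ ∈ A' ∨ f true σ ∈ B') →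
      A.card + B.card ≤ A'.card + B'.card := fun A' B' h =>
    hn ▸ Nat.find_min' ex ⟨A', B', h, rfl⟩
  obtain ⟨e0, a1, a2⟩ := Hall2Aux.side I (f false) (f true) A B hc hm
  obtain ⟨e1, b1, b2⟩ := Hall2Aux.side I (f true) (f false) B A (fun σ hσ => (hc σ hσ).symm)
    fun B' A' h => by
      have := hm A' B' fun σ hσ => (h σ hσ).symm
      omega
  have mA : ∀ x ∈ A, f false (e0 x) ∈ A := fun x hx => by rw [(a1 x hx).2.1]; exact hx
  have mB : ∀ x ∈ B, f true (e1 x) ∈ B := fun x hx => by rw [(b1 x hx).2.1]; exact hx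
  refine ⟨A.image e0 ∪ B.image e1, fun σ hσ => ?_, fun σ => if f true σ ∈ B then true else false,
    fun σ hσ σ' hσ' c e => ?_, fun σ hσ => ?_⟩
  · rcases mem_union.1 hσ with h | h <;> obtain ⟨c, hx, rfl⟩ := mem_image.1 h
    · exact (a1 c hx).1
    · exact (b1 c hx).1
  · rcases mem_union.1 hσ with h | h <;> obtain ⟨x, hx, rfl⟩ := mem_image.1 h <;>
      rcases mem_union.1 hσ' with h' | h' <;> obtain ⟨y, hy, rfl⟩ := mem_image.1 h' <;> cases c
    · rw [(a1 x hx).2.1, (a1 y hy).2.1] at e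
      rw [e]
    · rw [a2 x hx y hy e]
    · exact absurd (e ▸ mA x hx) (b1 y hy).2.2
    · exact absurd (e ▸ mB y hy) (a1 x hx).2.2
    · exact absurd (e ▸ mA y hy) (b1 x hx).2.2
    · exact absurd (e ▸ mB x hx) (a1 y hy).2.2
    · rw [b2 x hx y hy e]
    · rw [(b1 x hx).2.1, (b1 y hy).2.1] at e
      rw [e]
  · rcases hc σ hσ with h | h
    · refine ⟨e0 (f false σ), mem_union_left _ (mem_image_of_mem _ h), ?_⟩
      simp only [if_neg (a1 _ h).2.2]
      exact (a1 _ h).2.1.symm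
    · refine ⟨e1 (f true σ), mem_union_right _ (mem_image_of_mem _ h), ?_⟩
      simp only [if_pos (mB _ h)]
      exact (b1 _ h).2.1.symm

/-- Distinct representatives when every set is at least as large as the family. -/
theorem sdr {α β : Type} [DecidableEq α] [DecidableEq β] [Nonempty β] (S : Finset α)
    (A : α → Finset β) (h : ∀ p ∈ S, S.card ≤ (A p).card) :
    ∃ g : α → β, (∀ p ∈ S, g p ∈ A p) ∧ ∀ p ∈ S, ∀ q ∈ S, g p = g q → p = q := by
  obtain ⟨ψ, h1, h2⟩ := Hall2Aux.hall_one S (S.biUnion A) (fun p b => b ∈ A p) (by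
    intro X hX N _ hN
    rcases X.eq_empty_or_nonempty with rfl | ⟨p, hp⟩
    · simp
    exact (card_le_card hX).trans ((h p (hX hp)).trans (card_le_card fun b hb =>
      hN b (mem_biUnion.2 ⟨p, hX hp, hb⟩) p hp hb)))
  exact ⟨ψ, fun p hp => (h1 p hp).2, h2⟩

end Pool.Agent.Lib.MP_f20cd2_co.DP
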