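import Pool.Agent.Lib.MP_f20cd2_co.DP.Path

/-!
Joining two units.
-/

set_option autoImplicit false
set_option linter.unusedSectionVars false

namespace Pool.Agent.Lib.MP_f20cd2_co.DP

open Finset
open Pool.Agent.Lib.MP_f20cd2_co.H83 (Conn Cells)
open Pool.Agent.Lib.MP_f20cd2_co.PL
open Pool.Agent.Lib.MP_f20cd2_co.HM (dg)
open scoped Classical

variable {V : Type} [Fintype V] [DecidableEq V] {G : SimpleGraph V}

namespace MergeAux

lemma st_zero {Y S : Finset V} {Z : SimpleGraph V} (h : St G Y S Z) {v : V} (hv : v ∉ Y) :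
    dg Z v = 0 :=
  HM.dg_eq_zero.2 fun w hw => hv (h.mem v w hw)

lemma st_sub {Y S : Finset V} {Z : SimpleGraph V} (h : St G Y S Z) : S ⊆ Y := by
  intro v hv
  by_contra h1
  have h2 := h.one v hv
  rw [st_zero h h1] at h2
  omega

lemma glue {Y Y' Y₀ S S' S₀ : Finset V} {Z Z' : SimpleGraph V} {a : V} (h : St G Y S Z)
    (h' : St G Y' S' Z') (ha : a ∈ S) (ha' : a ∈ S') (hi : ∀ v ∈ Y, v ∈ Y' → v = a)
    (hY : ∀ v, v ∈ Y ∨ v ∈ Y' → v ∈ Y₀) (hS : ∀ v, v ∈ S₀ ↔ v ≠ a ∧ (v ∈ S ∨ v ∈ S')) :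
    St G Y₀ S₀ (Z ⊔ Z') := by
  have hd : Disjoint Z Z' := HM.disj_iff.2 fun u v h1 h2 => by
    have e1 := hi u (h.mem u v h1) (h'.mem u v h2)
    have e2 := hi v (h.mem v u h1.symm) (h'.mem v u h2.symm)
    exact h1.ne (e1.trans e2.symm)
  refine ⟨sup_le h.le h'.le, fun u v huv => ?_, fun v hv => ?_, fun v hv => ?_⟩
  · rcases huv with h1 | h1
    · exact hY u (Or.inl (h.mem u v h1))
    · exact hY u (Or.inr (h'.mem u v h1))
  · rw [HM.dg_sup hd]
    obtain ⟨h1, h2 | h2⟩ := (hS v).1 hv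
    · rw [h.one v h2, st_zero h' fun h3 => h1 (hi v (st_sub h h2) h3)]
    · rw [h'.one v h2, st_zero h fun h3 => h1 (hi v h3 (st_sub h' h2))]
  · rw [HM.dg_sup hd]
    by_cases h1 : v = a
    · subst h1
      rw [h.one v ha, h'.one v ha']
      exact Or.inr rfl
    · have h2 : v ∉ S := fun h3 => hv ((hS v).2 ⟨h1, Or.inl h3⟩)
      have h3 : v ∉ S' := fun h3 => hv ((hS v).2 ⟨h1, Or.inr h3⟩)
      by_cases h4 : v ∈ Y
      · rw [st_zero h' fun h5 => h1 (hi v h4 h5), add_zero]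
        exact h.two v h2
      · rw [st_zero h h4, zero_add]
        exact h'.two v h3

lemma pair_reach {Y : Finset V} {Z : SimpleGraph V} {a b : V} (h : St G Y {a, b} Z) :
    Z.Reachable a b := by
  obtain ⟨w, h1, h2, h3⟩ := HM.parity (H := Z) (v := a) (by
    rw [h.one a (mem_insert_self _ _)]; exact odd_one)
  by_cases h4 : w ∈ ({a, b} : Finset V)
  · rcases mem_insert.1 h4 with h5 | h5
    · exact absurd h5 h1
    · rw [← mem_singleton.1 h5]; exact h2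
  · rcases h.two w h4 with h5 | h5 <;> rw [h5] at h3 <;> exact absurd h3 (by decide)

lemma four {e f p q : V} (h : ({e, f, p, q} : Finset V).card = 4) :
    e ≠ f ∧ e ≠ p ∧ e ≠ q ∧ f ≠ p ∧ f ≠ q ∧ p ≠ q := by
  have key : ∀ a b c : V, ¬ ({e, f, p, q} : Finset V) ⊆ {a, b, c} := fun a b c h1 => by
    have h2 := (card_le_card h1).trans (card_le_three (a := a) (b := b) (c := c))
    omega
  refine ⟨fun h1 => key f p q ?_, fun h1 => key f p q ?_, fun h1 => key f p q ?_,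
    fun h1 => key e p q ?_, fun h1 => key e p q ?_, fun h1 => key e f q ?_⟩ <;>
  · subst h1
    intro x hx
    simp only [mem_insert, mem_singleton] at hx ⊢
    tauto

end MergeAux

open MergeAux

/-- The unit `B` becomes a path that hangs at the port `e` of `A`. -/
def Un.join (A B : Un V) (W : Finset V) (X : SimpleGraph V) : Un V where
  Y := A.Y ∪ B.Y ∪ W
  Pay := A.Pay ∪ B.Full
  Full := A.Full ∪ B.Full
  e := B.f
  f := A.f
  p := A.p
  q := A.q
  P := A.P ⊔ (X ⊔ B.R)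
  Q := A.Q ⊔ (X ⊔ B.R)
  R := A.R ⊔ (X ⊔ B.R)

/-- `X ⊔ B.R` has degree one exactly at `A.e` and `B.f`, which it joins (`HM.parity`), and it
meets `A.Y` only in `A.e`. -/
theorem Un.join_ok {A B : Un V} (hA : A.Ok G) (hB : B.Ok G) (hd : Disjoint A.Y B.Y) {W : Finset V}
    {X : SimpleGraph V} (hX : St G W {A.e, B.e} X) (h1 : ∀ v ∈ W, v ∈ A.Y → v = A.e)
    (h2 : ∀ v ∈ W, v ∈ B.Y → v = B.e) : (A.join B W X).Ok G := by
  obtain ⟨a1, a2, a3, a4, a5, a6⟩ := four hA.card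
  obtain ⟨b1, -⟩ := four hB.card
  have hne : ∀ u ∈ A.S, ∀ v ∈ B.S, u ≠ v := fun u hu v hv e =>
    disjoint_left.1 hd (hA.sub hu) (e ▸ hB.sub hv)
  have mAe : A.e ∈ A.S := by simp [Un.S]
  have mAf : A.f ∈ A.S := by simp [Un.S]
  have mAp : A.p ∈ A.S := by simp [Un.S]
  have mAq : A.q ∈ A.S := by simp [Un.S]
  have mBe : B.e ∈ B.S := by simp [Un.S]
  have mBf : B.f ∈ B.S := by simp [Un.S]
  have c1 := hne _ mAe _ mBe
  have c2 := hne _ mAe _ mBf
  have c3 := hne _ mAf _ mBf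
  have c4 := hne _ mAp _ mBf
  have c5 := hne _ mAq _ mBf
  have hM : St G (W ∪ B.Y) {A.e, B.f} (X ⊔ B.R) :=
    glue hX hB.sR (a := B.e) (by simp) (by simp) h2 (fun v hv => mem_union.2 hv) fun v => by
      simp only [mem_insert, mem_singleton]
      constructor
      · rintro (rfl | rfl)
        · exact ⟨c1, Or.inl (Or.inl rfl)⟩
        · exact ⟨b1.symm, Or.inr (Or.inr rfl)⟩
      · tauto
  have hi : ∀ v ∈ A.Y, v ∈ W ∪ B.Y → v = A.e := fun v hv hv' => by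
    rcases mem_union.1 hv' with h3 | h3
    · exact h1 v h3 hv
    · exact absurd h3 (disjoint_left.1 hd hv)
  have hY : ∀ v, v ∈ A.Y ∨ v ∈ W ∪ B.Y → v ∈ A.Y ∪ B.Y ∪ W := fun v hv => by
    simp only [mem_union] at hv ⊢
    tauto
  have hS : ∀ v, v ∈ ({B.f, A.f, A.p, A.q} : Finset V) ↔
      v ≠ A.e ∧ (v ∈ A.S ∨ v ∈ ({A.e, B.f} : Finset V)) := fun v => by
    simp only [Un.S, mem_insert, mem_singleton]
    constructor
    · rintro (rfl | rfl | rfl | rfl)
      · exact ⟨c2.symm, Or.inr (Or.inr rfl)⟩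
      · exact ⟨a1.symm, by tauto⟩
      · exact ⟨a2.symm, by tauto⟩
      · exact ⟨a3.symm, by tauto⟩
    · tauto
  have hP : St G (A.Y ∪ B.Y ∪ W) {B.f, A.f, A.p, A.q} (A.P ⊔ (X ⊔ B.R)) :=
    glue hA.sP hM mAe (by simp) hi hY hS
  have hQ : St G (A.Y ∪ B.Y ∪ W) {B.f, A.f, A.p, A.q} (A.Q ⊔ (X ⊔ B.R)) :=
    glue hA.sQ hM mAe (by simp) hi hY hS
  have hR : St G (A.Y ∪ B.Y ∪ W) {B.f, A.f} (A.R ⊔ (X ⊔ B.R)) :=
    glue hA.sR hM (a := A.e) (by simp) (by simp) hi hY fun v => by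
      simp only [mem_insert, mem_singleton]
      constructor
      · rintro (rfl | rfl)
        · exact ⟨c2.symm, Or.inr (Or.inr rfl)⟩
        · exact ⟨a1.symm, Or.inl (Or.inr rfl)⟩
      · tauto
  have r1 : ∀ Z : SimpleGraph V, (Z ⊔ (X ⊔ B.R)).Reachable A.e B.f := fun Z =>
    (pair_reach hM).mono le_sup_right
  have r2 : ∀ Z : SimpleGraph V, ∀ v ∈ B.Full, (Z ⊔ (X ⊔ B.R)).Reachable v B.f := fun Z v hv =>
    ((hB.full v hv).trans (pair_reach hB.sR)).mono (le_sup_right.trans le_sup_right)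
  have r3 : ∀ Z : SimpleGraph V, ∀ v, (∃ a ∈ A.S, Z.Reachable v a) →
      ∃ a ∈ ({B.f, A.f, A.p, A.q} : Finset V), (Z ⊔ (X ⊔ B.R)).Reachable v a := by
    rintro Z v ⟨a, ha, hr⟩
    by_cases h3 : a = A.e
    · subst h3
      exact ⟨B.f, by simp, (hr.mono le_sup_left).trans (r1 Z)⟩
    · exact ⟨a, (hS a).2 ⟨h3, Or.inl ha⟩, hr.mono le_sup_left⟩
  refine ⟨?_, st_sub hP, hP, hQ, hR,
    ⟨(r1 _).symm.trans (hA.rP.1.mono le_sup_left), hA.rP.2.mono le_sup_left⟩,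
    ⟨hA.rQ.1.mono le_sup_left, (r1 _).symm.trans (hA.rQ.2.mono le_sup_left)⟩,
    fun v hv => ?_, fun v hv => ?_⟩
  · show ({B.f, A.f, A.p, A.q} : Finset V).card = 4
    rw [card_insert_of_notMem, card_insert_of_notMem, card_pair a6]
    · simp only [mem_insert, mem_singleton, not_or]
      exact ⟨a4, a5⟩
    · simp only [mem_insert, mem_singleton, not_or]
      exact ⟨c3.symm, c4.symm, c5.symm⟩
  · rcases mem_union.1 hv with h3 | h3
    · exact ⟨r3 _ v (hA.pay v h3).1, r3 _ v (hA.pay v h3).2⟩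
    · exact ⟨⟨B.f, mem_insert_self _ _, r2 _ v h3⟩, ⟨B.f, mem_insert_self _ _, r2 _ v h3⟩⟩
  · rcases mem_union.1 hv with h3 | h3
    · exact ((hA.full v h3).mono le_sup_left).trans (r1 _)
    · exact r2 _ v h3

theorem Un.join_loss (A B : Un V) (W : Finset V) (X : SimpleGraph V) :
    (A.join B W X).loss ≤ A.loss := by
  refine card_le_card fun v hv => ?_
  simp only [Un.join, mem_sdiff, mem_union] at hv ⊢
  tauto

theorem st_edge {u v : V} (h : G.Adj u v) : St G {u, v} {u, v} (SimpleGraph.edge u v) := by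
  have hne := h.ne
  refine ⟨HM.edge_le h, fun x y hxy => ?_, fun x hx => ?_, fun x hx => ?_⟩
  · rw [SimpleGraph.edge_adj] at hxy
    rcases hxy.1 with ⟨rfl, -⟩ | ⟨rfl, -⟩ <;> simp
  · rw [HM.dg_edge hne]
    rcases mem_insert.1 hx with h1 | h1
    · rw [if_pos h1, if_neg (h1 ▸ hne)]
    · rw [mem_singleton] at h1
      rw [if_neg (h1 ▸ hne.symm), if_pos h1]
  · rw [mem_insert, mem_singleton, not_or] at hx
    rw [HM.dg_edge hne, if_neg hx.1, if_neg hx.2]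
    exact Or.inl rfl

/-- The component of `t` in a system of paths. -/
theorem st_res {J : SimpleGraph V} {R T : Finset V} (h : PS G J R T) {t t' : V} (ht : t ∈ T)
    (ht' : t' ∈ T) (hr : J.Reachable t t') (hu : ∀ x ∈ T, J.Reachable t x → x = t ∨ x = t') :
    St G (rf J univ t) {t, t'} (res J t) ∧ ∀ v ∈ rf J univ t, v = t ∨ v = t' ∨ v ∈ R := by
  have d1 : ∀ v, J.Reachable t v → dg (res J t) v = dg J v := fun v hv => by
    unfold dg
    congr 1
    ext w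
    simp [res_adj, hv]
  have d2 : ∀ v, ¬ J.Reachable t v → dg (res J t) v = 0 := fun v hv =>
    HM.dg_eq_zero.2 fun w hw => hv hw.2
  refine ⟨⟨fun u v huv => h.le huv.1, fun u v huv => mem_rf.2 ⟨mem_univ _, huv.2⟩,
    fun v hv => ?_, fun v hv => ?_⟩, fun v hv => ?_⟩
  · rcases mem_insert.1 hv with h1 | h1
    · rw [h1, d1 t (SimpleGraph.Reachable.refl t), h.one t ht]
    · rw [mem_singleton.1 h1, d1 t' hr, h.one t' ht']
  · rw [mem_insert, mem_singleton] at hv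
    by_cases h1 : J.Reachable t v
    · rw [d1 v h1]
      exact (h.two v fun h2 => hv (hu v h2 h1)).imp id fun h2 => h2.2
    · exact Or.inl (d2 v h1)
  · have h1 := (mem_rf.1 hv).2
    by_cases h2 : v ∈ T
    · exact (hu v h2 h1).imp id Or.inl
    · rcases h.two v h2 with h3 | h3
      · have h4 := HM.reach_ind (p := fun x => x = t ∨ 0 < dg J x)
          (fun a b hab _ => Or.inr (HM.dg_pos hab.symm)) h1 (Or.inl rfl)
        rcases h4 with h4 | h4
        · exact Or.inl h4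
        · omega
      · exact Or.inr (Or.inr h3.1)

/-- A path that hangs at the port `e`. -/
def Un.hang (A : Un V) (W Z : Finset V) (X : SimpleGraph V) (v : V) : Un V where
  Y := A.Y ∪ W
  Pay := A.Pay ∪ Z
  Full := A.Full ∪ Z
  e := v
  f := A.f
  p := A.p
  q := A.q
  P := A.P ⊔ X
  Q := A.Q ⊔ X
  R := A.R ⊔ X

theorem Un.hang_ok {A : Un V} (hA : A.Ok G) {W Z : Finset V} {X : SimpleGraph V} {v : V}
    (hv : v ≠ A.e) (hX : St G W {A.e, v} X) (h1 : ∀ w ∈ W, w ∈ A.Y → w = A.e)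
    (hZ : ∀ z ∈ Z, X.Reachable z v) : (A.hang W Z X v).Ok G := by
  obtain ⟨a1, a2, a3, a4, a5, a6⟩ := four hA.card
  have hvW : v ∈ W := st_sub hX (by simp)
  have hne : ∀ u ∈ A.S, v ≠ u := fun u hu e => hv (h1 v hvW (e ▸ hA.sub hu))
  have mAe : A.e ∈ A.S := by simp [Un.S]
  have c3 := hne A.f (by simp [Un.S])
  have c4 := hne A.p (by simp [Un.S])
  have c5 := hne A.q (by simp [Un.S])
  have hi : ∀ w ∈ A.Y, w ∈ W → w = A.e := fun w hw hw' => h1 w hw' hw
  have hY : ∀ w, w ∈ A.Y ∨ w ∈ W → w ∈ A.Y ∪ W := fun w hw => mem_union.2 hw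
  have hS : ∀ w, w ∈ ({v, A.f, A.p, A.q} : Finset V) ↔
      w ≠ A.e ∧ (w ∈ A.S ∨ w ∈ ({A.e, v} : Finset V)) := fun w => by
    simp only [Un.S, mem_insert, mem_singleton]
    constructor
    · rintro (rfl | rfl | rfl | rfl)
      · exact ⟨hv, Or.inr (Or.inr rfl)⟩
      · exact ⟨a1.symm, by tauto⟩
      · exact ⟨a2.symm, by tauto⟩
      · exact ⟨a3.symm, by tauto⟩
    · tauto
  have hP : St G (A.Y ∪ W) {v, A.f, A.p, A.q} (A.P ⊔ X) := glue hA.sP hX mAe (by simp) hi hY hS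
  have hQ : St G (A.Y ∪ W) {v, A.f, A.p, A.q} (A.Q ⊔ X) := glue hA.sQ hX mAe (by simp) hi hY hS
  have hR : St G (A.Y ∪ W) {v, A.f} (A.R ⊔ X) :=
    glue hA.sR hX (a := A.e) (by simp) (by simp) hi hY fun w => by
      simp only [mem_insert, mem_singleton]
      constructor
      · rintro (rfl | rfl)
        · exact ⟨hv, Or.inr (Or.inr rfl)⟩
        · exact ⟨a1.symm, Or.inl (Or.inr rfl)⟩
      · tauto
  have r1 : ∀ F : SimpleGraph V, (F ⊔ X).Reachable A.e v := fun F =>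
    (pair_reach hX).mono le_sup_right
  have r2 : ∀ F : SimpleGraph V, ∀ z ∈ Z, (F ⊔ X).Reachable z v := fun F z hz =>
    (hZ z hz).mono le_sup_right
  have r3 : ∀ F : SimpleGraph V, ∀ w, (∃ a ∈ A.S, F.Reachable w a) →
      ∃ a ∈ ({v, A.f, A.p, A.q} : Finset V), (F ⊔ X).Reachable w a := by
    rintro F w ⟨a, ha, hr⟩
    by_cases h3 : a = A.e
    · subst h3
      exact ⟨v, by simp, (hr.mono le_sup_left).trans (r1 F)⟩
    · exact ⟨a, (hS a).2 ⟨h3, Or.inl ha⟩, hr.mono le_sup_left⟩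
  refine ⟨?_, st_sub hP, hP, hQ, hR,
    ⟨(r1 _).symm.trans (hA.rP.1.mono le_sup_left), hA.rP.2.mono le_sup_left⟩,
    ⟨hA.rQ.1.mono le_sup_left, (r1 _).symm.trans (hA.rQ.2.mono le_sup_left)⟩,
    fun w hw => ?_, fun w hw => ?_⟩
  · show ({v, A.f, A.p, A.q} : Finset V).card = 4
    rw [card_insert_of_notMem, card_insert_of_notMem, card_pair a6]
    · simp only [mem_insert, mem_singleton, not_or]
      exact ⟨a4, a5⟩
    · simp only [mem_insert, mem_singleton, not_or]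
      exact ⟨c3, c4, c5⟩
  · rcases mem_union.1 hw with h3 | h3
    · exact ⟨r3 _ w (hA.pay w h3).1, r3 _ w (hA.pay w h3).2⟩
    · exact ⟨⟨v, mem_insert_self _ _, r2 _ w h3⟩, ⟨v, mem_insert_self _ _, r2 _ w h3⟩⟩
  · rcases mem_union.1 hw with h3 | h3
    · exact ((hA.full w h3).mono le_sup_left).trans (r1 _)
    · exact r2 _ w h3

end Pool.Agent.Lib.MP_f20cd2_co.DP
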