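import Pool.Agent.Lib.MP_f20cd2_co.DP.Close
import Pool.Agent.Lib.MP_f20cd2_co.DP.Merge
import Pool.Agent.Lib.MP_f20cd2_co.DP.Hall2

/-!
Units that cover a vertex of every seed.
-/

set_option autoImplicit false
set_option linter.unusedSectionVars false

namespace Pool.Agent.Lib.MP_f20cd2_co.DP

open Finset
open Pool.Agent.Lib.MP_f20cd2_co.H83 (Conn Cells)
open Pool.Agent.Lib.MP_f20cd2_co.PL
open Pool.Agent.Lib.MP_f20cd2_co.HM (dg)
open scoped Classical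

variable {V : Type} [Fintype V] [DecidableEq V] {G : SimpleGraph V}

namespace DUnitsAux

/-- The index of the `i`-th vertex of a half of a seed. -/
def idx (b : Bool) (i : ℕ) : ℕ := if b then 4 + i else 3 - i

lemma idx_le (b : Bool) {i : ℕ} (hi : i ≤ 3) : idx b i ≤ 7 := by
  cases b <;> simp [idx] <;> omega

lemma idx_inj {b : Bool} {i j : ℕ} (hi : i ≤ 3) (hj : j ≤ 3) (h : idx b i = idx b j) : i = j := by
  cases b <;> simp [idx] at h <;> omega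

lemma idx_ne {b : Bool} {i j : ℕ} (h : idx b i = idx (!b) j) : False := by
  cases b <;> simp [idx] at h <;> omega

lemma half_pf {I : Finset V} {x : V → ℕ → V} (hx : Pf G I (fun _ => 7) x) (b : Bool) :
    Pf G I (fun _ => 3) fun σ i => x σ (idx b i) where
  adj := fun σ hσ i hi => by
    cases b
    · have h := (hx.adj σ hσ (3 - (i + 1)) (by omega)).symm
      have e : 3 - (i + 1) + 1 = 3 - i := by omega
      rw [e] at h
      exact h
    · exact hx.adj σ hσ (4 + i) (by omega)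
  inj := fun σ hσ σ' hσ' i hi i' hi' h => by
    have h1 := hx.inj σ hσ σ' hσ' _ (idx_le b hi) _ (idx_le b hi') h
    exact ⟨h1.1, idx_inj hi hi' h1.2⟩

lemma mid_adj {I : Finset V} {x : V → ℕ → V} (hx : Pf G I (fun _ => 7) x) (b : Bool) {σ : V}
    (hσ : σ ∈ I) : G.Adj (x σ (idx (!b) 0)) (x σ (idx b 0)) := by
  cases b
  · exact (hx.adj σ hσ 3 (by omega)).symm
  · exact hx.adj σ hσ 3 (by omega)

lemma rf_edge {C : SimpleGraph V} {u u' v : V} (h : C.Adj u u') (hv : v ∈ rf C univ u) :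
    ∃ w, C.Adj v w :=
  HM.reach_ind (p := fun y => ∃ w, C.Adj y w) (fun a _ hab _ => ⟨a, hab.symm⟩) (mem_rf.1 hv).2
    ⟨u', h⟩

lemma rf_disj {C : SimpleGraph V} {u u' : V} (h : rf C univ u ≠ rf C univ u') :
    Disjoint (rf C univ u) (rf C univ u') := by
  rw [disjoint_left]
  intro v h1 h2
  refine h ?_
  have h3 : C.Reachable u u' := (mem_rf.1 h1).2.trans (mem_rf.1 h2).2.symm
  ext y
  simp only [mem_rf, mem_univ, true_and]
  exact ⟨fun h4 => h3.symm.trans h4, fun h4 => h3.trans h4⟩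

end DUnitsAux

open DUnitsAux in
/-- Units indexed by some of the seeds, with ports on the own seed. -/
theorem dunits2 {Sd R R' : Finset V} (hR : TJ G Sd R) (hR' : TJ G Sd R') (hd : Disjoint R R')
    (h1 : Disjoint Sd R) (h2 : Disjoint Sd R') {I : Finset V} {x : V → ℕ → V}
    (hx : Pf G I (fun _ => 7) x) (hS : ∀ σ ∈ I, ∀ i ≤ 7, x σ i ∈ Sd) :
    ∃ (T : Finset V) (U : V → Un V), Fam G Sd (Sd ∪ (R ∪ R')) T U ∧ T ⊆ I ∧
      (∀ t ∈ T, ∀ v ∈ (U t).S, ∃ i ≤ 7, v = x t i) ∧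
      ∀ σ ∈ I, ∃ t ∈ T, ∃ i ≤ 7, x σ i ∈ (U t).Pay := by
  let Rb : Bool → Finset V := fun b => if b then R' else R
  have hRb : ∀ b, TJ G Sd (Rb b) := fun b => by
    cases b
    · exact hR
    · exact hR'
  have hSb : ∀ b, Disjoint Sd (Rb b) := fun b => by
    cases b
    · exact h1
    · exact h2
  have hdb : ∀ b, Disjoint (Rb b) (Rb (!b)) := fun b => by
    cases b
    · exact hd
    · exact hd.symm
  have hsub : ∀ b, Rb b ⊆ R ∪ R' := fun b => by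
    cases b
    · exact subset_union_left
    · exact subset_union_right
  have hw : ∀ b, ∀ σ ∈ I, ∀ i ≤ 3, x σ (idx b i) ∈ Sd := fun b σ hσ i hi =>
    hS σ hσ _ (idx_le b hi)
  have hC := fun b => close (hRb b) (half_pf hx b) (fun _ _ => by omega)
    (fun σ hσ => ⟨hw b σ hσ 0 (by omega), hw b σ hσ 3 le_rfl⟩)
    (fun σ hσ i hi => disjoint_left.1 (hSb b) (hw b σ hσ i hi))
  choose C hle hdg hadj hmem using hC
  let f : Bool → V → Finset V := fun b σ => rf (C b) univ (x σ (idx b 0))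
  have hon : ∀ b, ∀ σ ∈ I, ∀ v ∈ f b σ,
      v ∈ Rb b ∨ ∃ σ' ∈ I, ∃ i ≤ 3, v = x σ' (idx b i) := fun b σ hσ v hv => by
    obtain ⟨u, hu⟩ := rf_edge (hadj b σ hσ 0 (by omega)) hv
    exact hmem b v u hu
  have hcross : ∀ b, ∀ σ ∈ I, ∀ σ' ∈ I, Disjoint (f b σ) (f (!b) σ') := fun b σ hσ σ' hσ' => by
    rw [disjoint_left]
    intro v hv hv'
    rcases hon b σ hσ v hv with h | ⟨a, ha, i, hi, rfl⟩
    · rcases hon _ σ' hσ' v hv' with h' | ⟨a', ha', i', hi', rfl⟩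
      · exact disjoint_left.1 (hdb b) h h'
      · exact disjoint_left.1 (hSb b) (hw _ a' ha' i' hi') h
    · rcases hon _ σ' hσ' _ hv' with h' | ⟨a', ha', i', hi', h'⟩
      · exact disjoint_left.1 (hSb _) (hw _ a ha i hi) h'
      · exact idx_ne (hx.inj a ha a' ha' _ (idx_le _ hi) _ (idx_le _ hi') h').2
  have hself : ∀ b σ, x σ (idx b 0) ∈ f b σ := fun b σ =>
    mem_rf.2 ⟨mem_univ _, SimpleGraph.Reachable.refl _⟩
  have hU : ∀ b σ, ∃ U : Un V, σ ∈ I → U.Ok G ∧ U.Y = f b σ ∧ U.e = x σ (idx b 0) ∧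
      U.f = x σ (idx b 1) ∧ U.p = x σ (idx b 2) ∧ U.q = x σ (idx b 3) ∧ U.Full = f b σ := by
    intro b σ
    by_cases hσ : σ ∈ I
    · obtain ⟨U, u1, u2, u3, u4, u5, u6, -, u8⟩ := unit_cyc (hle b) (hdg b)
        (fun i => x σ (idx b i)) (a := 1) (b := 2) (c := 3) (by omega) (by omega) (by omega)
        (hadj b σ hσ) (fun i hi j hj h => ((half_pf hx b).inj σ hσ σ hσ i hi j hj h).2)
      refine ⟨U, fun _ => ⟨u1, u2, u3, u4, u5, u6, ?_⟩⟩
      have e : (Ioo 0 1 : Finset ℕ) = ∅ := rfl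
      rw [u8, e, image_empty, sdiff_empty]
    · exact ⟨⟨∅, ∅, ∅, σ, σ, σ, σ, ⊥, ⊥, ⊥⟩, fun h => absurd h hσ⟩
  choose Ub hUb using hU
  obtain ⟨I', hI', b, hinj, hcov⟩ := konig I f
  have hY : ∀ σ ∈ I, ∀ v ∈ ((Ub (!b σ) σ).join (Ub (b σ) σ)
      {x σ (idx (!b σ) 0), x σ (idx (b σ) 0)}
      (SimpleGraph.edge (x σ (idx (!b σ) 0)) (x σ (idx (b σ) 0)))).Y, ∃ c, v ∈ f c σ := by
    intro σ hσ v hv
    simp only [Un.join, mem_union, mem_insert, mem_singleton] at hv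
    rcases hv with (hv | hv) | rfl | rfl
    · exact ⟨_, (hUb _ σ hσ).2.1 ▸ hv⟩
    · exact ⟨_, (hUb _ σ hσ).2.1 ▸ hv⟩
    · exact ⟨_, hself _ _⟩
    · exact ⟨_, hself _ _⟩
  have hP : ∀ σ ∈ I, ∀ v ∈ ((Ub (!b σ) σ).join (Ub (b σ) σ)
      {x σ (idx (!b σ) 0), x σ (idx (b σ) 0)}
      (SimpleGraph.edge (x σ (idx (!b σ) 0)) (x σ (idx (b σ) 0)))).S,
      ∃ c, ∃ i ≤ 3, v = x σ (idx c i) := by
    intro σ hσ' v hv
    obtain ⟨-, -, -, a4, a5, a6, -⟩ := hUb (!b σ) σ hσ'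
    obtain ⟨-, -, -, b4, -⟩ := hUb (b σ) σ hσ'
    simp only [Un.S, Un.join, mem_insert, mem_singleton] at hv
    rcases hv with h | h | h | h
    · exact ⟨_, 1, by omega, h.trans b4⟩
    · exact ⟨_, 1, by omega, h.trans a4⟩
    · exact ⟨_, 2, by omega, h.trans a5⟩
    · exact ⟨_, 3, by omega, h.trans a6⟩
  refine ⟨I', fun σ => (Ub (!b σ) σ).join (Ub (b σ) σ) {x σ (idx (!b σ) 0), x σ (idx (b σ) 0)}
    (SimpleGraph.edge (x σ (idx (!b σ) 0)) (x σ (idx (b σ) 0))), ⟨?_, ?_, ?_, ?_⟩, hI', ?_, ?_⟩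
  · intro σ hσ
    have hσ' := hI' hσ
    obtain ⟨a1, a2, a3, -⟩ := hUb (!b σ) σ hσ'
    obtain ⟨b1, b2, b3, -⟩ := hUb (b σ) σ hσ'
    have hdd := hcross (b σ) σ hσ' σ hσ'
    refine Un.join_ok a1 b1 (by rw [a2, b2]; exact hdd.symm) ?_ ?_ ?_
    · rw [a3, b3]
      exact st_edge (mid_adj hx _ hσ')
    · intro v hv hv'
      rw [a2] at hv'
      rw [a3]
      rcases mem_insert.1 hv with h | h
      · exact h
      · rw [mem_singleton.1 h] at hv'
        exact absurd hv' (disjoint_left.1 hdd (hself _ _))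
    · intro v hv hv'
      rw [b2] at hv'
      rw [b3]
      rcases mem_insert.1 hv with h | h
      · rw [h] at hv'
        exact absurd (hself _ _) (disjoint_left.1 hdd hv')
      · exact mem_singleton.1 h
  · intro σ hσ σ' hσ' hne
    rw [disjoint_left]
    intro v hv hv'
    obtain ⟨c, hc⟩ := hY σ (hI' hσ) v hv
    obtain ⟨c', hc'⟩ := hY σ' (hI' hσ') v hv'
    by_cases e : c' = c
    · subst e
      exact disjoint_left.1 (rf_disj fun h => hne (hinj σ hσ σ' hσ' c' h)) hc hc'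
    · rw [Bool.eq_not_of_ne e] at hc'
      exact disjoint_left.1 (hcross c σ (hI' hσ) σ' (hI' hσ')) hc hc'
  · intro σ hσ v hv
    obtain ⟨c, i, hi, rfl⟩ := hP σ (hI' hσ) v hv
    exact hw c σ (hI' hσ) i hi
  · intro σ hσ v hv
    obtain ⟨c, hc⟩ := hY σ (hI' hσ) v hv
    rcases hon c σ (hI' hσ) v hc with h | ⟨a, ha, i, hi, rfl⟩
    · exact mem_union_right _ (hsub c h)
    · exact mem_union_left _ (hw c a ha i hi)
  · intro σ hσ v hv
    obtain ⟨c, i, hi, rfl⟩ := hP σ (hI' hσ) v hv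
    exact ⟨_, idx_le c hi, rfl⟩
  · intro σ hσ
    obtain ⟨σ', hσ', h⟩ := hcov σ hσ
    refine ⟨σ', hσ', idx (b σ') 0, idx_le _ (by omega), ?_⟩
    refine mem_union_right _ ?_
    rw [(hUb (b σ') σ' (hI' hσ')).2.2.2.2.2.2, ← h]
    exact hself _ _

/-- See the plan. -/
theorem dunits {Sd R R' : Finset V} (hR : TJ G Sd R) (hR' : TJ G Sd R') (hd : Disjoint R R')
    (h1 : Disjoint Sd R) (h2 : Disjoint Sd R') {I : Finset V} {x : V → ℕ → V}
    (hx : Pf G I (fun _ => 7) x) (hS : ∀ σ ∈ I, ∀ i ≤ 7, x σ i ∈ Sd) :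
    ∃ (T : Finset V) (U : V → Un V), Fam G Sd (Sd ∪ (R ∪ R')) T U ∧
      ∀ σ ∈ I, ∃ t ∈ T, ∃ i ≤ 7, x σ i ∈ (U t).Pay := by
  obtain ⟨T, U, h, -, -, h'⟩ := dunits2 hR hR' hd h1 h2 hx hS
  exact ⟨T, U, h, h'⟩

end Pool.Agent.Lib.MP_f20cd2_co.DP
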