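import Pool.Agent.Lib.MP_f20cd2_co.AS.Defs
import Pool.Agent.Lib.MP_f20cd2_co.HM.Defs

/-!
Definitions for the construction of long and dominating paths at constant toughness.
-/

set_option autoImplicit false
set_option linter.unusedSectionVars false

namespace Pool.Agent.Lib.MP_f20cd2_co.DP

open Finset
open Pool.Agent.Lib.MP_f20cd2_co.H83 (Conn Cells)
open Pool.Agent.Lib.MP_f20cd2_co.PL
open Pool.Agent.Lib.MP_f20cd2_co.HM (dg)
open scoped Classical

/-! ### Weighted hypergraphs -/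

section Hyper

variable {ν ε : Type} [Fintype ν] [DecidableEq ν] [Fintype ε] [DecidableEq ε]

/-- The hyperedges at a node. -/
def star (wt : ε → ν → ℕ) (y : ν) : Finset ε := univ.filter fun h => 0 < wt h y

lemma mem_star {wt : ε → ν → ℕ} {y : ν} {h : ε} : h ∈ star wt y ↔ 0 < wt h y := by
  simp [star]

/-- The hyperedges that meet `A` and its complement. -/
def cut (wt : ε → ν → ℕ) (A : Finset ν) : Finset ε :=
  univ.filter fun h => (∃ x ∈ A, 0 < wt h x) ∧ ∃ x, x ∉ A ∧ 0 < wt h x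

lemma mem_cut {wt : ε → ν → ℕ} {A : Finset ν} {h : ε} :
    h ∈ cut wt A ↔ (∃ x ∈ A, 0 < wt h x) ∧ ∃ x, x ∉ A ∧ 0 < wt h x := by
  simp [cut]

/-- The weight of a hyperedge away from `z`. -/
def win (wt : ε → ν → ℕ) (z : ν) (h : ε) : ℕ := ∑ x ∈ univ.erase z, wt h x

/-- The nodes of a hyperedge inside `Y`. -/
def sp (wt : ε → ν → ℕ) (Y : Finset ν) (h : ε) : Finset ν := Y.filter fun x => 0 < wt h x

lemma mem_sp {wt : ε → ν → ℕ} {Y : Finset ν} {h : ε} {x : ν} :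
    x ∈ sp wt Y h ↔ x ∈ Y ∧ 0 < wt h x := by
  simp [sp]

/-- A hypergraph on `N` with terminals `S` and the special terminal `z`. -/
structure HOk (Δ K : ℕ) (wt : ε → ν → ℕ) (N S : Finset ν) (z : ν) : Prop where
  sub : S ⊆ N
  zS : z ∈ S
  oth : ∃ y ∈ S, y ≠ z
  supp : ∀ h x, 0 < wt h x → x ∈ N
  tot : ∀ h, ∑ x, wt h x ≤ Δ
  two : ∀ x ∈ N, x ∉ S → (star wt x).card ≤ 2
  con : ∀ A ⊆ N, z ∉ A → (∃ y ∈ A, y ∈ S) → K ≤ (cut wt A).card
  dz : (star wt z).card = K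

/-- The budget for the hyperedges `X` that carry a path and the unusable hyperedges `Dd`. -/
def Bud (Δ K : ℕ) (al : ℕ → ℕ) (w : ε → ℕ) (X Dd : Finset ε) : Prop :=
  ∀ c, 2 ≤ c → c ≤ Δ → X.card + (Dd.filter fun h => c ≤ w h).card + al c ≤ K

/-- The prescribed states of the hyperedges at `z`. -/
structure Inp (Δ K : ℕ) (al : ℕ → ℕ) (wt : ε → ν → ℕ) (z : ν) (X Dd : Finset ε) : Prop where
  xs : X ⊆ star wt z
  ds : Dd ⊆ star wt z
  dis : Disjoint X Dd
  bud : Bud Δ K al (win wt z) X Dd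

/-- The hyperedges with an end at `y`. -/
def endsAt (en : ε → Finset ν) (y : ν) : Finset ε := univ.filter fun h => y ∈ en h

lemma mem_endsAt {en : ε → Finset ν} {y : ν} {h : ε} : h ∈ endsAt en y ↔ y ∈ en h := by
  simp [endsAt]

/-- The hyperedges at `y` that neither end at `y` nor are kept for `y`. -/
def deadAt (wt : ε → ν → ℕ) (en : ε → Finset ν) (ow : ε → Option ν) (y : ν) : Finset ε :=
  (star wt y).filter fun h => y ∉ en h ∧ ow h ≠ some y

lemma mem_deadAt {wt : ε → ν → ℕ} {en : ε → Finset ν} {ow : ε → Option ν} {y : ν} {h : ε} :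
    h ∈ deadAt wt en ow y ↔ 0 < wt h y ∧ y ∉ en h ∧ ow h ≠ some y := by
  simp [deadAt, star]

/-- Linked by used hyperedges, avoiding `z`. -/
def Lnk (en : ε → Finset ν) (z : ν) : ν → ν → Prop :=
  Relation.ReflTransGen fun p q => p ≠ z ∧ q ≠ z ∧ ∃ h, p ∈ en h ∧ q ∈ en h

/-- A solution: `en h` are the two ends of a used hyperedge, `ow h` is the keeper of an unused
one. -/
structure Sol (Δ K : ℕ) (al : ℕ → ℕ) (wt : ε → ν → ℕ) (N S : Finset ν) (z : ν) (X Dd : Finset ε)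
    (en : ε → Finset ν) (ow : ε → Option ν) : Prop where
  card : ∀ h, en h = ∅ ∨ (en h).card = 2
  pos : ∀ h, ∀ x ∈ en h, 0 < wt h x
  xz : ∀ h, z ∈ en h ↔ h ∈ X
  dead : ∀ h ∈ Dd, en h = ∅ ∧ ow h = none
  deg : ∀ x ∈ N, x ∉ S → endsAt en x = ∅ ∨ (endsAt en x).card = 2
  conn : ∀ x y, x ≠ z → y ≠ z → (x ∈ S ∨ ∃ h, x ∈ en h) → (y ∈ S ∨ ∃ h, y ∈ en h) → Lnk en z x y
  own : ∀ h y, ow h = some y → en h = ∅ ∧ 0 < wt h y ∧ y ≠ z
  bud : ∀ y ∈ S, y ≠ z → (star wt y).card = K →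
    Bud Δ K al (fun h => wt h y) (endsAt en y) (deadAt wt en ow y)

/-- The numerical conditions. -/
structure Num (Δ K D : ℕ) (al : ℕ → ℕ) : Prop where
  two : 2 ≤ Δ
  top : 2 * al Δ + 2 * D + 1 ≤ K
  step : ∀ c, 2 ≤ c → c < Δ → 2 * Δ * (al c + D + 1) ≤ al (c + 1)
  low : 2 * Δ ≤ al 2
  tree : 2 * Δ ^ 2 * (K * Δ + 1) ≤ D * al 2

/-- Delete a node. -/
def del (wt : ε → ν → ℕ) (x0 : ν) (h : ε) (x : ν) : ℕ := if x = x0 then 0 else wt h x

/-- Contract `A` to the node `a`. -/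
def ctr (wt : ε → ν → ℕ) (A : Finset ν) (a : ν) (h : ε) (x : ν) : ℕ :=
  if x = a then (if h ∈ cut wt A then ∑ y ∈ A, wt h y else 0) else if x ∈ A then 0 else wt h x

/-- Linked by the hyperedges in `U`. -/
def Lk (en : ε → Finset ν) (U : Finset ε) : ν → ν → Prop :=
  Relation.ReflTransGen fun p q => ∃ h ∈ U, p ∈ en h ∧ q ∈ en h

/-- The class of a node. -/
noncomputable def cls (en : ε → Finset ν) (U : Finset ε) (x : ν) : Finset ν :=
  univ.filter fun y => Lk en U x y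

/-- The number of classes that meet `Y`. -/
noncomputable def cc (en : ε → Finset ν) (U : Finset ε) (Y : Finset ν) : ℕ :=
  (Y.image (cls en U)).card

end Hyper

/-! ### Graphs -/

section Graph

variable {V : Type} [Fintype V] [DecidableEq V]

/-- A system of paths through `R` with ends `T`. -/
structure PS (G J : SimpleGraph V) (R T : Finset V) : Prop where
  le : J ≤ G
  one : ∀ v ∈ T, dg J v = 1
  two : ∀ v, v ∉ T → dg J v = 0 ∨ (v ∈ R ∧ dg J v = 2)
  nin : ∀ u v, J.Adj u v → u ∈ R ∨ v ∈ R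

/-- Every even subset of `Sd` is the set of ends of a system of paths through `R`. -/
def TJ (G : SimpleGraph V) (Sd R : Finset V) : Prop :=
  ∀ T ⊆ Sd, Even T.card → ∃ J, PS G J R T

/-- The vertices of `F` that are reachable from `v`. -/
noncomputable def rf (Kc : SimpleGraph V) (F : Finset V) (v : V) : Finset V :=
  F.filter fun w => Kc.Reachable v w

lemma mem_rf {Kc : SimpleGraph V} {F : Finset V} {v w : V} :
    w ∈ rf Kc F v ↔ w ∈ F ∧ Kc.Reachable v w := by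
  simp [rf]

/-- Groups with `K` free vertices each can be connected through `R`. -/
def CN (G : SimpleGraph V) (Sd R : Finset V) (K : ℕ) : Prop :=
  ∀ (Kc : SimpleGraph V) (A F : Finset V), F ⊆ A → F ⊆ Sd → (∀ v ∈ A, K ≤ (rf Kc F v).card) →
    ∃ J T, T ⊆ F ∧ PS G J R T ∧ ∀ u ∈ A, ∀ v ∈ A, (Kc ⊔ J).Reachable u v

/-- Disjoint trees with private feet for the vertices of `Sd`. -/
structure LS (G : SimpleGraph V) (r : ℕ) (D : ℕ → Finset V) (Sd : Finset V) (ft : ℕ → V → V) :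
    Prop where
  disj : ∀ j < r, ∀ j' < r, j ≠ j' → Disjoint (D j) (D j')
  tree : ∀ j < r, ∃ (ρ : V) (par : V → V) (rk : V → ℕ),
    RTree (D j) ρ par rk 7 ∧ ∀ v ∈ D j, v ≠ ρ → G.Adj v (par v)
  sd : ∀ j < r, Disjoint Sd (D j)
  foot : ∀ j < r, ∀ p ∈ Sd, ft j p ∈ D j ∧ G.Adj p (ft j p)
  inj : ∀ j < r, ∀ p ∈ Sd, ∀ q ∈ Sd, ft j p = ft j q → p = q

/-- The union of the trees with index in `[a, b)`. -/
def Rs (D : ℕ → Finset V) (a b : ℕ) : Finset V := (Ico a b).biUnion D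

lemma mem_Rs {D : ℕ → Finset V} {a b : ℕ} {v : V} :
    v ∈ Rs D a b ↔ ∃ j, a ≤ j ∧ j < b ∧ v ∈ D j := by
  simp [Rs, and_assoc]

/-- The colour classes `1, ..., r` carry trees, and every vertex has many options of every
colour. -/
structure LN (G : SimpleGraph V) (r s : ℕ) (χ : V → ℕ) (Op : V → Finset V) : Prop where
  adj : ∀ u, ∀ w ∈ Op u, G.Adj u w
  card : ∀ u, (Op u).card ≤ s
  load : ∀ w, (univ.filter fun u => w ∈ Op u).card ≤ 2 * s
  rich : ∀ u, ∀ j ≤ r, 8 ≤ ((Op u).filter fun w => χ w = j).card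
  tree : ∀ j < r, ∃ (ρ : V) (par : V → V) (rk : V → ℕ),
    RTree (univ.filter fun v => χ v = j + 1) ρ par rk 7 ∧
      ∀ v ∈ univ.filter (fun v => χ v = j + 1), v ≠ ρ → G.Adj v (par v)

/-- The class of the colour `j + 1`. -/
def lane (χ : V → ℕ) (j : ℕ) : Finset V := univ.filter fun v => χ v = j + 1

lemma mem_lane {χ : V → ℕ} {j : ℕ} {v : V} : v ∈ lane χ j ↔ χ v = j + 1 := by
  simp [lane]

/-- A subgraph inside `Y` with degree one on `S` and degree zero or two elsewhere. -/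
structure St (G : SimpleGraph V) (Y S : Finset V) (X : SimpleGraph V) : Prop where
  le : X ≤ G
  mem : ∀ u v, X.Adj u v → u ∈ Y
  one : ∀ v ∈ S, dg X v = 1
  two : ∀ v, v ∉ S → dg X v = 0 ∨ dg X v = 2

/-- The data of a unit: four ports, two states `P`, `Q` that cover `Pay`, and a path `R` that
covers `Full`. -/
structure Un (V : Type) where
  Y : Finset V
  Pay : Finset V
  Full : Finset V
  e : V
  f : V
  p : V
  q : V
  P : SimpleGraph V
  Q : SimpleGraph V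
  R : SimpleGraph V

/-- The ports of a unit. -/
def Un.S (U : Un V) : Finset V := {U.e, U.f, U.p, U.q}

/-- The vertices that may be lost. -/
def Un.loss (U : Un V) : ℕ := (U.Full \ U.Pay).card

/-- The properties of a unit. -/
structure Un.Ok (G : SimpleGraph V) (U : Un V) : Prop where
  card : U.S.card = 4
  sub : U.S ⊆ U.Y
  sP : St G U.Y U.S U.P
  sQ : St G U.Y U.S U.Q
  sR : St G U.Y {U.e, U.f} U.R
  rP : U.P.Reachable U.e U.f ∧ U.P.Reachable U.p U.q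
  rQ : U.Q.Reachable U.f U.p ∧ U.Q.Reachable U.e U.q
  pay : ∀ v ∈ U.Pay, (∃ a ∈ U.S, U.P.Reachable v a) ∧ ∃ a ∈ U.S, U.Q.Reachable v a
  full : ∀ v ∈ U.Full, U.R.Reachable v U.e

/-- A family of disjoint units with ports in `Sd` inside `W`. -/
structure Fam {ι : Type} (G : SimpleGraph V) (Sd W : Finset V) (T : Finset ι) (U : ι → Un V) :
    Prop where
  ok : ∀ t ∈ T, (U t).Ok G
  disj : ∀ t ∈ T, ∀ t' ∈ T, t ≠ t' → Disjoint (U t).Y (U t').Y
  port : ∀ t ∈ T, (U t).S ⊆ Sd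
  sub : ∀ t ∈ T, (U t).Y ⊆ W

/-- The component of `x`, as a graph. -/
def res (J : SimpleGraph V) (x : V) : SimpleGraph V where
  Adj u v := J.Adj u v ∧ J.Reachable x u
  symm := ⟨fun _ _ h => ⟨h.1.symm, h.2.trans h.1.reachable⟩⟩
  loopless := ⟨fun _ h => J.irrefl h.1⟩

lemma res_adj {J : SimpleGraph V} {x u v : V} :
    (res J x).Adj u v ↔ J.Adj u v ∧ J.Reachable x u := Iff.rfl

/-- The path `w a, ..., w b`, as a graph. -/
def seg (w : ℕ → V) (a b : ℕ) : SimpleGraph V where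
  Adj u v := u ≠ v ∧ ∃ i, a ≤ i ∧ i < b ∧ ((u = w i ∧ v = w (i + 1)) ∨ (v = w i ∧ u = w (i + 1)))
  symm := ⟨fun _ _ ⟨h, i, h1, h2, h3⟩ => ⟨h.symm, i, h1, h2, h3.symm⟩⟩
  loopless := ⟨fun _ h => h.1 rfl⟩

lemma seg_adj {w : ℕ → V} {a b : ℕ} {u v : V} : (seg w a b).Adj u v ↔
    u ≠ v ∧ ∃ i, a ≤ i ∧ i < b ∧ ((u = w i ∧ v = w (i + 1)) ∨ (v = w i ∧ u = w (i + 1))) :=
  Iff.rfl

/-- Disjoint paths `w σ 0, ..., w σ (n σ)` in `G`. -/
structure Pf {ι : Type} (G : SimpleGraph V) (I : Finset ι) (n : ι → ℕ) (w : ι → ℕ → V) :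
    Prop where
  adj : ∀ σ ∈ I, ∀ i < n σ, G.Adj (w σ i) (w σ (i + 1))
  inj : ∀ σ ∈ I, ∀ σ' ∈ I, ∀ i ≤ n σ, ∀ i' ≤ n σ', w σ i = w σ' i' → σ = σ' ∧ i = i'

/-- Joined by a walk with at most `d` edges. -/
def Nr (H : SimpleGraph V) (d : ℕ) (u v : V) : Prop := ∃ p : H.Walk u v, p.length ≤ d

/-- `l` is a path in `G`. -/
def IsP (G : SimpleGraph V) (l : List V) : Prop := l.Nodup ∧ l.IsChain G.Adj

/-- The vertex set splits into small connected sets, one for each vertex of `X`. -/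
structure Fib (G : SimpleGraph V) (X : Finset V) (C : ℕ) (root : V → V) : Prop where
  mem : ∀ v, root v ∈ X
  fix : ∀ x ∈ X, root x = x
  conn : ∀ x ∈ X, Conn G (univ.filter fun v => root v = x)
  card : ∀ x, (univ.filter fun v => root v = x).card ≤ C

end Graph

end Pool.Agent.Lib.MP_f20cd2_co.DP
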