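import Pool.Agent.Lib.MP_f20cd2_co.DP.Defs
import Pool.Agent.Lib.MP_f20cd2_co.PL.Basic

/-!
Small connected sets around a dominating set.
-/

set_option autoImplicit false
set_option linter.unusedSectionVars false

namespace Pool.Agent.Lib.MP_f20cd2_co.DP

open Finset
open Pool.Agent.Lib.MP_f20cd2_co.H83 (Conn Cells)
open Pool.Agent.Lib.MP_f20cd2_co.PL
open Pool.Agent.Lib.MP_f20cd2_co.HM (dg)
open scoped Classical

variable {V : Type} [Fintype V] [DecidableEq V] {G : SimpleGraph V}

namespace FibAux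

/-- The vertices within distance `d` of `X`. -/
noncomputable def ball (H : SimpleGraph V) (X : Finset V) (d : ℕ) : Finset V :=
  univ.filter fun v => ∃ x ∈ X, Nr H d v x

lemma mem_ball {H : SimpleGraph V} {X : Finset V} {d : ℕ} {v : V} :
    v ∈ ball H X d ↔ ∃ x ∈ X, Nr H d v x := by
  simp only [ball, mem_filter, mem_univ, true_and]

lemma sub_ball {H : SimpleGraph V} {X : Finset V} {d : ℕ} {x : V} (hx : x ∈ X) :
    x ∈ ball H X d :=
  mem_ball.2 ⟨x, hx, SimpleGraph.Walk.nil, Nat.zero_le _⟩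

lemma ball_zero {H : SimpleGraph V} {X : Finset V} {v : V} (hv : v ∈ ball H X 0) : v ∈ X := by
  obtain ⟨x, hx, p, hp⟩ := mem_ball.1 hv
  cases p with
  | nil => exact hx
  | cons _ _ => simp at hp

lemma ball_mono {H : SimpleGraph V} {X : Finset V} {d : ℕ} {v : V} (hv : v ∈ ball H X d) :
    v ∈ ball H X (d + 1) := by
  obtain ⟨x, hx, p, hp⟩ := mem_ball.1 hv
  exact mem_ball.2 ⟨x, hx, p, hp.trans (Nat.le_succ d)⟩

lemma ball_step {H : SimpleGraph V} {X : Finset V} {d : ℕ} (v : V) :
    ∃ u, v ∈ ball H X (d + 1) → v ∉ ball H X d → u ∈ ball H X d ∧ H.Adj v u := by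
  by_cases hv : v ∈ ball H X (d + 1)
  · obtain ⟨x, hx, p, hp⟩ := mem_ball.1 hv
    cases p with
    | nil => exact ⟨v, fun _ h => absurd (sub_ball hx) h⟩
    | cons ha q =>
      refine ⟨_, fun _ _ => ⟨mem_ball.2 ⟨x, hx, q, ?_⟩, ha⟩⟩
      rw [SimpleGraph.Walk.length_cons] at hp
      omega
  · exact ⟨v, fun h => absurd h hv⟩

lemma main {H : SimpleGraph V} (hH : H ≤ G) {Δ : ℕ} (hΔ : ∀ v, dg H v ≤ Δ) (X : Finset V)
    (d : ℕ) : ∃ root : V → V, (∀ v ∈ ball H X d, root v ∈ X) ∧ (∀ x ∈ X, root x = x) ∧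
      (∀ x ∈ X, Conn G ((ball H X d).filter fun v => root v = x)) ∧
      ∀ x, ((ball H X d).filter fun v => root v = x).card ≤ (Δ + 1) ^ d := by
  induction d with
  | zero =>
    refine ⟨fun v => v, fun v hv => ball_zero hv, fun _ _ => rfl, fun x hx => ?_, fun x => ?_⟩
    · have h1 : ((ball H X 0).filter fun v => v = x) = {x} := by
        ext v
        rw [mem_filter, mem_singleton]
        exact ⟨fun h => h.2, fun h => ⟨by rw [h]; exact sub_ball hx, h⟩⟩
      rw [h1]
      exact Conn.single x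
    · rw [pow_zero]
      refine card_le_one.2 fun a ha b hb => ?_
      exact (mem_filter.1 ha).2.trans (mem_filter.1 hb).2.symm
  | succ d ih =>
    obtain ⟨root, h1, h2, h3, h4⟩ := ih
    choose nb hnb using fun v => ball_step (H := H) (X := X) (d := d) v
    have key : ∀ x, ((ball H X (d + 1)).filter fun v =>
        (if v ∈ ball H X d then root v else root (nb v)) = x) =
        ((ball H X d).filter fun v => root v = x) ∪
          ((ball H X (d + 1)).filter fun v => v ∉ ball H X d ∧ root (nb v) = x) := by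
      intro x
      ext v
      simp only [mem_union, mem_filter]
      by_cases hv : v ∈ ball H X d
      · rw [if_pos hv]
        exact ⟨fun h => Or.inl ⟨hv, h.2⟩,
          fun h => h.elim (fun h => ⟨ball_mono hv, h.2⟩) fun h => absurd hv h.2.1⟩
      · rw [if_neg hv]
        exact ⟨fun h => Or.inr ⟨h.1, hv, h.2⟩,
          fun h => h.elim (fun h => absurd h.1 hv) fun h => ⟨h.1, h.2.2⟩⟩
    have att : ∀ x, ∀ u ∈ (ball H X (d + 1)).filter fun v => v ∉ ball H X d ∧ root (nb v) = x,
        nb u ∈ ((ball H X d).filter fun v => root v = x) ∧ H.Adj u (nb u) := by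
      intro x u hu
      obtain ⟨hu1, hu2, hu3⟩ := mem_filter.1 hu
      exact ⟨mem_filter.2 ⟨(hnb u hu1 hu2).1, hu3⟩, (hnb u hu1 hu2).2⟩
    refine ⟨fun v => if v ∈ ball H X d then root v else root (nb v), fun v hv => ?_,
      fun x hx => ?_, fun x hx => ?_, fun x => ?_⟩
    · by_cases h : v ∈ ball H X d
      · simp only [if_pos h]
        exact h1 v h
      · simp only [if_neg h]
        exact h1 _ (hnb v hv h).1
    · simp only [if_pos (sub_ball (H := H) (d := d) hx)]
      exact h2 x hx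
    · rw [key x]
      exact conn_attach (h3 x hx) _ fun u hu => ⟨nb u, (att x u hu).1, hH (att x u hu).2⟩
    · rw [key x]
      have h5 : ((ball H X (d + 1)).filter fun v => v ∉ ball H X d ∧ root (nb v) = x) ⊆
          ((ball H X d).filter fun v => root v = x).biUnion
            fun a => univ.filter fun w => H.Adj a w := fun u hu =>
        mem_biUnion.2 ⟨nb u, (att x u hu).1, mem_filter.2 ⟨mem_univ _, (att x u hu).2.symm⟩⟩
      have h6 := (card_le_card h5).trans
        (card_biUnion_le_card_mul _ _ Δ fun a _ => hΔ a)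
      have h7 := h4 x
      calc _ ≤ _ := card_union_le _ _
        _ ≤ (Δ + 1) ^ d + (Δ + 1) ^ d * Δ :=
          add_le_add h7 (h6.trans (Nat.mul_le_mul_right Δ h7))
        _ = (Δ + 1) ^ (d + 1) := by ring

end FibAux

/-- Induction on `d` for the set of vertices within distance `d` of `X`: a new vertex gets the
root of a neighbour in the old set. -/
theorem fib_exists {H : SimpleGraph V} (hH : H ≤ G) {Δ : ℕ} (hΔ : ∀ v, dg H v ≤ Δ) (X : Finset V)
    (d : ℕ) (hd : ∀ v, ∃ x ∈ X, Nr H d v x) : ∃ root, Fib G X ((Δ + 1) ^ d) root := by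
  obtain ⟨root, h1, h2, h3, h4⟩ := FibAux.main hH hΔ X d
  have h5 : FibAux.ball H X d = univ := eq_univ_of_forall fun v => FibAux.mem_ball.2 (hd v)
  rw [h5] at h1 h3 h4
  exact ⟨root, fun v => h1 v (mem_univ v), h2, h3, h4⟩

end Pool.Agent.Lib.MP_f20cd2_co.DP
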