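import Pool.Agent.Lib.MP_f20cd2_co.DP.Defs
import Pool.Agent.Lib.MP_f20cd2_co.HM.TJoin

/-!
Disjoint paths with prescribed ends.
-/

set_option autoImplicit false
set_option linter.unusedSectionVars false

namespace Pool.Agent.Lib.MP_f20cd2_co.DP

open Finset
open Pool.Agent.Lib.MP_f20cd2_co.H83 (Conn Cells)
open Pool.Agent.Lib.MP_f20cd2_co.PL
open Pool.Agent.Lib.MP_f20cd2_co.HM (dg)
open scoped Classical

variable {V : Type} [Fintype V] [DecidableEq V] {G : SimpleGraph V}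

namespace GallaiAux

section Rc

variable {β : Type} [Fintype β] [DecidableEq β] {Γ : SimpleGraph β} {B : Finset β}

lemma rsymm {p q : β} (h : Rch Γ B p q) : Rch Γ B q p := by
  induction h with
  | refl => exact Relation.ReflTransGen.refl
  | tail _ h2 ih => exact Relation.ReflTransGen.head ⟨h2.2.1, h2.1, h2.2.2.symm⟩ ih

lemma rmem {p q : β} (h : Rch Γ B p q) (hp : p ∈ B) : q ∈ B := by
  induction h with
  | refl => exact hp
  | tail _ h2 _ => exact h2.2.1

lemma ceq {p q : β} (h : Rch Γ B p q) : cmp Γ B p = cmp Γ B q := by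
  ext w
  rw [mem_cmp, mem_cmp]
  exact ⟨fun h1 => (rsymm h).trans h1, fun h1 => h.trans h1⟩

/-- Transfer of the odd components along an isomorphism onto the graph induced on `B`. -/
lemma odd_le {W : Type} [Finite W] (D : SimpleGraph W) (ι : W → β) (hi : Function.Injective ι)
    (h1 : ∀ x, ι x ∈ B) (h2 : ∀ b ∈ B, ∃ x, ι x = b)
    (h3 : ∀ x y, D.Adj x y ↔ Γ.Adj (ι x) (ι y)) :
    D.oddComponents.ncard ≤ ((B.image (cmp Γ B)).filter fun C => Odd C.card).card := by
  have r1 : ∀ x y, D.Reachable x y → Rch Γ B (ι x) (ι y) := fun x y h => by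
    obtain ⟨w⟩ := h
    induction w with
    | nil => exact Relation.ReflTransGen.refl
    | cons ha _ ih => exact Relation.ReflTransGen.head ⟨h1 _, h1 _, (h3 _ _).1 ha⟩ ih
  have r2 : ∀ x w, Rch Γ B (ι x) w → ∀ y, ι y = w → D.Reachable x y := fun x w h => by
    induction h with
    | refl =>
      intro y hy
      rw [hi hy]
    | tail _ h4 ih =>
      intro y hy
      obtain ⟨z, hz⟩ := h2 _ h4.1
      refine (ih z hz).trans (SimpleGraph.Adj.reachable ((h3 _ _).2 ?_))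
      rw [hz, hy]
      exact h4.2.2
  let f : D.ConnectedComponent → Finset β := fun c => univ.filter fun w => ∃ y ∈ c.supp, ι y = w
  have hf : ∀ c w, w ∈ f c ↔ ∃ y ∈ c.supp, ι y = w := fun c w => by
    simp only [f, mem_filter, mem_univ, true_and]
  have e1 : ∀ x, f (D.connectedComponentMk x) = cmp Γ B (ι x) := fun x => by
    ext w
    rw [hf, mem_cmp]
    constructor
    · rintro ⟨y, hy, rfl⟩
      rw [SimpleGraph.ConnectedComponent.mem_supp_iff, SimpleGraph.ConnectedComponent.eq] at hy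
      exact r1 _ _ hy.symm
    · intro h
      obtain ⟨y, hy⟩ := h2 w (rmem h (h1 x))
      refine ⟨y, ?_, hy⟩
      rw [SimpleGraph.ConnectedComponent.mem_supp_iff, SimpleGraph.ConnectedComponent.eq]
      exact (r2 x w h y hy).symm
  have e2 : ∀ c, (f c).card = c.supp.ncard := fun c => by
    rw [← Set.ncard_coe_finset, ← Set.ncard_image_of_injective c.supp hi]
    congr 1
    ext w
    rw [mem_coe, hf]
    rfl
  rw [← Set.ncard_coe_finset]
  refine Set.ncard_le_ncard_of_injOn f (fun c hc => ?_) (fun c _ c' _ e => ?_)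
    (Finset.finite_toSet _)
  · have h4 : Odd c.supp.ncard := hc
    rw [← e2] at h4
    obtain ⟨x, rfl⟩ := c.exists_rep
    exact mem_coe.2 (mem_filter.2 ⟨mem_image.2 ⟨ι x, h1 x, (e1 x).symm⟩, h4⟩)
  · obtain ⟨x, rfl⟩ := c.exists_rep
    have h4 : ι x ∈ f (D.connectedComponentMk x) := (hf _ _).2 ⟨x, rfl, rfl⟩
    have h5 : ι x ∈ f c' := e ▸ h4
    obtain ⟨y, hy, h6⟩ := (hf _ _).1 h5
    rw [hi h6] at hy
    exact hy

end Rc

/-- Two copies of every vertex, both joined to both copies of each neighbour. -/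
def db (Γ : SimpleGraph V) : SimpleGraph (V × Bool) where
  Adj x y := Γ.Adj x.1 y.1 ∨ (x.1 = y.1 ∧ x.2 ≠ y.2)
  symm := ⟨fun _ _ h => h.elim (fun h => Or.inl h.symm) fun h => Or.inr ⟨h.1.symm, h.2.symm⟩⟩
  loopless := ⟨fun _ h => h.elim (fun h => Γ.irrefl h) fun h => h.2 rfl⟩

lemma rch_db {Γ : SimpleGraph V} {B : Finset (V × Bool)} {x y : V × Bool} (hx : x ∈ B)
    (hy : y ∈ B) : Rch (db Γ) B x y ↔ Rch Γ (B.image Prod.fst) x.1 y.1 := by
  constructor
  · intro h
    clear hy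
    induction h with
    | refl => exact Relation.ReflTransGen.refl
    | tail _ h2 ih =>
      rcases h2.2.2 with h3 | h3
      · exact ih.tail ⟨mem_image_of_mem _ h2.1, mem_image_of_mem _ h2.2.1, h3⟩
      · exact h3.1 ▸ ih
  · intro h
    have key : ∀ w, Rch Γ (B.image Prod.fst) x.1 w → ∀ z ∈ B, z.1 = w → Rch (db Γ) B x z := by
      intro w hw
      induction hw with
      | refl =>
        intro z hz e
        by_cases h1 : x.2 = z.2
        · rw [Prod.ext e.symm h1]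
          exact Relation.ReflTransGen.refl
        · exact Relation.ReflTransGen.single ⟨hx, hz, Or.inr ⟨e.symm, h1⟩⟩
      | tail _ h2 ih =>
        intro z hz e
        obtain ⟨z', hz', e'⟩ := mem_image.1 h2.1
        refine (ih z' hz' e').tail ⟨hz', hz, Or.inl ?_⟩
        rw [e, e']
        exact h2.2.2
    exact key _ h y hy rfl

lemma even_full {C : Finset (V × Bool)} (h : ∀ x ∈ C, (x.1, !x.2) ∈ C) : Even C.card := by
  have e : C = (C.image Prod.fst) ×ˢ (univ : Finset Bool) := by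
    ext ⟨v, b⟩
    rw [mem_product]
    constructor
    · intro h1
      exact ⟨mem_image.2 ⟨_, h1, rfl⟩, mem_univ _⟩
    · rintro ⟨h1, -⟩
      obtain ⟨⟨w, b'⟩, h2, e⟩ := mem_image.1 h1
      obtain rfl : w = v := e
      have h3 := h _ h2
      cases b <;> cases b' <;> first | exact h2 | exact h3
  rw [e, card_product, card_univ, Fintype.card_bool]
  exact ⟨_, mul_two _⟩

lemma cond {Γ : SimpleGraph V} {R T : Finset V} (hd : Disjoint T R)
    (h : ∀ Y ⊆ T ∪ R, ((T ∩ Y).image (cmp Γ Y)).card ≤ 2 * (R \ Y).card + 1)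
    (B : Finset (V × Bool)) (hB : B ⊆ HM.TJoinAux.big R T) :
    ((B.image (cmp (db Γ) B)).filter fun C => Odd C.card).card
      ≤ (HM.TJoinAux.big R T \ B).card + 1 := by
  set Y := B.image Prod.fst with hY
  have hA : ∀ v b, (v, b) ∈ B → v ∈ T ∨ v ∈ R := fun v b hv => by
    cases b
    · exact HM.TJoinAux.mem_false.1 (hB hv)
    · exact Or.inr (HM.TJoinAux.mem_true.1 (hB hv))
  have hRA : ∀ v b, v ∈ R → (v, b) ∈ HM.TJoinAux.big R T := fun v b hv => by
    cases b
    · exact HM.TJoinAux.mem_false.2 (Or.inr hv)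
    · exact HM.TJoinAux.mem_true.2 hv
  have hYs : Y ⊆ T ∪ R := fun v hv => by
    obtain ⟨⟨w, b⟩, h1, rfl⟩ := mem_image.1 hv
    exact mem_union.2 (hA w b h1)
  have h0 := h Y hYs
  let S : Finset (V × Bool) := B.filter fun x => x.1 ∈ R ∧ (x.1, !x.2) ∉ B
  let g : Finset V → Finset (V × Bool) := fun K => B.filter fun x => x.1 ∈ K
  have hg : ∀ x ∈ B, cmp (db Γ) B x = g (cmp Γ Y x.1) := fun x hx => by
    ext y
    rw [mem_cmp]
    simp only [g, mem_filter, mem_cmp]
    exact ⟨fun h1 => ⟨rmem h1 hx, (rch_db hx (rmem h1 hx)).1 h1⟩, fun h1 => (rch_db hx h1.1).2 h1.2⟩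
  have h1 : ((B.image (cmp (db Γ) B)).filter fun C => Odd C.card) ⊆
      ((T ∩ Y).image (cmp Γ Y)).image g ∪ S.image (cmp (db Γ) B) := fun C hC => by
    obtain ⟨h2, h3⟩ := mem_filter.1 hC
    obtain ⟨x, hx, rfl⟩ := mem_image.1 h2
    by_contra hno
    rw [mem_union, not_or] at hno
    refine Nat.not_odd_iff_even.2 (even_full fun y hy => ?_) h3
    have h4 := mem_cmp.1 hy
    have h5 := rmem h4 hx
    have h6 : y.1 ∈ R := (hA y.1 y.2 h5).resolve_left fun h7 => hno.1 (mem_image.2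
      ⟨cmp Γ Y y.1, mem_image.2 ⟨y.1, mem_inter.2 ⟨h7, mem_image_of_mem _ h5⟩, rfl⟩, by
        rw [← hg y h5, ceq h4]⟩)
    have h7 : (y.1, !y.2) ∈ B := by
      by_contra h8
      exact hno.2 (mem_image.2 ⟨y, mem_filter.2 ⟨h5, h6, h8⟩, (ceq h4).symm⟩)
    exact mem_cmp.2 (h4.tail ⟨h5, h7, Or.inr ⟨rfl, by cases y.2 <;> simp⟩⟩)
  have h2 := (card_le_card h1).trans (card_union_le _ _)
  have h3 : (((T ∩ Y).image (cmp Γ Y)).image g).card ≤ ((T ∩ Y).image (cmp Γ Y)).card :=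
    card_image_le
  have h4 : (S.image (cmp (db Γ) B)).card ≤ S.card := card_image_le
  let fl : V × Bool → V × Bool := fun x => (x.1, !x.2)
  have hfl : Function.Injective fl := fun x y e => by
    obtain ⟨e1, e2⟩ := Prod.ext_iff.1 e
    exact Prod.ext e1 (Bool.not_inj e2)
  have h5 : (R \ Y) ×ˢ (univ : Finset Bool) ∪ S.image fl ⊆ HM.TJoinAux.big R T \ B := by
    rintro ⟨v, b⟩ hx
    rcases mem_union.1 hx with h6 | h6
    · obtain ⟨h7, h8⟩ := mem_sdiff.1 (mem_product.1 h6).1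
      exact mem_sdiff.2 ⟨hRA v b h7, fun h9 => h8 (mem_image.2 ⟨_, h9, rfl⟩)⟩
    · obtain ⟨y, hy, e⟩ := mem_image.1 h6
      obtain ⟨-, h7, h8⟩ := mem_filter.1 hy
      rw [← e]
      exact mem_sdiff.2 ⟨hRA _ _ h7, h8⟩
  have h6 : Disjoint ((R \ Y) ×ˢ (univ : Finset Bool)) (S.image fl) := by
    rw [disjoint_left]
    intro x h7 h8
    obtain ⟨y, hy, rfl⟩ := mem_image.1 h8
    exact (mem_sdiff.1 (mem_product.1 h7).1).2 (mem_image.2 ⟨y, (mem_filter.1 hy).1, rfl⟩)
  have h7 := card_le_card h5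
  rw [card_union_of_disjoint h6, card_product, card_univ, Fintype.card_bool,
    card_image_of_injective _ hfl] at h7
  omega

/-- Both copies of `u` are matched to copies of `v`. -/
def Dbl (R : Finset V) (m : V × Bool → V × Bool) (u v : V) : Prop :=
  u ∈ R ∧ (m (u, false)).1 = v ∧ (m (u, true)).1 = v

lemma dbl_symm {R T : Finset V} {m : V × Bool → V × Bool}
    (hm : ∀ x ∈ HM.TJoinAux.big R T, m x ∈ HM.TJoinAux.big R T ∧ m (m x) = x) {u v : V}
    (h : Dbl R m u v) : Dbl R m v u := by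
  obtain ⟨hu, e0, e1⟩ := h
  obtain ⟨a0, b0⟩ := hm (u, false) (HM.TJoinAux.mem_false.2 (Or.inr hu))
  obtain ⟨a1, b1⟩ := hm (u, true) (HM.TJoinAux.mem_true.2 hu)
  rcases f0 : m (u, false) with ⟨w0, c0⟩
  rcases f1 : m (u, true) with ⟨w1, c1⟩
  rw [f0] at e0 a0 b0
  rw [f1] at e1 a1 b1
  obtain rfl : w0 = v := e0
  obtain rfl : w1 = w0 := e1
  cases c0 <;> cases c1
  · rw [b0] at b1
    exact absurd (Prod.ext_iff.1 b1).2 Bool.false_ne_true
  · exact ⟨HM.TJoinAux.mem_true.1 a1, by rw [b0], by rw [b1]⟩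
  · exact ⟨HM.TJoinAux.mem_true.1 a0, by rw [b1], by rw [b0]⟩
  · rw [b0] at b1
    exact absurd (Prod.ext_iff.1 b1).2 Bool.false_ne_true

/-- The projection of a matching without the doubled edges. -/
def pj (R T : Finset V) (m : V × Bool → V × Bool)
    (hm : ∀ x ∈ HM.TJoinAux.big R T, m x ∈ HM.TJoinAux.big R T ∧ m (m x) = x) : SimpleGraph V where
  Adj u v := u ≠ v ∧ (∃ b, (u, b) ∈ HM.TJoinAux.big R T ∧ (m (u, b)).1 = v) ∧ ¬ Dbl R m u v
  symm := ⟨fun u v h => by
    obtain ⟨h1, ⟨b, h2, h3⟩, h4⟩ := h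
    obtain ⟨h5, h6⟩ := hm _ h2
    refine ⟨h1.symm, ⟨(m (u, b)).2, ?_, ?_⟩, fun h7 => h4 (dbl_symm hm h7)⟩
    · rw [← h3]
      exact h5
    · rw [← h3]
      exact congrArg Prod.fst h6⟩
  loopless := ⟨fun _ h => h.1 rfl⟩

end GallaiAux

/-- As `HM.tutte_fin`.  The number of odd components has the parity of `B.card`, hence of
`(A \ B).card`. -/
theorem tutte_odd {β : Type} [Fintype β] [DecidableEq β] (Γ : SimpleGraph β) (A : Finset β)
    (hA : Even A.card)
    (h : ∀ B ⊆ A, ((B.image (cmp Γ B)).filter fun C => Odd C.card).card ≤ (A \ B).card + 1) :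
    ∃ m : β → β, ∀ x ∈ A, m x ∈ A ∧ m (m x) = x ∧ Γ.Adj x (m x) := by
  obtain ⟨M, hM⟩ := (SimpleGraph.tutte (G := Γ.induce (A : Set β))).2 fun u hu => by
    rw [SimpleGraph.IsTutteViolator] at hu
    set D := ((⊤ : (Γ.induce (A : Set β)).Subgraph).deleteVerts u).coe with hD
    let B : Finset β := A.filter fun x => ∀ hx : x ∈ A, (⟨x, hx⟩ : (A : Set β)) ∉ u
    have hBA : B ⊆ A := filter_subset _ _
    let ι : ((⊤ : (Γ.induce (A : Set β)).Subgraph).deleteVerts u).verts → β := fun x => x.1.1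
    have hi : Function.Injective ι := fun x y e => Subtype.ext (Subtype.ext e)
    have a1 : ∀ x, ι x ∈ B := fun x => mem_filter.2 ⟨x.1.2, fun _ => x.2.2⟩
    have a2 : ∀ b ∈ B, ∃ x, ι x = b := fun b hb =>
      ⟨⟨⟨b, (mem_filter.1 hb).1⟩, trivial, (mem_filter.1 hb).2 _⟩, rfl⟩
    have h1 := (GallaiAux.odd_le (Γ := Γ) D ι hi a1 a2 fun x y =>
      ⟨fun h => h.2.2, fun h => ⟨x.2, y.2, h⟩⟩).trans (h B hBA)
    have h2 : (A \ B).card = u.ncard := by
      rw [← Set.ncard_coe_finset, ← Set.ncard_image_of_injective u Subtype.val_injective]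
      congr 1
      ext x
      rw [mem_coe, mem_sdiff]
      constructor
      · rintro ⟨h3, h4⟩
        by_contra h5
        exact h4 (mem_filter.2 ⟨h3, fun hx' h6 => h5 ⟨_, h6, rfl⟩⟩)
      · rintro ⟨y, hy, rfl⟩
        exact ⟨y.2, fun h4 => (mem_filter.1 h4).2 y.2 hy⟩
    have h3 : Nat.card ((⊤ : (Γ.induce (A : Set β)).Subgraph).deleteVerts u).verts = B.card := by
      rw [← Set.ncard_coe_finset, ← Set.ncard_univ, ← Set.ncard_image_of_injective _ hi]
      congr 1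
      ext x
      constructor
      · rintro ⟨y, -, rfl⟩
        exact a1 y
      · intro hx
        obtain ⟨y, hy⟩ := a2 x hx
        exact ⟨y, trivial, hy⟩
    have h4 := D.odd_ncard_oddComponents
    rw [h3, Nat.odd_iff, Nat.odd_iff] at h4
    have h5 := card_sdiff_add_card_eq_card hBA
    rw [Nat.even_iff] at hA
    omega
  choose f hf using SimpleGraph.Subgraph.isPerfectMatching_iff.1 hM
  refine ⟨fun x => if hx : x ∈ A then (f ⟨x, hx⟩).1 else x, fun x hx => ?_⟩
  have h1 : (f ⟨x, hx⟩).1 ∈ A := (f ⟨x, hx⟩).2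
  simp only [dif_pos hx, dif_pos h1]
  exact ⟨h1, congrArg Subtype.val ((hf _).2 _ (hf ⟨x, hx⟩).1.symm).symm,
    M.adj_sub (hf ⟨x, hx⟩).1⟩

/-- See the plan. -/
theorem gallai (Γ : SimpleGraph V) (R T : Finset V) (hd : Disjoint T R) (hT : Even T.card)
    (h : ∀ Y ⊆ T ∪ R, ((T ∩ Y).image (cmp Γ Y)).card ≤ 2 * (R \ Y).card + 1) :
    ∃ J ≤ Γ, (∀ v ∈ T, dg J v = 1) ∧ ∀ v, v ∉ T → dg J v = 0 ∨ (v ∈ R ∧ dg J v = 2) := by
  have hev : Even (HM.TJoinAux.big R T).card := by
    rw [HM.TJoinAux.big, HM.TJoinAux.card_layers, card_union_of_disjoint hd, add_assoc]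
    exact hT.add ⟨_, rfl⟩
  obtain ⟨m, hm⟩ := tutte_odd (GallaiAux.db Γ) (HM.TJoinAux.big R T) hev
    fun B hB => GallaiAux.cond hd h B hB
  set J := GallaiAux.pj R T m fun x hx => ⟨(hm x hx).1, (hm x hx).2.1⟩ with hJ
  have hadj : ∀ u v, J.Adj u v ↔ u ≠ v ∧ (∃ b, (u, b) ∈ HM.TJoinAux.big R T ∧ (m (u, b)).1 = v) ∧
      ¬ GallaiAux.Dbl R m u v := fun _ _ => Iff.rfl
  have hrung : ∀ v b, (v, b) ∈ HM.TJoinAux.big R T → (m (v, b)).1 = v → m (v, b) = (v, !b) := by
    intro v b hv e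
    rcases (hm _ hv).2.2 with h1 | h1
    · exact absurd e.symm h1.ne
    · refine Prod.ext e ?_
      have h2 : b ≠ (m (v, b)).2 := h1.2
      show (m (v, b)).2 = !b
      cases b <;> cases h3 : (m (v, _)).2 <;> simp_all
  refine ⟨J, fun u v huv => ?_, fun v hv => ?_, fun v hv => ?_⟩
  · obtain ⟨h1, ⟨b, h2, h3⟩, -⟩ := (hadj u v).1 huv
    rcases (hm _ h2).2.2 with h4 | h4
    · exact h3 ▸ h4
    · exact absurd (h4.1.trans h3) h1
  · have hR : v ∉ R := disjoint_left.1 hd hv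
    have h0 : (v, false) ∈ HM.TJoinAux.big R T := HM.TJoinAux.mem_false.2 (Or.inl hv)
    refine HM.dg_eq_one (w := (m (v, false)).1) fun x => ?_
    rw [hadj]
    constructor
    · rintro ⟨-, ⟨b, h2, h3⟩, -⟩
      cases b
      · exact h3.symm
      · exact absurd (HM.TJoinAux.mem_true.1 h2) hR
    · rintro rfl
      refine ⟨fun e => ?_, ⟨false, h0, rfl⟩, fun h1 => hR h1.1⟩
      have h2 := (hm _ h0).1
      rw [hrung v false h0 e.symm] at h2
      exact hR (HM.TJoinAux.mem_true.1 h2)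
  · by_cases hR : v ∈ R
    · have h0 : (v, false) ∈ HM.TJoinAux.big R T := HM.TJoinAux.mem_false.2 (Or.inr hR)
      have h1 : (v, true) ∈ HM.TJoinAux.big R T := HM.TJoinAux.mem_true.2 hR
      by_cases he : (m (v, false)).1 = (m (v, true)).1
      · refine Or.inl (HM.dg_eq_zero.2 fun w hw => ?_)
        obtain ⟨-, ⟨b, -, h3⟩, h4⟩ := (hadj v w).1 hw
        cases b
        · exact h4 ⟨hR, h3, he.symm.trans h3⟩
        · exact h4 ⟨hR, he.trans h3, h3⟩
      · refine Or.inr ⟨hR, HM.dg_eq_two he fun x => ?_⟩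
        rw [hadj]
        constructor
        · rintro ⟨-, ⟨b, -, h3⟩, -⟩
          cases b
          · exact Or.inl h3.symm
          · exact Or.inr h3.symm
        · rintro (rfl | rfl)
          · refine ⟨fun e => he ?_, ⟨false, h0, rfl⟩, fun h2 => he h2.2.2.symm⟩
            have h2 := (hm _ h0).2.1
            rw [hrung v false h0 e.symm] at h2
            exact e.symm.trans (congrArg Prod.fst h2).symm
          · refine ⟨fun e => he ?_, ⟨true, h1, rfl⟩, fun h2 => he h2.2.1⟩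
            have h2 := (hm _ h1).2.1
            rw [hrung v true h1 e.symm] at h2
            exact (congrArg Prod.fst h2).trans e
    · refine Or.inl (HM.dg_eq_zero.2 fun w hw => ?_)
      obtain ⟨-, ⟨b, h2, -⟩, -⟩ := (hadj v w).1 hw
      cases b
      · exact (HM.TJoinAux.mem_false.1 h2).elim hv hR
      · exact hR (HM.TJoinAux.mem_true.1 h2)

end Pool.Agent.Lib.MP_f20cd2_co.DP
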