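import Pool.Agent.Lib.MP_f20cd2_co.DP.Defs

/-!
The two contractions along a tight set.
-/

set_option autoImplicit false
set_option linter.unusedSectionVars false

namespace Pool.Agent.Lib.MP_f20cd2_co.DP

open Finset
open Pool.Agent.Lib.MP_f20cd2_co.H83 (Conn Cells)
open Pool.Agent.Lib.MP_f20cd2_co.PL
open Pool.Agent.Lib.MP_f20cd2_co.HM (dg)
open scoped Classical

variable {ν ε : Type} [Fintype ν] [DecidableEq ν] [Fintype ε] [DecidableEq ε] {Δ K : ℕ} {al : ℕ → ℕ} {wt : ε → ν → ℕ}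
  {N S : Finset ν} {z : ν} {X Dd : Finset ε} {A : Finset ν} {a : ν}

namespace GlueAAux

lemma ctr_out (ha : a ∈ A) {x : ν} (hx : x ∉ A) (h : ε) : ctr wt A a h x = wt h x := by
  have hxa : x ≠ a := fun e => hx (e ▸ ha)
  simp [ctr, hxa, hx]

lemma ctr_in {x : ν} (hx : x ∈ A) (hxa : x ≠ a) (h : ε) : ctr wt A a h x = 0 := by
  simp [ctr, hxa, hx]

lemma ctr_self_cut {h : ε} (hh : h ∈ cut wt A) : ctr wt A a h a = ∑ y ∈ A, wt h y := by
  simp [ctr, hh]

lemma ctr_self_not {h : ε} (hh : h ∉ cut wt A) : ctr wt A a h a = 0 := by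
  simp [ctr, hh]

lemma ctr_self_le (h : ε) : ctr wt A a h a ≤ ∑ y ∈ A, wt h y := by
  by_cases hh : h ∈ cut wt A
  · exact (ctr_self_cut hh).le
  · rw [ctr_self_not hh]
    exact Nat.zero_le _

lemma ctr_self_pos {h : ε} (hh : h ∈ cut wt A) : 0 < ctr wt A a h a := by
  rw [ctr_self_cut hh]
  obtain ⟨⟨x, hx, hp⟩, -⟩ := mem_cut.1 hh
  exact lt_of_lt_of_le hp (single_le_sum (f := fun y => wt h y) (fun _ _ => Nat.zero_le _) hx)

lemma star_out (ha : a ∈ A) {x : ν} (hx : x ∉ A) : star (ctr wt A a) x = star wt x := by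
  ext h
  rw [mem_star, mem_star, ctr_out ha hx]

lemma sum_in (ha : a ∈ A) (h : ε) : ∑ x ∈ A, ctr wt A a h x = ctr wt A a h a :=
  sum_eq_single_of_mem a ha fun _ hx hxa => ctr_in hx hxa h

lemma sum_ctr_le (ha : a ∈ A) {T : Finset ν} (hT : A ⊆ T) (h : ε) :
    ∑ x ∈ T, ctr wt A a h x ≤ ∑ x ∈ T, wt h x := by
  rw [← sum_sdiff hT, ← sum_sdiff hT (f := fun x => wt h x), sum_in ha]
  refine Nat.add_le_add (le_of_eq (sum_congr rfl fun x hx => ?_)) (ctr_self_le h)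
  exact ctr_out ha (mem_sdiff.1 hx).2 h

lemma supp_ctr (ha : a ∈ A) {h : ε} {x : ν} (hp : 0 < ctr wt A a h x) :
    x = a ∨ (x ∉ A ∧ 0 < wt h x) := by
  by_cases hxa : x = a
  · exact Or.inl hxa
  · by_cases hx : x ∈ A
    · rw [ctr_in hx hxa] at hp
      exact absurd hp (lt_irrefl 0)
    · rw [ctr_out ha hx] at hp
      exact Or.inr ⟨hx, hp⟩

lemma cut_disj (ha : a ∈ A) {B : Finset ν} (hB : ∀ x ∈ B, x ∉ A) :
    cut wt B ⊆ cut (ctr wt A a) B := by
  intro h hh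
  obtain ⟨⟨x, hx, hp⟩, x', hx', hp'⟩ := mem_cut.1 hh
  refine mem_cut.2 ⟨⟨x, hx, by rw [ctr_out ha (hB x hx)]; exact hp⟩, ?_⟩
  by_cases hA : x' ∈ A
  · exact ⟨a, fun e => hB a e ha, ctr_self_pos (mem_cut.2 ⟨⟨x', hA, hp'⟩, x, hB x hx, hp⟩)⟩
  · exact ⟨x', hx', by rw [ctr_out ha hA]; exact hp'⟩

lemma cut_union (ha : a ∈ A) {B : Finset ν} (hB : a ∈ B) :
    cut wt (B ∪ A) ⊆ cut (ctr wt A a) B := by
  intro h hh
  obtain ⟨⟨x, hx, hp⟩, x', hx', hp'⟩ := mem_cut.1 hh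
  have h1 : x' ∉ B := fun e => hx' (mem_union_left _ e)
  have h2 : x' ∉ A := fun e => hx' (mem_union_right _ e)
  refine mem_cut.2 ⟨?_, x', h1, by rw [ctr_out ha h2]; exact hp'⟩
  by_cases hA : x ∈ A
  · exact ⟨a, hB, ctr_self_pos (mem_cut.2 ⟨⟨x, hA, hp⟩, x', h2, hp'⟩)⟩
  · refine ⟨x, ?_, by rw [ctr_out ha hA]; exact hp⟩
    rcases mem_union.1 hx with e | e
    · exact e
    · exact absurd e hA

lemma bud_mono {w w' : ε → ℕ} (hb : Bud Δ K al w X Dd) (hw : ∀ h ∈ Dd, w' h ≤ w h) :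
    Bud Δ K al w' X Dd := by
  intro c h1 h2
  have h3 := hb c h1 h2
  have h4 : (Dd.filter fun h => c ≤ w' h).card ≤ (Dd.filter fun h => c ≤ w h).card := by
    refine card_le_card fun h hh => ?_
    rw [mem_filter] at hh ⊢
    exact ⟨hh.1, hh.2.trans (hw h hh.1)⟩
  omega

end GlueAAux

open GlueAAux

theorem star_ctr (ha : a ∈ A) : star (ctr wt A a) a = cut wt A := by
  have _ := ha
  ext h
  rw [mem_star]
  constructor
  · intro hp
    by_contra hh
    rw [ctr_self_not hh] at hp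
    exact absurd hp (lt_irrefl 0)
  · exact ctr_self_pos

theorem cut_compl (wt : ε → ν → ℕ) (A : Finset ν) : cut wt (univ \ A) = cut wt A := by
  ext h
  rw [mem_cut, mem_cut]
  constructor
  · rintro ⟨⟨x, hx, hp⟩, x', hx', hp'⟩
    refine ⟨⟨x', ?_, hp'⟩, x, (mem_sdiff.1 hx).2, hp⟩
    by_contra e
    exact hx' (mem_sdiff.2 ⟨mem_univ _, e⟩)
  · rintro ⟨⟨x, hx, hp⟩, x', hx', hp'⟩
    exact ⟨⟨x', mem_sdiff.2 ⟨mem_univ _, hx'⟩, hp'⟩, x, fun e => (mem_sdiff.1 e).2 hx, hp⟩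

/-- The cut of `B` in the contraction is the cut of `B` or of `B ∪ A`. -/
theorem outer_ok (h : HOk Δ K wt N S z) (hA : A ⊆ N) (hz : z ∉ A) (ha : a ∈ A) (haS : a ∈ S) :
    HOk Δ K (ctr wt A a) (insert a (N \ A)) (insert a (S \ A)) z := by
  have haz : a ≠ z := fun e => hz (e ▸ ha)
  refine ⟨insert_subset_insert _ (sdiff_subset_sdiff h.sub (Subset.refl _)),
    mem_insert_of_mem (mem_sdiff.2 ⟨h.zS, hz⟩), ⟨a, mem_insert_self _ _, haz⟩, ?_, ?_, ?_, ?_, ?_⟩
  · intro g x hp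
    rcases supp_ctr ha hp with e | ⟨e1, e2⟩
    · exact e ▸ mem_insert_self _ _
    · exact mem_insert_of_mem (mem_sdiff.2 ⟨h.supp g x e2, e1⟩)
  · intro g
    exact (sum_ctr_le ha (subset_univ _) g).trans (h.tot g)
  · intro x hx hxS
    rcases mem_insert.1 hx with e | e
    · exact absurd (e ▸ mem_insert_self _ _) hxS
    · obtain ⟨e1, e2⟩ := mem_sdiff.1 e
      rw [star_out ha e2]
      exact h.two x e1 fun e3 => hxS (mem_insert_of_mem (mem_sdiff.2 ⟨e3, e2⟩))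
  · rintro B hB hzB ⟨y, hyB, hyS⟩
    by_cases haB : a ∈ B
    · refine le_trans (h.con (B ∪ A) ?_ ?_ ⟨a, mem_union_left _ haB, haS⟩)
        (card_le_card (cut_union ha haB))
      · intro x hx
        rcases mem_union.1 hx with e | e
        · rcases mem_insert.1 (hB e) with e' | e'
          · exact e' ▸ hA ha
          · exact (mem_sdiff.1 e').1
        · exact hA e
      · intro e
        rcases mem_union.1 e with e | e
        · exact hzB e
        · exact hz e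
    · have hB' : ∀ x ∈ B, x ∈ N \ A := fun x hx =>
        (mem_insert.1 (hB hx)).resolve_left fun e => haB (e ▸ hx)
      refine le_trans (h.con B (fun x hx => (mem_sdiff.1 (hB' x hx)).1) hzB ⟨y, hyB, ?_⟩)
        (card_le_card (cut_disj ha fun x hx => (mem_sdiff.1 (hB' x hx)).2))
      exact (mem_sdiff.1 ((mem_insert.1 hyS).resolve_left fun e => haB (e ▸ hyB))).1
  · rw [star_out ha hz]
    exact h.dz

theorem outer_inp (hI : Inp Δ K al wt z X Dd) (hz : z ∉ A) (ha : a ∈ A) :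
    Inp Δ K al (ctr wt A a) z X Dd := by
  refine ⟨by rw [star_out ha hz]; exact hI.xs, by rw [star_out ha hz]; exact hI.ds, hI.dis,
    bud_mono hI.bud fun g _ => ?_⟩
  have hsub : A ⊆ univ.erase z := fun x hx => mem_erase.2 ⟨fun e => hz (e ▸ hx), mem_univ _⟩
  exact sum_ctr_le ha hsub g

theorem inner_ok (h : HOk Δ K wt N S z) (hA : A ⊆ N) (hz : z ∉ A) (ha : a ∈ A) (haS : a ∈ S)
    (hK : (cut wt A).card = K) :
    HOk Δ K (ctr wt (univ \ A) z) (insert z A) (insert z (S ∩ A)) z := by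
  have haz : a ≠ z := fun e => hz (e ▸ ha)
  have hz' : z ∈ univ \ A := mem_sdiff.2 ⟨mem_univ _, hz⟩
  have hout : ∀ x ∈ A, x ∉ univ \ A := fun x hx e => (mem_sdiff.1 e).2 hx
  refine ⟨insert_subset_insert _ inter_subset_right, mem_insert_self _ _,
    ⟨a, mem_insert_of_mem (mem_inter.2 ⟨haS, ha⟩), haz⟩, ?_, ?_, ?_, ?_, ?_⟩
  · intro g x hp
    rcases supp_ctr hz' hp with e | ⟨e1, -⟩
    · exact e ▸ mem_insert_self _ _
    · refine mem_insert_of_mem ?_
      by_contra e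
      exact e1 (mem_sdiff.2 ⟨mem_univ _, e⟩)
  · intro g
    exact (sum_ctr_le hz' (subset_univ _) g).trans (h.tot g)
  · intro x hx hxS
    rcases mem_insert.1 hx with e | e
    · exact absurd (e ▸ mem_insert_self _ _) hxS
    · rw [star_out hz' (hout x e)]
      exact h.two x (hA e) fun e3 => hxS (mem_insert_of_mem (mem_inter.2 ⟨e3, e⟩))
  · rintro B hB hzB ⟨y, hyB, hyS⟩
    have hB' : ∀ x ∈ B, x ∈ A := fun x hx =>
      (mem_insert.1 (hB hx)).resolve_left fun e => hzB (e ▸ hx)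
    refine le_trans (h.con B (fun x hx => hA (hB' x hx)) hzB ⟨y, hyB, ?_⟩)
      (card_le_card (cut_disj hz' fun x hx => hout x (hB' x hx)))
    exact (mem_inter.1 ((mem_insert.1 hyS).resolve_left fun e => hzB (e ▸ hyB))).1
  · rw [star_ctr hz', cut_compl]
    exact hK

/-- On the cut of `A` the inner weight away from `z` is the outer weight at `a`. -/
theorem inner_inp (hz : z ∉ A) (ha : a ∈ A) (hK : (cut wt A).card = K) {en : ε → Finset ν}
    {ow : ε → Option ν}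
    (hs : Sol Δ K al (ctr wt A a) (insert a (N \ A)) (insert a (S \ A)) z X Dd en ow) :
    Inp Δ K al (ctr wt (univ \ A) z) z (endsAt en a) (deadAt (ctr wt A a) en ow a) := by
  have haz : a ≠ z := fun e => hz (e ▸ ha)
  have hz' : z ∈ univ \ A := mem_sdiff.2 ⟨mem_univ _, hz⟩
  have hst : star (ctr wt (univ \ A) z) z = star (ctr wt A a) a := by
    rw [star_ctr hz', cut_compl, star_ctr ha]
  refine ⟨?_, ?_, ?_, ?_⟩
  · intro g hg
    rw [hst, mem_star]
    exact hs.pos g a (mem_endsAt.1 hg)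
  · intro g hg
    rw [hst, mem_star]
    exact (mem_deadAt.1 hg).1
  · exact disjoint_left.2 fun g h1 h2 => (mem_deadAt.1 h2).2.1 (mem_endsAt.1 h1)
  · refine bud_mono (hs.bud a (mem_insert_self _ _) haz (by rw [star_ctr ha]; exact hK))
      fun g hg => ?_
    have hc : g ∈ cut wt A := by
      rw [← star_ctr ha, mem_star]
      exact (mem_deadAt.1 hg).1
    show win (ctr wt (univ \ A) z) z g ≤ ctr wt A a g a
    rw [ctr_self_cut hc, win]
    have hsub : A ⊆ univ.erase z := fun x hx => mem_erase.2 ⟨fun e => hz (e ▸ hx), mem_univ _⟩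
    rw [← sum_subset hsub]
    · exact le_of_eq (sum_congr rfl fun x hx => ctr_out hz' (fun e => (mem_sdiff.1 e).2 hx) g)
    · intro x hx hxA
      exact ctr_in (mem_sdiff.2 ⟨mem_univ _, hxA⟩) (mem_erase.1 hx).1 g

end Pool.Agent.Lib.MP_f20cd2_co.DP
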