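import Pool.Agent.Lib.MP_f20cd2_co.DP.Fin
import Pool.Agent.Lib.MP_f20cd2_co.DP.DUnits
import Pool.Agent.Lib.MP_f20cd2_co.DP.Seeds
import Pool.Agent.Lib.MP_f20cd2_co.DP.Col
import Pool.Agent.Lib.MP_f20cd2_co.DP.Fib
import Pool.Agent.Lib.MP_f20cd2_co.DP.Cut

/-!
A dominating path with small connected sets.
-/

set_option autoImplicit false
set_option linter.unusedSectionVars false

namespace Pool.Agent.Lib.MP_f20cd2_co.DP

open Finset
open Pool.Agent.Lib.MP_f20cd2_co.H83 (Conn Cells)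
open Pool.Agent.Lib.MP_f20cd2_co.PL
open Pool.Agent.Lib.MP_f20cd2_co.HM (dg)
open scoped Classical

variable {V : Type} [Fintype V] [DecidableEq V] {G : SimpleGraph V}

theorem Expd.mono' {t t' : ℝ} (h : Expd G t) (ht : t' ≤ t) : Expd G t' := fun I hI =>
  (mul_le_mul_of_nonneg_right ht (Nat.cast_nonneg _)).trans (h I hI)

theorem Rs_union (D : ℕ → Finset V) {a b c : ℕ} (h1 : a ≤ b) (h2 : b ≤ c) :
    Rs D a b ∪ Rs D b c = Rs D a c := by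
  ext v
  simp only [mem_union, mem_Rs]
  constructor
  · rintro (⟨j, h3, h4, h5⟩ | ⟨j, h3, h4, h5⟩)
    · exact ⟨j, h3, by omega, h5⟩
    · exact ⟨j, by omega, h4, h5⟩
  · rintro ⟨j, h3, h4, h5⟩
    by_cases h : j < b
    · exact Or.inl ⟨j, h3, h, h5⟩
    · exact Or.inr ⟨j, by omega, h4, h5⟩

theorem dom_path : ∃ t C : ℕ, ∀ (V : Type) [Fintype V] [DecidableEq V] (G : SimpleGraph V),
    RT G univ (t : ℝ) → (∃ u v, u ≠ v ∧ ¬ G.Adj u v) →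
      ∃ l root, IsP G l ∧ Fib G l.toFinset C root := by
  obtain ⟨K, D0, al, hn, hal⟩ := nums
  obtain ⟨r, hr⟩ : ∃ r, r = 8 + 9 * K + 4 := ⟨_, rfl⟩
  obtain ⟨L, hL, hP⟩ := exists_L (r + 1) r
  obtain ⟨g, hg⟩ : ∃ g, g = (r + 1) * L := ⟨_, rfl⟩
  refine ⟨2 * r * AS.Cst (20 * g) (201 * g) + 1 + 2 * (10 * g), (3 * (10 * g) + 1) ^ 26, ?_⟩
  intro V _ _ G hT hnc
  have : Nonempty V := ⟨hnc.choose⟩
  have hE := hT.expd (Nat.cast_nonneg _) hnc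
  obtain ⟨χ, Op, hLN, -⟩ := col_exists (G := G) (r + 1) L r (by omega) hL hP
    (Expd.mono' hE (by rw [← hg]; exact_mod_cast Nat.le_add_left _ _)) hT
    (by rw [← hg]; exact_mod_cast (by omega))
  rw [← hg] at hLN
  obtain ⟨I, x, Sd, ft, hx, hS, hLS, hN⟩ := seeds hLN
  obtain ⟨T, U, hF, hc⟩ := dunits (tj hLS (a := 0) (by omega)) (tj hLS (a := 4) (by omega))
    (hLS.disj_Rs le_rfl (by omega)) (hLS.sd_Rs (by omega)) (hLS.sd_Rs (by omega)) hx hS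
  obtain ⟨l, hl, hp⟩ := finish hLS hn hal (a := 8) (by omega) hF
    (disjoint_union_left.2 ⟨hLS.sd_Rs le_rfl, disjoint_union_left.2
      ⟨hLS.disj_Rs (by omega) le_rfl, hLS.disj_Rs (by omega) le_rfl⟩⟩)
  obtain ⟨root, hroot⟩ := fib_exists (og_le (G := G) Op) (dg_og hLN) l.toFinset 26 fun v => by
    obtain ⟨σ, hσ, h1⟩ := hN v
    obtain ⟨t, ht, i, hi, h2⟩ := hc σ hσ
    exact ⟨x σ i, List.mem_toFinset.2 (hp t ht _ h2), h1 i hi⟩
  exact ⟨l, root, hl, hroot⟩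

theorem add_ap : ∃ t C : ℕ, ∀ (V : Type) [Finite V] (G : SimpleGraph V),
    (∀ S : Set V, 1 < Nat.card (G.induce Sᶜ).ConnectedComponent →
      t * Nat.card (G.induce Sᶜ).ConnectedComponent ≤ S.ncard) →
    ∀ (k : ℕ) (a : Fin k → ℕ), (∀ i, 0 < a i) → ∑ i, a i = Nat.card V →
      ∃ f : V → Fin k, ∀ i, (G.induce (f ⁻¹' {i})).Connected ∧
        (f ⁻¹' {i}).ncard ≤ a i + C ∧ a i ≤ (f ⁻¹' {i}).ncard + C := by
  obtain ⟨t, C, h⟩ := dom_path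
  refine ⟨t, C, fun V _ G hG k a hpos hsum => ?_⟩
  have := Fintype.ofFinite V
  rw [Nat.card_eq_fintype_card] at hsum
  by_cases hnc : ∃ u v, u ≠ v ∧ ¬ G.Adj u v
  · obtain ⟨l, root, hl, hr⟩ := h V G (rt_of_tough (Nat.cast_nonneg _) fun S hS => by
      exact_mod_cast hG S hS) hnc
    obtain ⟨b, h1, h2, h3⟩ := cut_path hl hr a hpos hsum
    obtain ⟨f, hf⟩ := fun_of_pack b h2 h3
    exact ⟨f, fun i => ⟨(hf i).2, by rw [(hf i).1]; exact h1 i⟩⟩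
  · obtain ⟨f, hf⟩ := fun_of_pack a hsum (pack_complete (G := G) (fun u v huv => by
      by_contra h'
      exact hnc ⟨u, v, huv, h'⟩) univ a (fun i _ => hpos i) hsum.le)
    exact ⟨f, fun i => ⟨(hf i).2, by rw [(hf i).1]; omega⟩⟩

end Pool.Agent.Lib.MP_f20cd2_co.DP
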