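import Pool.Agent.Lib.MP_f20cd2_co.DP.MainS
import Pool.Agent.Lib.MP_f20cd2_co.HM.Switch

/-!
The final statements.
-/

set_option autoImplicit false
set_option linter.unusedSectionVars false

namespace Pool.Agent.Lib.MP_f20cd2_co.DP

open Finset
open Pool.Agent.Lib.MP_f20cd2_co.H83 (Conn Cells)
open Pool.Agent.Lib.MP_f20cd2_co.PL
open Pool.Agent.Lib.MP_f20cd2_co.HM (dg)
open scoped Classical

theorem long_cycle (ε : ℝ) (hε : 0 < ε) : ∃ t C : ℕ, ∀ (V : Type) [Finite V] (G : SimpleGraph V),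
    3 ≤ Nat.card V →
    (∀ S : Set V, 1 < Nat.card (G.induce Sᶜ).ConnectedComponent →
      t * Nat.card (G.induce Sᶜ).ConnectedComponent ≤ S.ncard) →
    ∃ (v : V) (c : G.Walk v v) (ρ : V → V), c.IsCycle ∧ (1 - ε) * Nat.card V ≤ c.length ∧
      (∀ w, ρ w ∈ c.support) ∧ ∀ x ∈ c.support, ρ x = x ∧ (ρ ⁻¹' {x}).ncard ≤ C ∧
        (G.induce (ρ ⁻¹' {x})).Connected := by
  obtain ⟨m, hm⟩ := exists_nat_gt (1 / ε)
  have hm0 : 0 < m := by
    have : (0 : ℝ) < m := lt_trans (by positivity) hm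
    exact_mod_cast this
  have hm1 : 1 ≤ ε * m := by
    rw [div_lt_iff₀ hε] at hm
    linarith
  obtain ⟨t, C, h⟩ := strct m hm0
  refine ⟨t, C + 1, fun V _ G h3 hG => ?_⟩
  have := Fintype.ofFinite V
  rw [Nat.card_eq_fintype_card] at h3 ⊢
  by_cases hnc : ∃ u v, u ≠ v ∧ ¬ G.Adj u v
  · obtain ⟨a, c, root, h1, h2, h4⟩ := h V G (rt_of_tough (Nat.cast_nonneg _) fun S hS => by
      exact_mod_cast hG S hS) hnc
    have he : ∀ x, root ⁻¹' {x} = ((univ.filter fun v => root v = x : Finset V) : Set V) := by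
      intro x
      ext v
      simp
    refine ⟨a, c, root, h1, ?_, fun w => List.mem_toFinset.1 (h4.mem w), fun x hx => ?_⟩
    · obtain ⟨d, hd⟩ : ∃ d, d = Fintype.card V - c.length := ⟨_, rfl⟩
      rw [← hd] at h2
      have a1 : (m : ℝ) * d ≤ Fintype.card V := by exact_mod_cast h2
      have a2 : (Fintype.card V : ℝ) ≤ d + c.length := by
        exact_mod_cast (by omega : Fintype.card V ≤ d + c.length)
      have a3 : (0 : ℝ) ≤ d := Nat.cast_nonneg _
      nlinarith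
    · have hx' := List.mem_toFinset.2 hx
      rw [he, Set.ncard_coe_finset]
      exact ⟨h4.fix x hx', (h4.card x).trans (Nat.le_succ _), (h4.conn x hx').connected⟩
  · have hH := HM.ham_top (G := G) h3 fun u v huv => by
      by_contra h'
      exact hnc ⟨u, v, huv, h'⟩
    obtain ⟨a, c, hc⟩ := hH (by omega)
    refine ⟨a, c, id, hc.isCycle, ?_, fun w => hc.mem_support w, fun x _ => ⟨rfl, ?_, ?_⟩⟩
    · rw [hc.length_eq]
      have : (0 : ℝ) ≤ Fintype.card V := Nat.cast_nonneg _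
      nlinarith
    · simp
    · have e : (id ⁻¹' {x} : Set V) = (({x} : Finset V) : Set V) := by simp
      rw [e]
      exact (H83.Conn.single x).connected

theorem almost_ap (ε : ℝ) (hε : 0 < ε) : ∃ t C : ℕ, ∀ (V : Type) [Finite V] (G : SimpleGraph V),
    (∀ S : Set V, 1 < Nat.card (G.induce Sᶜ).ConnectedComponent →
      t * Nat.card (G.induce Sᶜ).ConnectedComponent ≤ S.ncard) →
    ∀ (k : ℕ) (a : Fin k → ℕ), (∀ i, 0 < a i) → ∑ i, a i = Nat.card V →
      ∃ f : V → Fin k, (∀ i, (G.induce (f ⁻¹' {i})).Connected ∧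
        (f ⁻¹' {i}).ncard ≤ a i + C ∧ a i ≤ (f ⁻¹' {i}).ncard + C) ∧
        ({i | (f ⁻¹' {i}).ncard ≠ a i}.ncard : ℝ) ≤ ε * k := by
  obtain ⟨m, hm⟩ := exists_nat_gt (4 / ε)
  have hm1 : 4 ≤ ε * m := by
    rw [div_lt_iff₀ hε] at hm
    linarith
  obtain ⟨t, C, h⟩ := strct (m + 2) (by omega)
  refine ⟨t, C, fun V _ G hG k a hpos hsum => ?_⟩
  have := Fintype.ofFinite V
  rw [Nat.card_eq_fintype_card] at hsum
  by_cases hnc : ∃ u v, u ≠ v ∧ ¬ G.Adj u v
  · obtain ⟨v, c, root, h1, h2, h4⟩ := h V G (rt_of_tough (Nat.cast_nonneg _) fun S hS => by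
      exact_mod_cast hG S hS) hnc
    obtain ⟨l, a1, a2, a3⟩ := list_of_cyc h1
    have h3 := h1.three_le_length
    rw [← a2] at h4
    rw [← a1] at h2 h3
    obtain ⟨b, b1, b2, b3, b4⟩ := cut_cyc (fun e => by simp [e] at h3) a3 h4 a hpos hsum
    obtain ⟨f, hf⟩ := fun_of_pack b b2 b3
    refine ⟨f, fun i => ⟨(hf i).2, by rw [(hf i).1]; exact b1 i⟩, ?_⟩
    have e : {i | (f ⁻¹' {i}).ncard ≠ a i} = ((univ.filter fun i => b i ≠ a i : Finset _) : Set _) := by
      ext i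
      simp [(hf i).1]
    rw [e, Set.ncard_coe_finset]
    obtain ⟨d, hd⟩ : ∃ d, d = Fintype.card V - l.length := ⟨_, rfl⟩
    obtain ⟨y, hy⟩ : ∃ y, y = (univ.filter fun i => b i ≠ a i).card := ⟨_, rfl⟩
    rw [← hd] at h2 b4
    rw [← hy] at b4 ⊢
    have c1 : m * d ≤ l.length := by
      have : (m + 2) * d = m * d + 2 * d := by ring
      omega
    have c2 : m * y * l.length ≤ 2 * k * l.length := by
      calc m * y * l.length = m * (y * l.length) := by ring
        _ ≤ m * (2 * k * d) := Nat.mul_le_mul_left _ b4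
        _ = 2 * k * (m * d) := by ring
        _ ≤ _ := Nat.mul_le_mul_left _ c1
    have c3 : (m : ℝ) * y ≤ 2 * k := by
      exact_mod_cast Nat.le_of_mul_le_mul_right c2 (by omega)
    have c4 : (0 : ℝ) ≤ y := Nat.cast_nonneg _
    have c5 : (0 : ℝ) ≤ k := Nat.cast_nonneg _
    nlinarith
  · obtain ⟨f, hf⟩ := fun_of_pack a hsum (pack_complete (G := G) (fun u v huv => by
      by_contra h'
      exact hnc ⟨u, v, huv, h'⟩) univ a (fun i _ => hpos i) hsum.le)
    refine ⟨f, fun i => ⟨(hf i).2, by rw [(hf i).1]; omega⟩, ?_⟩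
    have e : {i | (f ⁻¹' {i}).ncard ≠ a i} = ∅ := by
      ext i
      simp [(hf i).1]
    rw [e, Set.ncard_empty, Nat.cast_zero]
    positivity

end Pool.Agent.Lib.MP_f20cd2_co.DP
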