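import Pool.Agent.Lib.MP_f20cd2_co.DP.Cut

/-!
A good rotation.
-/

set_option autoImplicit false
set_option linter.unusedSectionVars false

namespace Pool.Agent.Lib.MP_f20cd2_co.DP

open Finset
open Pool.Agent.Lib.MP_f20cd2_co.H83 (Conn Cells)
open Pool.Agent.Lib.MP_f20cd2_co.PL
open Pool.Agent.Lib.MP_f20cd2_co.HM (dg)
open scoped Classical

variable {V : Type} [Fintype V] [DecidableEq V] {G : SimpleGraph V}

namespace RotAux

lemma take_lt (c : List ℕ) (hc : ∀ x ∈ c, 0 < x) {j j' : ℕ} (h : j < j') (h' : j' ≤ c.length) :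
    (c.take j).sum < (c.take j').sum := by
  induction j', h using Nat.le_induction with
  | base =>
    rw [List.sum_take_succ c j h']
    exact Nat.lt_add_of_pos_right (hc _ (List.getElem_mem _))
  | succ m _ ih =>
    rw [List.sum_take_succ c m h']
    exact Nat.lt_add_right _ (ih (by omega))

lemma fwd (c : List ℕ) {j j' : ℕ} (h : j ≤ j') (h' : j' ≤ c.length) :
    (c.take j).sum + ((c.rotate j).take (j' - j)).sum = (c.take j').sum := by
  rw [List.rotate_eq_drop_append_take (h.trans h'),
    List.take_append_of_le_length (by rw [List.length_drop]; omega), ← List.sum_append,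
    ← List.take_add, Nat.add_sub_cancel' h]

lemma bwd (c : List ℕ) {j j' : ℕ} (h : j' ≤ j) (h' : j ≤ c.length) :
    (c.take j).sum + ((c.rotate j).take (c.length - j + j')).sum = c.sum + (c.take j').sum := by
  rw [List.rotate_eq_drop_append_take h', ← List.length_drop, List.take_length_add_append,
    List.take_take, min_eq_left h, List.sum_append, ← add_assoc, List.sum_take_add_sum_drop]

end RotAux

/-- Let `n` be the sum and `N` the length of `c`, `S j` the sum of the first `j` entries.  For
`j < N` the numbers `S j` are distinct and below `n`.  If `(S j + s) % n = S j'` with `j' < N` then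
`s` is the sum of an initial segment of `c.rotate j` (for `s = n` take everything; if
`S j + s < n` then `j ≤ j'`, take `j' - j` entries; otherwise `j' ≤ j`, take `N - j + j'`).  The
map `j ↦ (S j + s) % n` is injective on `range N`. -/
theorem rot_count (c : List ℕ) (hc : ∀ x ∈ c, 0 < x) {s : ℕ} (hs : s ≤ c.sum) :
    ((range c.length).filter fun j => ¬ ∃ i, s = ((c.rotate j).take i).sum).card + c.length ≤
      c.sum := by
  have hlt : ∀ j < c.length, (c.take j).sum < c.sum := fun j hj => by
    have := RotAux.take_lt c hc hj le_rfl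
    rwa [List.take_length] at this
  have hinj : ∀ j < c.length, ∀ j' < c.length, (c.take j).sum = (c.take j').sum → j = j' := by
    intro j hj j' hj' e
    rcases lt_trichotomy j j' with h | h | h
    · exact absurd e (RotAux.take_lt c hc h hj'.le).ne
    · exact h
    · exact absurd e (RotAux.take_lt c hc h hj.le).ne'
  have hsub : ((range c.length).image fun j => (c.take j).sum) ⊆ range c.sum := by
    intro x hx
    obtain ⟨j, hj, rfl⟩ := mem_image.1 hx
    exact mem_range.2 (hlt j (mem_range.1 hj))
  have hcard : ((range c.length).image fun j => (c.take j).sum).card = c.length := by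
    rw [card_image_of_injOn, card_range]
    exact fun j hj j' hj' e => hinj j (mem_range.1 (mem_coe.1 hj)) j' (mem_range.1 (mem_coe.1 hj')) e
  have h1 := card_sdiff_add_card_eq_card hsub
  rw [hcard, card_range] at h1
  refine le_trans (Nat.add_le_add_right (card_le_card_of_injOn (fun j =>
    if (c.take j).sum + s < c.sum then (c.take j).sum + s else (c.take j).sum + s - c.sum)
    (fun j hj => ?_) fun j hj j' hj' e => ?_) _) h1.le
  · obtain ⟨h2, h3⟩ := mem_filter.1 (mem_coe.1 hj)
    have h4 := mem_range.1 h2
    have h5 := hlt j h4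
    refine mem_coe.2 (mem_sdiff.2 ⟨mem_range.2 (by dsimp only; split_ifs <;> omega), fun h6 => h3 ?_⟩)
    obtain ⟨j', hj', e⟩ := mem_image.1 h6
    have h7 := mem_range.1 hj'
    dsimp only at e
    split_ifs at e with h8
    · have h9 : j ≤ j' := by
        by_contra h9
        have := RotAux.take_lt c hc (not_le.1 h9) h4.le
        omega
      have := RotAux.fwd c h9 h7.le
      exact ⟨j' - j, by omega⟩
    · have h9 : j' ≤ j := by
        by_contra h9
        have := RotAux.take_lt c hc (not_le.1 h9) h7.le
        omega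
      have := RotAux.bwd c h9 h4.le
      exact ⟨c.length - j + j', by omega⟩
  · have h2 := mem_range.1 (mem_filter.1 (mem_coe.1 hj)).1
    have h3 := mem_range.1 (mem_filter.1 (mem_coe.1 hj')).1
    have h4 := hlt j h2
    have h5 := hlt j' h3
    refine hinj j h2 j' h3 ?_
    dsimp only at e
    split_ifs at e <;> omega

/-- Average `rot_count` over the rotations. -/
theorem rot_avg {ι : Type} (I : Finset ι) (c : List ℕ) (hc : ∀ x ∈ c, 0 < x) (h0 : c ≠ [])
    (s : ι → ℕ) (hs : ∀ i ∈ I, s i ≤ c.sum) :
    ∃ j, (I.filter fun i => ¬ ∃ i', s i = ((c.rotate j).take i').sum).card * c.length ≤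
      I.card * (c.sum - c.length) := by
  have hN : (range c.length).Nonempty := nonempty_range_iff.2 (List.length_pos_iff.2 h0).ne'
  obtain ⟨j, -, hj⟩ := exists_le_of_sum_le (f := fun j =>
    (I.filter fun i => ¬ ∃ i', s i = ((c.rotate j).take i').sum).card * c.length)
    (g := fun _ => I.card * (c.sum - c.length)) hN (by
      rw [← sum_mul, sum_const, card_range, smul_eq_mul, mul_comm c.length]
      refine Nat.mul_le_mul_right _ ?_
      simp only [card_filter]
      rw [sum_comm, ← smul_eq_mul]
      refine sum_le_card_nsmul _ _ _ fun i hi => ?_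
      rw [← card_filter]
      exact Nat.le_sub_of_add_le (rot_count c hc (hs i hi)))
  exact ⟨j, hj⟩

/-- `c = l.map size` has sum `card V` (`card_eq_sum_card_fiberwise`); `rot_avg` for the index set
`Fin k × Bool` (both ends of every part), `cut_path2` for `l.rotate j`. -/
theorem cut_cyc {l : List V} (h0 : l ≠ []) (hl : ∀ j, IsP G (l.rotate j)) {C : ℕ} {root : V → V}
    (h : Fib G l.toFinset C root) {k : ℕ} (a : Fin k → ℕ) (hpos : ∀ i, 0 < a i)
    (hsum : ∑ i, a i = Fintype.card V) :
    ∃ b : Fin k → ℕ, (∀ i, b i ≤ a i + C ∧ a i ≤ b i + C) ∧ ∑ i, b i = Fintype.card V ∧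
      Pack G univ univ b ∧
      (univ.filter fun i => b i ≠ a i).card * l.length ≤ 2 * k * (Fintype.card V - l.length) := by
  have hn : l.Nodup := by simpa using (hl 0).1
  let size : V → ℕ := fun x => (univ.filter fun v => root v = x).card
  have hs : (l.map size).sum = Fintype.card V := by
    rw [← List.sum_toFinset _ hn, ← card_univ]
    exact (card_eq_sum_card_fiberwise fun v _ => mem_coe.2 (h.mem v)).symm
  obtain ⟨j, hj⟩ := rot_avg (univ : Finset (Fin k × Bool)) (l.map size)
    (fun x hx => by
      obtain ⟨v, hv, rfl⟩ := List.mem_map.1 hx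
      exact card_pos.2 ⟨v, mem_filter.2 ⟨mem_univ _, h.fix v (List.mem_toFinset.2 hv)⟩⟩)
    (by simpa using h0)
    (fun p => if p.2 then ∑ j ∈ univ.filter (· ≤ p.1), a j else ∑ j ∈ univ.filter (· < p.1), a j)
    (fun p _ => by
      rw [hs, ← hsum]
      split_ifs <;> exact sum_le_sum_of_subset (filter_subset _ _))
  obtain ⟨b, h1, h2, h3, h4⟩ := cut_path2 (hl j)
    (by rw [List.toFinset_eq_of_perm _ _ (List.rotate_perm l j)]; exact h) a hpos hsum
  refine ⟨b, h1, h2, h3, ?_⟩
  rw [hs, List.length_map, card_univ, Fintype.card_prod, Fintype.card_fin, Fintype.card_bool,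
    mul_comm k 2] at hj
  refine le_trans (Nat.mul_le_mul_right _ ((card_le_card fun i hi => ?_).trans
    (card_image_le (f := Prod.fst)))) hj
  by_contra hc
  have key : ∀ p : Fin k × Bool, p.1 = i → Good (l.rotate j) root
      (if p.2 then ∑ j ∈ univ.filter (· ≤ p.1), a j else ∑ j ∈ univ.filter (· < p.1), a j) := by
    intro p hp
    by_contra hg
    refine hc (mem_image.2 ⟨p, mem_filter.2 ⟨mem_univ _, fun ⟨i', hi'⟩ => hg ⟨i', ?_⟩⟩, hp⟩)
    rw [hi', List.map_take, List.map_rotate]
  exact (mem_filter.1 hi).2 (h4 i (key (i, false) rfl) (key (i, true) rfl))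

end Pool.Agent.Lib.MP_f20cd2_co.DP
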