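import Pool.Agent.Lib.MP_f20cd2_co.DP.MainD
import Pool.Agent.Lib.MP_f20cd2_co.DP.APath
import Pool.Agent.Lib.MP_f20cd2_co.DP.Rot

/-!
A long dominating cycle with small connected sets.
-/

set_option autoImplicit false
set_option linter.unusedSectionVars false

namespace Pool.Agent.Lib.MP_f20cd2_co.DP

open Finset
open Pool.Agent.Lib.MP_f20cd2_co.H83 (Conn Cells)
open Pool.Agent.Lib.MP_f20cd2_co.PL
open Pool.Agent.Lib.MP_f20cd2_co.HM (dg)
open scoped Classical

variable {V : Type} [Fintype V] [DecidableEq V] {G : SimpleGraph V}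

theorem mem_Rs_lane {χ : V → ℕ} {a b : ℕ} {v : V} :
    v ∈ Rs (lane χ) a b ↔ a < χ v ∧ χ v ≤ b := by
  simp only [mem_Rs, mem_lane]
  constructor
  · rintro ⟨j, h1, h2, h3⟩
    omega
  · rintro ⟨h1, h2⟩
    exact ⟨χ v - 1, by omega, by omega, by omega⟩

theorem two_three (k : ℕ) : (k + 2) * 2 ^ k ≤ 2 * 3 ^ k := by
  induction k with
  | zero => simp
  | succ k ih =>
    have h : 2 ^ k * 1 ≤ 2 ^ k * (k + 1) := Nat.mul_le_mul_left _ (by omega)
    rw [pow_succ, pow_succ]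
    nlinarith

theorem card_op {r s : ℕ} {χ : V → ℕ} {Op : V → Finset V} (h : LN G r s χ Op) (u : V) :
    8 * (r + 1) ≤ (Op u).card := by
  have h1 : ((range (r + 1)).biUnion fun j => (Op u).filter fun w => χ w = j).card =
      ∑ j ∈ range (r + 1), ((Op u).filter fun w => χ w = j).card :=
    card_biUnion fun i _ j _ hij => disjoint_left.2 fun w h1 h2 =>
      hij ((mem_filter.1 h1).2.symm.trans (mem_filter.1 h2).2)
  have h2 := card_nsmul_le_sum (range (r + 1)) (fun j => ((Op u).filter fun w => χ w = j).card) 8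
    fun j hj => h.rich u j (by have := mem_range.1 hj; omega)
  rw [card_range, smul_eq_mul, ← h1, mul_comm] at h2
  exact h2.trans (card_le_card (biUnion_subset.2 fun j _ => filter_subset _ _))

/-- The seeds with their blocks. -/
theorem seeds3 {r s : ℕ} {χ : V → ℕ} {Op : V → Finset V} (h : LN G r s χ Op) :
    ∃ (I : Finset V) (x : V → ℕ → V) (Sd : Finset V) (bl : V → V), Pf G I (fun _ => 7) x ∧
      (∀ v, v ∈ Sd ↔ ∃ σ ∈ I, ∃ i ≤ 7, v = x σ i) ∧ (∀ v ∈ Sd, χ v = 0) ∧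
      (∀ σ ∈ I, ∀ i ≤ 7, bl (x σ i) = σ) ∧ (∀ k, (Sd.filter fun v => bl v = k).card ≤ 8) ∧
      (∀ u ∈ Sd, ∀ v ∈ Sd, bl u ≠ bl v → Disjoint (Op u) (Op v)) ∧
      (r + 1) * Sd.card ≤ Fintype.card V ∧
      ∀ u, ∃ σ ∈ I, ∀ i ≤ 7, Nr (og G Op) 26 u (x σ i) := by
  obtain ⟨I, x, hx, h0, hd, hN⟩ := seeds2 h
  have hm : ∀ v, v ∈ (I.biUnion fun σ => (range 8).image (x σ)) ↔ ∃ σ ∈ I, ∃ i ≤ 7, v = x σ i := by
    intro v
    simp only [mem_biUnion, mem_image, mem_range]
    constructor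
    · rintro ⟨σ, hσ, i, hi, rfl⟩
      exact ⟨σ, hσ, i, by omega, rfl⟩
    · rintro ⟨σ, hσ, i, hi, rfl⟩
      exact ⟨σ, hσ, i, by omega, rfl⟩
  have hb : ∀ v, ∃ b : V, ∀ σ ∈ I, ∀ i ≤ 7, v = x σ i → b = σ := fun v => by
    by_cases hv : ∃ σ ∈ I, ∃ i ≤ 7, v = x σ i
    · obtain ⟨σ, hσ, i, hi, rfl⟩ := hv
      exact ⟨σ, fun σ' hσ' i' hi' e => (hx.inj σ hσ σ' hσ' i hi i' hi' e).1⟩
    · exact ⟨v, fun σ hσ i hi e => absurd ⟨σ, hσ, i, hi, e⟩ hv⟩
  choose bl hbl using hb
  have hb' : ∀ σ ∈ I, ∀ i ≤ 7, bl (x σ i) = σ := fun σ hσ i hi => hbl _ σ hσ i hi rfl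
  refine ⟨I, x, _, bl, hx, hm, fun v hv => ?_, hb', fun k => ?_, fun u hu v hv hne => ?_, ?_, hN⟩
  · obtain ⟨σ, hσ, i, hi, rfl⟩ := (hm v).1 hv
    exact h0 σ hσ i hi
  · refine le_trans (card_le_card (t := (range 8).image (x k)) fun v hv => ?_)
      (card_image_le.trans (card_range 8).le)
    obtain ⟨h1, h2⟩ := mem_filter.1 hv
    obtain ⟨σ, hσ, i, hi, rfl⟩ := (hm v).1 h1
    rw [hb' σ hσ i hi] at h2
    exact mem_image.2 ⟨i, mem_range.2 (by omega), by rw [h2]⟩
  · obtain ⟨σ, hσ, i, hi, rfl⟩ := (hm u).1 hu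
    obtain ⟨σ', hσ', i', hi', rfl⟩ := (hm v).1 hv
    rw [hb' σ hσ i hi, hb' σ' hσ' i' hi'] at hne
    exact hd σ hσ σ' hσ' hne i hi i' hi'
  · have h1 := card_biUnion_le_card_mul I (fun σ => (range 8).image (x σ)) 8
      fun σ _ => card_image_le.trans (card_range 8).le
    have h2 : (I.biUnion fun σ => Op (x σ 0)).card = ∑ σ ∈ I, (Op (x σ 0)).card :=
      card_biUnion fun σ hσ σ' hσ' hne => hd σ hσ σ' hσ' hne 0 (by omega) 0 (by omega)
    have h3 := card_nsmul_le_sum I (fun σ => (Op (x σ 0)).card) (8 * (r + 1))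
      fun σ _ => card_op h _
    rw [smul_eq_mul, ← h2] at h3
    have h4 := card_le_univ (I.biUnion fun σ => Op (x σ 0))
    calc _ ≤ (r + 1) * (I.card * 8) := Nat.mul_le_mul_left _ h1
      _ = I.card * (8 * (r + 1)) := by ring
      _ ≤ _ := h3.trans h4

/-- A path between uncoloured vertices is hung on one unit. -/
theorem absorb {r s : ℕ} {χ : V → ℕ} {Op : V → Finset V} (h : LN G r s χ Op) {a : ℕ}
    (ha : a + 4 ≤ r) (h8 : 8 ≤ a) {Sd W T : Finset V} {U : V → Un V} (hF : Fam G Sd W T U)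
    (h0 : ∀ v ∈ Sd, χ v = 0) (hW : ∀ v ∈ W, v ∈ Sd ∨ (0 < χ v ∧ χ v ≤ 8)) {t0 : V} (ht0 : t0 ∈ T)
    {u v : V} {Y Z : Finset V} {X : SimpleGraph V} (huv : u ≠ v) (hu : χ u = 0 ∧ u ∉ Sd)
    (hX : St G Y {u, v} X) (hY : ∀ y ∈ Y, (χ y = 0 ∧ y ∉ Sd) ∨ (8 < χ y ∧ χ y ≤ a))
    (hZ : ∀ z ∈ Z, X.Reachable z v) :
    ∃ U' : V → Un V, Fam G (insert v (T.biUnion fun t => (U t).S))
        (univ.filter fun w => χ w ≤ a + 4) T U' ∧
      (∀ t ∈ T, (U t).Pay ⊆ (U' t).Pay) ∧ Z ⊆ (U' t0).Pay := by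
  have hok := hF.ok t0 ht0
  have heS : (U t0).e ∈ Sd := hF.port t0 ht0 (by simp [Un.S])
  have hue : u ≠ (U t0).e := fun e => hu.2 (e ▸ heS)
  obtain ⟨ft, hL⟩ := ls_of h {(U t0).e, u} (fun w hw => by
      rcases mem_insert.1 hw with rfl | hw
      · exact h0 _ heS
      · rw [mem_singleton.1 hw]
        exact hu.1) (fun _ => ())
    (fun k => (card_filter_le _ _).trans (card_le_two.trans (by norm_num)))
    fun _ _ _ _ hne => absurd rfl hne
  obtain ⟨J, hJ⟩ := tj hL ha {(U t0).e, u} (Subset.refl _) (by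
    rw [card_pair hue.symm]
    decide)
  obtain ⟨t', ht', hne, hr⟩ := hJ.other (mem_insert_self _ _)
  have e1 : t' = u := by
    rcases mem_insert.1 ht' with e | e
    · exact absurd e hne
    · exact mem_singleton.1 e
  subst e1
  obtain ⟨hS, hm⟩ := st_res hJ (mem_insert_self _ _) ht' hr fun x hx _ => by
    rcases mem_insert.1 hx with e | e
    · exact Or.inl e
    · exact Or.inr (mem_singleton.1 e)
  simp only [mem_Rs_lane] at hm
  have hYt : ∀ t ∈ T, ∀ w ∈ (U t).Y, w ∈ Sd ∨ (0 < χ w ∧ χ w ≤ 8) := fun t ht w hw =>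
    hW w (hF.sub t ht hw)
  have hA : ∀ t ∈ T, ∀ w ∈ rf J univ (U t0).e, w ∈ (U t).Y → w = (U t0).e := by
    intro t ht w hw hw'
    rcases hm w hw with e | e | e
    · exact e
    · rcases hYt t ht w hw' with h1 | h1
      · exact absurd (e ▸ h1) hu.2
      · have := hu.1
        rw [← e] at this
        omega
    · rcases hYt t ht w hw' with h1 | h1
      · have := h0 w h1
        omega
      · omega
  have hB : ∀ t ∈ T, ∀ w ∈ Y, w ∉ (U t).Y := by
    intro t ht w hw hw'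
    rcases hYt t ht w hw' with h1 | h1 <;> rcases hY w hw with h2 | h2
    · exact h2.2 h1
    · have := h0 w h1
      omega
    · omega
    · omega
  have hok1 := Un.hang_ok (Z := ∅) hok hue hS (hA t0 ht0) fun z hz => absurd hz (notMem_empty z)
  have hok2 := Un.hang_ok (A := (U t0).hang (rf J univ (U t0).e) ∅ (res J (U t0).e) t') (Z := Z)
    hok1 huv.symm hX (fun w hw hw' => by
      rcases mem_union.1 hw' with h1 | h1
      · exact absurd h1 (hB t0 ht0 w hw)
      · rcases hm w h1 with e | e | e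
        · exact absurd (e ▸ hok.sub (by simp [Un.S])) (hB t0 ht0 w hw)
        · exact e
        · rcases hY w hw with h2 | h2 <;> omega) hZ
  obtain ⟨B, hBe⟩ : ∃ B, B = ((U t0).hang (rf J univ (U t0).e) ∅ (res J (U t0).e) t').hang Y Z X v :=
    ⟨_, rfl⟩
  rw [← hBe] at hok2
  have hBY : B.Y = (U t0).Y ∪ rf J univ (U t0).e ∪ Y := by rw [hBe]; rfl
  have hBP : B.Pay = (U t0).Pay ∪ ∅ ∪ Z := by rw [hBe]; rfl
  have hBS : B.S = {v, (U t0).f, (U t0).p, (U t0).q} := by rw [hBe]; rfl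
  have hdis : ∀ t ∈ T, t ≠ t0 → Disjoint (U t).Y B.Y := by
    intro t ht hne
    rw [hBY]
    refine disjoint_left.2 fun w hw hw' => ?_
    rcases mem_union.1 hw' with h1 | h1
    · rcases mem_union.1 h1 with h2 | h2
      · exact disjoint_left.1 (hF.disj t ht t0 ht0 hne) hw h2
      · have e := hA t ht w h2 hw
        exact disjoint_left.1 (hF.disj t ht t0 ht0 hne) hw (e ▸ hok.sub (by simp [Un.S]))
    · exact hB t ht w h1 hw
  have hle : ∀ t ∈ T, ∀ w ∈ (U t).Y, χ w ≤ a + 4 := fun t ht w hw => by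
    rcases hYt t ht w hw with h1 | h1
    · have := h0 w h1
      omega
    · omega
  refine ⟨Function.update U t0 B, ⟨fun t ht => ?_, fun t ht t' ht' hne => ?_, fun t ht => ?_,
    fun t ht => ?_⟩, fun t ht => ?_, ?_⟩
  · by_cases e : t = t0
    · rw [e, Function.update_self]
      exact hok2
    · rw [Function.update_of_ne e]
      exact hF.ok t ht
  · by_cases e : t = t0 <;> by_cases e' : t' = t0
    · exact absurd (e.trans e'.symm) hne
    · rw [e, Function.update_self, Function.update_of_ne e']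
      exact (hdis t' ht' e').symm
    · rw [e', Function.update_self, Function.update_of_ne e]
      exact hdis t ht e
    · rw [Function.update_of_ne e, Function.update_of_ne e']
      exact hF.disj t ht t' ht' hne
  · by_cases e : t = t0
    · rw [e, Function.update_self, hBS]
      refine insert_subset_insert _ fun w hw => mem_biUnion.2 ⟨t0, ht0, ?_⟩
      exact mem_insert_of_mem hw
    · rw [Function.update_of_ne e]
      exact fun w hw => mem_insert_of_mem (mem_biUnion.2 ⟨t, ht, hw⟩)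
  · by_cases e : t = t0
    · rw [e, Function.update_self, hBY]
      intro w hw
      refine mem_filter.2 ⟨mem_univ _, ?_⟩
      rcases mem_union.1 hw with h1 | h1
      · rcases mem_union.1 h1 with h2 | h2
        · exact hle t0 ht0 w h2
        · rcases hm w h2 with e | e | e
          · have := h0 _ heS
            rw [e]
            omega
          · have := hu.1
            rw [e]
            omega
          · exact e.2
      · rcases hY w h1 with h2 | h2 <;> omega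
    · rw [Function.update_of_ne e]
      exact fun w hw => mem_filter.2 ⟨mem_univ _, hle t ht w hw⟩
  · by_cases e : t = t0
    · rw [e, Function.update_self, hBP]
      exact subset_union_left.trans subset_union_left
    · rw [Function.update_of_ne e]
  · rw [Function.update_self, hBP]
    exact subset_union_right

theorem strct (m : ℕ) (hm : 0 < m) : ∃ t C : ℕ, ∀ (V : Type) [Fintype V] [DecidableEq V]
    (G : SimpleGraph V), RT G univ (t : ℝ) → (∃ u v, u ≠ v ∧ ¬ G.Adj u v) →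
      ∃ (a : V) (c : G.Walk a a) (root : V → V), c.IsCycle ∧
        m * (Fintype.card V - c.length) ≤ Fintype.card V ∧ Fib G c.support.toFinset C root := by
  obtain ⟨K, D0, al, hn, hal⟩ := nums
  obtain ⟨q, hq⟩ : ∃ q, q = 8 * m := ⟨_, rfl⟩
  obtain ⟨a, ha⟩ : ∃ a, a = 8 + 4 + 4 * (2 * q) + 9 * K + 4 := ⟨_, rfl⟩
  obtain ⟨r, hr⟩ : ∃ r, r = a + 4 + 9 * K + 4 := ⟨_, rfl⟩
  obtain ⟨M, hM⟩ : ∃ M, M = q * (2 * r + 3) := ⟨_, rfl⟩
  have hrM : r < M := by
    have : 1 * (2 * r + 3) ≤ q * (2 * r + 3) := Nat.mul_le_mul_right _ (by omega)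
    omega
  obtain ⟨L, hL, hP⟩ := exists_L M r
  obtain ⟨g, hg⟩ : ∃ g, g = M * L := ⟨_, rfl⟩
  obtain ⟨l, hl⟩ : ∃ l, l = 36 * (10 * g) ^ 2 + 2 := ⟨_, rfl⟩
  refine ⟨2 * r * AS.Cst (20 * g) (201 * g) + 2 + 2 * (10 * g) + 6 * l * q,
    (3 * (10 * g) + 1) ^ 26, ?_⟩
  intro V _ _ G hT hnc
  have : Nonempty V := ⟨hnc.choose⟩
  have hE := hT.expd (Nat.cast_nonneg _) hnc
  have hV : 2 * (2 * r * AS.Cst (20 * g) (201 * g) + 2 + 2 * (10 * g) + 6 * l * q) + 2 ≤
      Fintype.card V := by exact_mod_cast hT.card_ge hnc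
  obtain ⟨χ, Op, hLN, hcol⟩ := col_exists (G := G) M L r hrM hL hP
    (Expd.mono' hE (by rw [← hg]; exact_mod_cast (by omega))) hT
    (by rw [← hg]; exact_mod_cast (by omega))
  rw [← hg] at hLN hcol
  obtain ⟨I, x, Sd, bl, hx, hSd, h0, hbl, h8, hdis, hcS, hN⟩ := seeds3 hLN
  obtain ⟨ft, hLS⟩ := ls_of hLN Sd h0 bl h8 hdis
  obtain ⟨T, U, hF, hTI, hport, hc⟩ := dunits2 (tj hLS (a := 0) (by omega))
    (tj hLS (a := 4) (by omega)) (hLS.disj_Rs le_rfl (by omega)) (hLS.sd_Rs (by omega))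
    (hLS.sd_Rs (by omega)) hx fun σ hσ i hi => (hSd _).2 ⟨σ, hσ, i, hi, rfl⟩
  obtain ⟨A, hA⟩ : ∃ A : Finset V, ∀ v, v ∈ A ↔ χ v = 0 ∧ v ∉ Sd :=
    ⟨univ.filter fun v => χ v = 0 ∧ v ∉ Sd, fun v => by simp⟩
  obtain ⟨P, hP1, hP2, hP3⟩ := apath hLN (l := l) (by omega) (by omega) hn hal A
    (fun v hv => ((hA v).1 hv).1) (a := 8) (k := 2 * q) (q := q) (by omega)
    (by have := two_three (2 * q); nlinarith [Nat.zero_le (2 ^ (2 * q))])
    (Expd.mono' hE (by exact_mod_cast (by omega)))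
  rw [← ha] at hP2
  have hcount : 3 * Fintype.card V ≤ 8 * (A.filter fun v => v ∈ P).card ∧
      m * (Fintype.card V - (A.filter fun v => v ∈ P).card) ≤ Fintype.card V := by
    have h1 : Fintype.card V ≤ (univ.filter fun v => χ v ≠ 0).card + Sd.card +
        (A.filter fun v => v ∉ P).card + (A.filter fun v => v ∈ P).card := by
      rw [← card_univ]
      refine le_trans (card_le_card fun v _ => ?_) ((card_union_le _ _).trans
        (Nat.add_le_add_right ((card_union_le _ _).trans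
          (Nat.add_le_add_right (card_union_le _ _) _)) _))
      simp only [mem_union, mem_filter, mem_univ, true_and, hA]
      by_cases a1 : χ v = 0 <;> by_cases a2 : v ∈ Sd <;> by_cases a3 : v ∈ P <;> simp [a1, a2, a3]
    have h2 : q * (univ.filter fun v => χ v ≠ 0).card ≤ 2 * Fintype.card V := by
      have a1 : q * ((2 * r + 1) * L + 2) ≤ g := by
        rw [hg, hM, mul_assoc]
        exact Nat.mul_le_mul_left _ (by nlinarith)
      have a2 := Nat.mul_div_le (Fintype.card V) g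
      calc _ ≤ q * (((2 * r + 1) * L + 2) * (Fintype.card V / g + 1)) := Nat.mul_le_mul_left _ hcol
        _ = q * ((2 * r + 1) * L + 2) * (Fintype.card V / g + 1) := by ring
        _ ≤ g * (Fintype.card V / g + 1) := Nat.mul_le_mul_right _ a1
        _ ≤ _ := by rw [mul_add]; omega
    have h3 : q * Sd.card ≤ Fintype.card V :=
      (Nat.mul_le_mul_right _ (by omega)).trans hcS
    obtain ⟨d, hd⟩ : ∃ d, d = Fintype.card V - (A.filter fun v => v ∈ P).card := ⟨_, rfl⟩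
    have h4 : q * d ≤ q * ((univ.filter fun v => χ v ≠ 0).card + Sd.card +
        (A.filter fun v => v ∉ P).card) := Nat.mul_le_mul_left _ (by omega)
    rw [mul_add, mul_add] at h4
    have h5 : q * d = 8 * (m * d) := by rw [hq]; ring
    have h6 : 1 * d ≤ m * d := Nat.mul_le_mul_right _ hm
    rw [← hd]
    omega
  obtain ⟨u, v, Y, X, huv, hu, hv, hX, hY, hZ⟩ := trim hP1 (A := A) (by omega)
  obtain ⟨t0, ht0⟩ : ∃ t0, t0 ∈ T := by
    obtain ⟨σ, hσ, -⟩ := hN u
    obtain ⟨t, ht, -⟩ := hc σ hσ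
    exact ⟨t, ht⟩
  obtain ⟨U', hF', hPay, hZ'⟩ := absorb hLN (a := a) (by omega) (by omega) hF h0
    (fun w hw => by
      simp only [mem_union, mem_Rs_lane] at hw
      rcases hw with hw | hw | hw
      · exact Or.inl hw
      · exact Or.inr (by omega)
      · exact Or.inr (by omega)) ht0 (Z := A.filter fun v => v ∈ P) huv ((hA u).1 hu) hX
    (fun y hy => (hP2 y (hY y hy)).imp (hA y).1 mem_Rs_lane.1)
    fun z hz => hZ z (mem_filter.1 hz).1 (mem_filter.1 hz).2
  have hsub : (T.biUnion fun t => (U t).S) ⊆ Sd := biUnion_subset.2 hF.port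
  obtain ⟨ft', hLS'⟩ := ls_of2 hLN (T.biUnion fun t => (U t).S) (fun w hw => h0 w (hsub hw)) bl
    (fun k => by
      by_cases hk : k ∈ T
      · refine le_trans (card_le_card (t := (U k).S) fun w hw => ?_)
          ((hF.ok k hk).card.le.trans (by norm_num))
        obtain ⟨h1, h2⟩ := mem_filter.1 hw
        obtain ⟨t, ht, h3⟩ := mem_biUnion.1 h1
        obtain ⟨i, hi, e⟩ := hport t ht w h3
        rw [e, hbl t (hTI ht) i hi] at h2
        exact h2 ▸ h3
      · rw [filter_false_of_mem, card_empty]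
        · exact Nat.zero_le _
        · intro w hw h2
          obtain ⟨t, ht, h3⟩ := mem_biUnion.1 hw
          obtain ⟨i, hi, e⟩ := hport t ht w h3
          rw [e, hbl t (hTI ht) i hi] at h2
          exact hk (h2 ▸ ht))
    (fun w hw w' hw' => hdis w (hsub hw) w' (hsub hw')) ((hA v).1 hv).1
  obtain ⟨F, hFG, hdg, -, he, hreach⟩ := finish2 hLS' hn hal (a := a + 4) (by omega) hF'
    (disjoint_left.2 fun w h1 h2 => by
      have h3 := (mem_filter.1 h1).2
      have h4 := mem_Rs_lane.1 h2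
      omega)
  obtain ⟨c, hc1, hc2⟩ := cyc_of hFG hdg (he t0 ht0)
  obtain ⟨root, hroot⟩ := fib_exists (og_le (G := G) Op) (dg_og hLN) c.support.toFinset 26
    fun w => by
      obtain ⟨σ, hσ, h1⟩ := hN w
      obtain ⟨t, ht, i, hi, h2⟩ := hc σ hσ
      exact ⟨x σ i, List.mem_toFinset.2 (hc2 _ (hreach t0 ht0 t ht _ (hPay t ht h2))), h1 i hi⟩
  refine ⟨_, c, root, hc1, le_trans (Nat.mul_le_mul_left _ ?_) hcount.2, hroot⟩
  obtain ⟨lc, a1, a2, a3⟩ := list_of_cyc hc1
  have a4 : lc.Nodup := by simpa using (a3 0).1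
  have a5 : (A.filter fun v => v ∈ P).card ≤ c.length := by
    rw [← a1, ← List.toFinset_card_of_nodup a4, a2]
    exact card_le_card fun w hw =>
      List.mem_toFinset.2 (hc2 _ (hreach t0 ht0 t0 ht0 _ (hZ' hw)))
  omega

end Pool.Agent.Lib.MP_f20cd2_co.DP
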