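import Pool.Agent.Lib.MP_f20cd2_co.DP.Defs

/-!
A large set of segments that can be deleted without destroying toughness.
-/

set_option autoImplicit false
set_option linter.unusedSectionVars false

namespace Pool.Agent.Lib.MP_f20cd2_co.DP

open Finset
open Pool.Agent.Lib.MP_f20cd2_co.H83 (Conn Cells)
open Pool.Agent.Lib.MP_f20cd2_co.PL
open scoped Classical

/-- Every neighbourhood has a bounded share in `D`. -/
def NBp {V : Type} [Fintype V] [DecidableEq V] (G : SimpleGraph V) (β : ℕ) (D : Finset V) : Prop :=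
  ∀ X : Finset V, (nbr G X ∩ D).card ≤ β * (X.card + (nbr G X \ D).card)

/-- The union of the segments that are not picked. -/
def unp {V κ : Type} [DecidableEq V] (I : Finset κ) (m : ℕ) (sg : κ → ℕ → Finset V) (f : κ → ℕ) :
    Finset V :=
  I.biUnion fun k => ((range m).erase (f k)).biUnion (sg k)

theorem mem_unp {V κ : Type} [DecidableEq V] {I : Finset κ} {m : ℕ} {sg : κ → ℕ → Finset V}
    {f : κ → ℕ} {v : V} : v ∈ unp I m sg f ↔ ∃ k ∈ I, ∃ i < m, i ≠ f k ∧ v ∈ sg k i := by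
  simp only [unp, mem_biUnion, mem_erase, mem_range]
  constructor
  · rintro ⟨k, hk, i, ⟨h1, h2⟩, h3⟩
    exact ⟨k, hk, i, h2, h1, h3⟩
  · rintro ⟨k, hk, i, h2, h1, h3⟩
    exact ⟨k, hk, i, ⟨h1, h2⟩, h3⟩

theorem NBp.mono {V : Type} [Fintype V] [DecidableEq V] {G : SimpleGraph V} {β : ℕ}
    {D D' : Finset V} (h : NBp G β D) (hD : D' ⊆ D) : NBp G β D' := fun X =>
  (card_le_card (inter_subset_inter_left hD)).trans ((h X).trans (Nat.mul_le_mul_left _
    (Nat.add_le_add_left (card_le_card (sdiff_subset_sdiff Subset.rfl hD)) _)))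

namespace NBAux

variable {V : Type} [Fintype V] [DecidableEq V] {G : SimpleGraph V}

/-- The total weight of the picks. -/
theorem picks {κ : Type} [Fintype κ] [DecidableEq κ] {m : ℕ} (hm : 0 < m) (p : κ → ℕ → Prop) :
    ∑ f ∈ Fintype.piFinset fun _ : κ => range m,
        Real.exp (-((univ.filter fun k => p k (f k)).card : ℝ)) ≤
      (m : ℝ) ^ Fintype.card κ *
        Real.exp (-((univ.filter fun k => ∃ i < m, p k i).card : ℝ) / (2 * m)) := by
  have hm' : (0 : ℝ) < m := by exact_mod_cast hm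
  have h1 : ∀ f : κ → ℕ, Real.exp (-((univ.filter fun k => p k (f k)).card : ℝ)) =
      ∏ k, Real.exp (-(if p k (f k) then 1 else 0)) := by
    intro f
    rw [← Real.exp_sum, sum_neg_distrib, sum_boole]
  have h2 : Real.exp (-((univ.filter fun k => ∃ i < m, p k i).card : ℝ) / (2 * m)) =
      ∏ k, Real.exp (-(if ∃ i < m, p k i then 1 else 0) / (2 * m)) := by
    rw [← Real.exp_sum, ← sum_div, sum_neg_distrib, sum_boole]
  have h3 : ∀ k i, Real.exp (-(if p k i then 1 else 0)) ≤ 1 := by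
    intro k i
    rw [Real.exp_le_one_iff]
    split_ifs <;> norm_num
  simp only [h1]
  rw [h2, ← prod_univ_sum (fun _ : κ => range m) fun k i => Real.exp (-(if p k i then 1 else 0)),
    ← card_univ, ← prod_const, ← prod_mul_distrib]
  refine prod_le_prod (fun k _ => sum_nonneg fun i _ => (Real.exp_pos _).le) fun k _ => ?_
  by_cases h : ∃ i < m, p k i
  · rw [if_pos h]
    obtain ⟨i, hi, hp⟩ := h
    rw [← add_sum_erase _ _ (mem_range.2 hi), if_pos hp]
    have h4 : ∑ j ∈ (range m).erase i, Real.exp (-(if p k j then 1 else 0)) ≤ (m : ℝ) - 1 := by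
      refine (sum_le_card_nsmul _ _ 1 fun j _ => h3 k j).trans ?_
      rw [card_erase_of_mem (mem_range.2 hi), card_range, nsmul_eq_mul, mul_one,
        Nat.cast_pred hm]
    have h5 : Real.exp (-1) ≤ 1 / 2 := by
      rw [Real.exp_neg, one_div]
      exact inv_anti₀ (by norm_num) (by linarith [Real.add_one_le_exp 1])
    have h6 := mul_le_mul_of_nonneg_left (Real.add_one_le_exp (-1 / (2 * (m : ℝ)))) hm'.le
    have h7 : (m : ℝ) * (-1 / (2 * m) + 1) = m - 1 / 2 := by field_simp; ring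
    linarith
  · rw [if_neg h, neg_zero, zero_div, Real.exp_zero, mul_one]
    refine (sum_le_card_nsmul _ _ 1 fun j _ => h3 k j).trans ?_
    rw [card_range, nsmul_eq_mul, mul_one]

/-- The total weight of the vertex sets. -/
theorem sets (V : Type) [Fintype V] [DecidableEq V] {x : ℝ} (hx : 0 ≤ x) :
    ∑ X : Finset V, x ^ X.card ≤ Real.exp (Fintype.card V * x) := by
  have h := prod_one_add (f := fun _ : V => x) univ
  simp only [prod_const, powerset_univ, card_univ] at h
  rw [← h, Real.exp_nat_mul]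
  exact pow_le_pow_left₀ (by linarith) (by linarith [Real.add_one_le_exp x]) _

/-- A pick that hits every large family often. -/
theorem good {κ : Type} [Fintype κ] [DecidableEq κ] {m A q : ℕ} (hm : 0 < m)
    (hq : q = 8 * A * m + 1) (p : Finset V → κ → ℕ → Prop) :
    ∃ f : κ → ℕ, (∀ k, f k < m) ∧ ∀ X : Finset V, q ^ 2 * X.card ≤ Fintype.card V →
      q ^ 2 * (univ.filter fun k => p X k (f k)).card ≤ Fintype.card V →
      A * (univ.filter fun k => ∃ i < m, p X k i).card ≤ Fintype.card V := by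
  set n := Fintype.card V with hn
  rcases Nat.eq_zero_or_pos A with rfl | hA
  · exact ⟨fun _ => 0, fun _ => hm, fun X _ _ => by simp⟩
  have hm' : (0 : ℝ) < m := by exact_mod_cast hm
  have hA' : (0 : ℝ) < A := by exact_mod_cast hA
  have hq1 : (q : ℝ) = 8 * A * m + 1 := by rw [hq]; push_cast; ring
  have hq0 : (1 : ℝ) ≤ q := by rw [hq1]; nlinarith [mul_pos hA' hm']
  have hq2 : (0 : ℝ) < (q : ℝ) ^ 2 := by positivity
  set a : ℝ := n / (q : ℝ) ^ 2 with ha
  set F := (univ : Finset (Finset V)).filter fun X =>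
    n < A * (univ.filter fun k => ∃ i < m, p X k i).card with hF
  set T : (κ → ℕ) → ℝ := fun f => ∑ X ∈ F, Real.exp (a * (1 + 2 * q)) * (1 / (q : ℝ) ^ 2) ^ X.card *
    Real.exp (-((univ.filter fun k => p X k (f k)).card : ℝ)) with hT
  have h1 : ∑ f ∈ Fintype.piFinset fun _ : κ => range m, T f <
      ∑ _f ∈ Fintype.piFinset fun _ : κ => range m, (1 : ℝ) := by
    have h2 : ∑ f ∈ Fintype.piFinset fun _ : κ => range m, T f ≤
        ∑ X : Finset V, Real.exp (a * (1 + 2 * q)) * (1 / (q : ℝ) ^ 2) ^ X.card *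
          ((m : ℝ) ^ Fintype.card κ * Real.exp (-((n + 1) / (2 * A * m)))) := by
      simp only [hT]
      rw [sum_comm]
      refine (sum_le_sum fun X hX => ?_).trans
        (sum_le_sum_of_subset_of_nonneg (filter_subset _ _) fun X _ _ => by positivity)
      rw [← mul_sum]
      refine mul_le_mul_of_nonneg_left ((picks hm (p X)).trans ?_) (by positivity)
      refine mul_le_mul_of_nonneg_left (Real.exp_le_exp.2 ?_) (by positivity)
      have h3 : ((n + 1 : ℕ) : ℝ) ≤ (A * (univ.filter fun k => ∃ i < m, p X k i).card : ℕ) := by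
        exact_mod_cast (mem_filter.1 hX).2
      push_cast at h3
      rw [neg_div, neg_le_neg_iff, div_le_div_iff₀ (by positivity) (by positivity)]
      nlinarith [mul_le_mul_of_nonneg_right h3 hm'.le]
    refine h2.trans_lt ?_
    rw [← sum_mul, ← mul_sum, sum_const, Fintype.card_piFinset, prod_const, card_range, card_univ,
      nsmul_eq_mul, mul_one]
    have h4 := sets V (x := 1 / (q : ℝ) ^ 2) (by positivity)
    have h5 : Real.exp (a * (1 + 2 * q)) * Real.exp (n * (1 / (q : ℝ) ^ 2)) *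
        Real.exp (-((n + 1) / (2 * A * m))) < 1 := by
      rw [← Real.exp_add, ← Real.exp_add, Real.exp_lt_one_iff]
      have h6 : a * (1 + 2 * q) + n * (1 / (q : ℝ) ^ 2) ≤ n * (4 / q) := by
        have e : a * (1 + 2 * q) + n * (1 / (q : ℝ) ^ 2) = n * ((2 + 2 * q) / (q : ℝ) ^ 2) := by
          rw [ha]; field_simp; ring
        rw [e]
        refine mul_le_mul_of_nonneg_left ?_ (by positivity)
        rw [div_le_div_iff₀ hq2 (by linarith)]
        nlinarith
      have h7 : (n : ℝ) * (4 / q) < (n + 1) / (2 * A * m) := by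
        rw [← mul_div_assoc, div_lt_div_iff₀ (by linarith) (by positivity), hq1]
        have : (0 : ℝ) ≤ n := by positivity
        nlinarith [mul_pos hA' hm']
      linarith
    push_cast
    calc _ ≤ Real.exp (a * (1 + 2 * q)) * Real.exp (n * (1 / (q : ℝ) ^ 2)) *
          ((m : ℝ) ^ Fintype.card κ * Real.exp (-((n + 1) / (2 * A * m)))) := by gcongr
      _ = (m : ℝ) ^ Fintype.card κ * (Real.exp (a * (1 + 2 * q)) *
          Real.exp (n * (1 / (q : ℝ) ^ 2)) * Real.exp (-((n + 1) / (2 * A * m)))) := by ring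
      _ < _ := mul_lt_of_lt_one_right (by positivity) h5
  obtain ⟨f, hf, h2⟩ := exists_lt_of_sum_lt h1
  refine ⟨f, fun k => mem_range.1 (Fintype.mem_piFinset.1 hf k), fun X h3 h4 => ?_⟩
  by_contra h5
  have hX : X ∈ F := mem_filter.2 ⟨mem_univ _, not_le.1 h5⟩
  have h6 := single_le_sum (f := fun X : Finset V => Real.exp (a * (1 + 2 * q)) *
    (1 / (q : ℝ) ^ 2) ^ X.card * Real.exp (-((univ.filter fun k => p X k (f k)).card : ℝ)))
    (fun X _ => by positivity) hX
  have h7 : (X.card : ℝ) ≤ a := by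
    rw [ha, le_div_iff₀ hq2, mul_comm]; exact_mod_cast h3
  have h8 : ((univ.filter fun k => p X k (f k)).card : ℝ) ≤ a := by
    rw [ha, le_div_iff₀ hq2, mul_comm]; exact_mod_cast h4
  have h9 : Real.exp (X.card * (-(2 * q))) ≤ (1 / (q : ℝ) ^ 2) ^ X.card := by
    rw [Real.exp_nat_mul]
    refine pow_le_pow_left₀ (Real.exp_pos _).le ?_ _
    rw [Real.exp_neg, one_div]
    refine inv_anti₀ hq2 ?_
    have e : Real.exp (2 * q) = Real.exp q ^ 2 := by rw [← Real.exp_nat_mul]; norm_num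
    rw [e]
    exact pow_le_pow_left₀ (by positivity) (by linarith [Real.add_one_le_exp (q : ℝ)]) _
  have h10 : (1 : ℝ) ≤ Real.exp (a * (1 + 2 * q)) * Real.exp (X.card * (-(2 * q))) *
      Real.exp (-((univ.filter fun k => p X k (f k)).card : ℝ)) := by
    rw [← Real.exp_add, ← Real.exp_add]
    refine Real.one_le_exp ?_
    nlinarith
  have h11 : Real.exp (a * (1 + 2 * q)) * Real.exp (X.card * (-(2 * q))) *
      Real.exp (-((univ.filter fun k => p X k (f k)).card : ℝ)) ≤
      Real.exp (a * (1 + 2 * q)) * (1 / (q : ℝ) ^ 2) ^ X.card *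
      Real.exp (-((univ.filter fun k => p X k (f k)).card : ℝ)) := by gcongr
  simp only [hT] at h2
  linarith

theorem nbr_union (X Y : Finset V) : nbr G (X ∪ Y) = nbr G X ∪ nbr G Y := by
  ext v
  simp only [mem_nbr, mem_union, or_and_right, exists_or]

/-- The repair step. -/
theorem repair {β g : ℕ} {D0 : Finset V}
    (h : ∀ X : Finset V, β * X.card ≤ Fintype.card V → β * (nbr G X \ D0).card ≤ Fintype.card V →
      g * (nbr G X ∩ D0).card ≤ Fintype.card V) :
    ∃ Bd : Finset V, g * Bd.card ≤ Fintype.card V ∧ NBp G β (D0 \ Bd) := by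
  obtain ⟨Y, hY, hmax⟩ := exists_max_image ((univ : Finset (Finset V)).filter fun X =>
      β * (X.card + (nbr G X \ D0).card) ≤ (nbr G X ∩ D0).card) (fun X => (nbr G X ∩ D0).card)
    ⟨∅, mem_filter.2 ⟨mem_univ _, by simp [nbr]⟩⟩
  have h1 := (mem_filter.1 hY).2
  have h2 : (nbr G Y ∩ D0).card ≤ Fintype.card V := card_le_univ _
  rw [mul_add] at h1
  refine ⟨nbr G Y ∩ D0, h Y (by omega) (by omega), fun X => ?_⟩
  by_contra h3
  rw [not_le] at h3
  have h4 : (nbr G Y ∩ D0).card + (nbr G X ∩ (D0 \ (nbr G Y ∩ D0))).card ≤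
      (nbr G (X ∪ Y) ∩ D0).card := by
    rw [← card_union_of_disjoint]
    · refine card_le_card fun v hv => ?_
      simp only [nbr_union, mem_union, mem_inter, mem_sdiff] at hv ⊢
      tauto
    · rw [disjoint_left]
      intro v h5 h6
      exact (mem_sdiff.1 (mem_inter.1 h6).2).2 h5
  have h5 : (nbr G (X ∪ Y) \ D0).card ≤
      (nbr G X \ (D0 \ (nbr G Y ∩ D0))).card + (nbr G Y \ D0).card := by
    refine (card_le_card fun v hv => ?_).trans (card_union_le _ _)
    simp only [nbr_union, mem_union, mem_inter, mem_sdiff] at hv ⊢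
    tauto
  have h6 := Nat.mul_le_mul_left β (Nat.add_le_add (card_union_le X Y) h5)
  have h7 := hmax (X ∪ Y) (mem_filter.2 ⟨mem_univ _, by nlinarith⟩)
  omega

/-- The segment meets the neighbourhood. -/
def Mt {κ : Type} (G : SimpleGraph V) (I : Finset κ) (sg : κ → ℕ → Finset V) (X : Finset V)
    (k : κ) (i : ℕ) : Prop := k ∈ I ∧ ∃ v ∈ sg k i, v ∈ nbr G X

/-- The labels that occur in a tree. -/
theorem tree_lab {A : Finset V} {ρ : V} {par : V → V} {rk : V → ℕ} (hT : RTree A ρ par rk 7)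
    (hadj : ∀ v ∈ A, v ≠ ρ → G.Adj v (par v)) (B : Finset V) (l : V → ℕ)
    (hl : ∀ v ∈ B, ∀ w ∈ B, G.Adj v w → l v = l w) :
    ((A ∩ B).image l).card ≤ 7 * (A \ B).card + 1 := by
  have h1 : ∀ n, ∀ v ∈ A ∩ B, rk v = n →
      ∃ u ∈ (A ∩ B).filter (fun v => v = ρ ∨ par v ∉ B), l u = l v := by
    intro n
    induction n using Nat.strong_induction_on with
    | _ n ih =>
      intro v hv hn
      by_cases h : v = ρ ∨ par v ∉ B
      · exact ⟨v, mem_filter.2 ⟨hv, h⟩, rfl⟩
      · push Not at h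
        obtain ⟨hA, hB⟩ := mem_inter.1 hv
        obtain ⟨u, hu, e⟩ := ih _ (hn ▸ hT.lt v hA h.1) (par v)
          (mem_inter.2 ⟨hT.mem v hA h.1, h.2⟩) rfl
        exact ⟨u, hu, e.trans (hl v hB _ h.2 (hadj v hA h.1)).symm⟩
  have h2 : (A ∩ B).image l ⊆ (insert ρ ((A \ B).biUnion (ch A ρ par))).image l := by
    intro i hi
    obtain ⟨v, hv, rfl⟩ := mem_image.1 hi
    obtain ⟨u, hu, e⟩ := h1 _ v hv rfl
    obtain ⟨h3, h4⟩ := mem_filter.1 hu
    have hA := (mem_inter.1 h3).1
    refine mem_image.2 ⟨u, ?_, e⟩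
    by_cases h5 : u = ρ
    · exact mem_insert.2 (Or.inl h5)
    · exact mem_insert_of_mem (mem_biUnion.2 ⟨par u,
        mem_sdiff.2 ⟨hT.mem u hA h5, h4.resolve_left h5⟩, mem_ch.2 ⟨hA, h5, rfl⟩⟩)
  refine (card_le_card h2).trans (card_image_le.trans ((card_insert_le _ _).trans ?_))
  have h3 := card_biUnion_le_card_mul (A \ B) (ch A ρ par) 7 fun u _ => hT.deg u
  omega

end NBAux

/-- The repair lemma: blocks of `m` disjoint segments with at most `l` vertices; one segment of
every block and a set `Bd` with at most `n / g` vertices are kept. -/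
theorem nb_exists (l m g : ℕ) (hm : 0 < m) : ∃ β : ℕ, ∀ (V : Type) [Fintype V] [DecidableEq V]
    (G : SimpleGraph V) (κ : Type) [Fintype κ] [DecidableEq κ] (I : Finset κ)
    (sg : κ → ℕ → Finset V), (∀ k ∈ I, ∀ i < m, (sg k i).card ≤ l) →
    (∀ k ∈ I, ∀ k' ∈ I, ∀ i < m, ∀ i' < m, ∀ v, v ∈ sg k i → v ∈ sg k' i' → k = k' ∧ i = i') →
    ∃ (f : κ → ℕ) (Bd : Finset V), (∀ k, f k < m) ∧ g * Bd.card ≤ Fintype.card V ∧
      NBp G β (unp I m sg f \ Bd) := by
  refine ⟨(8 * (g * (m * l)) * m + 1) ^ 2, fun V _ _ G κ _ _ I sg hl hd => ?_⟩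
  obtain ⟨f, hf, h⟩ := NBAux.good (V := V) (A := g * (m * l)) hm rfl (NBAux.Mt G I sg)
  obtain ⟨Bd, h1, h2⟩ := NBAux.repair (G := G) (β := (8 * (g * (m * l)) * m + 1) ^ 2) (g := g)
    (D0 := unp I m sg f) fun X h3 h4 => by
      refine le_trans ?_ (h X h3 (le_trans (Nat.mul_le_mul_left _ ?_) h4))
      · rw [mul_assoc]
        refine Nat.mul_le_mul_left _ ?_
        rw [mul_comm]
        refine le_trans (card_le_card fun v hv => ?_) (card_biUnion_le_card_mul _
          (fun k => (range m).biUnion (sg k)) _ fun k hk => ?_)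
        · obtain ⟨h5, h6⟩ := mem_inter.1 hv
          obtain ⟨k, hk, i, hi, -, h7⟩ := mem_unp.1 h6
          exact mem_biUnion.2 ⟨k, mem_filter.2 ⟨mem_univ _, i, hi, hk, v, h7, h5⟩,
            mem_biUnion.2 ⟨i, mem_range.2 hi, h7⟩⟩
        · obtain ⟨i, -, hk, -⟩ := (mem_filter.1 hk).2
          have := card_biUnion_le_card_mul (range m) (sg k) l fun i hi => hl k hk i (mem_range.1 hi)
          rwa [card_range] at this
      · have h5 : ∀ k ∈ univ.filter (fun k => NBAux.Mt G I sg X k (f k)),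
            ∃ v, k ∈ I ∧ v ∈ sg k (f k) ∧ v ∈ nbr G X := by
          intro k hk
          obtain ⟨h6, v, h7, h8⟩ := (mem_filter.1 hk).2
          exact ⟨v, h6, h7, h8⟩
        rcases isEmpty_or_nonempty V with hV | hV
        · rw [card_eq_zero.2 (eq_empty_of_forall_notMem fun k hk => ?_)]
          · exact Nat.zero_le _
          · obtain ⟨v, -⟩ := h5 k hk
            exact hV.elim v
        choose! y hy using h5
        refine card_le_card_of_injOn y (fun k hk => ?_) fun k hk k' hk' e => ?_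
        · obtain ⟨h6, h7, h8⟩ := hy k (mem_coe.1 hk)
          refine mem_coe.2 (mem_sdiff.2 ⟨h8, fun h9 => ?_⟩)
          obtain ⟨k', hk', i, hi, h10, h11⟩ := mem_unp.1 h9
          obtain ⟨rfl, h12⟩ := hd k h6 k' hk' _ (hf k) i hi _ h7 h11
          exact h10 h12.symm
        · obtain ⟨h6, h7, -⟩ := hy k (mem_coe.1 hk)
          obtain ⟨h8, h9, -⟩ := hy k' (mem_coe.1 hk')
          exact (hd k h6 k' h8 _ (hf k) _ (hf k') _ h7 (e ▸ h9)).1
  exact ⟨f, Bd, hf, h1, h2⟩

/-- The deletion lemma: every separator has many vertices outside `D`. With `tough_induce` and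
`small_unit` it applies to `G - D'` for every subset `D'` of `D`. -/
theorem rt_del {V : Type} [Fintype V] [DecidableEq V] {G : SimpleGraph V} {r s : ℕ} {χ : V → ℕ}
    {Op : V → Finset V} (h : LN G r s χ Op) {D : Finset V} (hD : ∀ v ∈ D, χ v = 0) {β : ℕ}
    (hN : NBp G β D) {t : ℝ} (hT : RT G univ t) {K0 : ℕ} (hr0 : 0 < r) (hr : 16 * K0 ≤ r)
    (ht : ((2 * K0 * (1 + β * (1 + 4 * s)) : ℕ) : ℝ) ≤ t) : RT G (univ \ D) K0 := by
  rintro B c ⟨l, hl1, hl2⟩ hc
  set S := (univ \ D) \ B with hS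
  have hsub : ∀ j, lane χ j \ B ⊆ S := by
    intro j v hv
    obtain ⟨h1, h2⟩ := mem_sdiff.1 hv
    refine mem_sdiff.2 ⟨mem_sdiff.2 ⟨mem_univ _, fun h3 => ?_⟩, h2⟩
    have := hD v h3
    rw [mem_lane] at h1
    omega
  obtain ⟨j, hj, hy⟩ : ∃ j < r, r * (lane χ j \ B).card ≤ S.card := by
    obtain ⟨j, hj, hmin⟩ := exists_min_image (range r) (fun j => (lane χ j \ B).card)
      ⟨0, mem_range.2 hr0⟩
    refine ⟨j, mem_range.1 hj, ?_⟩
    have h1 := card_nsmul_le_sum (range r) _ _ hmin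
    rw [card_range, smul_eq_mul, ← card_biUnion] at h1
    · exact h1.trans (card_le_card (biUnion_subset.2 fun i _ => hsub i))
    · intro i _ i' _ hne
      refine disjoint_left.2 fun v h2 h3 => hne ?_
      have h4 := mem_lane.1 (mem_sdiff.1 h2).1
      have h5 := mem_lane.1 (mem_sdiff.1 h3).1
      omega
  obtain ⟨ρ, par, rk, hT1, hT2⟩ := h.tree j hj
  have hA : ((lane χ j ∩ B).image l).card ≤ 7 * (lane χ j \ B).card + 1 :=
    NBAux.tree_lab hT1 hT2 B l hl2
  set LB := range c \ (lane χ j ∩ B).image l with hLB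
  set X := B.filter fun v => l v ∈ LB with hX
  have hcB : c ≤ LB.card + ((lane χ j ∩ B).image l).card := by
    have := le_card_sdiff ((lane χ j ∩ B).image l) (range c)
    rw [card_range, ← hLB] at this
    omega
  have hX1 : X.card ≤ (lane χ j \ B).card * (2 * s) := by
    refine le_trans (card_le_card fun u hu => ?_) (card_biUnion_le_card_mul _
      (fun w => univ.filter fun u => w ∈ Op u) _ fun w _ => h.load w)
    obtain ⟨h1, h2⟩ := mem_filter.1 hu
    obtain ⟨w, hw⟩ := card_pos.1 (lt_of_lt_of_le (by norm_num) (h.rich u (j + 1) hj))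
    obtain ⟨h3, h4⟩ := mem_filter.1 hw
    refine mem_biUnion.2 ⟨w, mem_sdiff.2 ⟨mem_lane.2 h4, fun h5 => ?_⟩,
      mem_filter.2 ⟨mem_univ _, h3⟩⟩
    exact (mem_sdiff.1 h2).2 (mem_image.2 ⟨w, mem_inter.2 ⟨mem_lane.2 h4, h5⟩,
      (hl2 u h1 w h5 (h.adj u w h3)).symm⟩)
  have hX2 : ∀ i ∈ LB, ∃ v ∈ X, l v = i := by
    intro i hi
    obtain ⟨v, h1, h2⟩ := hl1 i (mem_range.1 (mem_sdiff.1 hi).1)
    exact ⟨v, mem_filter.2 ⟨h1, h2 ▸ hi⟩, h2⟩
  have hX3 : LB.card ≤ X.card :=
    card_le_card_of_surjOn l fun i hi => by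
      obtain ⟨v, h1, h2⟩ := hX2 i (mem_coe.1 hi)
      exact ⟨v, mem_coe.2 h1, h2⟩
  set y := (lane χ j \ B).card with hyd
  have hy1 : 1 ≤ y := by
    by_contra h1
    have h2 : y = 0 := by omega
    rw [h2] at hX1 hA
    omega
  have h16 : 16 * (K0 * y) ≤ S.card := by nlinarith [Nat.mul_le_mul_right y hr]
  have hKy : K0 ≤ K0 * y := Nat.le_mul_of_pos_right _ hy1
  have hB : 2 * (K0 * LB.card) ≤ S.card := by
    by_cases h2 : LB.card ≤ 1
    · have := Nat.mul_le_mul_left K0 h2
      omega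
    have hcell : Cells G (univ \ (nbr G X \ X)) LB.card := by
      refine ⟨fun v => if v ∈ X then
        (if hv : l v ∈ LB then (LB.equivFin ⟨l v, hv⟩ : ℕ) else 0) else 0, fun i hi => ?_,
        fun v hv w hw hadj => ?_⟩
      · obtain ⟨v, h3, h4⟩ := hX2 _ (LB.equivFin.symm ⟨i, hi⟩).2
        refine ⟨v, mem_sdiff.2 ⟨mem_univ _, fun h5 => (mem_sdiff.1 h5).2 h3⟩, ?_⟩
        have h5 : l v ∈ LB := (mem_filter.1 h3).2
        have h6 : (⟨l v, h5⟩ : LB) = LB.equivFin.symm ⟨i, hi⟩ := Subtype.ext h4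
        simp only [if_pos h3, dif_pos h5, h6, Equiv.apply_symm_apply]
      · have h3 : ∀ v w, w ∈ univ \ (nbr G X \ X) → G.Adj v w → v ∈ X → w ∈ X := by
          intro v w hw hadj hv
          by_contra h4
          exact (mem_sdiff.1 hw).2 (mem_sdiff.2 ⟨mem_nbr.2 ⟨v, hv, hadj⟩, h4⟩)
        by_cases h4 : v ∈ X
        · have h5 := h3 v w hw hadj h4
          have h6 := hl2 v (mem_filter.1 h4).1 w (mem_filter.1 h5).1 hadj
          simp only [if_pos h4, if_pos h5, h6]
        · simp only [if_neg h4, if_neg fun h5 => h4 (h3 w v hv hadj.symm h5)]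
    have h3 := hT _ _ hcell (by omega)
    rw [Finset.sdiff_sdiff_eq_self (subset_univ _)] at h3
    have h4 : ∀ v ∈ nbr G X, v ∉ X → v ∉ D → v ∈ S := by
      intro v hv h5 h6
      refine mem_sdiff.2 ⟨mem_sdiff.2 ⟨mem_univ _, h6⟩, fun h7 => h5 ?_⟩
      obtain ⟨u, hu, hadj⟩ := mem_nbr.1 hv
      obtain ⟨h8, h9⟩ := mem_filter.1 hu
      exact mem_filter.2 ⟨h7, hl2 u h8 v h7 hadj ▸ h9⟩
    have h5 : (nbr G X \ X).card ≤ S.card + (nbr G X ∩ D).card := by
      refine (card_le_card fun v hv => ?_).trans (card_union_le _ _)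
      obtain ⟨h6, h7⟩ := mem_sdiff.1 hv
      by_cases h8 : v ∈ D
      · exact mem_union_right _ (mem_inter.2 ⟨h6, h8⟩)
      · exact mem_union_left _ (h4 v h6 h7 h8)
    have h6 : (nbr G X \ D).card ≤ X.card + S.card := by
      refine (card_le_card fun v hv => ?_).trans (card_union_le _ _)
      obtain ⟨h7, h8⟩ := mem_sdiff.1 hv
      by_cases h9 : v ∈ X
      · exact mem_union_left _ h9
      · exact mem_union_right _ (h4 v h7 h9 h8)
    have h7 : X.card ≤ S.card * (2 * s) :=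
      hX1.trans (Nat.mul_le_mul_right _ (card_le_card (hsub j)))
    have h8 : (nbr G X \ X).card ≤ S.card * (1 + β * (1 + 4 * s)) := by
      have h9 := (hN X).trans (Nat.mul_le_mul_left β
        (show X.card + (nbr G X \ D).card ≤ S.card * (1 + 4 * s) by nlinarith))
      nlinarith
    have h9 : ((2 * K0 * (1 + β * (1 + 4 * s)) * LB.card : ℕ) : ℝ) ≤
        ((nbr G X \ X).card : ℝ) := by
      rw [Nat.cast_mul]
      exact (mul_le_mul_of_nonneg_right ht (Nat.cast_nonneg _)).trans h3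
    have h10 := (Nat.cast_le.1 h9).trans h8
    refine Nat.le_of_mul_le_mul_right (c := 1 + β * (1 + 4 * s)) ?_ (by omega)
    nlinarith
  have h1 : K0 * c ≤ S.card := by
    have h2 := Nat.mul_le_mul_left K0 (hcB.trans (Nat.add_le_add_left hA _))
    have e : K0 * (LB.card + (7 * y + 1)) = K0 * LB.card + 7 * (K0 * y) + K0 := by ring
    omega
  exact_mod_cast h1

end Pool.Agent.Lib.MP_f20cd2_co.DP
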