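import Pool.Agent.Lib.MP_f20cd2_co.DP.Path

/-!
Groups with many free vertices.
-/

set_option autoImplicit false
set_option linter.unusedSectionVars false

namespace Pool.Agent.Lib.MP_f20cd2_co.DP

open Finset
open Pool.Agent.Lib.MP_f20cd2_co.H83 (Conn Cells)
open Pool.Agent.Lib.MP_f20cd2_co.PL
open Pool.Agent.Lib.MP_f20cd2_co.HM (dg)
open scoped Classical

variable {V : Type} [Fintype V] [DecidableEq V] {G : SimpleGraph V}

namespace RoundAux

lemma keep {Kc : SimpleGraph V} {F T : Finset V} {a : V} {c : ℕ} (h : c + 2 ≤ (rf Kc F a).card)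
    (h1 : ∀ x ∈ T, Kc.Reachable a x → x = a) : c + 1 ≤ (rf Kc F a \ T).card := by
  have h2 := card_sdiff_add_card_inter (rf Kc F a) T
  have h3 : (rf Kc F a ∩ T).card ≤ 1 := card_le_one.2 fun x hx y hy => by
    rw [mem_inter, mem_rf] at hx hy
    rw [h1 x hx.2 hx.1.2, h1 y hy.2 hy.1.2]
  omega

lemma two_cls {Kc K' : SimpleGraph V} (hK : Kc ≤ K') {F T : Finset V} {v a b : V} {c : ℕ}
    (ha : c + 1 ≤ (rf Kc F a \ T).card) (hb : c + 1 ≤ (rf Kc F b \ T).card)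
    (hab : ¬ Kc.Reachable a b) (h1 : K'.Reachable v a) (h2 : K'.Reachable v b) :
    2 * c + 2 ≤ (rf K' (F \ T) v).card := by
  have h3 : Disjoint (rf Kc F a \ T) (rf Kc F b \ T) := disjoint_left.2 fun x hx hy =>
    hab ((mem_rf.1 (mem_sdiff.1 hx).1).2.trans (mem_rf.1 (mem_sdiff.1 hy).1).2.symm)
  have h4 : rf Kc F a \ T ∪ rf Kc F b \ T ⊆ rf K' (F \ T) v := fun x hx => by
    simp only [mem_union, mem_sdiff, mem_rf] at hx ⊢
    rcases hx with hx | hx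
    exacts [⟨⟨hx.1.1, hx.2⟩, h1.trans (hx.1.2.mono hK)⟩, ⟨⟨hx.1.1, hx.2⟩, h2.trans (hx.1.2.mono hK)⟩]
  have h5 := card_le_card h4
  rw [card_union_of_disjoint h3] at h5
  omega

lemma reps (Kc : SimpleGraph V) (A F : Finset V) (h : ∀ v ∈ A, (rf Kc F v).Nonempty) :
    ∃ T0 ⊆ F, (∀ v ∈ A, ∃ t ∈ T0, Kc.Reachable v t) ∧
      ∀ t ∈ T0, ∀ t' ∈ T0, Kc.Reachable t t' → t' = t := by
  have h0 : ∀ (v : V) (S : Finset V), ∃ x, S.Nonempty → x ∈ S := fun v S => by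
    by_cases hS : S.Nonempty
    exacts [⟨_, fun _ => hS.choose_spec⟩, ⟨v, fun h => absurd h hS⟩]
  rcases A.eq_empty_or_nonempty with rfl | ⟨v0, -⟩
  · exact ⟨∅, empty_subset _, by simp, by simp⟩
  choose pk hpk using h0 v0
  have h1 : ∀ v ∈ A, pk (rf Kc F v) ∈ F ∧ Kc.Reachable v (pk (rf Kc F v)) := fun v hv =>
    mem_rf.1 (hpk _ (h v hv))
  refine ⟨A.image fun v => pk (rf Kc F v), fun t ht => ?_,
    fun v hv => ⟨_, mem_image_of_mem _ hv, (h1 v hv).2⟩, fun t ht t' ht' e => ?_⟩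
  · obtain ⟨v, hv, rfl⟩ := mem_image.1 ht
    exact (h1 v hv).1
  · obtain ⟨v, hv, rfl⟩ := mem_image.1 ht
    obtain ⟨v', hv', rfl⟩ := mem_image.1 ht'
    have h2 : Kc.Reachable v v' := (h1 v hv).2.trans (e.trans (h1 v' hv').2.symm)
    congr 1
    ext x
    simp only [mem_rf]
    exact and_congr_right fun _ => ⟨h2.trans, h2.symm.trans⟩

end RoundAux

open RoundAux

/-- One doubling round. -/
theorem round {Sd R R' : Finset V} (hR : TJ G Sd R) (hR' : TJ G Sd R') (hd : Disjoint R R')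
    (h1 : Disjoint Sd R) (h2 : Disjoint Sd R') (Kc : SimpleGraph V) (A F : Finset V)
    (hFA : F ⊆ A) (hF : F ⊆ Sd) {c : ℕ} (hc : ∀ v ∈ A, c + 2 ≤ (rf Kc F v).card) :
    ∃ J T, T ⊆ F ∧ PS G J (R ∪ R') T ∧ ((∀ u ∈ A, ∀ v ∈ A, (Kc ⊔ J).Reachable u v) ∨
      ∀ v ∈ A, 2 * c + 2 ≤ (rf (Kc ⊔ J) (F \ T) v).card) := by
  obtain ⟨T0, hT, hr, hu⟩ := reps Kc A F fun v hv => card_pos.1 (by have := hc v hv; omega)
  rcases Nat.even_or_odd T0.card with he | ho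
  · obtain ⟨J, hJ⟩ := hR T0 (hT.trans hF) he
    refine ⟨J, T0, hT, hJ.mono subset_union_left, Or.inr fun v hv => ?_⟩
    obtain ⟨t, ht, h3⟩ := hr v hv
    obtain ⟨t', ht', h4, h5⟩ := hJ.other ht
    exact two_cls le_sup_left (keep (hc t (hFA (hT ht))) (hu t ht))
      (keep (hc t' (hFA (hT ht'))) (hu t' ht')) (fun e => h4 (hu t ht t' ht' e))
      (h3.mono le_sup_left) ((h3.mono le_sup_left).trans (h5.mono le_sup_right))
  by_cases h3 : T0.card ≤ 1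
  · refine ⟨⊥, ∅, empty_subset _, PS.bot _, Or.inl fun u hu v hv => ?_⟩
    obtain ⟨t, ht, h4⟩ := hr u hu
    obtain ⟨t', ht', h5⟩ := hr v hv
    rw [card_le_one.1 h3 t' ht' t ht] at h5
    exact (h4.trans h5.symm).mono le_sup_left
  obtain ⟨t0, ht0⟩ := card_pos.1 ho.pos
  have h4 := card_erase_of_mem ht0
  obtain ⟨J1, hJ1⟩ := hR (T0.erase t0) ((erase_subset _ _).trans (hT.trans hF))
    (h4 ▸ Nat.Odd.sub_odd ho odd_one)
  obtain ⟨t1, ht1⟩ := card_pos.1 (show 0 < (T0.erase t0).card by omega)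
  have m1 := mem_of_mem_erase ht1
  obtain ⟨u, hu1, hu2⟩ := exists_mem_ne (show 1 < (rf Kc F t1).card by
    have := hc t1 (hFA (hT m1)); omega) t1
  rw [mem_rf] at hu1
  have hu3 : u ∉ T0 := fun h => hu2 (hu t1 m1 u h hu1.2)
  have hu4 : t0 ≠ u := fun h => hu3 (h ▸ ht0)
  have h5 : ({t0, u} : Finset V) ⊆ F := insert_subset (hT ht0) (singleton_subset_iff.2 hu1.1)
  obtain ⟨J2, hJ2⟩ := hR' {t0, u} (h5.trans hF) (by rw [card_pair hu4]; exact even_two)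
  refine ⟨J1 ⊔ J2, T0.erase t0 ∪ {t0, u}, union_subset ((erase_subset _ _).trans hT) h5,
    hJ1.sup hJ2 hd (disjoint_left.2 fun x hx hy => ?_)
      (h2.mono_left ((erase_subset _ _).trans (hT.trans hF))) (h1.mono_left (h5.trans hF)),
    Or.inr fun v hv => ?_⟩
  · rw [mem_erase] at hx
    rcases mem_insert.1 hy with rfl | hy
    exacts [hx.1 rfl, hu3 (mem_singleton.1 hy ▸ hx.2)]
  have k1 : ∀ a ∈ T0, a ≠ t1 → c + 1 ≤ (rf Kc F a \ (T0.erase t0 ∪ {t0, u})).card :=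
    fun a ha ha' => keep (hc a (hFA (hT ha))) fun x hx e => by
      simp only [mem_union, mem_erase, mem_insert, mem_singleton] at hx
      rcases hx with hx | rfl | rfl
      exacts [hu a ha x hx.2 e, hu a ha x ht0 e,
        absurd (hu a ha t1 m1 (e.trans hu1.2.symm)).symm ha']
  have k2 : ∀ a ∈ T0, ∀ b ∈ T0, a ≠ t1 → b ≠ t1 → b ≠ a → (Kc ⊔ (J1 ⊔ J2)).Reachable v a →
      (Kc ⊔ (J1 ⊔ J2)).Reachable v b →
      2 * c + 2 ≤ (rf (Kc ⊔ (J1 ⊔ J2)) (F \ (T0.erase t0 ∪ {t0, u})) v).card :=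
    fun a ha b hb ha' hb' hab => two_cls le_sup_left (k1 a ha ha') (k1 b hb hb')
      fun e => hab (hu a ha b hb e)
  have l1 : J1 ≤ Kc ⊔ (J1 ⊔ J2) := le_sup_of_le_right le_sup_left
  have k3 : (Kc ⊔ (J1 ⊔ J2)).Reachable t0 t1 := by
    obtain ⟨x, hx, e1, e2⟩ := hJ2.other (mem_insert_self t0 {u})
    obtain rfl : x = u := mem_singleton.1 ((mem_insert.1 hx).resolve_left e1)
    exact (e2.mono (le_sup_of_le_right le_sup_right)).trans (hu1.2.symm.mono le_sup_left)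
  have n01 : t0 ≠ t1 := (ne_of_mem_erase ht1).symm
  obtain ⟨t2, ht2, e1, e2⟩ := hJ1.other ht1
  obtain ⟨t, ht, h6⟩ := hr v hv
  replace h6 : (Kc ⊔ (J1 ⊔ J2)).Reachable v t := h6.mono le_sup_left
  have k4 : (Kc ⊔ (J1 ⊔ J2)).Reachable v t1 →
      2 * c + 2 ≤ (rf (Kc ⊔ (J1 ⊔ J2)) (F \ (T0.erase t0 ∪ {t0, u})) v).card := fun h =>
    k2 t0 ht0 t2 (mem_of_mem_erase ht2) n01 e1 (ne_of_mem_erase ht2) (h.trans k3.symm)
      (h.trans (e2.mono l1))
  by_cases c0 : t = t0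
  · exact k4 (h6.trans (c0 ▸ k3))
  by_cases c1 : t = t1
  · exact k4 (c1 ▸ h6)
  obtain ⟨t', ht', e3, e4⟩ := hJ1.other (mem_erase.2 ⟨c0, ht⟩)
  by_cases c2 : t' = t1
  · exact k4 (h6.trans (c2 ▸ e4.mono l1))
  exact k2 t ht t' (mem_of_mem_erase ht') c1 c2 e3 h6 (h6.trans (e4.mono l1))

/-- Induction on `l`. -/
theorem rounds {Sd : Finset V} (R : ℕ → Finset V) (l : ℕ) (hR : ∀ i < 2 * l, TJ G Sd (R i))
    (hd : ∀ i < 2 * l, ∀ j < 2 * l, i ≠ j → Disjoint (R i) (R j))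
    (h1 : ∀ i < 2 * l, Disjoint Sd (R i)) (Kc : SimpleGraph V) (A : Finset V) (hA : A ⊆ Sd)
    (hc : ∀ v ∈ A, 4 ≤ (rf Kc A v).card) :
    ∃ J T, T ⊆ A ∧ PS G J ((range (2 * l)).biUnion R) T ∧
      ((∀ u ∈ A, ∀ v ∈ A, (Kc ⊔ J).Reachable u v) ∨
        ∀ v ∈ A, 2 * 2 ^ l + 2 ≤ (rf (Kc ⊔ J) (A \ T) v).card) := by
  induction l with
  | zero => exact ⟨⊥, ∅, empty_subset _, PS.bot _, Or.inr (by simpa using hc)⟩
  | succ l ih =>
    obtain ⟨J, T, hT, hJ, h⟩ := ih (fun i hi => hR i (by omega))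
      (fun i hi j hj => hd i (by omega) j (by omega)) fun i hi => h1 i (by omega)
    have s1 : (range (2 * l)).biUnion R ⊆ (range (2 * (l + 1))).biUnion R :=
      biUnion_subset_biUnion_of_subset_left _ (range_subset_range.2 (by omega))
    have s2 : ∀ i < 2 * (l + 1), R i ⊆ (range (2 * (l + 1))).biUnion R := fun i hi =>
      subset_biUnion_of_mem R (mem_range.2 hi)
    rcases h with h | h
    · exact ⟨J, T, hT, hJ.mono s1, Or.inl h⟩
    obtain ⟨J', T', hT', hJ', h'⟩ := round (hR (2 * l) (by omega)) (hR (2 * l + 1) (by omega))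
      (hd _ (by omega) _ (by omega) (by omega)) (h1 _ (by omega)) (h1 _ (by omega)) (Kc ⊔ J) A
      (A \ T) sdiff_subset (sdiff_subset.trans hA) h
    refine ⟨J ⊔ J', T ∪ T', union_subset hT (hT'.trans sdiff_subset), (hJ.sup hJ' ?_
      (disjoint_sdiff.mono_right hT') ?_ ?_).mono
      (union_subset s1 (union_subset (s2 _ (by omega)) (s2 _ (by omega)))), ?_⟩
    · refine (disjoint_biUnion_left _ _ _).2 fun i hi => ?_
      rw [mem_range] at hi
      exact disjoint_union_right.2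
        ⟨hd _ (by omega) _ (by omega) (by omega), hd _ (by omega) _ (by omega) (by omega)⟩
    · exact (disjoint_union_right.2 ⟨h1 _ (by omega), h1 _ (by omega)⟩).mono_left (hT.trans hA)
    · refine (disjoint_biUnion_right _ _ _).2 fun i hi => ?_
      rw [mem_range] at hi
      exact (h1 i (by omega)).mono_left (hT'.trans (sdiff_subset.trans hA))
    · have e : A \ (T ∪ T') = (A \ T) \ T' := by
        ext x
        simp only [mem_sdiff, mem_union, not_or, and_assoc]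
      rw [← sup_assoc, e, pow_succ']
      exact h'

end Pool.Agent.Lib.MP_f20cd2_co.DP
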