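import Pool.Agent.Lib.MP_f20cd2_co.DP.Defs

/-!
Classes of nodes linked by used hyperedges.
-/

set_option autoImplicit false
set_option linter.unusedSectionVars false

namespace Pool.Agent.Lib.MP_f20cd2_co.DP

open Finset
open Pool.Agent.Lib.MP_f20cd2_co.H83 (Conn Cells)
open Pool.Agent.Lib.MP_f20cd2_co.PL
open Pool.Agent.Lib.MP_f20cd2_co.HM (dg)
open scoped Classical

variable {ν ε : Type} [Fintype ν] [DecidableEq ν] [Fintype ε] [DecidableEq ε] {en en' : ε → Finset ν} {U U' : Finset ε}

namespace TreeAAux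

lemma mem_cls {x y : ν} : y ∈ cls en U x ↔ Lk en U x y := by
  simp [cls]

lemma card_img {α β γ : Type} [DecidableEq β] [DecidableEq γ] (f : α → β) (g : α → γ)
    (Y : Finset α) (h : ∀ x ∈ Y, ∀ y ∈ Y, g x = g y → f x = f y) :
    (Y.image f).card ≤ (Y.image g).card := by
  rcases Y.eq_empty_or_nonempty with rfl | ⟨y0, -⟩
  · simp
  have h1 : Y.image f ⊆ (Y.image g).image fun c =>
      if hc : ∃ x ∈ Y, g x = c then f hc.choose else f y0 := by
    intro C hC
    obtain ⟨x, hx, rfl⟩ := mem_image.1 hC
    have hc : ∃ y ∈ Y, g y = g x := ⟨x, hx, rfl⟩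
    refine mem_image.2 ⟨g x, mem_image.2 ⟨x, hx, rfl⟩, ?_⟩
    rw [dif_pos hc]
    exact h _ hc.choose_spec.1 _ hx hc.choose_spec.2
  exact (card_le_card h1).trans card_image_le

end TreeAAux

theorem lk_symm {p q : ν} (h : Lk en U p q) : Lk en U q p := by
  induction h with
  | refl => exact Relation.ReflTransGen.refl
  | tail _ hs ih =>
    obtain ⟨g, hg, h1, h2⟩ := hs
    exact Relation.ReflTransGen.head ⟨g, hg, h2, h1⟩ ih

theorem lk_of (h : ∀ g ∈ U, ∀ p ∈ en g, ∀ q ∈ en g, Lk en' U' p q) {p q : ν} (hpq : Lk en U p q) :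
    Lk en' U' p q := by
  induction hpq with
  | refl => exact Relation.ReflTransGen.refl
  | tail _ hs ih =>
    obtain ⟨g, hg, h1, h2⟩ := hs
    exact Relation.ReflTransGen.trans ih (h g hg _ h1 _ h2)

theorem cls_eq_iff {p q : ν} : cls en U p = cls en U q ↔ Lk en U p q := by
  constructor
  · intro h
    have h1 : q ∈ cls en U q := TreeAAux.mem_cls.2 Relation.ReflTransGen.refl
    rw [← h] at h1
    exact TreeAAux.mem_cls.1 h1
  · intro h
    ext y
    rw [TreeAAux.mem_cls, TreeAAux.mem_cls]
    exact ⟨fun h1 => Relation.ReflTransGen.trans (lk_symm h) h1,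
      fun h1 => Relation.ReflTransGen.trans h h1⟩

/-- More links give fewer classes. -/
theorem cc_le (h : ∀ p q, Lk en U p q → Lk en' U' p q) (Y : Finset ν) :
    cc en' U' Y ≤ cc en U Y := by
  exact TreeAAux.card_img _ _ Y fun x _ y _ hxy => cls_eq_iff.2 (h x y (cls_eq_iff.1 hxy))

/-- A chain that uses a new hyperedge with ends `a`, `b`. -/
theorem lk_insert {g : ε} {a b : ν} (hg : en g = {a, b}) {p q : ν}
    (h : Lk en (insert g U) p q) : Lk en U p q ∨ (Lk en U p a ∧ Lk en U b q) ∨
      (Lk en U p b ∧ Lk en U a q) := by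
  induction h with
  | refl => exact Or.inl Relation.ReflTransGen.refl
  | @tail r s _ hs ih =>
    obtain ⟨k, hk, h1, h2⟩ := hs
    rcases mem_insert.1 hk with rfl | hk
    · rw [hg] at h1 h2
      have hr : r = a ∨ r = b := by simpa using h1
      have hs : s = a ∨ s = b := by simpa using h2
      have hp : Lk en U p a ∨ Lk en U p b := by
        rcases ih with ih | ih | ih
        · rcases hr with rfl | rfl
          · exact Or.inl ih
          · exact Or.inr ih
        · exact Or.inl ih.1
        · exact Or.inr ih.1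
      rcases hp with hp | hp
      · rcases hs with rfl | rfl
        · exact Or.inl hp
        · exact Or.inr (Or.inl ⟨hp, Relation.ReflTransGen.refl⟩)
      · rcases hs with rfl | rfl
        · exact Or.inr (Or.inr ⟨hp, Relation.ReflTransGen.refl⟩)
        · exact Or.inl hp
    · have st : ∀ x, Lk en U x r → Lk en U x s := fun x hx =>
        Relation.ReflTransGen.tail hx ⟨k, hk, h1, h2⟩
      rcases ih with ih | ih | ih
      · exact Or.inl (st _ ih)
      · exact Or.inr (Or.inl ⟨ih.1, st _ ih.2⟩)
      · exact Or.inr (Or.inr ⟨ih.1, st _ ih.2⟩)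

/-- A new hyperedge merges at most two classes. -/
theorem cc_insert {g : ε} (hg : (en g).card = 2) (Y : Finset ν) :
    cc en U Y ≤ cc en (insert g U) Y + 1 := by
  obtain ⟨a, b, -, hab⟩ := card_eq_two.1 hg
  have h1 : Y.image (cls en U) ⊆
      insert (cls en U b) ((Y.filter fun x => ¬ Lk en U x b).image (cls en U)) := by
    intro C hC
    obtain ⟨x, hx, rfl⟩ := mem_image.1 hC
    by_cases hxb : Lk en U x b
    · exact mem_insert.2 (Or.inl (cls_eq_iff.2 hxb))
    · exact mem_insert.2 (Or.inr (mem_image.2 ⟨x, mem_filter.2 ⟨hx, hxb⟩, rfl⟩))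
  have h2 : ((Y.filter fun x => ¬ Lk en U x b).image (cls en U)).card ≤
      ((Y.filter fun x => ¬ Lk en U x b).image (cls en (insert g U))).card := by
    refine TreeAAux.card_img _ _ _ fun x hx y hy hxy => cls_eq_iff.2 ?_
    rcases lk_insert hab (cls_eq_iff.1 hxy) with h | h | h
    · exact h
    · exact absurd (lk_symm h.2) (mem_filter.1 hy).2
    · exact absurd h.1 (mem_filter.1 hx).2
  have h3 : ((Y.filter fun x => ¬ Lk en U x b).image (cls en (insert g U))).card ≤
      (Y.image (cls en (insert g U))).card :=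
    card_le_card (image_subset_image (filter_subset _ _))
  have h4 := (card_le_card h1).trans (card_insert_le _ _)
  unfold cc
  omega

theorem card_le_cc (h : ∀ g ∈ U, (en g).card = 2) (Y : Finset ν) :
    Y.card ≤ cc en U Y + U.card := by
  induction U using Finset.induction_on with
  | empty =>
    have h1 : (Y.image (cls en (∅ : Finset ε))).card = Y.card := by
      refine card_image_of_injOn fun x _ y _ hxy => ?_
      have h2 := cls_eq_iff.1 hxy
      clear hxy
      induction h2 with
      | refl => rfl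
      | tail _ hs _ =>
        obtain ⟨g, hg, -⟩ := hs
        exact absurd hg (notMem_empty g)
    unfold cc
    omega
  | insert g U hg ih =>
    have h1 := ih fun k hk => h k (mem_insert_of_mem hk)
    have h2 := cc_insert (U := U) (h g (mem_insert_self g U)) Y
    rw [card_insert_of_notMem hg]
    omega

/-- A new hyperedge between two classes that meet `Y` merges them. -/
theorem cc_add {g : ε} {a b : ν} {Y : Finset ν} (hg : en g = {a, b}) (ha : a ∈ Y) (hb : b ∈ Y)
    (hab : ¬ Lk en U a b) : cc en (insert g U) Y + 1 ≤ cc en U Y := by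
  have up : ∀ p q, Lk en U p q → Lk en (insert g U) p q := fun p q h =>
    lk_of (fun k hk x hx y hy =>
      Relation.ReflTransGen.single ⟨k, mem_insert_of_mem hk, hx, hy⟩) h
  have hba : Lk en (insert g U) b a :=
    Relation.ReflTransGen.single ⟨g, mem_insert_self g U, by simp [hg], by simp [hg]⟩
  have h1 : insert (cls en U b) ((Y.filter fun x => ¬ Lk en U x b).image (cls en U)) ⊆
      Y.image (cls en U) := by
    intro C hC
    rcases mem_insert.1 hC with rfl | hC
    · exact mem_image.2 ⟨b, hb, rfl⟩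
    · exact image_subset_image (filter_subset _ _) hC
  have h2 : cls en U b ∉ (Y.filter fun x => ¬ Lk en U x b).image (cls en U) := by
    intro hC
    obtain ⟨x, hx, hxb⟩ := mem_image.1 hC
    exact (mem_filter.1 hx).2 (cls_eq_iff.1 hxb)
  have h3 : Y.image (cls en (insert g U)) ⊆
      (Y.filter fun x => ¬ Lk en U x b).image (cls en (insert g U)) := by
    intro C hC
    obtain ⟨x, hx, rfl⟩ := mem_image.1 hC
    by_cases hxb : Lk en U x b
    · exact mem_image.2 ⟨a, mem_filter.2 ⟨ha, hab⟩,
        (cls_eq_iff.2 (Relation.ReflTransGen.trans (up _ _ hxb) hba)).symm⟩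
    · exact mem_image.2 ⟨x, mem_filter.2 ⟨hx, hxb⟩, rfl⟩
  have h4 := cc_le up (Y.filter fun x => ¬ Lk en U x b)
  have h5 := card_le_card h1
  rw [card_insert_of_notMem h2] at h5
  have h6 := card_le_card h3
  unfold cc at h4 ⊢
  omega

/-- The exchange.  Remove the members of `W \ W'` from `W` one at a time: there are
`g ∈ W \ W'` and `W1 ⊆ W` with `p, q` linked by `insert g W1` and not by `W1`, `g ∉ W1`.  By
`lk_insert` the new hyperedge and `W1 ⊆ U.erase g` link the ends of `g`; use `lk_of`, `cc_le`. -/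
theorem swap (Y : Finset ν) (h2 : ∀ g ∈ U, (en g).card = 2)
    {W W' : Finset ε} (hW : W ⊆ U) (hW' : W' ⊆ W) {p q : ν} (h1 : Lk en W p q)
    (h0 : ¬ Lk en W' p q) {k : ε} (hk : k ∉ U) :
    ∃ g ∈ W, g ∉ W' ∧
      cc (Function.update en k {p, q}) (insert k (U.erase g)) Y ≤ cc en U Y := by
  obtain ⟨M, hM, hmin⟩ := exists_min_image
    (W.powerset.filter fun M => W' ⊆ M ∧ Lk en M p q) card
    ⟨W, mem_filter.2 ⟨mem_powerset.2 Subset.rfl, hW', h1⟩⟩
  obtain ⟨hMW, hWM, hMl⟩ := mem_filter.1 hM
  have hMW : M ⊆ W := mem_powerset.1 hMW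
  have hex : ∃ g ∈ M, g ∉ W' := by
    by_contra hc
    have h3 : M = W' := Subset.antisymm (fun g hg => by
      by_contra hn
      exact hc ⟨g, hg, hn⟩) hWM
    exact h0 (h3 ▸ hMl)
  obtain ⟨g, hgM, hgW⟩ := hex
  refine ⟨g, hMW hgM, hgW, cc_le (fun x y hxy => lk_of ?_ hxy) Y⟩
  have hn : ¬ Lk en (M.erase g) p q := by
    intro hl
    have h3 := hmin (M.erase g) (mem_filter.2 ⟨mem_powerset.2 ((erase_subset _ _).trans hMW),
      fun x hx => mem_erase.2 ⟨fun e => hgW (e ▸ hx), hWM hx⟩, hl⟩)
    have h4 := card_erase_lt_of_mem hgM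
    omega
  have st : ∀ t ∈ U.erase g, ∀ x ∈ en t, ∀ y ∈ en t,
      Lk (Function.update en k {p, q}) (insert k (U.erase g)) x y := by
    intro t ht x hx y hy
    have htk : t ≠ k := fun e => hk (e ▸ (mem_erase.1 ht).2)
    exact Relation.ReflTransGen.single ⟨t, mem_insert_of_mem ht,
      by rw [Function.update_of_ne htk]; exact hx, by rw [Function.update_of_ne htk]; exact hy⟩
  have up : ∀ x y, Lk en (M.erase g) x y →
      Lk (Function.update en k {p, q}) (insert k (U.erase g)) x y := fun x y h =>
    lk_of (fun t ht => st t (erase_subset_erase g (hMW.trans hW) ht)) h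
  have hpq : Lk (Function.update en k {p, q}) (insert k (U.erase g)) p q :=
    Relation.ReflTransGen.single ⟨k, mem_insert_self _ _, by simp, by simp⟩
  obtain ⟨a, b, -, hab⟩ := card_eq_two.1 (h2 g (hW (hMW hgM)))
  have hl : Lk en (insert g (M.erase g)) p q := by rw [insert_erase hgM]; exact hMl
  have hlab : Lk (Function.update en k {p, q}) (insert k (U.erase g)) a b := by
    rcases lk_insert hab hl with h | h | h
    · exact absurd h hn
    · exact Relation.ReflTransGen.trans (lk_symm (up _ _ h.1))
        (Relation.ReflTransGen.trans hpq (lk_symm (up _ _ h.2)))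
    · exact Relation.ReflTransGen.trans (up _ _ h.2)
        (Relation.ReflTransGen.trans (lk_symm hpq) (up _ _ h.1))
  intro t ht x hx y hy
  by_cases htg : t = g
  · subst htg
    rw [hab] at hx hy
    have hx : x = a ∨ x = b := by simpa using hx
    have hy : y = a ∨ y = b := by simpa using hy
    rcases hx with rfl | rfl <;> rcases hy with rfl | rfl
    · exact Relation.ReflTransGen.refl
    · exact hlab
    · exact lk_symm hlab
    · exact Relation.ReflTransGen.refl
  · exact st t (mem_erase.2 ⟨htg, ht⟩) x hx y hy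

end Pool.Agent.Lib.MP_f20cd2_co.DP
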