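import Pool.Agent.Lib.MP_f20cd2_co.DP.Path

/-!
A cycle with four marked vertices is a unit.
-/

set_option autoImplicit false
set_option linter.unusedSectionVars false

namespace Pool.Agent.Lib.MP_f20cd2_co.DP

open Finset
open Pool.Agent.Lib.MP_f20cd2_co.H83 (Conn Cells)
open Pool.Agent.Lib.MP_f20cd2_co.PL
open Pool.Agent.Lib.MP_f20cd2_co.HM (dg)
open scoped Classical

variable {V : Type} [Fintype V] [DecidableEq V] {G : SimpleGraph V}

namespace UnitAux

theorem seg_mem {w : ℕ → V} {a b : ℕ} {u v : V} (h : (seg w a b).Adj u v) :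
    ∃ j, a ≤ j ∧ j ≤ b ∧ v = w j := by
  obtain ⟨-, i, h1, h2, ⟨-, h3⟩ | ⟨h3, -⟩⟩ := h
  · exact ⟨i + 1, by omega, by omega, h3⟩
  · exact ⟨i, h1, by omega, h3⟩

theorem seg_nb {w : ℕ → V} {a b : ℕ}
    (hi : ∀ i, a ≤ i → i ≤ b → ∀ j, a ≤ j → j ≤ b → w i = w j → i = j) {i : ℕ} (h1 : a ≤ i)
    (h2 : i ≤ b) (v : V) :
    (seg w a b).Adj (w i) v ↔ (a < i ∧ v = w (i - 1)) ∨ (i < b ∧ v = w (i + 1)) := by
  constructor
  · rintro ⟨-, j, h3, h4, ⟨h5, h6⟩ | ⟨h5, h6⟩⟩
    · obtain rfl := hi i h1 h2 j h3 h4.le h5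
      exact Or.inr ⟨h4, h6⟩
    · obtain rfl := hi i h1 h2 (j + 1) (by omega) h4 h6
      exact Or.inl ⟨by omega, h5⟩
  · rintro (⟨h3, rfl⟩ | ⟨h3, rfl⟩)
    · refine ⟨fun e => ?_, i - 1, by omega, by omega, Or.inr ⟨rfl, ?_⟩⟩
      · have := hi i h1 h2 (i - 1) (by omega) (by omega) e
        omega
      · rw [Nat.sub_add_cancel (by omega)]
    · refine ⟨fun e => ?_, i, h1, h3, Or.inl ⟨rfl, rfl⟩⟩
      have := hi i h1 h2 (i + 1) (by omega) h3 e
      omega

end UnitAux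

open UnitAux

theorem dg_seg {w : ℕ → V} {a b : ℕ} (hab : a < b)
    (hi : ∀ i, a ≤ i → i ≤ b → ∀ j, a ≤ j → j ≤ b → w i = w j → i = j) (v : V) :
    dg (seg w a b) v =
      if v = w a ∨ v = w b then 1 else if ∃ i, a < i ∧ i < b ∧ v = w i then 2 else 0 := by
  split_ifs with h1 h2
  · rcases h1 with rfl | rfl
    · refine HM.dg_eq_one (w := w (a + 1)) fun x => ?_
      rw [seg_nb hi le_rfl hab.le]
      simp [hab]
    · refine HM.dg_eq_one (w := w (b - 1)) fun x => ?_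
      rw [seg_nb hi hab.le le_rfl]
      simp [hab]
  · obtain ⟨i, h3, h4, rfl⟩ := h2
    refine HM.dg_eq_two (w := w (i - 1)) (w' := w (i + 1)) (fun e => ?_) fun x => ?_
    · have := hi (i - 1) (by omega) (by omega) (i + 1) (by omega) h4 e
      omega
    · rw [seg_nb hi h3.le h4.le]
      simp [h3, h4]
  · refine HM.dg_eq_zero.2 fun x hx => ?_
    obtain ⟨j, h3, h4, rfl⟩ := seg_mem hx.symm
    rcases h3.eq_or_lt with rfl | h3
    · exact h1 (Or.inl rfl)
    · rcases h4.eq_or_lt with rfl | h4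
      · exact h1 (Or.inr rfl)
      · exact h2 ⟨j, h3, h4, rfl⟩

theorem seg_reach {w : ℕ → V} {a b i j : ℕ} (h1 : a ≤ i) (h2 : i ≤ j) (h3 : j ≤ b) :
    (seg w a b).Reachable (w i) (w j) := by
  induction j, h2 using Nat.le_induction with
  | base => rfl
  | succ j h2 ih =>
    refine (ih (by omega)).trans ?_
    by_cases e : w j = w (j + 1)
    · rw [← e]
    · exact SimpleGraph.Adj.reachable ⟨e, j, by omega, by omega, Or.inl ⟨rfl, rfl⟩⟩

theorem dg_sdiff {H J : SimpleGraph V} (h : J ≤ H) (v : V) : dg (H \ J) v + dg J v = dg H v := by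
  rw [← HM.dg_sup disjoint_sdiff_self_left, sdiff_sup_cancel h]

namespace UnitAux

theorem adj_of_dg {H J : SimpleGraph V} (h : J ≤ H) {v u : V} (hd : dg H v ≤ dg J v)
    (hu : H.Adj v u) : J.Adj v u := by
  by_contra hn
  have h1 := dg_sdiff h v
  have h2 : 0 < dg (H \ J) v := HM.dg_pos (w := u) ((SimpleGraph.sdiff_adj _ _ _ _).2 ⟨hu, hn⟩)
  omega

theorem dg_seg_w {w : ℕ → V} {c : ℕ} (hi : ∀ i ≤ c, ∀ j ≤ c, w i = w j → i = j) {x y : ℕ}
    (hxy : x < y) (hy : y ≤ c) {i : ℕ} (h : i ≤ c) :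
    dg (seg w x y) (w i) = if i = x ∨ i = y then 1 else if x < i ∧ i < y then 2 else 0 := by
  have e1 : (w i = w x ∨ w i = w y) ↔ (i = x ∨ i = y) :=
    or_congr ⟨hi i h x (by omega), fun e => e ▸ rfl⟩ ⟨hi i h y hy, fun e => e ▸ rfl⟩
  have e2 : (∃ j, x < j ∧ j < y ∧ w i = w j) ↔ (x < i ∧ i < y) := by
    constructor
    · rintro ⟨j, h1, h2, h3⟩
      obtain rfl := hi i h j (by omega) h3
      exact ⟨h1, h2⟩
    · exact fun h1 => ⟨i, h1.1, h1.2, rfl⟩
  rw [dg_seg hxy fun s _ hs t _ ht => hi s (hs.trans hy) t (ht.trans hy)]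
  simp only [e1, e2]

theorem dg_seg_out {w : ℕ → V} {c x y : ℕ} (hy : y ≤ c) {v : V} (h : ∀ i ≤ c, v ≠ w i) :
    dg (seg w x y) v = 0 :=
  HM.dg_eq_zero.2 fun _ hx =>
    let ⟨j, _, h2, h3⟩ := seg_mem hx.symm
    h j (h2.trans hy) h3

theorem seg_disj {w : ℕ → V} {c : ℕ} (hi : ∀ i ≤ c, ∀ j ≤ c, w i = w j → i = j) {x y x' y' : ℕ}
    (h1 : y ≤ x') (h2 : y' ≤ c) : Disjoint (seg w x y) (seg w x' y') := by
  refine HM.disj_iff.2 ?_
  rintro u v ⟨-, i, -, h3, h4⟩ ⟨-, j, h5, h6, h7⟩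
  have k1 := hi i (by omega) j (by omega)
  have k2 := hi i (by omega) (j + 1) (by omega)
  rcases h4 with ⟨rfl, -⟩ | ⟨rfl, -⟩ <;> rcases h7 with ⟨e1, e2⟩ | ⟨e1, e2⟩
  · exact absurd (k1 e1) (by omega)
  · exact absurd (k2 e2) (by omega)
  · exact absurd (k2 e2) (by omega)
  · exact absurd (k1 e1) (by omega)

theorem st_odd {Y S : Finset V} {X : SimpleGraph V} (h : St G Y S X) {v : V} (hv : v ∈ S) :
    ∃ u ∈ S, u ≠ v ∧ X.Reachable v u := by
  obtain ⟨u, h1, h2, h3⟩ := HM.parity (H := X) (v := v) (by rw [h.one v hv]; exact odd_one)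
  refine ⟨u, by_contra fun hu => ?_, h1, h2⟩
  rcases h.two u hu with e | e <;> rw [e] at h3 <;> exact absurd h3 (by decide)

end UnitAux

/-- See the plan. -/
theorem unit_cyc {C : SimpleGraph V} (hC : C ≤ G) (hd : ∀ v, dg C v = 0 ∨ dg C v = 2) (w : ℕ → V)
    {a b c : ℕ} (h1 : 0 < a) (h2 : a < b) (h3 : b < c) (hadj : ∀ i < c, C.Adj (w i) (w (i + 1)))
    (hi : ∀ i ≤ c, ∀ j ≤ c, w i = w j → i = j) :
    ∃ U : Un V, U.Ok G ∧ U.Y = rf C univ (w 0) ∧ U.e = w 0 ∧ U.f = w a ∧ U.p = w b ∧ U.q = w c ∧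
      U.Pay = ∅ ∧ U.Full = rf C univ (w 0) \ (Ioo 0 a).image w := by
  have hr : ∀ i ≤ c, C.Reachable (w 0) (w i) := fun i => by
    induction i with
    | zero => exact fun _ => SimpleGraph.Reachable.refl _
    | succ i ih => exact fun h => (ih (by omega)).trans (hadj i h).reachable
  have hle : ∀ x y, y ≤ c → seg w x y ≤ res C (w 0) := by
    rintro x y hy u v ⟨-, i, -, h4, ⟨rfl, rfl⟩ | ⟨rfl, rfl⟩⟩
    · exact ⟨hadj i (by omega), hr i (by omega)⟩
    · exact ⟨(hadj i (by omega)).symm, hr (i + 1) (by omega)⟩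
  have hCr : ∀ v, dg (res C (w 0)) v = 0 ∨ dg (res C (w 0)) v = 2 := fun v => by
    rw [dg_res]
    split_ifs
    · exact hd v
    · exact Or.inl rfl
  have hCw : ∀ i ≤ c, dg (res C (w 0)) (w i) = 2 := fun i h => by
    have k1 := HM.dg_mono (hle 0 c le_rfl) (w i)
    rw [dg_seg_w hi (by omega) le_rfl h] at k1
    have k2 := hCr (w i)
    split_ifs at k1 <;> omega
  have hA : ∀ i ≤ c, dg (seg w 0 a) (w i) =
      if i = 0 ∨ i = a then 1 else if 0 < i ∧ i < a then 2 else 0 := fun i h =>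
    dg_seg_w hi h1 (by omega) h
  have hB : ∀ i ≤ c, dg (seg w b c) (w i) =
      if i = b ∨ i = c then 1 else if b < i ∧ i < c then 2 else 0 := fun i h =>
    dg_seg_w hi h3 le_rfl h
  have hAB : Disjoint (seg w 0 a) (seg w b c) := seg_disj hi h2.le le_rfl
  have hBR : seg w b c ≤ res C (w 0) \ seg w 0 a :=
    le_sdiff.2 ⟨hle b c le_rfl, hAB.symm⟩
  have hMQ : seg w a b ≤ (res C (w 0) \ seg w 0 a) \ seg w b c :=
    le_sdiff.2 ⟨le_sdiff.2 ⟨hle a b h3.le, (seg_disj hi le_rfl h3.le).symm⟩,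
      seg_disj hi le_rfl le_rfl⟩
  have dR := dg_sdiff (hle 0 a (by omega))
  have dQ := dg_sdiff hBR
  have dP := HM.dg_sup hAB
  have hne : ∀ i ≤ c, ∀ j ≤ c, (w i = w j ↔ i = j) := fun i h j h' =>
    ⟨hi i h j h', fun e => e ▸ rfl⟩
  have hS : ∀ i ≤ c, (w i ∈ ({w 0, w a, w b, w c} : Finset V) ↔
      i = 0 ∨ i = a ∨ i = b ∨ i = c) := fun i h => by
    simp only [mem_insert, mem_singleton, hne i h 0 (by omega), hne i h a (by omega),
      hne i h b (by omega), hne i h c le_rfl]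
  have hS2 : ∀ i ≤ c, (w i ∈ ({w 0, w a} : Finset V) ↔ i = 0 ∨ i = a) := fun i h => by
    simp only [mem_insert, mem_singleton, hne i h 0 (by omega), hne i h a (by omega)]
  have hst : ∀ (X : SimpleGraph V) (S : Finset V), X ≤ res C (w 0) → (∀ v ∈ S, ∃ i ≤ c, v = w i) →
      (∀ i ≤ c, (w i ∈ S → dg X (w i) = 1) ∧ (w i ∉ S → dg X (w i) = 0 ∨ dg X (w i) = 2)) →
      (∀ v, (∀ i ≤ c, v ≠ w i) → dg X v = 0 ∨ dg X v = 2) → St G (rf C univ (w 0)) S X :=
    fun X S k1 k2 k3 k4 => by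
      refine ⟨fun u v h => hC (k1 h).1, fun u v h => mem_rf.2 ⟨mem_univ _, (k1 h).2⟩,
        fun v hv => ?_, fun v hv => ?_⟩
      · obtain ⟨i, k5, rfl⟩ := k2 v hv
        exact (k3 i k5).1 hv
      · by_cases k5 : ∃ i ≤ c, v = w i
        · obtain ⟨i, k5, rfl⟩ := k5
          exact (k3 i k5).2 hv
        · exact k4 v fun i k6 k7 => k5 ⟨i, k6, k7⟩
  have hS4 : ∀ v ∈ ({w 0, w a, w b, w c} : Finset V), ∃ i ≤ c, v = w i := fun v hv => by
    simp only [mem_insert, mem_singleton] at hv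
    rcases hv with rfl | rfl | rfl | rfl
    exacts [⟨0, by omega, rfl⟩, ⟨a, by omega, rfl⟩, ⟨b, by omega, rfl⟩, ⟨c, le_rfl, rfl⟩]
  have sP : St G (rf C univ (w 0)) {w 0, w a, w b, w c} (seg w 0 a ⊔ seg w b c) := by
    refine hst _ _ (sup_le (hle 0 a (by omega)) (hle b c le_rfl)) hS4 (fun i h => ?_) fun v hv => ?_
    · rw [hS i h, dP, hA i h, hB i h]
      split_ifs <;> omega
    · rw [dP, dg_seg_out (by omega : a ≤ c) hv, dg_seg_out le_rfl hv]
      exact Or.inl rfl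
  have sQ : St G (rf C univ (w 0)) {w 0, w a, w b, w c}
      ((res C (w 0) \ seg w 0 a) \ seg w b c) := by
    refine hst _ _ (sdiff_le.trans sdiff_le) hS4 (fun i h => ?_) fun v hv => ?_
    · have k1 := dR (w i)
      have k2 := dQ (w i)
      rw [hA i h, hCw i h] at k1
      rw [hB i h] at k2
      rw [hS i h]
      split_ifs at k1 k2 <;> omega
    · have k1 := dR v
      have k2 := dQ v
      have k3 := hCr v
      rw [dg_seg_out (by omega : a ≤ c) hv] at k1
      rw [dg_seg_out le_rfl hv] at k2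
      omega
  have sR : St G (rf C univ (w 0)) {w 0, w a} (res C (w 0) \ seg w 0 a) := by
    refine hst _ _ sdiff_le (fun v hv => ?_) (fun i h => ?_) fun v hv => ?_
    · simp only [mem_insert, mem_singleton] at hv
      rcases hv with rfl | rfl
      exacts [⟨0, by omega, rfl⟩, ⟨a, by omega, rfl⟩]
    · have k1 := dR (w i)
      rw [hA i h, hCw i h] at k1
      rw [hS2 i h]
      split_ifs at k1 <;> omega
    · have k1 := dR v
      have k3 := hCr v
      rw [dg_seg_out (by omega : a ≤ c) hv] at k1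
      omega
  have hcl : ∀ i, a ≤ i → i ≤ b →
      ¬ ((res C (w 0) \ seg w 0 a) \ seg w b c).Reachable (w i) (w 0) := fun i k1 k2 k3 => by
    obtain ⟨j, k4, k5, k6⟩ := HM.reach_ind (p := fun x => ∃ j, a ≤ j ∧ j ≤ b ∧ x = w j)
      (fun u v huv hu => by
        obtain ⟨j, k4, k5, rfl⟩ := hu
        refine seg_mem (adj_of_dg hMQ ?_ huv)
        have k6 := dR (w j)
        have k7 := dQ (w j)
        rw [hA j (by omega), hCw j (by omega)] at k6
        rw [hB j (by omega)] at k7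
        rw [dg_seg_w hi h2 h3.le (by omega)]
        split_ifs at k6 k7 ⊢ <;> omega) k3 ⟨i, k1, k2, rfl⟩
    have := hi 0 (by omega) j (by omega) k6
    omega
  have hef : (res C (w 0) \ seg w 0 a).Reachable (w 0) (w a) := by
    obtain ⟨u, k1, k2, k3⟩ := st_odd sR (mem_insert_self _ _)
    rcases mem_insert.1 k1 with rfl | k1
    · exact absurd rfl k2
    · rwa [mem_singleton.1 k1] at k3
  refine ⟨⟨rf C univ (w 0), ∅, rf C univ (w 0) \ (Ioo 0 a).image w, w 0, w a, w b, w c,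
    seg w 0 a ⊔ seg w b c, (res C (w 0) \ seg w 0 a) \ seg w b c, res C (w 0) \ seg w 0 a⟩,
    ⟨?_, fun v hv => ?_, sP, sQ, sR, ⟨(seg_reach le_rfl h1.le le_rfl).mono le_sup_left,
      (seg_reach le_rfl h3.le le_rfl).mono le_sup_right⟩,
      ⟨(seg_reach le_rfl h2.le le_rfl).mono hMQ, ?_⟩, fun v hv => absurd hv (notMem_empty v),
      fun v hv => ?_⟩, rfl, rfl, rfl, rfl, rfl, rfl, rfl⟩
  · change ({w 0, w a, w b, w c} : Finset V).card = 4
    rw [card_insert_of_notMem, card_insert_of_notMem, card_pair]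
    · rw [Ne, hne b (by omega) c le_rfl]
      omega
    · rw [mem_insert, mem_singleton, hne a (by omega) b (by omega), hne a (by omega) c le_rfl]
      omega
    · rw [mem_insert, mem_insert, mem_singleton, hne 0 (by omega) a (by omega),
        hne 0 (by omega) b (by omega), hne 0 (by omega) c le_rfl]
      omega
  · obtain ⟨i, k1, rfl⟩ := hS4 v hv
    exact mem_rf.2 ⟨mem_univ _, hr i k1⟩
  · obtain ⟨u, k1, k2, k3⟩ := st_odd sQ (mem_insert_self _ _)
    simp only [mem_insert, mem_singleton] at k1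
    rcases k1 with rfl | rfl | rfl | rfl
    · exact absurd rfl k2
    · exact absurd k3.symm (hcl a le_rfl h2.le)
    · exact absurd k3.symm (hcl b h2.le le_rfl)
    · exact k3
  · obtain ⟨k1, k2⟩ := mem_sdiff.1 hv
    have k3 := HM.reach_ind (H := res C (w 0))
      (p := fun x => (res C (w 0) \ seg w 0 a).Reachable x (w 0) ∨ ∃ i, 0 < i ∧ i < a ∧ x = w i)
      (fun u v huv hu => by
        by_cases k4 : (seg w 0 a).Adj u v
        · obtain ⟨j, -, k5, rfl⟩ := seg_mem k4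
          rcases Nat.eq_zero_or_pos j with rfl | k6
          · exact Or.inl (SimpleGraph.Reachable.refl _)
          · rcases k5.eq_or_lt with rfl | k5
            · exact Or.inl hef.symm
            · exact Or.inr ⟨j, k6, k5, rfl⟩
        · have k5 : (res C (w 0) \ seg w 0 a).Adj u v :=
            (SimpleGraph.sdiff_adj _ _ _ _).2 ⟨huv, k4⟩
          rcases hu with hu | ⟨i, k6, k7, rfl⟩
          · exact Or.inl (k5.symm.reachable.trans hu)
          · have k8 := dR (w i)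
            have k9 := HM.dg_pos k5
            rw [hA i (by omega), hCw i (by omega), if_neg (by omega), if_pos ⟨k6, k7⟩] at k8
            omega)
      (res_reach (SimpleGraph.Reachable.refl _) (mem_rf.1 k1).2)
      (Or.inl (SimpleGraph.Reachable.refl _))
    rcases k3 with k3 | ⟨i, k4, k5, rfl⟩
    · exact k3
    · exact absurd (mem_image_of_mem w (mem_Ioo.2 ⟨k4, k5⟩)) k2

end Pool.Agent.Lib.MP_f20cd2_co.DP
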